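import Pool.Agent.Helper758_SB.Defs

/-! Common definitions for the spatial part. -/

namespace SB758

open Finset

/-- the determinant of three vectors -/
def det3 (a b c : Fin 3 → ℝ) : ℝ :=
  a 0 * (b 1 * c 2 - b 2 * c 1) - a 1 * (b 0 * c 2 - b 2 * c 0) + a 2 * (b 0 * c 1 - b 1 * c 0)

/-- scalar product -/
def dot (a b : Fin 3 → ℝ) : ℝ := a 0 * b 0 + a 1 * b 1 + a 2 * b 2

/-- a point of space as a pair (planar part, height) -/
def cv (x : Fin 3 → ℝ) : (ℝ × ℝ) × ℝ := ((x 0, x 1), x 2)

/-- sliding the vertices congruent to `q` towards their successors -/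
noncomputable def slide (N q : ℕ) (ε : ℝ) (P : ℕ → Fin 3 → ℝ) (i : ℕ) : Fin 3 → ℝ :=
  if i % N = q % N then P i + ε • (P (i + 1) - P i) else P i

open Classical in
/-- number of local maxima of a cyclic sequence of heights -/
noncomputable def mx (N : ℕ) (h : ℕ → ℝ) : ℕ := ((range N).filter (fun i => h i < h (i + 1) ∧ h (i + 2) < h (i + 1))).card

end SB758
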