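import Pool.Agent.Helper758_SB.Defs
import Pool.Agent.Helper758_SB.Defs2

namespace SB758

open Finset

theorem sc_congr (N : ℕ) (f g t : ℕ → ℝ) (ht : ∀ i, 0 < t i) (h : ∀ i, g i = t i * f i) : sc N f = sc N g := by
  classical
  unfold sc
  congr 1
  refine Finset.filter_congr fun i _ => ?_
  have h1 : g i * g (i + 1) = (t i * t (i + 1)) * (f i * f (i + 1)) := by rw [h i, h (i + 1)]; ring
  have h2 : 0 < t i * t (i + 1) := mul_pos (ht i) (ht (i + 1))
  rw [h1]
  constructor
  · intro h3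
    exact mul_neg_of_pos_of_neg h2 h3
  · intro h3
    by_contra h4
    push Not at h4
    exact absurd h3 (not_lt.mpr (mul_nonneg h2.le h4))

/-- TARGET 1. PROOF. With `e i = P (i+1) - P i`, `w i = pt _ i = ((e i 2)⁻¹ * e i 0, (e i 2)⁻¹ * e i 1)`: `dot (a,b,c) (e i) = e i 2 * aff a b c (w i)`, so for `v = ![a, b, c]` the value `s i * aff a b c (w i)` is `dot v (e i)` divided by the positive number `|e i 2|`
and the sign changes are the same; `ori (w i) (w j) (w k) * (e i 2 * e j 2 * e k 2) = det3 (e i) (e j) (e k)`. -/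
theorem transfer {N m : ℕ} {P : ℕ → Fin 3 → ℝ} (hper : ∀ i, P (i + N) = P i) (hz : ∀ i, P (i + 1) 2 ≠ P i 2)
    (hgp : ∀ i j k, ¬ i ≡ j [MOD N] → ¬ j ≡ k [MOD N] → ¬ i ≡ k [MOD N] →
      det3 (P (i + 1) - P i) (P (j + 1) - P j) (P (k + 1) - P k) ≠ 0)
    (htv : ∀ v : Fin 3 → ℝ, (∀ i, dot v (P (i + 1) - P i) ≠ 0) →
      sc N (fun i => dot v (P (i + 1) - P i)) = m ∨ sc N (fun i => dot v (P (i + 1) - P i)) = m + 2) :
    Cyc N m (pt (fun i => cv (P i))) (sg (fun i => cv (P i))) := by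
  have hz' : ∀ i, P (i + 1) 2 - P i 2 ≠ 0 := fun i => sub_ne_zero.mpr (hz i)
  have hper1 : ∀ i, P (i + N + 1) = P (i + 1) := fun i => by
    rw [show i + N + 1 = (i + 1) + N by ring]; exact hper (i + 1)
  have hpt : ∀ i, pt (fun i => cv (P i)) i =
      ((P (i + 1) 2 - P i 2)⁻¹ * (P (i + 1) 0 - P i 0), (P (i + 1) 2 - P i 2)⁻¹ * (P (i + 1) 1 - P i 1)) := by
    intro i
    simp [pt, cv]
  have hdot : ∀ a b c i, dot ![a, b, c] (P (i + 1) - P i) =
      (P (i + 1) 2 - P i 2) * aff a b c (pt (fun i => cv (P i)) i) := by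
    intro a b c i
    rw [hpt]
    have h := hz' i
    simp only [dot, aff, Pi.sub_apply, Matrix.cons_val_zero, Matrix.cons_val_one, Matrix.cons_val]
    field_simp
  refine ⟨?_, ?_, ?_, ?_, ?_⟩
  · intro i
    rw [hpt, hpt, hper1, hper]
  · intro i
    simp only [sg, hper1, hper]
  · intro i
    unfold sg
    split_ifs
    · exact Or.inl rfl
    · exact Or.inr rfl
  · intro i j k h1 h2 h3 h4
    refine hgp i j k h1 h2 h3 ?_
    have e1 := hz' i
    have e2 := hz' j
    have e3 := hz' k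
    have h5 : det3 (P (i + 1) - P i) (P (j + 1) - P j) (P (k + 1) - P k) =
        ori (pt (fun i => cv (P i)) i) (pt (fun i => cv (P i)) j) (pt (fun i => cv (P i)) k) *
          ((P (i + 1) 2 - P i 2) * (P (j + 1) 2 - P j 2) * (P (k + 1) 2 - P k 2)) := by
      rw [hpt, hpt, hpt]
      simp only [det3, ori, cr, Pi.sub_apply, Prod.fst_sub, Prod.snd_sub]
      field_simp
      ring
    rw [h5, h4, zero_mul]
  · intro a b c h
    have key : ∀ i, dot ![a, b, c] (P (i + 1) - P i) =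
        |P (i + 1) 2 - P i 2| * (sg (fun i => cv (P i)) i * aff a b c (pt (fun i => cv (P i)) i)) := by
      intro i
      rw [hdot]
      have h1 : P (i + 1) 2 - P i 2 = |P (i + 1) 2 - P i 2| * sg (fun i => cv (P i)) i := by
        unfold sg
        split_ifs with h2
        · have h3 : 0 < P (i + 1) 2 - P i 2 := h2
          rw [abs_of_pos h3, mul_one]
        · have h3 : P (i + 1) 2 - P i 2 ≤ 0 := not_lt.mp h2
          rw [abs_of_nonpos h3]
          ring
      nth_rewrite 1 [h1]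
      ring
    rw [sc_congr N _ _ (fun i => |P (i + 1) 2 - P i 2|) (fun i => abs_pos.mpr (hz' i)) key]
    refine htv ![a, b, c] fun i => ?_
    rw [hdot]
    exact mul_ne_zero (hz' i) (h i)

/-- `cv` as a linear map -/
def cvl : (Fin 3 → ℝ) →ₗ[ℝ] (ℝ × ℝ) × ℝ where
  toFun := cv
  map_add' x y := by simp [cv]
  map_smul' r x := by simp [cv]

/-- TARGET 2. `cv` is linear and injective. -/
theorem cv_segment {a b x : Fin 3 → ℝ} (h : x ∈ segment ℝ a b) : cv x ∈ segment ℝ (cv a) (cv b) := by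
  obtain ⟨s, t, hs, ht, hst, rfl⟩ := h
  refine ⟨s, t, hs, ht, hst, ?_⟩
  have h1 := cvl.map_add (s • a) (t • b)
  rw [cvl.map_smul, cvl.map_smul] at h1
  exact h1.symm

theorem cv_hull {a b c x : Fin 3 → ℝ} (h : x ∈ convexHull ℝ {a, b, c}) : cv x ∈ convexHull ℝ {cv a, cv b, cv c} := by
  have h1 : cvl x ∈ cvl '' (convexHull ℝ {a, b, c}) := ⟨x, h, rfl⟩
  rw [LinearMap.image_convexHull] at h1
  have h2 : cvl '' {a, b, c} = {cv a, cv b, cv c} := by
    rw [Set.image_insert_eq, Set.image_insert_eq, Set.image_singleton]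
    rfl
  rw [h2] at h1
  exact h1

theorem cv_inj {a b : Fin 3 → ℝ} (h : cv a = cv b) : a = b := by
  have h0 : a 0 = b 0 := congrArg (fun z => z.1.1) h
  have h1 : a 1 = b 1 := congrArg (fun z => z.1.2) h
  have h2 : a 2 = b 2 := congrArg (fun z => z.2) h
  funext i
  fin_cases i
  · exact h0
  · exact h1
  · exact h2

end SB758
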