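import Pool.Agent.Helper758_SB.Defs
import Pool.Agent.Helper758_SB.Defs2

namespace SB758

open Finset

theorem slide_sc_iff {a b a' b' : ℝ} (ha : 0 < a' * a) (hb : 0 < b' * b) :
    a' * b' < 0 ↔ a * b < 0 := by
  rcases lt_trichotomy a 0 with h | h | h
  · have h1 : a' < 0 := by by_contra h2; push Not at h2; nlinarith
    rcases lt_trichotomy b 0 with h' | h' | h'
    · have h2 : b' < 0 := by by_contra h2; push Not at h2; nlinarith
      have := mul_pos_of_neg_of_neg h h'
      have := mul_pos_of_neg_of_neg h1 h2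
      constructor <;> intro <;> linarith
    · rw [h'] at hb; simp at hb
    · have h2 : 0 < b' := by by_contra h2; push Not at h2; nlinarith
      have := mul_neg_of_neg_of_pos h h'
      have := mul_neg_of_neg_of_pos h1 h2
      constructor <;> intro <;> linarith
  · rw [h] at ha; simp at ha
  · have h1 : 0 < a' := by by_contra h2; push Not at h2; nlinarith
    rcases lt_trichotomy b 0 with h' | h' | h'
    · have h2 : b' < 0 := by by_contra h2; push Not at h2; nlinarith
      have := mul_neg_of_pos_of_neg h h'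
      have := mul_neg_of_pos_of_neg h1 h2
      constructor <;> intro <;> linarith
    · rw [h'] at hb; simp at hb
    · have h2 : 0 < b' := by by_contra h2; push Not at h2; nlinarith
      have := mul_pos h h'
      have := mul_pos h1 h2
      constructor <;> intro <;> linarith

theorem slide_sc_congr {N : ℕ} {f g : ℕ → ℝ} (h : ∀ i, 0 < f i * g i) : sc N f = sc N g := by
  classical
  unfold sc
  congr 1
  ext i
  rw [mem_filter, mem_filter, slide_sc_iff (h i) (h (i + 1))]

theorem slide_sc_dot_sub (v a b : Fin 3 → ℝ) : dot v (a - b) = dot v a - dot v b := by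
  unfold dot
  simp only [Pi.sub_apply]
  ring

theorem slide_sc_dot_add (v a b : Fin 3 → ℝ) : dot v (a + b) = dot v a + dot v b := by
  unfold dot
  simp only [Pi.add_apply]
  ring

theorem slide_sc_dot_smul (v a : Fin 3 → ℝ) (c : ℝ) : dot v (c • a) = c * dot v a := by
  unfold dot
  simp only [Pi.smul_apply, smul_eq_mul]
  ring

theorem slide_sc_dot_self {a : Fin 3 → ℝ} (ha : a ≠ 0) : 0 < dot a a := by
  unfold dot
  by_contra h
  push Not at h
  apply ha
  have h0 := mul_self_nonneg (a 0)
  have h1 := mul_self_nonneg (a 1)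
  have h2 := mul_self_nonneg (a 2)
  have e0 : a 0 = 0 := mul_self_eq_zero.1 (by linarith)
  have e1 : a 1 = 0 := mul_self_eq_zero.1 (by linarith)
  have e2 : a 2 = 0 := mul_self_eq_zero.1 (by linarith)
  funext i
  fin_cases i
  · exact e0
  · exact e1
  · exact e2

theorem slide_sc_cont (a : Fin 3 → ℝ) : Continuous fun v : Fin 3 → ℝ => dot v a := by
  unfold dot
  fun_prop

/-- generic vectors -/
theorem slide_sc_gen (S : Finset (Fin 3 → ℝ)) :
    ∀ (_ : ∀ a ∈ S, a ≠ 0) (U : Set (Fin 3 → ℝ)), IsOpen U → U.Nonempty →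
      ∃ v ∈ U, ∀ a ∈ S, dot v a ≠ 0 := by
  classical
  induction S using Finset.induction_on with
  | empty =>
    intro _ U _ hne
    obtain ⟨v, hv⟩ := hne
    exact ⟨v, hv, fun a ha => absurd ha (Finset.notMem_empty a)⟩
  | insert a S haS ih =>
    intro hS U hU hne
    have ha := hS a (Finset.mem_insert_self a S)
    obtain ⟨v, hv⟩ := hne
    have hU' : IsOpen (U ∩ {v | dot v a ≠ 0}) :=
      hU.inter (isOpen_ne_fun (slide_sc_cont a) continuous_const)
    have hne' : (U ∩ {v | dot v a ≠ 0}).Nonempty := by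
      by_cases h0 : dot v a = 0
      · have hc : Continuous fun t : ℝ => v + t • a := by fun_prop
        have h1 : ∀ᶠ t in nhds (0 : ℝ), v + t • a ∈ U := by
          apply (hc.tendsto 0).eventually
          rw [zero_smul, add_zero]
          exact hU.mem_nhds hv
        have h2 : ∀ᶠ t in nhdsWithin (0 : ℝ) (Set.Ioi 0), v + t • a ∈ U ∧ 0 < t :=
          (h1.filter_mono nhdsWithin_le_nhds).and self_mem_nhdsWithin
        obtain ⟨t, ht, ht0⟩ := h2.exists
        refine ⟨v + t • a, ht, ?_⟩
        have h3 : dot (v + t • a) a = dot v a + t * dot a a := by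
          unfold dot
          simp only [Pi.add_apply, Pi.smul_apply, smul_eq_mul]
          ring
        show dot (v + t • a) a ≠ 0
        rw [h3, h0, zero_add]
        exact (mul_pos ht0 (slide_sc_dot_self ha)).ne'
      · exact ⟨v, hv, h0⟩
    obtain ⟨w, hw, hw'⟩ := ih (fun b hb => hS b (Finset.mem_insert_of_mem hb)) _ hU' hne'
    refine ⟨w, hw.1, fun b hb => ?_⟩
    rcases Finset.mem_insert.1 hb with rfl | hb
    · exact hw.2
    · exact hw' b hb

theorem slide_sc_mod {N : ℕ} {α : Type*} {P : ℕ → α} (hper : ∀ i, P (i + N) = P i) (i : ℕ) :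
    P i = P (i % N) := by
  have key : ∀ k j, P (j + k * N) = P j := by
    intro k
    induction k with
    | zero => intro j; simp
    | succ k ih =>
      intro j
      rw [add_mul, one_mul, ← add_assoc, hper, ih]
  conv_lhs => rw [← Nat.mod_add_div i N, mul_comm N, key]

/-- TARGET. -/
theorem slide_sc {N M q : ℕ} {ε : ℝ} (hN : 3 ≤ N) (h0 : 0 < ε) (h1 : ε < 1) {P : ℕ → Fin 3 → ℝ} (hper : ∀ i, P (i + N) = P i)
    (hne : ∀ i, P (i + 1) ≠ P i)
    (hM : ∀ v : Fin 3 → ℝ, (∀ i, dot v (P (i + 1) - P i) ≠ 0) → sc N (fun i => dot v (P (i + 1) - P i)) ≤ M)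
    (v : Fin 3 → ℝ) (hv : ∀ i, dot v (slide N q ε P (i + 1) - slide N q ε P i) ≠ 0) :
    sc N (fun i => dot v (slide N q ε P (i + 1) - slide N q ε P i)) ≤ M := by
  classical
  obtain ⟨e, he⟩ : ∃ e : ℕ → Fin 3 → ℝ, ∀ i, e i = P (i + 1) - P i := ⟨_, fun _ => rfl⟩
  obtain ⟨e', he'⟩ : ∃ e' : ℕ → Fin 3 → ℝ,
    ∀ i, e' i = slide N q ε P (i + 1) - slide N q ε P i := ⟨_, fun _ => rfl⟩
  simp only [← he'] at hv ⊢
  simp only [← he] at hM
  have hN0 : 0 < N := by omega
  have hep : ∀ i, e (i + N) = e i := by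
    intro i
    rw [he, he, show i + N + 1 = i + 1 + N by ring, hper, hper]
  have hsp : ∀ i, slide N q ε P (i + N) = slide N q ε P i := by
    intro i
    unfold slide
    rw [Nat.add_mod_right, show i + N + 1 = i + 1 + N by ring, hper, hper]
  have hep' : ∀ i, e' (i + N) = e' i := by
    intro i
    rw [he', he', show i + N + 1 = i + 1 + N by ring, hsp, hsp]
  have he0 : ∀ i, e i ≠ 0 := by
    intro i
    rw [he, sub_ne_zero]
    exact hne i
  have hsucc : ∀ i, i % N = q % N → (i + 1) % N ≠ q % N := by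
    intro i hi h
    rw [← hi] at h
    have h2 : (i + 1) % N = (i % N + 1) % N := by rw [Nat.mod_add_mod]
    rw [h2] at h
    have h3 : i % N < N := Nat.mod_lt _ hN0
    rcases Nat.lt_or_ge (i % N + 1) N with h4 | h4
    · rw [Nat.mod_eq_of_lt h4] at h
      omega
    · have h5 : i % N + 1 = N := by omega
      rw [h5, Nat.mod_self] at h
      omega
  have c1 : ∀ i, i % N = q % N → e' i = (1 - ε) • e i := by
    intro i hi
    rw [he', he]
    unfold slide
    rw [if_neg (hsucc i hi), if_pos hi, sub_smul, one_smul]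
    abel
  have c2 : ∀ i, (i + 1) % N = q % N → e' i = e i + ε • e (i + 1) := by
    intro i hi
    rw [he', he, he]
    unfold slide
    rw [if_pos hi, if_neg (fun h => hsucc i h hi)]
    abel
  have c3 : ∀ i, i % N ≠ q % N → (i + 1) % N ≠ q % N → e' i = e i := by
    intro i hi hi'
    rw [he', he]
    unfold slide
    rw [if_neg hi, if_neg hi']
  -- a generic vector near `v`
  obtain ⟨w, hwU, hwg⟩ := slide_sc_gen ((range N).image e)
    (by
      intro a ha
      rw [mem_image] at ha
      obtain ⟨i, -, rfl⟩ := ha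
      exact he0 i)
    (⋂ i ∈ range N, {w | 0 < dot w (e' i) * dot v (e' i)})
    (by
      apply isOpen_biInter_finset
      intro i _
      exact isOpen_lt continuous_const ((slide_sc_cont _).mul continuous_const))
    ⟨v, by
      simp only [Set.mem_iInter]
      intro i _
      exact mul_self_pos.2 (hv i)⟩
  simp only [Set.mem_iInter, mem_range, Set.mem_ofPred_eq] at hwU
  have hw1 : ∀ i, 0 < dot w (e' i) * dot v (e' i) := by
    intro i
    rw [slide_sc_mod hep' i]
    exact hwU _ (Nat.mod_lt _ hN0)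
  have hw2 : ∀ i, dot w (e i) ≠ 0 := by
    intro i
    rw [slide_sc_mod hep i]
    exact hwg _ (mem_image_of_mem e (mem_range.2 (Nat.mod_lt _ hN0)))
  have hw3 : ∀ i, dot w (e' i) ≠ 0 := by
    intro i h
    have := hw1 i
    rw [h, zero_mul] at this
    exact lt_irrefl _ this
  rw [← slide_sc_congr hw1]
  refine le_trans ?_ (hM w hw2)
  -- the combinatorial part
  obtain ⟨f, hf⟩ : ∃ f : ℕ → ℝ, ∀ i, f i = dot w (e i) := ⟨_, fun _ => rfl⟩
  obtain ⟨f', hf'⟩ : ∃ f' : ℕ → ℝ, ∀ i, f' i = dot w (e' i) := ⟨_, fun _ => rfl⟩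
  simp only [← hf'] at hw3 ⊢
  simp only [← hf] at hw2 ⊢
  have hfp : ∀ i, f (i + N) = f i := by intro i; rw [hf, hf, hep]
  have hfp' : ∀ i, f' (i + N) = f' i := by intro i; rw [hf', hf', hep']
  have d1 : ∀ i, (i + 1) % N ≠ q % N → 0 < f' i * f i := by
    intro i hi
    by_cases hi' : i % N = q % N
    · rw [hf', c1 i hi', slide_sc_dot_smul, ← hf, mul_assoc]
      exact mul_pos (by linarith) (mul_self_pos.2 (hw2 i))
    · rw [hf', c3 i hi' hi, ← hf]
      exact mul_self_pos.2 (hw2 i)
  have d2 : ∀ i, (i + 1) % N = q % N → f' i = f i + ε * f (i + 1) := by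
    intro i hi
    rw [hf', c2 i hi, slide_sc_dot_add, slide_sc_dot_smul, ← hf, ← hf]
  obtain ⟨a, ha⟩ : ∃ a, a = (q % N + N - 1) % N := ⟨_, rfl⟩
  have haN : a < N := by rw [ha]; exact Nat.mod_lt _ hN0
  have ha1 : (a + 1) % N = q % N := by
    rw [ha, Nat.mod_add_mod, show q % N + N - 1 + 1 = q % N + N by omega, Nat.add_mod_right,
      Nat.mod_mod]
  have hauniq : ∀ i, i < N → (i + 1) % N = q % N → i = a := by
    intro i hi h
    rw [← ha1] at h
    have h3 : (i + 1) ≡ (a + 1) [MOD N] := h
    have h4 : i ≡ a [MOD N] := Nat.ModEq.add_right_cancel' 1 h3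
    have h5 : i % N = a % N := h4
    rwa [Nat.mod_eq_of_lt hi, Nat.mod_eq_of_lt haN] at h5
  by_cases hcase : 0 < f' a * f a
  · -- the signs do not change
    have hall : ∀ i, 0 < f' i * f i := by
      intro i
      rw [slide_sc_mod hfp' i, slide_sc_mod hfp i]
      by_cases h : (i % N + 1) % N = q % N
      · rw [hauniq _ (Nat.mod_lt _ hN0) h]
        exact hcase
      · exact d1 _ h
    exact (slide_sc_congr hall).le
  · push Not at hcase
    have hd := d2 a ha1
    have hfa : 0 < f' (a + 1) * f (a + 1) := by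
      apply d1
      exact hsucc _ ha1
    have hfa0 := hw2 a
    have hfa1 := hw2 (a + 1)
    -- `f a` and `f (a+1)` have different signs
    have hopp : f a * f (a + 1) < 0 := by
      by_contra hcon
      push Not at hcon
      have : f' a * f a = f a * f a + ε * (f a * f (a + 1)) := by rw [hd]; ring
      have h2 : 0 < f a * f a := mul_self_pos.2 hfa0
      have h3 : 0 ≤ ε * (f a * f (a + 1)) := mul_nonneg h0.le hcon
      linarith
    have hsame : 0 < f' a * f (a + 1) := by
      have h2 : f' a * f a < 0 := lt_of_le_of_ne hcase (mul_ne_zero (hw3 a) hfa0)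
      have h3 : 0 < (f' a * f a) * (f a * f (a + 1)) := mul_pos_of_neg_of_neg h2 hopp
      have h4 : (f' a * f a) * (f a * f (a + 1)) = (f a * f a) * (f' a * f (a + 1)) := by ring
      rw [h4] at h3
      exact (mul_pos_iff_of_pos_left (mul_self_pos.2 hfa0)).1 h3
    have hna : ¬ f' a * f' (a + 1) < 0 := by
      have h3 : 0 < (f' a * f (a + 1)) * (f' (a + 1) * f (a + 1)) := mul_pos hsame hfa
      have h4 : (f' a * f (a + 1)) * (f' (a + 1) * f (a + 1)) =
        (f (a + 1) * f (a + 1)) * (f' a * f' (a + 1)) := by ring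
      rw [h4] at h3
      have := (mul_pos_iff_of_pos_left (mul_self_pos.2 hfa1)).1 h3
      linarith
    obtain ⟨b, hb⟩ : ∃ b, b = (a + N - 1) % N := ⟨_, rfl⟩
    have hb1 : (b + 1) % N = a := by
      rw [hb, Nat.mod_add_mod, show a + N - 1 + 1 = a + N by omega, Nat.add_mod_right,
        Nat.mod_eq_of_lt haN]
    have hbN : b < N := by rw [hb]; exact Nat.mod_lt _ hN0
    have hbuniq : ∀ i, i < N → (i + 1) % N = a → i = b := by
      intro i hi h
      rw [← hb1] at h
      have h3 : (i + 1) ≡ (b + 1) [MOD N] := h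
      have h4 : i ≡ b [MOD N] := Nat.ModEq.add_right_cancel' 1 h3
      have h5 : i % N = b % N := h4
      rwa [Nat.mod_eq_of_lt hi, Nat.mod_eq_of_lt hbN] at h5
    have hsub : (range N).filter (fun i => f' i * f' (i + 1) < 0) ⊆
        insert b (((range N).filter (fun i => f i * f (i + 1) < 0)).erase a) := by
      intro i hi
      rw [mem_filter, mem_range] at hi
      rw [mem_insert, mem_erase, mem_filter, mem_range]
      by_cases hib : i = b
      · exact Or.inl hib
      right
      have hia : i ≠ a := by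
        rintro rfl
        exact hna hi.2
      refine ⟨hia, hi.1, ?_⟩
      have k1 : 0 < f' i * f i := d1 _ fun h => hia (hauniq i hi.1 h)
      have k2 : 0 < f' (i + 1) * f (i + 1) := by
        apply d1
        intro h
        apply hib
        apply hbuniq i hi.1
        apply hauniq _ (Nat.mod_lt _ hN0)
        rw [Nat.mod_add_mod]
        exact h
      exact (slide_sc_iff k1 k2).1 hi.2
    have hamem : a ∈ (range N).filter (fun i => f i * f (i + 1) < 0) := by
      rw [mem_filter, mem_range]
      exact ⟨haN, hopp⟩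
    unfold sc
    refine (card_le_card hsub).trans ((card_insert_le _ _).trans ?_)
    rw [card_erase_of_mem hamem]
    have := card_pos.2 ⟨a, hamem⟩
    exact (Nat.sub_add_cancel this).le

end SB758
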