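import Pool.Agent.Helper758_SB.Defs
import Pool.Agent.Helper758_SB.Defs2

namespace SB758

open Finset

theorem tokens_incong {N x y : ℕ} (h : x < y) (h' : y < x + N) : ¬ x ≡ y [MOD N] := by
  intro hm
  have h1 : N ∣ y - x := (Nat.modEq_iff_dvd' h.le).1 hm
  have h2 := Nat.le_of_dvd (by omega) h1
  omega

theorem tokens_sort {N : ℕ} (hN : 0 < N) {D : ℕ → ℕ → ℕ → Prop}
    (hmod : ∀ i j k i' j' k', i ≡ i' [MOD N] → j ≡ j' [MOD N] → k ≡ k' [MOD N] → D i j k → D i' j' k')
    (hs1 : ∀ i j k, D i j k → D j i k) (hs2 : ∀ i j k, D i j k → D i k j)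
    {i j k : ℕ} (h1 : ¬ i ≡ j [MOD N]) (h2 : ¬ j ≡ k [MOD N]) (h3 : ¬ i ≡ k [MOD N]) :
    ∃ a b c, a < b ∧ b < c ∧ c < N ∧ (D i j k ↔ D a b c) := by
  have g1 : i % N < N := Nat.mod_lt _ hN
  have g2 : j % N < N := Nat.mod_lt _ hN
  have g3 : k % N < N := Nat.mod_lt _ hN
  have e : D i j k ↔ D (i % N) (j % N) (k % N) :=
    ⟨hmod _ _ _ _ _ _ (Nat.mod_modEq _ _).symm (Nat.mod_modEq _ _).symm (Nat.mod_modEq _ _).symm,
      hmod _ _ _ _ _ _ (Nat.mod_modEq _ _) (Nat.mod_modEq _ _) (Nat.mod_modEq _ _)⟩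
  have s1 : ∀ i j k, D i j k ↔ D j i k := fun i j k => ⟨hs1 _ _ _, hs1 _ _ _⟩
  have s2 : ∀ i j k, D i j k ↔ D i k j := fun i j k => ⟨hs2 _ _ _, hs2 _ _ _⟩
  have n1 : i % N ≠ j % N := h1
  have n2 : j % N ≠ k % N := h2
  have n3 : i % N ≠ k % N := h3
  rcases lt_or_gt_of_ne n1 with c1 | c1
  · rcases lt_or_gt_of_ne n2 with c2 | c2
    · exact ⟨_, _, _, c1, c2, g3, e⟩
    · rcases lt_or_gt_of_ne n3 with c3 | c3
      · exact ⟨_, _, _, c3, c2, g2, e.trans (s2 _ _ _)⟩
      · exact ⟨_, _, _, c3, c1, g2, e.trans ((s2 _ _ _).trans (s1 _ _ _))⟩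
  · rcases lt_or_gt_of_ne n3 with c2 | c2
    · exact ⟨_, _, _, c1, c2, g3, e.trans (s1 _ _ _)⟩
    · rcases lt_or_gt_of_ne n2 with c3 | c3
      · exact ⟨_, _, _, c3, c2, g1, e.trans ((s1 _ _ _).trans (s2 _ _ _))⟩
      · exact ⟨_, _, _, c3, c1, g1, e.trans ((s2 _ _ _).trans ((s1 _ _ _).trans (s2 _ _ _)))⟩

/-- `D i j k` is a symmetric property of triples that depends on residues mod `N` only. If it fails for some triple and holds for another one (both of incongruent elements), then there is a step from a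
triple with `¬ D` to a triple with `D` in which one element is decreased by one. -/
theorem tokens {N : ℕ} (hN : 4 ≤ N) {D : ℕ → ℕ → ℕ → Prop}
    (hmod : ∀ i j k i' j' k', i ≡ i' [MOD N] → j ≡ j' [MOD N] → k ≡ k' [MOD N] → D i j k → D i' j' k')
    (hs1 : ∀ i j k, D i j k → D j i k) (hs2 : ∀ i j k, D i j k → D i k j)
    {i j k i' j' k' : ℕ} (h1 : ¬ i ≡ j [MOD N]) (h2 : ¬ j ≡ k [MOD N]) (h3 : ¬ i ≡ k [MOD N]) (hD : ¬ D i j k)
    (h1' : ¬ i' ≡ j' [MOD N]) (h2' : ¬ j' ≡ k' [MOD N]) (h3' : ¬ i' ≡ k' [MOD N]) (hD' : D i' j' k') :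
    ∃ a b c, ¬ a ≡ b [MOD N] ∧ ¬ b ≡ c [MOD N] ∧ ¬ a ≡ c [MOD N] ∧ ¬ a + 1 ≡ b [MOD N] ∧ ¬ a + 1 ≡ c [MOD N] ∧ D a b c ∧ ¬ D (a + 1) b c := by
  obtain ⟨a, b, c, hab, hbc, hcN, e⟩ := tokens_sort (by omega) hmod hs1 hs2 h1 h2 h3
  obtain ⟨a', b', c', hab', hbc', hcN', e'⟩ := tokens_sort (by omega) hmod hs1 hs2 h1' h2' h3'
  rw [e'] at hD'
  rw [e] at hD
  by_contra hcon
  push Not at hcon
  have key : ∀ n a b c : ℕ, a + b + c ≤ n → a < b → b < c → c < a + N → a' ≤ a → b' ≤ b →
      c' ≤ c → ¬ D a b c → False := by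
    intro n
    induction n with
    | zero => intro a b c h0 h1 h2; omega
    | succ n ih =>
      intro a b c hn hab hbc hca ha hb hc hDD
      have stepA : a' < a → c ≠ a + N - 1 → False := by
        intro hlt hne
        have n1 : ¬ D (a - 1) b c := by
          intro hd
          have ha1 : a - 1 + 1 = a := by omega
          refine absurd (hcon (a - 1) b c (tokens_incong (by omega) (by omega))
            (tokens_incong (by omega) (by omega)) (tokens_incong (by omega) (by omega))
            (by rw [ha1]; exact tokens_incong (by omega) (by omega))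
            (by rw [ha1]; exact tokens_incong (by omega) (by omega)) hd) ?_
          rw [ha1]
          exact hDD
        exact ih (a - 1) b c (by omega) (by omega) hbc (by omega) (by omega) hb hc n1
      have stepB : b' < b → b ≠ a + 1 → False := by
        intro hlt hne
        have n1 : ¬ D a (b - 1) c := by
          intro hd
          have ha1 : b - 1 + 1 = b := by omega
          refine absurd (hcon (b - 1) a c (fun h => tokens_incong (by omega) (by omega) h.symm)
            (tokens_incong (by omega) (by omega)) (tokens_incong (by omega) (by omega))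
            (by rw [ha1]; exact fun h => tokens_incong (by omega) (by omega) h.symm)
            (by rw [ha1]; exact tokens_incong (by omega) (by omega)) (hs1 _ _ _ hd)) ?_
          rw [ha1]
          exact fun h => hDD (hs1 _ _ _ h)
        exact ih a (b - 1) c (by omega) (by omega) (by omega) hca ha (by omega) hc n1
      have stepC : c' < c → c ≠ b + 1 → False := by
        intro hlt hne
        have n1 : ¬ D a b (c - 1) := by
          intro hd
          have ha1 : c - 1 + 1 = c := by omega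
          refine absurd (hcon (c - 1) a b (fun h => tokens_incong (by omega) (by omega) h.symm)
            (tokens_incong (by omega) (by omega))
            (fun h => tokens_incong (by omega) (by omega) h.symm)
            (by rw [ha1]; exact fun h => tokens_incong (by omega) (by omega) h.symm)
            (by rw [ha1]; exact fun h => tokens_incong (by omega) (by omega) h.symm)
            (hs1 _ _ _ (hs2 _ _ _ hd))) ?_
          rw [ha1]
          exact fun h => hDD (hs2 _ _ _ (hs1 _ _ _ h))
        exact ih a b (c - 1) (by omega) hab (by omega) (by omega) ha hb (by omega) n1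
      by_cases heq : a = a' ∧ b = b' ∧ c = c'
      · obtain ⟨rfl, rfl, rfl⟩ := heq
        exact hDD hD'
      · by_cases qa : a' < a ∧ c ≠ a + N - 1
        · exact stepA qa.1 qa.2
        · by_cases qb : b' < b ∧ b ≠ a + 1
          · exact stepB qb.1 qb.2
          · by_cases qc : c' < c ∧ c ≠ b + 1
            · exact stepC qc.1 qc.2
            · omega
  have hmN : ∀ x, x ≡ x + N [MOD N] := fun x => by
    unfold Nat.ModEq
    rw [Nat.add_mod_right]
  refine key (a + N + (b + N) + (c + N)) (a + N) (b + N) (c + N) le_rfl (by omega) (by omega)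
    (by omega) (by omega) (by omega) (by omega) ?_
  intro hd
  exact hD (hmod _ _ _ _ _ _ (hmN a).symm (hmN b).symm (hmN c).symm hd)

end SB758
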