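import Pool.Agent.Helper758_SB.Defs
import Pool.Agent.Helper758_SB.Defs2
import Pool.Agent.Helper758_SB.J21_slide
import Pool.Agent.Helper758_SB.J22a_tokens

namespace SB758

open Finset

/-- edges -/
def edg22 (P : ℕ → Fin 3 → ℝ) (i : ℕ) : Fin 3 → ℝ := P (i + 1) - P i

theorem det3_self12 (a c : Fin 3 → ℝ) : det3 a a c = 0 := by unfold det3; ring

theorem det3_self23 (a c : Fin 3 → ℝ) : det3 a c c = 0 := by unfold det3; ring

theorem det3_self13 (a c : Fin 3 → ℝ) : det3 a c a = 0 := by unfold det3; ring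

theorem det3_swap12 (a b c : Fin 3 → ℝ) : det3 b a c = -det3 a b c := by unfold det3; ring

theorem det3_swap23 (a b c : Fin 3 → ℝ) : det3 a c b = -det3 a b c := by unfold det3; ring

theorem det3_add (a a' b c : Fin 3 → ℝ) (t : ℝ) :
    det3 (a + t • a') b c = det3 a b c + t * det3 a' b c := by
  simp only [det3, Pi.add_apply, Pi.smul_apply, smul_eq_mul]
  ring

theorem det3_cont : Continuous fun p : (Fin 3 → ℝ) × (Fin 3 → ℝ) × (Fin 3 → ℝ) =>
    det3 p.1 p.2.1 p.2.2 := by
  unfold det3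
  fun_prop

theorem slide_cont (N q : ℕ) (P : ℕ → Fin 3 → ℝ) (i : ℕ) : Continuous fun ε : ℝ =>
    slide N q ε P i := by
  unfold slide
  by_cases h : i % N = q % N
  · simp only [h, if_true]
    fun_prop
  · simp only [h, if_false]
    fun_prop

theorem slide_zero (N q : ℕ) (P : ℕ → Fin 3 → ℝ) (i : ℕ) : slide N q 0 P i = P i := by
  unfold slide
  simp

theorem slide_per {N q : ℕ} {ε : ℝ} {P : ℕ → Fin 3 → ℝ} (hper : ∀ i, P (i + N) = P i) (i : ℕ) :
    slide N q ε P (i + N) = slide N q ε P i := by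
  unfold slide
  rw [Nat.add_mod_right, hper, show i + N + 1 = i + 1 + N by ring, hper]

theorem ed_per {N : ℕ} {P : ℕ → Fin 3 → ℝ} (hper : ∀ i, P (i + N) = P i) (i : ℕ) :
    edg22 P (i + N) = edg22 P i := by
  unfold edg22
  rw [hper, show i + N + 1 = i + 1 + N by ring, hper]

theorem ed_mod {N : ℕ} {P : ℕ → Fin 3 → ℝ} (hper : ∀ i, P (i + N) = P i) (i : ℕ) :
    edg22 P (i % N) = edg22 P i :=
  Function.Periodic.map_mod_nat (f := edg22 P) (ed_per hper) i

theorem ed_modEq {N : ℕ} {P : ℕ → Fin 3 → ℝ} (hper : ∀ i, P (i + N) = P i) {i j : ℕ}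
    (h : i ≡ j [MOD N]) : edg22 P i = edg22 P j := by
  rw [← ed_mod hper i, ← ed_mod hper j, h]

theorem ed_slide_other {N a i : ℕ} {ε : ℝ} {P : ℕ → Fin 3 → ℝ} (h1 : ¬ i ≡ a [MOD N])
    (h2 : ¬ i ≡ a + 1 [MOD N]) : edg22 (slide N (a + 1) ε P) i = edg22 P i := by
  unfold edg22 slide
  have h3 : ¬ (i + 1) % N = (a + 1) % N := fun h => h1 (Nat.ModEq.add_right_cancel' 1 h)
  have h4 : ¬ i % N = (a + 1) % N := h2
  rw [if_neg h3, if_neg h4]

theorem ed_slide_a {N a : ℕ} (hN : 4 ≤ N) {ε : ℝ} {P : ℕ → Fin 3 → ℝ} :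
    edg22 (slide N (a + 1) ε P) a = edg22 P a + ε • edg22 P (a + 1) := by
  unfold edg22 slide
  have h3 : ¬ a % N = (a + 1) % N := by
    intro h
    have h4 : a + 0 ≡ a + 1 [MOD N] := h
    have h5 := Nat.ModEq.add_left_cancel' a h4
    have h6 : 0 % N = 1 % N := h5
    rw [Nat.zero_mod, Nat.mod_eq_of_lt (by omega)] at h6
    omega
  rw [if_pos rfl, if_neg h3]
  abel

/-- degenerate triples -/
noncomputable def deg (N : ℕ) (P : ℕ → Fin 3 → ℝ) : Finset (ℕ × ℕ × ℕ) :=
  open Classical in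
  (range N ×ˢ range N ×ˢ range N).filter (fun t => det3 (edg22 P t.1) (edg22 P t.2.1) (edg22 P t.2.2) = 0)

theorem mem_deg {N : ℕ} {P : ℕ → Fin 3 → ℝ} (t : ℕ × ℕ × ℕ) : t ∈ deg N P ↔
    (t.1 < N ∧ t.2.1 < N ∧ t.2.2 < N) ∧ det3 (edg22 P t.1) (edg22 P t.2.1) (edg22 P t.2.2) = 0 := by
  unfold deg
  simp only [mem_filter, mem_product, mem_range]

/-- the induction -/
theorem reg_aux {N M : ℕ} (hN : 4 ≤ N) (n : ℕ) : ∀ (P : ℕ → Fin 3 → ℝ), (∀ i, P (i + N) = P i) →
    (∀ i, P (i + 1) ≠ P i) → (∃ i j k, det3 (edg22 P i) (edg22 P j) (edg22 P k) ≠ 0) →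
    (∀ v : Fin 3 → ℝ, (∀ i, dot v (P (i + 1) - P i) ≠ 0) →
      sc N (fun i => dot v (P (i + 1) - P i)) ≤ M) →
    (deg N P).card = n → ∀ δ : ℝ, 0 < δ →
    ∃ P' : ℕ → Fin 3 → ℝ, (∀ i, P' (i + N) = P' i) ∧ (∀ i, ‖P' i - P i‖ < δ) ∧
      (∀ i j k, ¬ i ≡ j [MOD N] → ¬ j ≡ k [MOD N] → ¬ i ≡ k [MOD N] →
        det3 (edg22 P' i) (edg22 P' j) (edg22 P' k) ≠ 0) ∧
      (∀ v : Fin 3 → ℝ, (∀ i, dot v (P' (i + 1) - P' i) ≠ 0) →
        sc N (fun i => dot v (P' (i + 1) - P' i)) ≤ M) := by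
  induction n using Nat.strong_induction_on with
  | _ n ih =>
    intro P hper hne hsp hM hcard δ hδ
    by_cases hall : ∀ i j k, ¬ i ≡ j [MOD N] → ¬ j ≡ k [MOD N] → ¬ i ≡ k [MOD N] →
        det3 (edg22 P i) (edg22 P j) (edg22 P k) ≠ 0
    · exact ⟨P, hper, fun i => by simpa using hδ, hall, hM⟩
    · push Not at hall
      obtain ⟨i', j', k', h1', h2', h3', hD'⟩ := hall
      obtain ⟨i, j, k, hD⟩ := hsp
      have h1 : ¬ i ≡ j [MOD N] := fun h => hD (by rw [ed_modEq hper h, det3_self12])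
      have h2 : ¬ j ≡ k [MOD N] := fun h => hD (by rw [ed_modEq hper h, det3_self23])
      have h3 : ¬ i ≡ k [MOD N] := fun h => hD (by rw [ed_modEq hper h, det3_self13])
      obtain ⟨a, b, c, hab, hbc, hac, hab1, hac1, hDa, hDb⟩ := tokens hN
        (D := fun i j k => det3 (edg22 P i) (edg22 P j) (edg22 P k) = 0)
        (fun i j k i' j' k' hi hj hk h => by
          rw [← ed_modEq hper hi, ← ed_modEq hper hj, ← ed_modEq hper hk]; exact h)
        (fun i j k h => by rw [det3_swap12, h, neg_zero])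
        (fun i j k h => by rw [det3_swap23, h, neg_zero]) h1 h2 h3 hD h1' h2' h3' hD'
      -- conditions for small `ε`
      have c1 : ∀ᶠ ε : ℝ in nhdsWithin 0 (Set.Ioi 0), ε < 1 :=
        nhdsWithin_le_nhds (eventually_lt_nhds one_pos)
      have c0 : ∀ᶠ ε : ℝ in nhdsWithin 0 (Set.Ioi 0), 0 < ε := eventually_mem_nhdsWithin
      have hedc : ∀ i, Continuous fun ε : ℝ => edg22 (slide N (a + 1) ε P) i := fun i =>
        (slide_cont N (a + 1) P (i + 1)).sub (slide_cont N (a + 1) P i)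
      have hed0 : ∀ i, edg22 (slide N (a + 1) 0 P) i = edg22 P i := fun i => by
        unfold edg22
        rw [slide_zero, slide_zero]
      have c2 : ∀ᶠ ε : ℝ in nhdsWithin 0 (Set.Ioi 0), ∀ t ∈ range N ×ˢ range N ×ˢ range N,
          det3 (edg22 P t.1) (edg22 P t.2.1) (edg22 P t.2.2) ≠ 0 →
          det3 (edg22 (slide N (a + 1) ε P) t.1) (edg22 (slide N (a + 1) ε P) t.2.1)
            (edg22 (slide N (a + 1) ε P) t.2.2) ≠ 0 := by
        rw [Filter.eventually_all_finset]
        intro t _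
        by_cases ht : det3 (edg22 P t.1) (edg22 P t.2.1) (edg22 P t.2.2) = 0
        · exact Filter.Eventually.of_forall fun ε h => absurd ht h
        · have hc : Continuous fun ε : ℝ => det3 (edg22 (slide N (a + 1) ε P) t.1)
              (edg22 (slide N (a + 1) ε P) t.2.1) (edg22 (slide N (a + 1) ε P) t.2.2) :=
            det3_cont.comp ((hedc _).prodMk ((hedc _).prodMk (hedc _)))
          have h0 : det3 (edg22 (slide N (a + 1) 0 P) t.1) (edg22 (slide N (a + 1) 0 P) t.2.1)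
            (edg22 (slide N (a + 1) 0 P) t.2.2) ≠ 0 := by rw [hed0, hed0, hed0]; exact ht
          have := hc.continuousAt.eventually_ne h0
          filter_upwards [nhdsWithin_le_nhds this] with ε hε _
          exact hε
      have c3 : ∀ᶠ ε : ℝ in nhdsWithin 0 (Set.Ioi 0), ∀ i ∈ range N,
          edg22 (slide N (a + 1) ε P) i ≠ 0 := by
        rw [Filter.eventually_all_finset]
        intro i _
        have h0 : edg22 (slide N (a + 1) 0 P) i ≠ 0 := by
          rw [hed0]
          exact sub_ne_zero.2 (hne i)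
        exact nhdsWithin_le_nhds ((hedc i).continuousAt.eventually_ne h0)
      have c4 : ∀ᶠ ε : ℝ in nhdsWithin 0 (Set.Ioi 0), ∀ i ∈ range N,
          ‖slide N (a + 1) ε P i - P i‖ < δ / 2 := by
        rw [Filter.eventually_all_finset]
        intro i _
        have hc : Continuous fun ε : ℝ => ‖slide N (a + 1) ε P i - P i‖ :=
          ((slide_cont N (a + 1) P i).sub continuous_const).norm
        have h0 : ‖slide N (a + 1) 0 P i - P i‖ < δ / 2 := by
          rw [slide_zero, sub_self, norm_zero]; exact half_pos hδ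
        exact nhdsWithin_le_nhds (hc.continuousAt.eventually_lt continuousAt_const h0)
      obtain ⟨ε, e1, e0, e2, e3, e4⟩ := (c1.and (c0.and (c2.and (c3.and c4)))).exists
      obtain ⟨P₁, hP₁⟩ : ∃ P₁, P₁ = slide N (a + 1) ε P := ⟨_, rfl⟩
      rw [← hP₁] at e2 e3 e4
      have hper₁ : ∀ i, P₁ (i + N) = P₁ i := fun i => by rw [hP₁]; exact slide_per hper i
      have hN0 : 0 < N := by omega
      have hmod : ∀ i, i % N ∈ range N := fun i => mem_range.2 (Nat.mod_lt i hN0)
      have hne₁ : ∀ i, P₁ (i + 1) ≠ P₁ i := by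
        intro i h
        refine e3 (i % N) (hmod i) ?_
        rw [ed_mod hper₁]
        exact sub_eq_zero.2 h
      have hnd : ∀ i j k, det3 (edg22 P i) (edg22 P j) (edg22 P k) ≠ 0 →
          det3 (edg22 P₁ i) (edg22 P₁ j) (edg22 P₁ k) ≠ 0 := by
        intro i j k h
        have := e2 (i % N, j % N, k % N) (by
          simp only [mem_product]
          exact ⟨hmod i, hmod j, hmod k⟩)
        simp only [ed_mod hper, ed_mod hper₁] at this
        exact this h
      have hM₁ : ∀ v : Fin 3 → ℝ, (∀ i, dot v (P₁ (i + 1) - P₁ i) ≠ 0) →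
          sc N (fun i => dot v (P₁ (i + 1) - P₁ i)) ≤ M := by
        rw [hP₁]
        exact fun v hv => slide_sc (by omega) e0 e1 hper hne hM v hv
      have hnew : det3 (edg22 P₁ a) (edg22 P₁ b) (edg22 P₁ c) ≠ 0 := by
        rw [hP₁, ed_slide_a hN, ed_slide_other (fun h => hab h.symm) (fun h => hab1 h.symm),
          ed_slide_other (fun h => hac h.symm) (fun h => hac1 h.symm), det3_add, hDa, zero_add]
        exact mul_ne_zero e0.ne' hDb
      have hlt : (deg N P₁).card < n := by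
        rw [← hcard]
        refine Finset.card_lt_card ?_
        rw [Finset.ssubset_iff_of_subset]
        · refine ⟨(a % N, b % N, c % N), ?_, ?_⟩
          · rw [mem_deg]
            refine ⟨⟨Nat.mod_lt _ hN0, Nat.mod_lt _ hN0, Nat.mod_lt _ hN0⟩, ?_⟩
            simp only [ed_mod hper]
            exact hDa
          · rw [mem_deg]
            rintro ⟨-, h⟩
            simp only [ed_mod hper₁] at h
            exact hnew h
        · intro t ht
          rw [mem_deg] at ht ⊢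
          refine ⟨ht.1, ?_⟩
          by_contra h
          exact hnd _ _ _ h ht.2
      obtain ⟨P', q1, q2, q3, q4⟩ := ih _ hlt P₁ hper₁ hne₁ ⟨i, j, k, hnd i j k hD⟩ hM₁ rfl
        (δ / 2) (half_pos hδ)
      refine ⟨P', q1, fun i => ?_, q3, q4⟩
      have h5 : ‖P₁ i - P i‖ < δ / 2 := by
        have := e4 (i % N) (hmod i)
        rwa [Function.Periodic.map_mod_nat (f := P₁) hper₁ i,
          Function.Periodic.map_mod_nat (f := P) hper i] at this
      calc ‖P' i - P i‖ = ‖(P' i - P₁ i) + (P₁ i - P i)‖ := by rw [sub_add_sub_cancel]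
        _ ≤ ‖P' i - P₁ i‖ + ‖P₁ i - P i‖ := norm_add_le _ _
        _ < δ := by linarith [q2 i]

/-- TARGET. A polygon whose edges span space can be moved by arbitrarily small slides to one with any three edges independent.
PROOF. Strong induction on the number of triples `(i,j,k)`, `i < j < k < N`, with `det3 (e i) (e j) (e k) = 0` (`e i = P (i+1) - P i`). If there is none, take `P' = P` (pairwise incongruent triples reduce to `i < j < k < N` by periodicity and antisymmetry of `det3`).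
Otherwise apply `tokens` with `D i j k := det3 (e i) (e j) (e k) = 0` (a triple with nonzero determinant is automatically incongruent): there are `a, b, c` with `det3 (e a) (e b) (e c) = 0`, `det3 (e (a+1)) (e b) (e c) ≠ 0`, `b, c ≢ a, a + 1`.
Let `P₁ = slide N (a+1) ε P`, so that `e₁ i = e i` for `i ≢ a, a + 1`, `e₁ i = e i + ε • e (i+1)` for `i ≡ a` and `e₁ i = (1 - ε) • e i` for `i ≡ a + 1`. All determinants of `e₁` are polynomials in `ε`; those that are nonzero for `ε = 0` are nonzero for small `ε > 0`; the determinant of the triple `a, b, c` is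
`ε * det3 (e (a+1)) (e b) (e c) ≠ 0`. So for small `ε > 0` the number of degenerate triples has decreased. Also for small `ε > 0`: `P₁ (i+1) ≠ P₁ i` (finitely many conditions by periodicity), `‖P₁ i - P i‖ < δ / 2`, the spanning triple is still spanning, and `slide_sc` gives the bound `M`. Apply the induction hypothesis to `P₁` with `δ / 2`. -/
theorem regularize {N M : ℕ} (hN : 4 ≤ N) {P : ℕ → Fin 3 → ℝ} (hper : ∀ i, P (i + N) = P i) (hne : ∀ i, P (i + 1) ≠ P i)
    (hsp : ∃ i j k, det3 (P (i + 1) - P i) (P (j + 1) - P j) (P (k + 1) - P k) ≠ 0)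
    (hM : ∀ v : Fin 3 → ℝ, (∀ i, dot v (P (i + 1) - P i) ≠ 0) → sc N (fun i => dot v (P (i + 1) - P i)) ≤ M)
    {δ : ℝ} (hδ : 0 < δ) :
    ∃ P' : ℕ → Fin 3 → ℝ, (∀ i, P' (i + N) = P' i) ∧ (∀ i, ‖P' i - P i‖ < δ) ∧
      (∀ i j k, ¬ i ≡ j [MOD N] → ¬ j ≡ k [MOD N] → ¬ i ≡ k [MOD N] →
        det3 (P' (i + 1) - P' i) (P' (j + 1) - P' j) (P' (k + 1) - P' k) ≠ 0) ∧
      (∀ v : Fin 3 → ℝ, (∀ i, dot v (P' (i + 1) - P' i) ≠ 0) → sc N (fun i => dot v (P' (i + 1) - P' i)) ≤ M) := by
  obtain ⟨i, j, k, h⟩ := hsp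
  exact reg_aux hN _ P hper hne ⟨i, j, k, h⟩ hM rfl δ hδ

end SB758
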