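import Pool.Agent.Helper758_SB.Defs
import Pool.Agent.Helper758_SB.Defs2

namespace SB758

open Finset

/-- the shear -/
def shear_sh (t : ℝ) (p : Fin 3 → ℝ) : Fin 3 → ℝ := ![p 0, p 1, p 2 + t * p 0 + t ^ 2 * p 1]

theorem shear_sub (t : ℝ) (p q : Fin 3 → ℝ) : shear_sh t p - shear_sh t q = shear_sh t (p - q) := by
  funext i
  fin_cases i
  · simp [shear_sh]
  · simp [shear_sh]
  · simp [shear_sh]; ring

theorem shear_det (t : ℝ) (a b c : Fin 3 → ℝ) : det3 (shear_sh t a) (shear_sh t b) (shear_sh t c) = det3 a b c := by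
  simp [det3, shear_sh]
  ring

theorem shear_dot (t : ℝ) (v a : Fin 3 → ℝ) :
    dot v (shear_sh t a) = dot ![v 0 + t * v 2, v 1 + t ^ 2 * v 2, v 2] a := by
  simp [dot, shear_sh]
  ring

theorem shear_roots (p : Fin 3 → ℝ) (hp : p ≠ 0) : {t : ℝ | p 2 + t * p 0 + t ^ 2 * p 1 = 0}.Finite := by
  set q : Polynomial ℝ := Polynomial.C (p 2) + Polynomial.C (p 0) * Polynomial.X + Polynomial.C (p 1) * Polynomial.X ^ 2
    with hq
  have hq0 : q ≠ 0 := by
    intro h
    apply hp
    have h0 := congrArg (fun r => Polynomial.coeff r 0) h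
    have h1 := congrArg (fun r => Polynomial.coeff r 1) h
    have h2 := congrArg (fun r => Polynomial.coeff r 2) h
    simp [hq, Polynomial.coeff_X, Polynomial.coeff_C] at h0 h1 h2
    funext i
    fin_cases i
    · exact h1
    · exact h2
    · exact h0
  refine (Polynomial.finite_setOfPred_isRoot hq0).subset ?_
  intro t ht
  show q.IsRoot t
  rw [Polynomial.IsRoot, hq]
  simp only [Polynomial.eval_add, Polynomial.eval_mul, Polynomial.eval_C, Polynomial.eval_X, Polynomial.eval_pow]
  have : p 2 + t * p 0 + t ^ 2 * p 1 = 0 := ht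
  linarith

/-- TARGET 1. By a small shear we get all third coordinates of the edges nonzero.
PROOF. `P' i = P i` with third coordinate replaced by `P i 2 + t * P i 0 + t ^ 2 * P i 1`, `t > 0` small. For an edge `e i ≠ 0` (nonzero as `det3 ... ≠ 0` for some triple containing `i`, using `N ≥ 3`) the polynomial `e i 2 + t * e i 0 + t ^ 2 * e i 1` is not the zero polynomial, so it is nonzero for all small `t > 0`; finitely many
different edges by periodicity. `det3` does not change (the shear has determinant one). `dot v (e' i) = dot v' (e i)` with `v' = (v 0 + t * v 2, v 1 + t ^ 2 * v 2, v 2)`. `‖P' i - P i‖ ≤ |t * P i 0 + t ^ 2 * P i 1|`, finitely many `i` by periodicity. -/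
theorem shear {N M : ℕ} (hN : 3 ≤ N) {P : ℕ → Fin 3 → ℝ} (hper : ∀ i, P (i + N) = P i)
    (hgp : ∀ i j k, ¬ i ≡ j [MOD N] → ¬ j ≡ k [MOD N] → ¬ i ≡ k [MOD N] →
        det3 (P (i + 1) - P i) (P (j + 1) - P j) (P (k + 1) - P k) ≠ 0)
    (hM : ∀ v : Fin 3 → ℝ, (∀ i, dot v (P (i + 1) - P i) ≠ 0) → sc N (fun i => dot v (P (i + 1) - P i)) ≤ M)
    {δ : ℝ} (hδ : 0 < δ) :
    ∃ P' : ℕ → Fin 3 → ℝ, (∀ i, P' (i + N) = P' i) ∧ (∀ i, ‖P' i - P i‖ < δ) ∧ (∀ i, P' (i + 1) 2 ≠ P' i 2) ∧
      (∀ i j k, ¬ i ≡ j [MOD N] → ¬ j ≡ k [MOD N] → ¬ i ≡ k [MOD N] →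
        det3 (P' (i + 1) - P' i) (P' (j + 1) - P' j) (P' (k + 1) - P' k) ≠ 0) ∧
      (∀ v : Fin 3 → ℝ, (∀ i, dot v (P' (i + 1) - P' i) ≠ 0) → sc N (fun i => dot v (P' (i + 1) - P' i)) ≤ M) := by
  have hN0 : 0 < N := by omega
  have hP : Function.Periodic P N := hper
  -- the edges are nonzero
  have hne : ∀ i, P (i + 1) - P i ≠ 0 := by
    intro i h0
    have h1 : ∀ a b : ℕ, a < b → b - a < N → ¬ a ≡ b [MOD N] := by
      intro a b hab hlt h
      rw [Nat.modEq_iff_dvd' hab.le] at h
      have := Nat.le_of_dvd (by omega) h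
      omega
    refine hgp i (i + 1) (i + 2) (h1 _ _ (by omega) (by omega)) (h1 _ _ (by omega) (by omega))
      (h1 _ _ (by omega) (by omega)) ?_
    rw [h0]
    simp [det3]
  -- the choice of `t`
  set B : ℝ := ∑ i ∈ range N, (|P i 0| + |P i 1|) + 1 with hB
  have hB1 : 1 ≤ B := by
    have : 0 ≤ ∑ i ∈ range N, (|P i 0| + |P i 1|) := Finset.sum_nonneg fun _ _ => by positivity
    linarith
  have hBi : ∀ i < N, |P i 0| + |P i 1| < B := by
    intro i hi
    have := Finset.single_le_sum (f := fun i => |P i 0| + |P i 1|) (fun j _ => by positivity) (Finset.mem_range.mpr hi)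
    have h2 : (fun i => |P i 0| + |P i 1|) i = |P i 0| + |P i 1| := rfl
    linarith
  set η : ℝ := min 1 (δ / B) with hη
  have hη0 : 0 < η := lt_min one_pos (by positivity)
  have hfin : (⋃ i ∈ (range N : Set ℕ), {t : ℝ | (P (i + 1) - P i) 2 + t * (P (i + 1) - P i) 0
      + t ^ 2 * (P (i + 1) - P i) 1 = 0}).Finite := by
    refine Set.Finite.biUnion (Finset.finite_toSet _) fun i _ => shear_roots _ (hne i)
  obtain ⟨t, ht, htn⟩ := (Set.Ioo_infinite hη0).exists_notMem_finite hfin
  have ht0 : 0 < t := ht.1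
  have ht1 : t < 1 := lt_of_lt_of_le ht.2 (min_le_left _ _)
  have htδ : t * B < δ := by
    have := lt_of_lt_of_le ht.2 (min_le_right _ _)
    rwa [lt_div_iff₀ (by linarith)] at this
  have hnz : ∀ i, (P (i + 1) - P i) 2 + t * (P (i + 1) - P i) 0 + t ^ 2 * (P (i + 1) - P i) 1 ≠ 0 := by
    intro i h0
    apply htn
    rw [Set.mem_iUnion₂]
    refine ⟨i % N, ?_, ?_⟩
    · simp only [coe_range, Set.mem_Iio]
      exact Nat.mod_lt _ hN0
    · have e1 : P (i % N) = P i := hP.map_mod_nat i
      have hQ : Function.Periodic (fun i => P (i + 1)) N := by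
        intro j
        show P (j + N + 1) = P (j + 1)
        rw [show j + N + 1 = (j + 1) + N by ring]
        exact hper (j + 1)
      have e2 : P (i % N + 1) = P (i + 1) := hQ.map_mod_nat i
      show (P (i % N + 1) - P (i % N)) 2 + t * (P (i % N + 1) - P (i % N)) 0
        + t ^ 2 * (P (i % N + 1) - P (i % N)) 1 = 0
      rw [e1, e2]
      exact h0
  refine ⟨fun i => shear_sh t (P i), ?_, ?_, ?_, ?_, ?_⟩
  · intro i
    show shear_sh t (P (i + N)) = shear_sh t (P i)
    rw [hper i]
  · intro i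
    rw [pi_norm_lt_iff hδ]
    have hi : |t * P i 0 + t ^ 2 * P i 1| < δ := by
      have e1 : P (i % N) = P i := hP.map_mod_nat i
      have h1 := hBi (i % N) (Nat.mod_lt _ hN0)
      rw [e1] at h1
      calc |t * P i 0 + t ^ 2 * P i 1| ≤ |t * P i 0| + |t ^ 2 * P i 1| := abs_add_le _ _
        _ = t * |P i 0| + t ^ 2 * |P i 1| := by
            rw [abs_mul, abs_mul, abs_of_pos ht0, abs_of_pos (by positivity : (0 : ℝ) < t ^ 2)]
        _ ≤ t * |P i 0| + t * |P i 1| := by
            have : t ^ 2 ≤ t := by nlinarith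
            nlinarith [abs_nonneg (P i 1)]
        _ = t * (|P i 0| + |P i 1|) := by ring
        _ ≤ t * B := mul_le_mul_of_nonneg_left h1.le ht0.le
        _ < δ := htδ
    intro j
    fin_cases j
    · simpa [shear_sh] using hδ
    · simpa [shear_sh] using hδ
    · have e : (shear_sh t (P i) - P i) 2 = t * P i 0 + t ^ 2 * P i 1 := by
        simp [shear_sh]
        ring
      show ‖(shear_sh t (P i) - P i) 2‖ < δ
      rw [e, Real.norm_eq_abs]
      exact hi
  · intro i h
    apply hnz i
    have h' : (shear_sh t (P (i + 1))) 2 = (shear_sh t (P i)) 2 := h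
    simp only [shear_sh] at h'
    simp at h'
    simp only [Pi.sub_apply]
    linarith
  · intro i j k hij hjk hik
    show det3 (shear_sh t (P (i + 1)) - shear_sh t (P i)) (shear_sh t (P (j + 1)) - shear_sh t (P j))
      (shear_sh t (P (k + 1)) - shear_sh t (P k)) ≠ 0
    rw [shear_sub, shear_sub, shear_sub, shear_det]
    exact hgp i j k hij hjk hik
  · intro v hv
    have e : ∀ i, dot v (shear_sh t (P (i + 1)) - shear_sh t (P i))
        = dot ![v 0 + t * v 2, v 1 + t ^ 2 * v 2, v 2] (P (i + 1) - P i) := by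
      intro i
      rw [shear_sub, shear_dot]
    have hv' : ∀ i, dot ![v 0 + t * v 2, v 1 + t ^ 2 * v 2, v 2] (P (i + 1) - P i) ≠ 0 := by
      intro i
      rw [← e i]
      exact hv i
    have h1 := hM _ hv'
    have e2 : (fun i => dot v (shear_sh t (P (i + 1)) - shear_sh t (P i)))
        = fun i => dot ![v 0 + t * v 2, v 1 + t ^ 2 * v 2, v 2] (P (i + 1) - P i) := funext e
    show sc N (fun i => dot v (shear_sh t (P (i + 1)) - shear_sh t (P i))) ≤ M
    rw [e2]
    exact h1

/-- TARGET 2. Vectors without independent triple are orthogonal to a common nonzero vector.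
PROOF. If all `e i` are zero, any vector. If all are parallel to a nonzero `e a`, a nonzero vector orthogonal to it. Otherwise `e a, e b` are not parallel and `n = e a × e b ≠ 0` (cross product); `dot n (e k) = det3 (e k) (e a) (e b) = 0`. -/
theorem planar {e : ℕ → Fin 3 → ℝ} (h : ∀ i j k, det3 (e i) (e j) (e k) = 0) : ∃ n : Fin 3 → ℝ, n ≠ 0 ∧ ∀ i, dot n (e i) = 0 := by
  by_cases hc : ∃ a b, (![e a 1 * e b 2 - e a 2 * e b 1, e a 2 * e b 0 - e a 0 * e b 2,
      e a 0 * e b 1 - e a 1 * e b 0] : Fin 3 → ℝ) ≠ 0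
  · obtain ⟨a, b, hab⟩ := hc
    refine ⟨_, hab, fun k => ?_⟩
    have h1 := h k a b
    simp only [det3] at h1
    simp [dot]
    linarith
  · push Not at hc
    have hx : ∀ a b, e a 1 * e b 2 - e a 2 * e b 1 = 0 ∧ e a 2 * e b 0 - e a 0 * e b 2 = 0 ∧
        e a 0 * e b 1 - e a 1 * e b 0 = 0 := by
      intro a b
      have h1 := hc a b
      have h2 := congrFun h1 0
      have h3 := congrFun h1 1
      have h4 := congrFun h1 2
      simp at h2 h3 h4
      exact ⟨h2, h3, h4⟩
    by_cases h0 : ∀ i, e i = 0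
    · refine ⟨![1, 0, 0], ?_, fun i => ?_⟩
      · intro h1
        have := congrFun h1 0
        simp at this
      · rw [h0 i]; simp [dot]
    · push Not at h0
      obtain ⟨a, ha⟩ := h0
      by_cases h01 : e a 0 = 0 ∧ e a 1 = 0
      · have h2 : e a 2 ≠ 0 := by
          intro h2
          apply ha
          funext i
          fin_cases i
          · exact h01.1
          · exact h01.2
          · exact h2
        refine ⟨![1, 0, 0], ?_, fun i => ?_⟩
        · intro h1
          have := congrFun h1 0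
          simp at this
        · have h3 := (hx a i).2.1
          rw [h01.1, zero_mul, sub_zero] at h3
          have h4 : e i 0 = 0 := (mul_eq_zero.mp h3).resolve_left h2
          simp [dot, h4]
      · refine ⟨![-e a 1, e a 0, 0], ?_, fun i => ?_⟩
        · intro h1
          apply h01
          have h2 := congrFun h1 0
          have h3 := congrFun h1 1
          simp at h2 h3
          exact ⟨h3, h2⟩
        · have h3 := (hx a i).2.2
          simp [dot]
          linarith

end SB758
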