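import Pool.Agent.Helper758_SB.Defs
import Pool.Agent.Helper758_SB.Defs2

namespace SB758

open Finset

theorem merge_neg_iff {x y : ℝ} (hx : x ≠ 0) (hy : y ≠ 0) :
    x * y < 0 ↔ ((0 < x) ↔ ¬ (0 < y)) := by
  rcases lt_or_gt_of_ne hx with h1 | h1 <;> rcases lt_or_gt_of_ne hy with h2 | h2
  · have := mul_pos_of_neg_of_neg h1 h2
    constructor
    · intro h
      linarith
    · intro h
      exact absurd (h.2 (not_lt.2 h2.le)) (not_lt.2 h1.le)
  · have := mul_neg_of_neg_of_pos h1 h2
    constructor
    · intro _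
      constructor
      · intro h
        exact absurd h (not_lt.2 h1.le)
      · intro h
        exact absurd h2 h
    · intro _
      exact this
  · have := mul_neg_of_pos_of_neg h1 h2
    constructor
    · intro _
      constructor
      · intro _
        exact not_lt.2 h2.le
      · intro _
        exact h1
    · intro _
      exact this
  · have := mul_pos h1 h2
    constructor
    · intro h
      linarith
    · intro h
      exact absurd h2 (h.1 h1)

/-- indicator of a sign change -/
noncomputable def merge_chi (x y : ℝ) : ℕ := if x * y < 0 then 1 else 0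

theorem merge_sc (N : ℕ) (f : ℕ → ℝ) :
    sc N f = ∑ i ∈ range N, merge_chi (f i) (f (i + 1)) := by
  unfold sc merge_chi
  rw [Finset.card_filter]

open Classical in
theorem merge_prop (A B C D E : Prop) (h1 : B → C → E) (h2 : ¬ B → ¬ C → ¬ E) :
    (if (E ↔ ¬ D) then 1 else 0) + (if (A ↔ ¬ E) then 1 else 0) ≤
      (if (B ↔ ¬ C) then 1 else 0) + (if (C ↔ ¬ D) then 1 else 0) +
        (if (A ↔ ¬ B) then 1 else 0 : ℕ) := by
  by_cases pa : A <;> by_cases pb : B <;> by_cases pc : C <;> by_cases pd : D <;>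
    by_cases pe : E <;> simp_all

open Classical in
theorem merge_key {a b c d : ℝ} (ha : a ≠ 0) (hb : b ≠ 0) (hc : c ≠ 0) (hd : d ≠ 0)
    (hbc : b + c ≠ 0) :
    merge_chi (b + c) d + merge_chi a (b + c) ≤ merge_chi b c + merge_chi c d + merge_chi a b := by
  unfold merge_chi
  rw [if_congr (merge_neg_iff hbc hd) rfl rfl, if_congr (merge_neg_iff ha hbc) rfl rfl,
    if_congr (merge_neg_iff hb hc) rfl rfl, if_congr (merge_neg_iff hc hd) rfl rfl,
    if_congr (merge_neg_iff ha hb) rfl rfl]
  have h1 : 0 < b → 0 < c → 0 < b + c := fun h h' => by linarith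
  have h2 : ¬ 0 < b → ¬ 0 < c → ¬ 0 < b + c := fun h h' => by
    push Not at h h' ⊢
    linarith
  exact merge_prop _ _ _ _ _ h1 h2

/-- TARGET 1. Removing a vertex merges two consecutive edges and does not increase the number of sign changes.
PROOF. `f 0 + f 1 ≠ 0` has the sign of `f 0` or of `f 1`. The sign changes of `g` at `k = 1, ..., N - 3` (between `g k = f (k+1)` and `g (k+1) = f (k+2)`) are sign changes of `f`. It remains to compare the sign changes of the three cyclic steps `f (N-1) → f 0 → f 1 → f 2` (with `f N = f 0`) with those of the two steps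
`f (N-1) → f 0 + f 1 → f 2`: replacing `f 0 + f 1` by `f 0` or by `f 1` in sign, this is clear. -/
theorem sc_merge {N : ℕ} (hN : 3 ≤ N) {f g : ℕ → ℝ} (hf : ∀ i, f (i + N) = f i) (hg : ∀ i, g (i + (N - 1)) = g i)
    (hf0 : ∀ i, f i ≠ 0) (hg0 : ∀ i, g i ≠ 0) (h0 : g 0 = f 0 + f 1) (h1 : ∀ k, 1 ≤ k → k + 1 < N → g k = f (k + 1)) :
    sc (N - 1) g ≤ sc N f := by
  obtain ⟨n, rfl⟩ : ∃ n, N = n + 3 := ⟨N - 3, by omega⟩
  have e : n + 3 - 1 = n + 2 := by omega
  rw [e] at hg ⊢
  rw [merge_sc, merge_sc, Finset.sum_range_succ', Finset.sum_range_succ,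
    Finset.sum_range_succ', Finset.sum_range_succ, Finset.sum_range_succ']
  have hmid : ∑ k ∈ range n, merge_chi (g (k + 1)) (g (k + 1 + 1)) =
      ∑ k ∈ range n, merge_chi (f (k + 1 + 1)) (f (k + 1 + 1 + 1)) := by
    apply Finset.sum_congr rfl
    intro k hk
    rw [mem_range] at hk
    rw [h1 (k + 1) (by omega) (by omega), h1 (k + 1 + 1) (by omega) (by omega)]
  have g1 : g (0 + 1) = f 2 := h1 1 (by omega) (by omega)
  have g2 : g (n + 1) = f (n + 1 + 1) := h1 (n + 1) (by omega) (by omega)
  have g3 : g (n + 1 + 1) = f 0 + f 1 := by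
    have := hg 0
    rw [zero_add] at this
    rw [← h0, ← this]
  have f3 : f (n + 1 + 1 + 1) = f 0 := by
    have := hf 0
    rw [zero_add] at this
    rw [← this]
  rw [hmid, g1, g2, g3, f3, h0]
  have hbc : f 0 + f 1 ≠ 0 := h0 ▸ hg0 0
  have key := merge_key (hf0 (n + 1 + 1)) (hf0 0) (hf0 1) (hf0 2) hbc
  have e1 : f (0 + 1) = f 1 := rfl
  have e2 : f (0 + 1 + 1) = f 2 := rfl
  rw [e1, e2]
  omega

/-- TARGET 2. The number of sign changes of the differences is twice the number of local maxima.
PROOF. The sign changes of the differences `d i = h (i+1) - h i` from plus to minus are the local maxima, those from minus to plus are as many, because the sequence is cyclic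
(`∑ i in range N, (σ (i+1) - σ i) = 0` where `σ i = if 0 < d i then 1 else 0`). -/
theorem sc_eq_two_mx {N : ℕ} {h : ℕ → ℝ} (hh : ∀ i, h (i + N) = h i) (hne : ∀ i, h (i + 1) ≠ h i) :
    sc N (fun i => h (i + 1) - h i) = 2 * mx N h := by
  classical
  have hσ : ∑ i ∈ range N, ((if 0 < h (i + 1 + 1) - h (i + 1) then (1 : ℤ) else 0) -
      (if 0 < h (i + 1) - h i then (1 : ℤ) else 0)) = 0 := by
    rw [Finset.sum_range_sub (fun i => if 0 < h (i + 1) - h i then (1 : ℤ) else 0)]
    have e1 : h (N + 1) = h (0 + 1) := by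
      have := hh 1
      rw [add_comm 1 N] at this
      exact this
    have e2 : h N = h 0 := by
      have := hh 0
      rw [zero_add] at this
      exact this
    rw [e1, e2]
    ring
  have key : ∀ i, ((if (h (i + 1) - h i) * (h (i + 1 + 1) - h (i + 1)) < 0 then 1 else 0 : ℤ)) =
      2 * (if h i < h (i + 1) ∧ h (i + 2) < h (i + 1) then (1 : ℤ) else 0) +
      ((if 0 < h (i + 1 + 1) - h (i + 1) then (1 : ℤ) else 0) -
      (if 0 < h (i + 1) - h i then (1 : ℤ) else 0)) := by
    intro i
    have n1 : h (i + 1) - h i ≠ 0 := sub_ne_zero.2 (hne i)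
    have n2 : h (i + 1 + 1) - h (i + 1) ≠ 0 := sub_ne_zero.2 (hne (i + 1))
    have e3 : h (i + 2) = h (i + 1 + 1) := rfl
    rw [if_congr (merge_neg_iff n1 n2) rfl rfl]
    have p1 : (h i < h (i + 1) ∧ h (i + 2) < h (i + 1)) ↔
        (0 < h (i + 1) - h i ∧ ¬ 0 < h (i + 1 + 1) - h (i + 1)) := by
      rw [e3]
      constructor
      · rintro ⟨a, b⟩
        exact ⟨by linarith, by linarith⟩
      · rintro ⟨a, b⟩
        refine ⟨by linarith, ?_⟩
        have := lt_of_le_of_ne (not_lt.1 b) n2
        linarith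
    rw [if_congr p1 rfl rfl]
    by_cases a : 0 < h (i + 1) - h i <;> by_cases b : 0 < h (i + 1 + 1) - h (i + 1) <;>
      simp [a, b]
  have hsum : ((sc N (fun i => h (i + 1) - h i) : ℕ) : ℤ) = 2 * ((mx N h : ℕ) : ℤ) := by
    unfold sc mx
    rw [Finset.card_filter, Finset.card_filter]
    push_cast
    rw [Finset.mul_sum]
    have := Finset.sum_congr (rfl : range N = range N) (fun i _ => key i)
    rw [Finset.sum_add_distrib, hσ, add_zero] at this
    exact this
  exact_mod_cast hsum

theorem merge_dense {e : Fin 3 → ℝ} (he : e ≠ 0) : Dense {v : Fin 3 → ℝ | dot v e ≠ 0} := by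
  intro v
  by_cases hv : dot v e ≠ 0
  · exact subset_closure hv
  · push Not at hv
    have hpos : dot e e ≠ 0 := by
      intro h
      apply he
      unfold dot at h
      have a0 : e 0 = 0 := by nlinarith [mul_self_nonneg (e 0), mul_self_nonneg (e 1), mul_self_nonneg (e 2)]
      have a1 : e 1 = 0 := by nlinarith [mul_self_nonneg (e 0), mul_self_nonneg (e 1), mul_self_nonneg (e 2)]
      have a2 : e 2 = 0 := by nlinarith [mul_self_nonneg (e 0), mul_self_nonneg (e 1), mul_self_nonneg (e 2)]
      funext i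
      fin_cases i
      · exact a0
      · exact a1
      · exact a2
    have hc : Continuous (fun t : ℝ => v + t • e) := by fun_prop
    have ht : Filter.Tendsto (fun t : ℝ => v + t • e) (nhdsWithin 0 {0}ᶜ) (nhds v) := by
      have h2 := hc.tendsto 0
      simp only [zero_smul, add_zero] at h2
      exact h2.mono_left nhdsWithin_le_nhds
    refine mem_closure_of_tendsto ht ?_
    filter_upwards [self_mem_nhdsWithin] with t ht
    have e1 : dot (v + t • e) e = dot v e + t * dot e e := by
      simp only [dot, Pi.add_apply, Pi.smul_apply, smul_eq_mul]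
      ring
    show dot (v + t • e) e ≠ 0
    rw [e1, hv, zero_add]
    exact mul_ne_zero ht hpos

theorem merge_cont (e : Fin 3 → ℝ) : Continuous (fun v : Fin 3 → ℝ => dot v e) := by
  unfold dot
  fun_prop

/-- TARGET 3. There are directions, arbitrarily close to a given one, that are not orthogonal to any of countably many (here: periodically many) nonzero vectors.
PROOF. `v' = v + t • (1, x, x^2)` where `x` is not a root of the finitely many nonzero polynomials `e i 0 + e i 1 * x + e i 2 * x^2`, and `t > 0` is small and avoids finitely many values. -/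
theorem generic_near {N : ℕ} (hN : 1 ≤ N) {e : ℕ → Fin 3 → ℝ} (he : ∀ i, e (i + N) = e i) (hne : ∀ i, e i ≠ 0) (v : Fin 3 → ℝ) {δ : ℝ} (hδ : 0 < δ) :
    ∃ v' : Fin 3 → ℝ, ‖v' - v‖ < δ ∧ ∀ i, dot v' (e i) ≠ 0 := by
  have _ := hN
  have _ := he
  have hd : Dense (⋂ i : ℕ, {v : Fin 3 → ℝ | dot v (e i) ≠ 0}) := by
    apply dense_iInter_of_isOpen
    · intro i
      exact isOpen_ne_fun (merge_cont _) continuous_const
    · intro i
      exact merge_dense (hne i)
  obtain ⟨v', h1, h2⟩ := hd.inter_nhds_nonempty (Metric.ball_mem_nhds v hδ)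
  refine ⟨v', ?_, ?_⟩
  · rw [← dist_eq_norm]
    exact h2
  · intro i
    rw [Set.mem_iInter] at h1
    exact h1 i

/-- TARGET 4. The number of sign changes is locally constant. -/
theorem sc_near {N : ℕ} (hN : 1 ≤ N) {e : ℕ → Fin 3 → ℝ} (he : ∀ i, e (i + N) = e i) (v : Fin 3 → ℝ) (hv : ∀ i, dot v (e i) ≠ 0) :
    ∃ δ : ℝ, 0 < δ ∧ ∀ v' : Fin 3 → ℝ, ‖v' - v‖ < δ → (∀ i, dot v' (e i) ≠ 0) ∧
      sc N (fun i => dot v' (e i)) = sc N (fun i => dot v (e i)) := by
  have hev : ∀ᶠ v' in nhds v, ∀ i ∈ range N, 0 < dot v' (e i) * dot v (e i) := by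
    rw [Filter.eventually_all_finset]
    intro i _
    have hc : Continuous (fun v' : Fin 3 → ℝ => dot v' (e i) * dot v (e i)) :=
      (merge_cont (e i)).mul continuous_const
    exact hc.continuousAt.eventually (lt_mem_nhds (mul_self_pos.2 (hv i)))
  rw [Metric.eventually_nhds_iff] at hev
  obtain ⟨δ, hδ, h⟩ := hev
  refine ⟨δ, hδ, ?_⟩
  intro v' hv'
  have h1 : ∀ i ∈ range N, 0 < dot v' (e i) * dot v (e i) := h (by rw [dist_eq_norm]; exact hv')
  have hper : ∀ k i, e (i + k * N) = e i := by
    intro k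
    induction k with
    | zero => simp
    | succ k ih =>
      intro i
      have : i + (k + 1) * N = i + k * N + N := by ring
      rw [this, he, ih]
  have h2 : ∀ i, 0 < dot v' (e i) * dot v (e i) := by
    intro i
    have hi : e i = e (i % N) := by
      have := hper (i / N) (i % N)
      rw [← this]
      congr 1
      have := Nat.mod_add_div i N
      rw [mul_comm] at this
      exact this.symm
    rw [hi]
    exact h1 _ (by rw [mem_range]; exact Nat.mod_lt _ (by omega))
  refine ⟨?_, ?_⟩
  · intro i h0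
    have := h2 i
    rw [h0, zero_mul] at this
    exact lt_irrefl _ this
  · unfold sc
    congr 1
    apply Finset.filter_congr
    intro i _
    have p := mul_pos (h2 i) (h2 (i + 1))
    have e1 : dot v' (e i) * dot v (e i) * (dot v' (e (i + 1)) * dot v (e (i + 1))) =
      (dot v' (e i) * dot v' (e (i + 1))) * (dot v (e i) * dot v (e (i + 1))) := by ring
    rw [e1] at p
    exact neg_iff_neg_of_mul_pos p

end SB758
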