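import Pool.Agent.Helper758_SB.J19_ct
import Pool.Agent.Helper758_SB.J20_transfer
import Pool.Agent.Helper758_SB.J22b_regular
import Pool.Agent.Helper758_SB.J22c_shear
import Pool.Agent.Helper758_SB.J23_merge
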