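import Mathlib

/-! Common definitions for the planar part. -/

namespace SB758

open Finset

/-- planar cross product -/
def cr (a b : ℝ × ℝ) : ℝ := a.1 * b.2 - a.2 * b.1

/-- orientation of a triangle -/
def ori (a b c : ℝ × ℝ) : ℝ := cr (b - a) (c - a)

/-- value at `w` of the affine function with coefficients `a, b, c` -/
def aff (a b c : ℝ) (w : ℝ × ℝ) : ℝ := a * w.1 + b * w.2 + c

open Classical in
/-- number of sign changes of a cyclic sequence of period `N` -/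
noncomputable def sc (N : ℕ) (f : ℕ → ℝ) : ℕ := ((range N).filter (fun i => f i * f (i + 1) < 0)).card

/-- cyclic planar data: points `w i` with signs `s i`, period `N`, no three on a line, and every affine
function that vanishes at none of the points gives exactly `m` or `m + 2` sign changes -/
structure Cyc (N m : ℕ) (w : ℕ → ℝ × ℝ) (s : ℕ → ℝ) : Prop where
  wper : ∀ i, w (i + N) = w i
  sper : ∀ i, s (i + N) = s i
  sgn : ∀ i, s i = 1 ∨ s i = -1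
  gp : ∀ i j k, ¬ i ≡ j [MOD N] → ¬ j ≡ k [MOD N] → ¬ i ≡ k [MOD N] → ori (w i) (w j) (w k) ≠ 0
  tv : ∀ a b c, (∀ i, aff a b c (w i) ≠ 0) →
    sc N (fun i => s i * aff a b c (w i)) = m ∨ sc N (fun i => s i * aff a b c (w i)) = m + 2

/-- no bitangents: no line through two distinct non-adjacent points `w (i+1)`, `w (j+1)` supports the
(signed) curve at both points -/
def NB (N : ℕ) (w : ℕ → ℝ × ℝ) (s : ℕ → ℝ) : Prop :=
  ∀ i j, ¬ i ≡ j [MOD N] → ¬ i ≡ j + 1 [MOD N] → ¬ i + 1 ≡ j [MOD N] → ∀ a b c,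
    aff a b c (w (i + 1)) = 0 → aff a b c (w (j + 1)) = 0 →
    ¬ (0 < (s i * aff a b c (w i)) * (s (i + 2) * aff a b c (w (i + 2))) ∧
       0 < (s j * aff a b c (w j)) * (s (j + 2) * aff a b c (w (j + 2))))

/-- the point `w (k+1)` is a gain for the functional `cr · u` -/
def Gain (w : ℕ → ℝ × ℝ) (s : ℕ → ℝ) (u : ℝ × ℝ) (k : ℕ) : Prop :=
  s (k + 1) * s k * (cr (w (k + 1)) u - cr (w k) u) < 0 ∧
  s (k + 1) * s (k + 2) * (cr (w (k + 1)) u - cr (w (k + 2)) u) < 0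

/-- the point `w (k+1)` is a loss for the functional `cr · u` -/
def Loss (w : ℕ → ℝ × ℝ) (s : ℕ → ℝ) (u : ℝ × ℝ) (k : ℕ) : Prop :=
  0 < s (k + 1) * s k * (cr (w (k + 1)) u - cr (w k) u) ∧
  0 < s (k + 1) * s (k + 2) * (cr (w (k + 1)) u - cr (w (k + 2)) u)

/-- a path `w 0, ..., w B` without three points on a line, without bitangents, in which every affine function alternates
at most `m + 2` times -/
structure PathOK (m B : ℕ) (w : ℕ → ℝ × ℝ) : Prop where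
  gp : ∀ i j k, i < j → j < k → k ≤ B → ori (w i) (w j) (w k) ≠ 0
  nb : ∀ i j, i + 2 ≤ j → j + 2 ≤ B → ∀ x y z, aff x y z (w (i + 1)) = 0 → aff x y z (w (j + 1)) = 0 →
    ¬ (0 < aff x y z (w i) * aff x y z (w (i + 2)) ∧ 0 < aff x y z (w j) * aff x y z (w (j + 2)))
  alt : ∀ x y z, ∀ (K : ℕ) (t : ℕ → ℕ), t K ≤ B →
    (∀ k < K, t k < t (k + 1) ∧ aff x y z (w (t k)) * aff x y z (w (t (k + 1))) < 0) → K ≤ m + 2

/-- height of the point `w i` in the direction normal to the angle `ψ` -/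
noncomputable def hgt (w : ℕ → ℝ × ℝ) (ψ : ℝ) (i : ℕ) : ℝ := -(w i).1 * Real.sin ψ + (w i).2 * Real.cos ψ

/-- a path `w 0, ..., w B` with edge lengths `r i` and (lifted) edge angles `θ i`, `i < B`. The vertex `w (i+1)` is
tangent at the angle `ψ` if `ψ` lies between `θ i` and `θ (i+1)`. `nba`: no bitangents; `alt`: at most `m + 2` alternations. -/
structure Ang (m B : ℕ) (w : ℕ → ℝ × ℝ) (θ r : ℕ → ℝ) : Prop where
  r_pos : ∀ i < B, 0 < r i
  step : ∀ i < B, w (i + 1) = w i + (r i * Real.cos (θ i), r i * Real.sin (θ i))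
  turn : ∀ i, i + 2 ≤ B → |θ (i + 1) - θ i| < Real.pi
  ne : ∀ i, i + 2 ≤ B → θ (i + 1) ≠ θ i
  nba : ∀ i j, i + 2 ≤ j → j + 2 ≤ B → ∀ (ψ : ℝ) (n : ℤ), ψ ∈ Set.uIcc (θ i) (θ (i + 1)) →
    ψ + n * Real.pi ∈ Set.uIcc (θ j) (θ (j + 1)) → hgt w ψ (i + 1) ≠ hgt w ψ (j + 1)
  alt : ∀ (ψ H : ℝ) (K : ℕ) (t : ℕ → ℕ), t K ≤ B →
    (∀ k < K, t k < t (k + 1) ∧ (hgt w ψ (t k) - H) * (hgt w ψ (t (k + 1)) - H) < 0) → K ≤ m + 2

/-- a left turning chain `z 0, ..., z L` with total turning less than `π` -/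
def GoodChain (L : ℕ) (z : ℕ → ℝ × ℝ) : Prop :=
  ∀ i j, i < j → j < L → 0 < cr (z (i + 1) - z i) (z (j + 1) - z j)

/-- disjoint increasing blocks `lo l, ..., hi l` (`l ≤ S`) of indices in `0, ..., L` and points `x l` in the convex hulls
of the corresponding points `z t` -/
structure Blocks (L S : ℕ) (z : ℕ → ℝ × ℝ) (lo hi : ℕ → ℕ) (x : ℕ → ℝ × ℝ) : Prop where
  le : ∀ l ≤ S, lo l ≤ hi l
  lt : ∀ l < S, hi l < lo (l + 1)
  top : hi S ≤ L
  mem : ∀ l ≤ S, x l ∈ convexHull ℝ (z '' Set.Icc (lo l) (hi l))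

/-- open conditions on a direction `u` satisfied near `x (l+1) - x (l-1)` -/
structure Dir (L S : ℕ) (z : ℕ → ℝ × ℝ) (lo hi : ℕ → ℕ) (x : ℕ → ℝ × ℝ) (l : ℕ) (u : ℝ × ℝ) : Prop where
  p1 : ∀ t ≤ L, (t < lo (l - 1) ∨ hi (l + 1) < t) → cr (z t) u < cr (x l) u
  p2 : ∀ i j, l + 2 ≤ i → i < j → j ≤ S → 0 < cr u (x j - x i)
  p2' : ∀ i j, i < j → j + 2 ≤ l → 0 < cr (x j - x i) u
  p3 : ∀ i t, l + 2 ≤ i → i ≤ S → hi i < t → t ≤ L → 0 < cr u (z t - x i)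
  p3' : ∀ i t, i + 2 ≤ l → t < lo i → 0 < cr (x i - z t) u
  p4 : 0 < cr (z 1 - z 0) u + cr u (z L - z (L - 1))

/-- `br` is a set of breaks: between breaks the signs are constant and the points form a convex chain with turning
less than `π` -/
structure Breaks (N : ℕ) (w : ℕ → ℝ × ℝ) (s : ℕ → ℝ) (br : Finset ℕ) : Prop where
  rng : ∀ k ∈ br, 1 ≤ k ∧ k ≤ N
  one : 1 ∈ br
  top : N ∈ br
  sg : ∀ k, 1 ≤ k → k ≤ N → k ∉ br → s (k - 1) = s k ∧ s (k + 1) = s k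
  good : ∀ a b, 1 ≤ a → a + 2 ≤ b → b ≤ N → (∀ k ∈ br, ¬ (a < k ∧ k < b)) →
    ∃ ε : ℝ, (ε = 1 ∨ ε = -1) ∧ ∀ k l, a ≤ k → k < l → l < b → 0 < ε * cr (w (k + 1) - w k) (w (l + 1) - w l)

/-- planar point of the edge `i` of the polygon `p` in `(ℝ × ℝ) × ℝ` (last coordinate: height) -/
noncomputable def pt (p : ℕ → (ℝ × ℝ) × ℝ) (i : ℕ) : ℝ × ℝ := ((p (i + 1)).2 - (p i).2)⁻¹ • ((p (i + 1)).1 - (p i).1)

open Classical in
/-- sign of the height difference of the edge `i` -/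
noncomputable def sg (p : ℕ → (ℝ × ℝ) × ℝ) (i : ℕ) : ℝ := if 0 < (p (i + 1)).2 - (p i).2 then 1 else -1

/-- the point `y` of the edge `j` lies in the triangle at the vertex `p (i+1)`, and is not one of `p i`, `p (i+2)` -/
def Pierced (p : ℕ → (ℝ × ℝ) × ℝ) (i j : ℕ) (y : (ℝ × ℝ) × ℝ) : Prop :=
  y ∈ segment ℝ (p j) (p (j + 1)) ∧ y ∈ convexHull ℝ {p i, p (i + 1), p (i + 2)} ∧ y ≠ p i ∧ y ≠ p (i + 2)

end SB758
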