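import Mathlib

namespace SB758

/-- twice the signed area of the projection of a triangle to the first two coordinates -/
def ar (a b c : Fin 3 → ℝ) : ℝ := (b 0 - a 0) * (c 1 - a 1) - (b 1 - a 1) * (c 0 - a 0)

namespace J30aux

open MvPolynomial

theorem exists_eval_ne {σ : Type} (p : MvPolynomial σ ℝ) (hp : p ≠ 0) (c : σ → ℝ) {δ : ℝ}
    (hδ : 0 < δ) : ∃ x : σ → ℝ, (∀ i, |x i - c i| < δ) ∧ eval x p ≠ 0 := by
  by_contra hcon
  push Not at hcon
  apply hp
  apply MvPolynomial.funext_set (fun i => Metric.ball (c i) δ)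
  · intro i
    rw [Real.ball_eq_Ioo]
    exact Set.Ioo_infinite (by linarith)
  · intro x hx
    rw [map_zero]
    apply hcon x
    intro i
    have := hx i (Set.mem_univ i)
    rwa [Metric.mem_ball, Real.dist_eq] at this

/-- the area polynomial -/
noncomputable def pa (i j k : ℕ) : MvPolynomial (ℕ × Bool) ℝ :=
  (X (j, false) - X (i, false)) * (X (k, true) - X (i, true)) -
    (X (j, true) - X (i, true)) * (X (k, false) - X (i, false))

/-- coefficients of the line through two points -/
noncomputable def pA (i i' : ℕ) : MvPolynomial (ℕ × Bool) ℝ := X (i', true) - X (i, true)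

noncomputable def pB (i i' : ℕ) : MvPolynomial (ℕ × Bool) ℝ := X (i, false) - X (i', false)

noncomputable def pC (i i' : ℕ) : MvPolynomial (ℕ × Bool) ℝ :=
  -(pA i i' * X (i, false)) - pB i i' * X (i, true)

/-- the determinant -/
noncomputable def pd (i i' j j' k k' : ℕ) : MvPolynomial (ℕ × Bool) ℝ :=
  pC i i' * (pA j j' * pB k k' - pA k k' * pB j j') -
    pC j j' * (pA i i' * pB k k' - pA k k' * pB i i') +
    pC k k' * (pA i i' * pB j j' - pA j j' * pB i i')

theorem pa_ne {i j k : ℕ} (hij : i ≠ j) (hjk : j ≠ k) (hik : i ≠ k) : pa i j k ≠ 0 := by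
  intro h
  have h1 := congrArg (eval (fun v : ℕ × Bool => if v = (j, false) ∨ v = (k, true) then (1 : ℝ)
    else 0)) h
  simp [pa, hij, hjk, hik, hij.symm, hjk.symm, hik.symm] at h1

theorem pd_ne {i i' j j' k k' : ℕ} (h1 : i ≠ i') (h2 : i ≠ j) (h3 : i ≠ j') (h4 : i ≠ k)
    (h5 : i ≠ k') (h6 : i' ≠ j) (h7 : i' ≠ j') (h8 : i' ≠ k) (h9 : i' ≠ k') (h10 : j ≠ j')
    (h11 : j ≠ k) (h12 : j ≠ k') (h13 : j' ≠ k) (h14 : j' ≠ k') (h15 : k ≠ k') :
    pd i i' j j' k k' ≠ 0 := by
  intro h
  have h0 := congrArg (eval (fun v : ℕ × Bool => if v = (j', false) ∨ v = (k, false) ∨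
    v = (i', true) ∨ v = (k', true) then (1 : ℝ) else 0)) h
  simp [pd, pA, pB, pC, h1, h2, h3, h4, h5, h6, h7, h8, h9, h10, h11, h12, h13, h14, h15,
    h1.symm, h2.symm, h3.symm, h4.symm, h5.symm, h6.symm, h7.symm, h8.symm, h9.symm, h10.symm,
    h11.symm, h12.symm, h13.symm, h14.symm, h15.symm] at h0

/-- the evaluation of the determinant vanishes when three segments have a common point -/
theorem pd_eval_zero (x : ℕ × Bool → ℝ) (i i' j j' k k' : ℕ) (s t r : ℝ)
    (e1 : (1 - s) * x (i, false) + s * x (i', false) = (1 - t) * x (j, false) + t * x (j', false))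
    (e2 : (1 - s) * x (i, true) + s * x (i', true) = (1 - t) * x (j, true) + t * x (j', true))
    (e3 : (1 - t) * x (j, false) + t * x (j', false) = (1 - r) * x (k, false) + r * x (k', false))
    (e4 : (1 - t) * x (j, true) + t * x (j', true) = (1 - r) * x (k, true) + r * x (k', true)) :
    eval x (pd i i' j j' k k') = 0 := by
  obtain ⟨p, hp⟩ : ∃ p, p = (1 - s) * x (i, false) + s * x (i', false) := ⟨_, rfl⟩
  obtain ⟨q, hq⟩ : ∃ q, q = (1 - s) * x (i, true) + s * x (i', true) := ⟨_, rfl⟩
  have hpj : p = (1 - t) * x (j, false) + t * x (j', false) := hp.trans e1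
  have hqj : q = (1 - t) * x (j, true) + t * x (j', true) := hq.trans e2
  have hpk : p = (1 - r) * x (k, false) + r * x (k', false) := hpj.trans e3
  have hqk : q = (1 - r) * x (k, true) + r * x (k', true) := hqj.trans e4
  have hline : ∀ (a a' : ℕ) (u : ℝ), p = (1 - u) * x (a, false) + u * x (a', false) →
      q = (1 - u) * x (a, true) + u * x (a', true) →
      eval x (pC a a') = -(eval x (pA a a') * p + eval x (pB a a') * q) := by
    intro a a' u h1 h2
    simp only [pC, pA, pB, map_sub, map_neg, map_mul, eval_X]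
    rw [h1, h2]
    ring
  have hi := hline i i' s hp hq
  have hj := hline j j' t hpj hqj
  have hk := hline k k' r hpk hqk
  simp only [pd, map_add, map_sub, map_mul]
  rw [hi, hj, hk]
  ring

end J30aux

open J30aux MvPolynomial in
/-- TARGET. Every closed polygon can be moved by an arbitrarily small motion to one whose projection to the first two coordinates is in general position:
no three vertices on a line, and no three pairwise non-adjacent edges through a common point (`x`, `y` are the coordinates of the point).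
PROOF. (`N ≥ 3`; for `N ≤ 5` the second condition is void.) Consider the polynomial ring in the `2 N` variables `X i, Y i`, `i < N` (first two coordinates of the vertices). For every triple `i, j, k` of different indices the polynomial `ar` is nonzero (value 1 for the points `(0,0), (1,0), (0,1)`).
For pairwise non-adjacent edges `i, j, k` (then `i, i+1, j, j+1, k, k+1` are six different indices mod `N`) let the line of the edge `i` be `A i x + B i y + C i = 0` with `A i = Y (i+1) - Y i`, `B i = X i - X (i+1)`, `C i = - A i X i - B i Y i`; if three segments have a common point then the `3 × 3` determinant of `(A, B, C)` is 0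
(the point `(x, y, 1)` is in the kernel). This determinant is a nonzero polynomial: evaluate it at `p i = (0,0), p (i+1) = (0,1), p j = (0,0), p (j+1) = (1,0), p k = (1,0), p (k+1) = (0,1)` (lines `x = 0`, `y = 0`, `x + y = 1`).
The product of these finitely many nonzero polynomials is nonzero and so does not vanish identically on the product of small open intervals around the coordinates of `P` (`MvPolynomial.funext_set` or similar; or a successive choice of the vertices, each time avoiding finitely many lines).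
Let `Q i` have these first two coordinates (index `i % N`) and the third coordinate of `P i`. -/
theorem gp_near {N : ℕ} (hN : 3 ≤ N) {P : ℕ → Fin 3 → ℝ} (hper : ∀ i, P (i + N) = P i) {δ : ℝ} (hδ : 0 < δ) :
    ∃ Q : ℕ → Fin 3 → ℝ, (∀ i, Q (i + N) = Q i) ∧ (∀ i, ‖Q i - P i‖ < δ) ∧
      (∀ i j k, ¬ i ≡ j [MOD N] → ¬ j ≡ k [MOD N] → ¬ i ≡ k [MOD N] → ar (Q i) (Q j) (Q k) ≠ 0) ∧
      (∀ i j k, ¬ i ≡ j [MOD N] → ¬ j ≡ k [MOD N] → ¬ i ≡ k [MOD N] → ¬ i + 1 ≡ j [MOD N] → ¬ j + 1 ≡ i [MOD N] →
        ¬ j + 1 ≡ k [MOD N] → ¬ k + 1 ≡ j [MOD N] → ¬ i + 1 ≡ k [MOD N] → ¬ k + 1 ≡ i [MOD N] →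
        ∀ s t r : ℝ, ¬ ((1 - s) * Q i 0 + s * Q (i + 1) 0 = (1 - t) * Q j 0 + t * Q (j + 1) 0 ∧
          (1 - s) * Q i 1 + s * Q (i + 1) 1 = (1 - t) * Q j 1 + t * Q (j + 1) 1 ∧
          (1 - t) * Q j 0 + t * Q (j + 1) 0 = (1 - r) * Q k 0 + r * Q (k + 1) 0 ∧
          (1 - t) * Q j 1 + t * Q (j + 1) 1 = (1 - r) * Q k 1 + r * Q (k + 1) 1)) := by
  classical
  set T1 : Finset (ℕ × ℕ × ℕ) := (Finset.range N ×ˢ Finset.range N ×ˢ Finset.range N).filter
    (fun t => t.1 ≠ t.2.1 ∧ t.2.1 ≠ t.2.2 ∧ t.1 ≠ t.2.2) with hT1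
  set T2 : Finset (ℕ × ℕ × ℕ) := (Finset.range N ×ˢ Finset.range N ×ˢ Finset.range N).filter
    (fun t => t.1 ≠ t.2.1 ∧ t.2.1 ≠ t.2.2 ∧ t.1 ≠ t.2.2 ∧ (t.1 + 1) % N ≠ t.2.1 ∧
      (t.2.1 + 1) % N ≠ t.1 ∧ (t.2.1 + 1) % N ≠ t.2.2 ∧ (t.2.2 + 1) % N ≠ t.2.1 ∧
      (t.1 + 1) % N ≠ t.2.2 ∧ (t.2.2 + 1) % N ≠ t.1) with hT2
  have hN0 : 0 < N := by omega
  have hsucc : ∀ a < N, (a + 1) % N = if a + 1 = N then 0 else a + 1 := by
    intro a ha
    split_ifs with h5
    · rw [h5, Nat.mod_self]
    · exact Nat.mod_eq_of_lt (by omega)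
  have hself : ∀ a < N, a ≠ (a + 1) % N := by
    intro a ha
    rw [hsucc a ha]
    split_ifs <;> omega
  have hinj : ∀ a < N, ∀ b < N, a ≠ b → (a + 1) % N ≠ (b + 1) % N := by
    intro a ha b hb hab
    rw [hsucc a ha, hsucc b hb]
    split_ifs <;> omega
  have hprod : (∏ t ∈ T1, pa t.1 t.2.1 t.2.2) *
      (∏ t ∈ T2, pd t.1 ((t.1 + 1) % N) t.2.1 ((t.2.1 + 1) % N) t.2.2 ((t.2.2 + 1) % N)) ≠ 0 := by
    apply mul_ne_zero
    · rw [Finset.prod_ne_zero_iff]
      intro t ht
      rw [hT1, Finset.mem_filter] at ht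
      exact pa_ne ht.2.1 ht.2.2.1 ht.2.2.2
    · rw [Finset.prod_ne_zero_iff]
      intro t ht
      rw [hT2, Finset.mem_filter, Finset.mem_product, Finset.mem_product] at ht
      obtain ⟨⟨m1, m2, m3⟩, c1, c2, c3, c4, c5, c6, c7, c8, c9⟩ := ht
      rw [Finset.mem_range] at m1 m2 m3
      exact pd_ne (hself _ m1) c1 c5.symm c3 c9.symm c4 (hinj _ m1 _ m2 c1) c8
        (hinj _ m1 _ m3 c3) (hself _ m2) c2 c7.symm c6 (hinj _ m2 _ m3 c2) (hself _ m3)
  obtain ⟨x, hx, hne⟩ := exists_eval_ne _ hprod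
    (fun v : ℕ × Bool => if v.2 then P v.1 1 else P v.1 0) hδ
  rw [map_mul, map_prod, map_prod] at hne
  have hne1 := left_ne_zero_of_mul hne
  have hne2 := right_ne_zero_of_mul hne
  rw [Finset.prod_ne_zero_iff] at hne1 hne2
  have hPer : Function.Periodic P N := hper
  refine ⟨fun i => ![x (i % N, false), x (i % N, true), P i 2], ?_, ?_, ?_, ?_⟩
  · intro i
    simp only [Nat.add_mod_right, hper]
  · intro i
    rw [pi_norm_lt_iff hδ]
    intro c
    have hPi : P i = P (i % N) := (hPer.map_mod_nat i).symm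
    rw [Real.norm_eq_abs]
    fin_cases c
    · have h1 := hx (i % N, false)
      simp only [Bool.false_eq_true, if_false] at h1
      rw [← hPi] at h1
      simpa using h1
    · have h1 := hx (i % N, true)
      simp only [if_true] at h1
      rw [← hPi] at h1
      simpa using h1
    · simpa using hδ
  · intro i j k h1 h2 h3
    have h4 := hne1 (i % N, j % N, k % N) (by
      rw [hT1, Finset.mem_filter, Finset.mem_product, Finset.mem_product, Finset.mem_range,
        Finset.mem_range, Finset.mem_range]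
      exact ⟨⟨Nat.mod_lt _ hN0, Nat.mod_lt _ hN0, Nat.mod_lt _ hN0⟩, h1, h2, h3⟩)
    simp only [pa, map_sub, map_mul, eval_X] at h4
    simpa [ar] using h4
  · intro i j k h1 h2 h3 h4 h5 h6 h7 h8 h9 s t r ⟨e1, e2, e3, e4⟩
    have hm : ∀ a : ℕ, (a + 1) % N = (a % N + 1) % N := fun a => (Nat.mod_add_mod a N 1).symm
    have h10 := hne2 (i % N, j % N, k % N) (by
      rw [hT2, Finset.mem_filter, Finset.mem_product, Finset.mem_product, Finset.mem_range,
        Finset.mem_range, Finset.mem_range]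
      refine ⟨⟨Nat.mod_lt _ hN0, Nat.mod_lt _ hN0, Nat.mod_lt _ hN0⟩, h1, h2, h3, ?_, ?_, ?_, ?_,
        ?_, ?_⟩
      · rw [← hm]; exact h4
      · rw [← hm]; exact h5
      · rw [← hm]; exact h6
      · rw [← hm]; exact h7
      · rw [← hm]; exact h8
      · rw [← hm]; exact h9)
    apply h10
    simp only [← hm]
    apply pd_eval_zero x _ _ _ _ _ _ s t r
    · simpa using e1
    · simpa using e2
    · simpa using e3
    · simpa using e4

end SB758
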