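import Pool.Agent.Helper548.Knot.Base

namespace SB758

open Knot548

open Classical in
/-- number of half-open edges of the closed planar polygon `c` (period `N`) through `x` -/
noncomputable def nm (N : ℕ) (c : ℕ → ℂ) (x : ℂ) : ℕ := ((Finset.range N).filter (fun k => x ∈ hseg (c k) (c (k + 1)))).card

theorem dgp_congr {N : ℕ} {c : ℕ → ℂ} (hper : ∀ i, c (i + N) = c i) {i j : ℕ} (h : i ≡ j [MOD N]) : c i = c j := by
  have hm : ∀ i, c i = c (i % N) := by
    intro i
    have h1 : ∀ m r, c (r + N * m) = c r := by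
      intro m
      induction m with
      | zero => intro r; simp
      | succ m ih => intro r; rw [show r + N * (m + 1) = (r + N * m) + N by ring, hper, ih]
    conv_lhs => rw [← Nat.mod_add_div i N]
    exact h1 _ _
  rw [hm i, hm j, h]

theorem dgp_ne1 {N : ℕ} (hN : 3 ≤ N) (i : ℕ) : ¬ i ≡ i + 1 [MOD N] := by
  intro h
  have h2 : N ∣ 1 := (Nat.modEq_iff_dvd' (by omega)).1 h |>.trans (by simp)
  have := Nat.le_of_dvd (by omega) h2
  omega

theorem dgp_ne2 {N : ℕ} (hN : 3 ≤ N) (i : ℕ) : ¬ i ≡ i + 2 [MOD N] := by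
  intro h
  have h2 : N ∣ 2 := (Nat.modEq_iff_dvd' (by omega)).1 h |>.trans (by simp)
  have := Nat.le_of_dvd (by omega) h2
  omega

theorem diagram_of_gp {N : ℕ} (hN : 3 ≤ N) {c : ℕ → ℂ} (hper : ∀ i, c (i + N) = c i)
    (h1 : ∀ i j k, ¬ i ≡ j [MOD N] → ¬ j ≡ k [MOD N] → ¬ i ≡ k [MOD N] →
      ((c j).re - (c i).re) * ((c k).im - (c i).im) - ((c j).im - (c i).im) * ((c k).re - (c i).re) ≠ 0)
    (h2 : ∀ i j k, ¬ i ≡ j [MOD N] → ¬ j ≡ k [MOD N] → ¬ i ≡ k [MOD N] → ¬ i + 1 ≡ j [MOD N] → ¬ j + 1 ≡ i [MOD N] →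
        ¬ j + 1 ≡ k [MOD N] → ¬ k + 1 ≡ j [MOD N] → ¬ i + 1 ≡ k [MOD N] → ¬ k + 1 ≡ i [MOD N] →
        ∀ x, ¬ (x ∈ hseg (c i) (c (i + 1)) ∧ x ∈ hseg (c j) (c (j + 1)) ∧ x ∈ hseg (c k) (c (k + 1)))) :
    (∀ i, c i ≠ c (i + 1)) ∧ (∀ x, nm N c x ≤ 2) ∧ (∀ i, nm N c (c i) = 1) ∧ {x | nm N c x = 2}.Finite ∧
      {x | nm N c x = 2}.ncard ≤ N ^ 2 := by
  classical
  have hne1 := dgp_ne1 hN
  have hne2 := dgp_ne2 hN
  have hne12 : ∀ i, ¬ i + 1 ≡ i + 2 [MOD N] := fun i => hne1 (i + 1)
  have hA : ∀ i, c i ≠ c (i + 1) := by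
    intro i hi
    apply h1 i (i + 1) (i + 2) (hne1 i) (hne12 i) (hne2 i)
    rw [← hi]; ring
  -- adjacent half-open edges are disjoint
  have hadj : ∀ i j, i + 1 ≡ j [MOD N] → ∀ x, x ∈ hseg (c i) (c (i + 1)) → x ∈ hseg (c j) (c (j + 1)) → False := by
    rintro i j hij x ⟨s, hs0, hs1, hx⟩ ⟨t, ht0, ht1, hx'⟩
    have e1 : c j = c (i + 1) := (dgp_congr hper hij).symm
    have e2 : c (j + 1) = c (i + 2) := (dgp_congr hper (hij.add_right 1)).symm
    rw [e1, e2, hx] at hx'
    have hre := congrArg Complex.re hx'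
    have him := congrArg Complex.im hx'
    simp only [Complex.add_re, Complex.add_im, Complex.smul_re, Complex.smul_im, smul_eq_mul] at hre him
    apply h1 i (i + 1) (i + 2) (hne1 i) (hne12 i) (hne2 i)
    have h3 : (1 - s) ≠ 0 := by linarith
    apply mul_left_cancel₀ h3
    rw [mul_zero]
    linear_combination ((c (i+2)).re - (c (i+1)).re) * him - ((c (i+2)).im - (c (i+1)).im) * hre
  -- vertices
  have hvert : ∀ i k, c i ∈ hseg (c k) (c (k + 1)) → i ≡ k [MOD N] := by
    rintro i k ⟨s, hs0, hs1, hx⟩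
    by_contra hik
    by_cases hik1 : i ≡ k + 1 [MOD N]
    · rw [dgp_congr hper hik1] at hx
      apply hA k
      have hre := congrArg Complex.re hx
      have him := congrArg Complex.im hx
      simp only [Complex.add_re, Complex.add_im, Complex.smul_re, Complex.smul_im, smul_eq_mul] at hre him
      have h3 : (1 - s) ≠ 0 := by linarith
      apply Complex.ext
      · apply mul_left_cancel₀ h3; linarith
      · apply mul_left_cancel₀ h3; linarith
    · apply h1 k (k + 1) i (hne1 k) (fun h => hik1 h.symm) (fun h => hik h.symm)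
      have hre := congrArg Complex.re hx
      have him := congrArg Complex.im hx
      simp only [Complex.add_re, Complex.add_im, Complex.smul_re, Complex.smul_im, smul_eq_mul] at hre him
      rw [hre, him]; ring
  -- two different edges
  have htwo : ∀ i j, ¬ i ≡ j [MOD N] → ∀ x y, x ∈ hseg (c i) (c (i + 1)) → x ∈ hseg (c j) (c (j + 1)) →
      y ∈ hseg (c i) (c (i + 1)) → y ∈ hseg (c j) (c (j + 1)) → x = y := by
    intro i j hij x y hxi hxj hyi hyj
    by_cases ha : i + 1 ≡ j [MOD N]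
    · exact (hadj i j ha x hxi hxj).elim
    obtain ⟨s, -, -, hxs⟩ := hxi
    obtain ⟨s', -, -, hxs'⟩ := hxj
    obtain ⟨t, -, -, hyt⟩ := hyi
    obtain ⟨t', -, -, hyt'⟩ := hyj
    by_contra hxy
    have hst : s' ≠ t' := by
      rintro rfl
      exact hxy (hxs'.trans hyt'.symm)
    have g := h1 i (i + 1) j (hne1 i) ha hij
    rw [hxs] at hxs'
    rw [hyt] at hyt'
    have hre := congrArg Complex.re hxs'
    have him := congrArg Complex.im hxs'
    have hre' := congrArg Complex.re hyt'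
    have him' := congrArg Complex.im hyt'
    simp only [Complex.add_re, Complex.add_im, Complex.smul_re, Complex.smul_im, smul_eq_mul] at hre him hre' him'
    apply g
    have h3 : (s' - t') ≠ 0 := sub_ne_zero.2 hst
    apply mul_left_cancel₀ h3
    rw [mul_zero]
    -- a = c i, b = c (i+1), p = c j, q = c (j+1), d = b - a, e = q - p
    -- a + s d = p + s' e ; a + t d = p + t' e
    -- t' (a + s d) - s' (a + t d) = (t' - s') p
    set a := c i
    set b := c (i+1)
    set p := c j
    set q := c (j+1)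
    linear_combination ((b.im - a.im)) * (-t') * hre + ((b.im - a.im)) * s' * hre' - (b.re - a.re) * (-t') * him - (b.re - a.re) * s' * him'
  have hlt : ∀ i j, i < N → j < N → i ≡ j [MOD N] → i = j := by
    intro i j hi hj h
    have := h
    unfold Nat.ModEq at this
    rwa [Nat.mod_eq_of_lt hi, Nat.mod_eq_of_lt hj] at this
  refine ⟨hA, ?_, ?_, ?_⟩
  · intro x
    by_contra hx
    push Not at hx
    unfold nm at hx
    obtain ⟨i, hi, j, hj, k, hk, hij, hik, hjk⟩ := Finset.two_lt_card.1 hx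
    simp only [Finset.mem_filter, Finset.mem_range] at hi hj hk
    refine h2 i j k (fun h => hij (hlt _ _ hi.1 hj.1 h)) (fun h => hjk (hlt _ _ hj.1 hk.1 h))
      (fun h => hik (hlt _ _ hi.1 hk.1 h)) ?_ ?_ ?_ ?_ ?_ ?_ x ⟨hi.2, hj.2, hk.2⟩
    · exact fun h => hadj _ _ h x hi.2 hj.2
    · exact fun h => hadj _ _ h x hj.2 hi.2
    · exact fun h => hadj _ _ h x hj.2 hk.2
    · exact fun h => hadj _ _ h x hk.2 hj.2
    · exact fun h => hadj _ _ h x hi.2 hk.2
    · exact fun h => hadj _ _ h x hk.2 hi.2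
  · intro i
    unfold nm
    rw [Finset.card_eq_one]
    refine ⟨i % N, ?_⟩
    ext k
    simp only [Finset.mem_filter, Finset.mem_range, Finset.mem_singleton]
    constructor
    · rintro ⟨hk, h⟩
      have := hvert i k h
      unfold Nat.ModEq at this
      rw [Nat.mod_eq_of_lt hk] at this
      exact this.symm
    · rintro rfl
      refine ⟨Nat.mod_lt _ (by omega), 0, le_refl _, by norm_num, ?_⟩
      have : c i = c (i % N) := dgp_congr hper (Nat.mod_modEq i N).symm
      rw [this]; simp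
  · -- double points
    let T : Finset (ℕ × ℕ) := Finset.range N ×ˢ Finset.range N
    -- choice function
    let f : ℕ × ℕ → ℂ := fun ij => if h : ∃ x, x ∈ hseg (c ij.1) (c (ij.1 + 1)) ∧ x ∈ hseg (c ij.2) (c (ij.2 + 1)) then h.choose else 0
    have hsub : {x | nm N c x = 2} ⊆ (T.image f : Finset ℂ) := by
      intro x hx
      change nm N c x = 2 at hx
      unfold nm at hx
      obtain ⟨i, j, hij, hs⟩ := Finset.card_eq_two.1 hx
      have hi : i ∈ (Finset.range N).filter (fun k => x ∈ hseg (c k) (c (k + 1))) := by rw [hs]; simp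
      have hj : j ∈ (Finset.range N).filter (fun k => x ∈ hseg (c k) (c (k + 1))) := by rw [hs]; simp
      simp only [Finset.mem_filter, Finset.mem_range] at hi hj
      rw [Finset.mem_coe, Finset.mem_image]
      refine ⟨(i, j), ?_, ?_⟩
      · simp [T, hi.1, hj.1]
      · have hex : ∃ x, x ∈ hseg (c i) (c (i + 1)) ∧ x ∈ hseg (c j) (c (j + 1)) := ⟨x, hi.2, hj.2⟩
        have : f (i, j) = hex.choose := by
          simp only [f]
          rw [dif_pos hex]
        rw [this]
        exact htwo i j (fun h => hij (hlt _ _ hi.1 hj.1 h)) _ _ hex.choose_spec.1 hex.choose_spec.2 hi.2 hj.2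
    refine ⟨(Finset.finite_toSet _).subset hsub, ?_⟩
    calc {x | nm N c x = 2}.ncard ≤ ((T.image f : Finset ℂ) : Set ℂ).ncard := Set.ncard_le_ncard hsub (Finset.finite_toSet _)
      _ = (T.image f).card := Set.ncard_coe_finset _
      _ ≤ T.card := Finset.card_image_le
      _ = N ^ 2 := by simp [T, sq]

end SB758
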