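import Pool.Agent.Helper548.Knot.Base

namespace SB758

open Knot548

def mcv (t : ℝ) : Fin 3 → ℝ := ![t, t ^ 2, t ^ 3]

theorem mcv_seg {s t : ℝ} {x : Fin 3 → ℝ} (h : x ∈ segment ℝ (mcv s) (mcv t)) :
    ∃ a b : ℝ, a + b = 1 ∧ x 0 = a * s + b * t ∧ x 1 = a * s ^ 2 + b * t ^ 2 ∧
      x 2 = a * s ^ 3 + b * t ^ 3 := by
  obtain ⟨a, b, _, _, hab, rfl⟩ := h
  exact ⟨a, b, hab, rfl, rfl, rfl⟩

theorem mcv_shared {s t v : ℝ} (hst : s ≠ t) (htv : t ≠ v) {x : Fin 3 → ℝ}
    (h1 : x ∈ segment ℝ (mcv s) (mcv t)) (h2 : x ∈ segment ℝ (mcv s) (mcv v)) : x = mcv s := by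
  obtain ⟨a, b, e0, e1, e2, e3⟩ := mcv_seg h1
  obtain ⟨c, d, f0, f1, f2, f3⟩ := mcv_seg h2
  have hb : b * ((t - s) * (t - v)) = 0 := by
    linear_combination (f2 - e2) - (s + v) * (f1 - e1) + s * v * (e0 - f0)
  have hb0 : b = 0 := by
    rcases mul_eq_zero.1 hb with h | h
    · exact h
    · rcases mul_eq_zero.1 h with h | h
      · exact absurd (sub_eq_zero.1 h).symm hst
      · exact absurd (sub_eq_zero.1 h) htv
  subst hb0
  have ha : a = 1 := by linarith
  subst ha
  funext i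
  fin_cases i
  · show x 0 = s
    rw [e1]; ring
  · show x 1 = s ^ 2
    rw [e2]; ring
  · show x 2 = s ^ 3
    rw [e3]; ring

theorem mcv_disj {s t u v : ℝ} (hst : s ≠ t) (hsu : s ≠ u) (hsv : s ≠ v) (htu : t ≠ u)
    (htv : t ≠ v) {x : Fin 3 → ℝ}
    (h1 : x ∈ segment ℝ (mcv s) (mcv t)) (h2 : x ∈ segment ℝ (mcv u) (mcv v)) : False := by
  obtain ⟨a, b, e0, e1, e2, e3⟩ := mcv_seg h1
  obtain ⟨c, d, f0, f1, f2, f3⟩ := mcv_seg h2
  have ha : a * ((s - t) * ((s - u) * (s - v))) = 0 := by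
    linear_combination (f3 - e3) - (t + u + v) * (f2 - e2) + (t * u + t * v + u * v) * (f1 - e1) -
      t * u * v * (e0 - f0)
  have hb : b * ((t - s) * ((t - u) * (t - v))) = 0 := by
    linear_combination (f3 - e3) - (s + u + v) * (f2 - e2) + (s * u + s * v + u * v) * (f1 - e1) -
      s * u * v * (e0 - f0)
  have ha0 : a = 0 := (mul_eq_zero.1 ha).resolve_right
    (mul_ne_zero (sub_ne_zero.2 hst) (mul_ne_zero (sub_ne_zero.2 hsu) (sub_ne_zero.2 hsv)))
  have hb0 : b = 0 := (mul_eq_zero.1 hb).resolve_right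
    (mul_ne_zero (sub_ne_zero.2 hst.symm) (mul_ne_zero (sub_ne_zero.2 htu) (sub_ne_zero.2 htv)))
  rw [ha0, hb0] at e0
  norm_num at e0

/-- TARGET. Points on the moment curve give a linear embedding of the complete graph: any four different points `(t, t^2, t^3)` are affinely independent (Vandermonde), so two segments with four different end points are disjoint, and
two segments with one common end point meet only there. -/
theorem exists_linEmb (n : ℕ) : ∃ f : Fin n → (Fin 3 → ℝ), LinEmb f := by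
  have hinj : ∀ i j : Fin n, i ≠ j → ((i : ℕ) : ℝ) ≠ ((j : ℕ) : ℝ) := by
    intro i j h h'
    exact h (Fin.ext (by exact_mod_cast h'))
  refine ⟨fun i => mcv (i : ℕ), ?_, ?_⟩
  · intro i j h
    by_contra hne
    exact hinj i j hne (congrFun h 0)
  · intro i j k l hij hkl h1 h2 x hx
    obtain ⟨hx1, hx2⟩ := hx
    by_cases hik : i = k
    · subst hik
      have hjl : j ≠ l := fun h => h1 ⟨rfl, h⟩
      have := mcv_shared (hinj i j hij) (hinj j l hjl) hx1 hx2
      exact ⟨Or.inl this, Or.inl this⟩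
    by_cases hil : i = l
    · subst hil
      have hjk : j ≠ k := fun h => h2 ⟨rfl, h⟩
      rw [segment_symm] at hx2
      have := mcv_shared (hinj i j hij) (hinj j k hjk) hx1 hx2
      exact ⟨Or.inl this, Or.inr this⟩
    by_cases hjk : j = k
    · subst hjk
      rw [segment_symm] at hx1
      have := mcv_shared (hinj j i hij.symm) (hinj i l hil) hx1 hx2
      exact ⟨Or.inr this, Or.inl this⟩
    by_cases hjl : j = l
    · subst hjl
      rw [segment_symm] at hx1 hx2
      have := mcv_shared (hinj j i hij.symm) (hinj i k hik) hx1 hx2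
      exact ⟨Or.inr this, Or.inr this⟩
    exact (mcv_disj (hinj i j hij) (hinj i k hik) (hinj i l hil) (hinj j k hjk) (hinj j l hjl)
      hx1 hx2).elim

end SB758
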