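import Pool.Agent.Helper758_SB.Geo
import Pool.Agent.Helper758_SB.Core2
import Pool.Agent.Helper758_SB.J30_gp
import Pool.Agent.Helper758_SB.J31_dia
import Pool.Agent.Helper758_SB.J32_moment

/-! Finitely many knot types have a polygon with at most `N` vertices. -/

namespace SB758

open Knot548

theorem fin_countP {α : Type*} (p : α → Bool) (q : ℕ → Prop) [DecidablePred q] :
    ∀ {n : ℕ} (g : Fin n → α), (∀ k, p (g k) = true ↔ q k) →
      (List.ofFn g).countP p = ((Finset.range n).filter q).card := by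
  intro n
  induction n with
  | zero => intro g _; simp
  | succ n ih =>
    intro g h
    have h1 := ih (fun i => g i.castSucc) (fun k => h k.castSucc)
    rw [List.ofFn_succ', List.concat_eq_append, List.countP_append, h1, Finset.range_add_one,
      Finset.filter_insert]
    have h2 := h (Fin.last n)
    rw [Fin.val_last] at h2
    by_cases hq : q n
    · rw [if_pos hq, Finset.card_insert_of_notMem (by simp)]
      simp [h2.2 hq]
    · rw [if_neg hq]
      have h3 : p (g (Fin.last n)) = false := by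
        rw [← Bool.not_eq_true]
        exact fun h => hq (h2.1 h)
      simp [h3]

theorem fin_succ_val {m : ℕ} {α : Type*} {P : ℕ → α} (hper : ∀ i, P (i + (m + 1)) = P i) (k : Fin (m + 1)) :
    P ((k + 1 : Fin (m + 1)) : ℕ) = P ((k : ℕ) + 1) := by
  have hp : Function.Periodic P (m + 1) := hper
  rw [Fin.val_add, hp.map_mod_nat]
  rcases Nat.eq_zero_or_pos m with hm | hm
  · subst hm
    have h1 := hp.map_mod_nat ((k : ℕ) + 1)
    have h2 := hp.map_mod_nat ((k : ℕ) + ((1 : Fin (0 + 1)) : ℕ))
    rw [← h1, ← h2]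
    congr 1
    omega
  · rw [Fin.val_one', Nat.mod_eq_of_lt (show 1 < m + 1 by omega)]

theorem mult_lst {m : ℕ} {Q : ℕ → R3} (hper : ∀ i, Q (i + (m + 1)) = Q i) (x : ℂ) :
    mult ((lst m Q).map up) x = nm (m + 1) (fun i => (up (Q i)).1) x := by
  classical
  unfold mult cnt lst
  rw [List.map_ofFn, ofFn_cedges]
  unfold nm
  refine (fin_countP _ (fun k => x ∈ hseg (up (Q k)).1 (up (Q (k + 1))).1) _ ?_).trans ?_
  · intro k
    simp only [Function.comp, decide_eq_true_eq]
    rw [fin_succ_val hper]
  · congr 1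

/-- there are only finitely many knot types that contain a polygon with at most `N` vertices -/
theorem finite_types (N : ℕ) : ∃ F : Finset (List R3), ∀ m P, 2 ≤ m → m + 1 ≤ N →
    (∀ i, P (i + (m + 1)) = P i) → Simple (lst m P) →
    ∃ L ∈ F, AmbIso (polySet (lst m P)) (polySet L) := by
  classical
  obtain ⟨C, d, hcore⟩ := core2
  obtain ⟨f, hf⟩ := exists_linEmb (C * (N ^ 2 + 1) ^ d)
  refine ⟨(Finset.univ : Finset {l : List (Fin (C * (N ^ 2 + 1) ^ d)) // l.Nodup}).image
    (fun l => l.1.map f), ?_⟩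
  intro m P hm hmN hper hs
  obtain ⟨ε, hε, hop⟩ := lst_open hs
  obtain ⟨Q, hQper, hQd, hQ1, hQ2⟩ := gp_near (N := m + 1) (by omega) hper hε
  obtain ⟨hQs, hQi⟩ := hop Q hQd
  have hcper : ∀ i, (fun i => (up (Q i)).1) (i + (m + 1)) = (fun i => (up (Q i)).1) i := by
    intro i
    simp only [hQper]
  have hd := diagram_of_gp (N := m + 1) (by omega) (c := fun i => (up (Q i)).1) hcper
    (by
      intro i j k h1 h2 h3
      have := hQ1 i j k h1 h2 h3
      simpa [up, ar] using this)
    (by
      rintro i j k h1 h2 h3 h4 h5 h6 h7 h8 h9 x ⟨⟨s, -, -, hs⟩, ⟨t, -, -, ht⟩, ⟨r, -, -, hr⟩⟩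
      refine hQ2 i j k h1 h2 h3 h4 h5 h6 h7 h8 h9 s t r ⟨?_, ?_, ?_, ?_⟩
      · have := congrArg Complex.re (hs.symm.trans ht)
        simpa [up] using this
      · have := congrArg Complex.im (hs.symm.trans ht)
        simpa [up] using this
      · have := congrArg Complex.re (ht.symm.trans hr)
        simpa [up] using this
      · have := congrArg Complex.im (ht.symm.trans hr)
        simpa [up] using this)
  obtain ⟨d1, d2, d3, d4, d5⟩ := hd
  have hset : {x | mult ((lst m Q).map up) x = 2} = {x | nm (m + 1) (fun i => (up (Q i)).1) x = 2} := by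
    ext x
    rw [Set.mem_setOf_eq, Set.mem_setOf_eq, mult_lst hQper]
  obtain ⟨c, hc1, hc2, hc3⟩ := hcore (N ^ 2) (lst m Q) (by simp [lst]) (simple_map h636_upL h636_up_inj hQs)
    (by
      unfold lst
      rw [List.map_ofFn, ofFn_cedges]
      intro e he
      rw [List.mem_ofFn] at he
      obtain ⟨k, rfl⟩ := he
      simp only [Function.comp]
      rw [fin_succ_val hQper]
      exact d1 k)
    (fun x => by rw [mult_lst hQper]; exact d2 x)
    (by
      intro v hv
      unfold lst at hv
      rw [List.map_ofFn, List.mem_ofFn] at hv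
      obtain ⟨k, rfl⟩ := hv
      rw [mult_lst hQper]
      exact d3 k)
    (by rw [hset]; exact d4)
    (by
      rw [hset]
      exact d5.trans (Nat.pow_le_pow_left hmN 2)) _ le_rfl f hf
  refine ⟨c.map f, ?_, ?_⟩
  · rw [Finset.mem_image]
    exact ⟨⟨c, hc2⟩, Finset.mem_univ _, rfl⟩
  · exact hQi.trans (ambIso_of_eqv _ _ hc3).symm

end SB758
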