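import Pool.Agent.Helper758_SB.All
import Pool.Agent.Helper548.KnotD.D5
import Pool.Agent.Helper548.Knot.P_delta_inv
import Pool.Agent.Helper548.Knot.P_simple_rotate
import Pool.Agent.Helper548.Knot.P_eqv_rotate

/-! Glue between periodic sequences and closed polygons. -/

namespace SB758

open Knot548

/-- the vertex list of a periodic sequence of period `m + 1` -/
def lst (m : ℕ) (P : ℕ → R3) : List R3 := List.ofFn (fun k : Fin (m + 1) => P k)

theorem simple_open {m : ℕ} (p : Fin (m + 1) → R3) (hp : Simple (List.ofFn p)) :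
    ∃ ε : ℝ, 0 < ε ∧ ∀ q : Fin (m + 1) → R3, (∀ i, ‖q i - p i‖ < ε) → Simple (List.ofFn q) := by
  obtain ⟨L, hL, hkey⟩ := key_const p hp
  obtain ⟨h1, h2⟩ := (simple_ofFn p).1 hp
  refine ⟨1 / (2 * L), by positivity, fun q hq => ?_⟩
  have hk2 : L * (1 / (2 * L)) = 1 / 2 := by field_simp
  have key : ∀ k l : Fin (m + 1), ∀ s ∈ Set.Icc (0 : ℝ) 1, ∀ t ∈ Set.Icc (0 : ℝ) 1,
      (1 - s) • q k + s • q (k + 1) = (1 - t) • q l + t • q (l + 1) →
      (1 - s) • p k + s • p (k + 1) = (1 - t) • p l + t • p (l + 1) := by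
    intro k l s hs t ht heq
    have h3 := hkey (fun i => q i - p i) _ (fun i => (hq i).le) k l s hs t ht
    rw [hk2] at h3
    have e : ((1 - s) • (q k - p k) + s • (q (k + 1) - p (k + 1))) -
        ((1 - t) • (q l - p l) + t • (q (l + 1) - p (l + 1))) =
        - (((1 - s) • p k + s • p (k + 1)) - ((1 - t) • p l + t • p (l + 1))) := by
      calc _ = (((1 - s) • q k + s • q (k + 1)) - ((1 - t) • q l + t • q (l + 1))) -
          (((1 - s) • p k + s • p (k + 1)) - ((1 - t) • p l + t • p (l + 1))) := by module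
        _ = _ := by rw [sub_eq_zero.2 heq, zero_sub]
    rw [e, norm_neg] at h3
    have h4 : ‖((1 - s) • p k + s • p (k + 1)) - ((1 - t) • p l + t • p (l + 1))‖ ≤ 0 := by
      linarith
    exact sub_eq_zero.1 (norm_le_zero_iff.1 h4)
  refine (simple_ofFn q).2 ⟨?_, ?_⟩
  · intro k hk
    have := key k k 0 (by simp) 1 (by simp) (by simp [hk])
    simp only [sub_zero, one_smul, zero_smul, add_zero, sub_self, zero_add] at this
    exact h1 k this
  · intro k l hkl
    rw [Set.disjoint_left]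
    rintro x ⟨s, hs0, hs1, hx⟩ ⟨t, ht0, ht1, hx'⟩
    have := key k l s ⟨hs0, hs1.le⟩ t ⟨ht0, ht1.le⟩ (by rw [← hx, ← hx'])
    have hm : (1 - s) • p k + s • p (k + 1) ∈ hseg (p k) (p (k + 1)) := ⟨s, hs0, hs1, rfl⟩
    refine Set.disjoint_left.1 (h2 k l hkl) hm ?_
    rw [this]
    exact ⟨t, ht0, ht1, rfl⟩

theorem lst_open {m : ℕ} {P : ℕ → R3} (hs : Simple (lst m P)) :
    ∃ ε : ℝ, 0 < ε ∧ ∀ Q : ℕ → R3, (∀ i, ‖Q i - P i‖ < ε) →
      Simple (lst m Q) ∧ AmbIso (polySet (lst m P)) (polySet (lst m Q)) := by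
  obtain ⟨ε, hε, h1⟩ := simple_open (fun k : Fin (m + 1) => P k) hs
  obtain ⟨ε', hε', h2⟩ := local_step (fun k : Fin (m + 1) => P k) hs
  refine ⟨min ε ε', lt_min hε hε', fun Q hQ => ⟨?_, ?_⟩⟩
  · exact h1 (fun k : Fin (m + 1) => Q k) (fun i => (hQ i).trans_le (min_le_left _ _))
  · exact h2 (fun k : Fin (m + 1) => Q k) (fun i => (hQ i).trans_le (min_le_right _ _))

theorem lst_rotate {m : ℕ} {P : ℕ → R3} (hper : ∀ i, P (i + (m + 1)) = P i) (k : ℕ) :
    lst m (fun i => P (i + k)) = (lst m P).rotate k := by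
  have hp : Function.Periodic P (m + 1) := hper
  unfold lst
  apply List.ext_getElem
  · simp
  · intro i h1 h2
    rw [List.getElem_rotate, List.getElem_ofFn, List.getElem_ofFn]
    simp only [List.length_ofFn]
    rw [hp.map_mod_nat]

theorem polySet_lst_rotate {m : ℕ} {P : ℕ → R3} (hper : ∀ i, P (i + (m + 1)) = P i) (k : ℕ) :
    polySet (lst m (fun i => P (i + k))) = polySet (lst m P) := by
  rw [lst_rotate hper]
  induction k with
  | zero => simp
  | succ k ih => rw [← List.rotate_rotate, polySet_rotate, ih]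

theorem lst_cons (n : ℕ) (P : ℕ → R3) :
    lst (n + 2) P = P 0 :: P 1 :: P 2 :: List.ofFn (fun k : Fin n => P (k + 3)) := by
  unfold lst
  simp [List.ofFn_succ, add_assoc]

theorem lst_cons' (n : ℕ) (P : ℕ → R3) :
    lst (n + 1) P = P 0 :: P 1 :: List.ofFn (fun k : Fin n => P (k + 2)) := by
  unfold lst
  simp [List.ofFn_succ, add_assoc]

theorem mem_pedges {α : Type*} {n : ℕ} : ∀ {Q : ℕ → α} {e : α × α},
    e ∈ pedges (List.ofFn (fun k : Fin (n + 1) => Q k)) → ∃ j < n, e = (Q j, Q (j + 1)) := by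
  induction n with
  | zero =>
    intro Q e he
    simp [List.ofFn_succ, pedges] at he
  | succ n ih =>
    intro Q e he
    rw [List.ofFn_succ, List.ofFn_succ] at he
    simp only [pedges, List.mem_cons] at he
    rcases he with he | he
    · exact ⟨0, by omega, by simpa using he⟩
    · have h2 : e ∈ pedges (List.ofFn (fun k : Fin (n + 1) => (fun i => Q (i + 1)) (k : ℕ))) := by
        rw [List.ofFn_succ]
        simpa using he
      obtain ⟨j, hj, h3⟩ := ih (Q := fun i => Q (i + 1)) h2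
      exact ⟨j + 1, by omega, h3⟩

theorem remove {n : ℕ} {P : ℕ → R3} (hper : ∀ i, P (i + (n + 3)) = P i) (hs : Simple (lst (n + 2) P))
    (hai : AffineIndependent ℝ ![P 0, P 1, P 2])
    (hT : ∀ j, 2 ≤ j → j ≤ n + 2 → ∀ x ∈ segment ℝ (P j) (P (j + 1)), x ∈ convexHull ℝ {P 0, P 1, P 2} →
      x = P 0 ∨ x = P 2) :
    ∃ Q : ℕ → R3, (∀ i, Q (i + (n + 2)) = Q i) ∧ Q 0 = P 0 ∧ (∀ k, 1 ≤ k → k ≤ n + 1 → Q k = P (k + 1)) ∧
      Simple (lst (n + 1) Q) ∧ AmbIso (polySet (lst (n + 2) P)) (polySet (lst (n + 1) Q)) := by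
  let Q : ℕ → R3 := fun i => if i % (n + 2) = 0 then P 0 else P (i % (n + 2) + 1)
  have hQ0 : Q 0 = P 0 := by simp [Q]
  have hQk : ∀ k, 1 ≤ k → k ≤ n + 1 → Q k = P (k + 1) := by
    intro k h1 h2
    have h3 : k % (n + 2) = k := Nat.mod_eq_of_lt (by omega)
    simp only [Q, h3]
    rw [if_neg (by omega)]
  refine ⟨Q, ?_, hQ0, hQk, ?_⟩
  · intro i
    simp only [Q, Nat.add_mod_right]
  have hl : lst (n + 1) Q = P 0 :: P 2 :: List.ofFn (fun k : Fin n => P (k + 3)) := by
    rw [lst_cons', hQ0, hQk 1 le_rfl (by omega)]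
    congr 3
    funext k
    exact hQk (k + 2) (by omega) (by omega)
  rw [lst_cons] at hs
  have h := delta_inv (P 0) (P 2) (P 1) (List.ofFn (fun k : Fin n => P (k + 3))) hs hai ?_
  · rw [hl, lst_cons]
    exact ⟨h.1, ambIso_of_eqv _ _ h.2⟩
  · intro e he
    have h1 : P 2 :: (List.ofFn (fun k : Fin n => P (k + 3)) ++ [P 0]) =
        List.ofFn (fun k : Fin (n + 1 + 1) => (fun i => P (i + 2)) (k : ℕ)) := by
      rw [List.ofFn_succ', List.concat_eq_append, List.ofFn_succ]
      simp only [List.cons_append]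
      have h0 : P 0 = P (n + 1 + 2) := by
        have := hper 0
        rw [← this]
        congr 1
        omega
      rw [h0]
      simp [add_assoc]
    rw [h1] at he
    obtain ⟨j, hj, rfl⟩ := mem_pedges (Q := fun i => P (i + 2)) he
    intro x hx hx'
    exact hT (j + 2) (by omega) (by omega) x hx hx'

theorem affineIndependent_of_det {a b c d : R3} (h : det3 (b - a) (c - b) d ≠ 0) :
    AffineIndependent ℝ ![a, b, c] := by
  rw [affineIndependent_iff_not_collinear_set]
  intro hc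
  rw [collinear_iff_of_mem (p₀ := a) (by simp)] at hc
  obtain ⟨v, hv⟩ := hc
  obtain ⟨r, hr⟩ := hv b (by simp)
  obtain ⟨s, hs⟩ := hv c (by simp)
  apply h
  have e1 : b - a = r • v := by rw [hr]; simp
  have e2 : c - b = (s - r) • v := by rw [hr, hs]; simp [sub_smul]
  rw [e1, e2]
  simp only [det3, Pi.smul_apply, smul_eq_mul]
  ring

end SB758
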