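import Pool.Agent.Helper758_SB.Defs

namespace SB758

open Finset

lemma per_mod {α : Type*} {N : ℕ} {f : ℕ → α} (hf : ∀ i, f (i + N) = f i) {i j : ℕ}
    (h : i ≡ j [MOD N]) : f i = f j := by
  have hp : Function.Periodic f N := hf
  rw [← hp.map_mod_nat i, ← hp.map_mod_nat j, h]

lemma aff_zero {a b c : ℝ} {p q r : ℝ × ℝ} (hori : ori p q r ≠ 0) (hp : aff a b c p = 0)
    (hq : aff a b c q = 0) (hr : aff a b c r = 0) : a = 0 ∧ b = 0 ∧ c = 0 := by
  unfold ori cr at hori
  unfold aff at hp hq hr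
  simp only [Prod.fst_sub, Prod.snd_sub] at hori
  have h1 : a * (q.1 - p.1) + b * (q.2 - p.2) = 0 := by linarith
  have h2 : a * (r.1 - p.1) + b * (r.2 - p.2) = 0 := by linarith
  have ha : a * ((q.1 - p.1) * (r.2 - p.2) - (q.2 - p.2) * (r.1 - p.1)) = 0 := by
    linear_combination (r.2 - p.2) * h1 - (q.2 - p.2) * h2
  have hb : b * ((q.1 - p.1) * (r.2 - p.2) - (q.2 - p.2) * (r.1 - p.1)) = 0 := by
    linear_combination (q.1 - p.1) * h2 - (r.1 - p.1) * h1
  have ha' : a = 0 := (mul_eq_zero.mp ha).resolve_right hori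
  have hb' : b = 0 := (mul_eq_zero.mp hb).resolve_right hori
  refine ⟨ha', hb', ?_⟩
  rw [ha', hb'] at hp
  linarith

/-- Affine function with prescribed values at two of three non-collinear points. -/
lemma exists_aff {p q r : ℝ × ℝ} (hori : ori p q r ≠ 0) (x y : ℝ) :
    ∃ a b c : ℝ, aff a b c q = x ∧ aff a b c r = y := by
  unfold ori cr at hori
  simp only [Prod.fst_sub, Prod.snd_sub] at hori
  set D := (q.1 - p.1) * (r.2 - p.2) - (q.2 - p.2) * (r.1 - p.1) with hD
  refine ⟨(x * (r.2 - p.2) - y * (q.2 - p.2)) / D, (y * (q.1 - p.1) - x * (r.1 - p.1)) / D,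
    -((x * (r.2 - p.2) - y * (q.2 - p.2)) / D * p.1 +
      (y * (q.1 - p.1) - x * (r.1 - p.1)) / D * p.2), ?_, ?_⟩
  · unfold aff
    field_simp
    rw [hD]
    ring
  · unfold aff
    field_simp
    rw [hD]
    ring

/-- TARGET. Two-valuedness excludes bitangents. -/
theorem nb_of_tv {N m : ℕ} {w : ℕ → ℝ × ℝ} {s : ℕ → ℝ} (hN : 4 ≤ N) (h : Cyc N m w s) : NB N w s := by
  classical
  intro i j hij hij1 hi1j a b c hfi hfj hpos
  obtain ⟨hpi, hpj⟩ := hpos
  -- congruence facts
  have hne1 : ∀ k : ℕ, ¬ k ≡ k + 1 [MOD N] := by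
    intro k hk
    have h1 : (k + 1) - k ≡ 0 [MOD N] := by
      have := (Nat.modEq_iff_dvd' (Nat.le_succ k)).mp hk
      exact (Nat.modEq_zero_iff_dvd).mpr this
    have h2 : k + 1 - k = 1 := by omega
    rw [h2, Nat.modEq_zero_iff_dvd] at h1
    have := Nat.le_of_dvd one_pos h1
    omega
  have hsucc : ∀ k l : ℕ, k + 1 ≡ l + 1 [MOD N] → k ≡ l [MOD N] := fun k l hk =>
    Nat.ModEq.add_right_cancel' 1 hk
  have hne2 : ∀ k : ℕ, ¬ k ≡ k + 2 [MOD N] := by
    intro k hk
    have h1 := (Nat.modEq_iff_dvd' (show k ≤ k + 2 by omega)).mp hk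
    have h2 : k + 2 - k = 2 := by omega
    rw [h2] at h1
    have := Nat.le_of_dvd (by norm_num) h1
    omega
  set f : ℕ → ℝ := fun k => aff a b c (w k) with hf
  have hfper : ∀ k, f (k + N) = f k := fun k => by simp only [hf, h.wper k]
  have hfi0 : f i ≠ 0 := by
    intro h0
    have : s i * aff a b c (w i) = 0 := by
      have : aff a b c (w i) = 0 := h0
      rw [this, mul_zero]
    rw [this, zero_mul] at hpi
    exact lt_irrefl _ hpi
  have hfne : ∀ k, ¬ k ≡ i + 1 [MOD N] → ¬ k ≡ j + 1 [MOD N] → f k ≠ 0 := by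
    intro k hk1 hk2 h0
    have hori := h.gp k (i + 1) (j + 1) hk1 (fun e => hij (hsucc i j e)) hk2
    obtain ⟨ha, hb, hc⟩ := aff_zero hori h0 hfi hfj
    apply hfi0
    simp only [hf, aff, ha, hb, hc]
    ring
  -- signs
  have hsne : ∀ k, s k ≠ 0 := by
    intro k
    rcases h.sgn k with e | e <;> rw [e] <;> norm_num
  have hssq : ∀ k, s k * s k = 1 := by
    intro k
    rcases h.sgn k with e | e <;> rw [e] <;> norm_num
  -- the perturbation
  have hori0 := h.gp i (i + 1) (j + 1) (hne1 i) (fun e => hij (hsucc i j e)) hij1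
  obtain ⟨a', b', c', hg1, hg2⟩ := exists_aff hori0 (s (i + 1) * (s i * f i))
    (s (j + 1) * (s j * f j))
  set g : ℕ → ℝ := fun k => aff a' b' c' (w k) with hg
  have hgper : ∀ k, g (k + N) = g k := fun k => by simp only [hg, h.wper k]
  -- choose a small parameter
  obtain ⟨δ, hδ0, hδ⟩ : ∃ δ : ℝ, 0 < δ ∧ ∀ k ∈ range N, f k ≠ 0 → δ * |g k| < |f k| := by
    have h1 : ∀ k ∈ range N, ∀ᶠ δ in nhdsWithin (0 : ℝ) (Set.Ioi 0),
        (f k ≠ 0 → δ * |g k| < |f k|) := by
      intro k _
      by_cases hk : f k = 0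
      · exact Filter.Eventually.of_forall (fun δ hne => absurd hk hne)
      · have h2 : Filter.Tendsto (fun δ : ℝ => δ * |g k|) (nhds 0) (nhds (0 * |g k|)) :=
          (continuous_id.mul continuous_const).tendsto 0
        rw [zero_mul] at h2
        have h3 : ∀ᶠ δ in nhds (0 : ℝ), δ * |g k| < |f k| :=
          h2.eventually (gt_mem_nhds (abs_pos.mpr hk))
        exact (h3.filter_mono nhdsWithin_le_nhds).mono (fun δ hδ _ => hδ)
    have h2 := (Filter.eventually_all_finset (range N)).mpr h1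
    obtain ⟨δ, hδ1, hδ2⟩ := (h2.and self_mem_nhdsWithin).exists
    exact ⟨δ, hδ2, hδ1⟩
  have hNpos : 0 < N := by omega
  have hδ' : ∀ k, f k ≠ 0 → δ * |g k| < |f k| := by
    intro k hk
    have e1 : f (k % N) = f k := (show Function.Periodic f N from hfper).map_mod_nat k
    have e2 : g (k % N) = g k := (show Function.Periodic g N from hgper).map_mod_nat k
    have := hδ (k % N) (mem_range.mpr (Nat.mod_lt _ hNpos))
    rw [e1, e2] at this
    exact this hk
  -- values of the two perturbed functions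
  have key : ∀ ε : ℝ, (ε = 1 ∨ ε = -1) →
      (∀ k, ¬ k ≡ i + 1 [MOD N] → ¬ k ≡ j + 1 [MOD N] → 0 < (f k + ε * δ * g k) * f k) := by
    intro ε hε k hk1 hk2
    have hk := hfne k hk1 hk2
    have h1 := hδ' k hk
    have hgk := neg_abs_le (g k)
    have hgk' := le_abs_self (g k)
    rcases lt_or_gt_of_ne hk with hneg | hpos
    · rw [abs_of_neg hneg] at h1
      have h2 : f k + ε * δ * g k < 0 := by
        rcases hε with rfl | rfl <;> nlinarith
      exact mul_pos_of_neg_of_neg h2 hneg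
    · rw [abs_of_pos hpos] at h1
      have h2 : 0 < f k + ε * δ * g k := by
        rcases hε with rfl | rfl <;> nlinarith
      exact mul_pos h2 hpos
  have hcoef : ∀ (ε : ℝ) (k : ℕ), aff (a + ε * δ * a') (b + ε * δ * b') (c + ε * δ * c') (w k) =
      f k + ε * δ * g k := by
    intro ε k
    simp only [hf, hg, aff]
    ring
  have hvi : ∀ (ε : ℝ) k, k ≡ i + 1 [MOD N] →
      f k + ε * δ * g k = ε * δ * (s (i + 1) * (s i * f i)) := by
    intro ε k hk
    rw [per_mod hfper hk, per_mod hgper hk]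
    have e1 : f (i + 1) = 0 := hfi
    have e2 : g (i + 1) = s (i + 1) * (s i * f i) := hg1
    rw [e1, e2, zero_add]
  have hvj : ∀ (ε : ℝ) k, k ≡ j + 1 [MOD N] →
      f k + ε * δ * g k = ε * δ * (s (j + 1) * (s j * f j)) := by
    intro ε k hk
    rw [per_mod hfper hk, per_mod hgper hk]
    have e1 : f (j + 1) = 0 := hfj
    have e2 : g (j + 1) = s (j + 1) * (s j * f j) := hg2
    rw [e1, e2, zero_add]
  have hfj0 : f j ≠ 0 := hfne j (fun e => hi1j e.symm) (hne1 j)
  have hFne : ∀ ε : ℝ, (ε = 1 ∨ ε = -1) → ∀ k, f k + ε * δ * g k ≠ 0 := by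
    intro ε hε k
    have hε0 : ε ≠ 0 := by rcases hε with rfl | rfl <;> norm_num
    by_cases hk1 : k ≡ i + 1 [MOD N]
    · rw [hvi ε k hk1]
      exact mul_ne_zero (mul_ne_zero hε0 hδ0.ne')
        (mul_ne_zero (hsne _) (mul_ne_zero (hsne _) hfi0))
    · by_cases hk2 : k ≡ j + 1 [MOD N]
      · rw [hvj ε k hk2]
        exact mul_ne_zero (mul_ne_zero hε0 hδ0.ne')
          (mul_ne_zero (hsne _) (mul_ne_zero (hsne _) hfj0))
      · intro h0
        have := key ε hε k hk1 hk2
        rw [h0, zero_mul] at this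
        exact lt_irrefl _ this
  -- the products
  set Q : ℝ → ℕ → ℝ := fun ε k =>
    (s k * (f k + ε * δ * g k)) * (s (k + 1) * (f (k + 1) + ε * δ * g (k + 1))) with hQ
  have hQper : ∀ ε k l, k ≡ l [MOD N] → Q ε k = Q ε l := by
    intro ε k l hkl
    have hkl' : k + 1 ≡ l + 1 [MOD N] := hkl.add_right 1
    simp only [hQ]
    rw [per_mod h.sper hkl, per_mod hfper hkl, per_mod hgper hkl, per_mod h.sper hkl',
      per_mod hfper hkl', per_mod hgper hkl']
  -- at the four special places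
  have sgnprod : ∀ x y : ℝ, 0 < x * y → ∀ z : ℝ, 0 < z * x → 0 < z * y := by
    intro x y hxy z hzx
    by_contra hcon
    push Not at hcon
    have h1 : 0 < (x * y) * (z * x) := mul_pos hxy hzx
    have h2 : (x * y) * (z * x) = (z * y) * (x * x) := by ring
    have h3 : 0 ≤ x * x := mul_self_nonneg x
    nlinarith [mul_nonneg (neg_nonneg.mpr hcon) h3]
  have hQ1 : ∀ ε : ℝ, (ε = 1 ∨ ε = -1) → 0 < ε * Q ε i ∧ 0 < ε * Q ε (i + 1) := by
    intro ε hε
    have hεε : ε * ε = 1 := by rcases hε with rfl | rfl <;> norm_num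
    have k1 := key ε hε i (hne1 i) hij1
    have k2 := key ε hε (i + 2) (fun e => hne1 (i + 1) e.symm) (fun e => hi1j (hsucc _ _ e))
    have v1 := hvi ε (i + 1) (Nat.ModEq.refl _)
    constructor
    · simp only [hQ]
      rw [v1]
      have e1 : ε * (s i * (f i + ε * δ * g i) * (s (i + 1) * (ε * δ * (s (i + 1) * (s i * f i)))))
          = (ε * ε) * δ * (s i * s i) * (s (i + 1) * s (i + 1)) * ((f i + ε * δ * g i) * f i) := by
        ring
      rw [e1, hεε, hssq, hssq]
      have := mul_pos hδ0 k1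
      linarith
    · simp only [hQ]
      rw [v1]
      have hpi' : 0 < (s i * f i) * (s (i + 2) * f (i + 2)) := hpi
      have e1 : ε * (s (i + 1) * (ε * δ * (s (i + 1) * (s i * f i))) *
          (s (i + 1 + 1) * (f (i + 1 + 1) + ε * δ * g (i + 1 + 1)))) =
          (ε * ε) * δ * (s (i + 1) * s (i + 1)) *
            ((s (i + 2) * (s i * f i)) * (f (i + 2) + ε * δ * g (i + 2))) := by
        have : i + 1 + 1 = i + 2 := rfl
        rw [this]
        ring
      rw [e1, hεε, hssq]
      have h3 : 0 < (s (i + 2) * (s i * f i)) * f (i + 2) := by nlinarith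
      have h4 : 0 < (s (i + 2) * (s i * f i)) * (f (i + 2) + ε * δ * g (i + 2)) :=
        sgnprod (f (i + 2)) (f (i + 2) + ε * δ * g (i + 2)) (by linarith) _ h3
      have := mul_pos hδ0 h4
      linarith
  have hQ2 : ∀ ε : ℝ, (ε = 1 ∨ ε = -1) → 0 < ε * Q ε j ∧ 0 < ε * Q ε (j + 1) := by
    intro ε hε
    have hεε : ε * ε = 1 := by rcases hε with rfl | rfl <;> norm_num
    have k1 := key ε hε j (fun e => hi1j e.symm) (hne1 j)
    have k2 := key ε hε (j + 2) (fun e => hij1 (hsucc _ _ e).symm)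
      (fun e => hne1 (j + 1) e.symm)
    have v1 := hvj ε (j + 1) (Nat.ModEq.refl _)
    constructor
    · simp only [hQ]
      rw [v1]
      have e1 : ε * (s j * (f j + ε * δ * g j) * (s (j + 1) * (ε * δ * (s (j + 1) * (s j * f j)))))
          = (ε * ε) * δ * (s j * s j) * (s (j + 1) * s (j + 1)) * ((f j + ε * δ * g j) * f j) := by
        ring
      rw [e1, hεε, hssq, hssq]
      have := mul_pos hδ0 k1
      linarith
    · simp only [hQ]
      rw [v1]
      have hpj' : 0 < (s j * f j) * (s (j + 2) * f (j + 2)) := hpj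
      have e1 : ε * (s (j + 1) * (ε * δ * (s (j + 1) * (s j * f j))) *
          (s (j + 1 + 1) * (f (j + 1 + 1) + ε * δ * g (j + 1 + 1)))) =
          (ε * ε) * δ * (s (j + 1) * s (j + 1)) *
            ((s (j + 2) * (s j * f j)) * (f (j + 2) + ε * δ * g (j + 2))) := by
        have : j + 1 + 1 = j + 2 := rfl
        rw [this]
        ring
      rw [e1, hεε, hssq]
      have h3 : 0 < (s (j + 2) * (s j * f j)) * f (j + 2) := by nlinarith
      have h4 : 0 < (s (j + 2) * (s j * f j)) * (f (j + 2) + ε * δ * g (j + 2)) :=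
        sgnprod (f (j + 2)) (f (j + 2) + ε * δ * g (j + 2)) (by linarith) _ h3
      have := mul_pos hδ0 h4
      linarith
  -- elsewhere the sign does not depend on `ε`
  set T : Finset ℕ := {i % N, (i + 1) % N, j % N, (j + 1) % N} with hT
  have hTc : T.card = 4 := by
    have d1 : i % N ≠ (i + 1) % N := fun e => hne1 i e
    have d2 : i % N ≠ j % N := fun e => hij e
    have d3 : i % N ≠ (j + 1) % N := fun e => hij1 e
    have d4 : (i + 1) % N ≠ j % N := fun e => hi1j e
    have d5 : (i + 1) % N ≠ (j + 1) % N := fun e => hij (hsucc i j e)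
    have d6 : j % N ≠ (j + 1) % N := fun e => hne1 j e
    rw [hT, card_insert_of_notMem, card_insert_of_notMem, card_insert_of_notMem,
      card_singleton]
    · simp [d6]
    · simp [d4, d5]
    · simp [d1, d2, d3]
  have hTN : T ⊆ range N := by
    intro k hk
    simp only [hT, mem_insert, mem_singleton] at hk
    rw [mem_range]
    rcases hk with rfl | rfl | rfl | rfl <;> exact Nat.mod_lt _ hNpos
  have hTQ : ∀ ε : ℝ, (ε = 1 ∨ ε = -1) → ∀ k ∈ T, 0 < ε * Q ε k := by
    intro ε hε k hk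
    simp only [hT, mem_insert, mem_singleton] at hk
    rcases hk with rfl | rfl | rfl | rfl
    · rw [hQper ε _ i (Nat.mod_modEq i N)]; exact (hQ1 ε hε).1
    · rw [hQper ε _ (i + 1) (Nat.mod_modEq (i + 1) N)]; exact (hQ1 ε hε).2
    · rw [hQper ε _ j (Nat.mod_modEq j N)]; exact (hQ2 ε hε).1
    · rw [hQper ε _ (j + 1) (Nat.mod_modEq (j + 1) N)]; exact (hQ2 ε hε).2
  have hout : ∀ k ∈ range N, k ∉ T → (Q 1 k < 0 ↔ Q (-1) k < 0) := by
    intro k hk hkT
    rw [mem_range] at hk
    simp only [hT, mem_insert, mem_singleton, not_or] at hkT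
    have hmod : k % N = k := Nat.mod_eq_of_lt hk
    have c1 : ¬ k ≡ i + 1 [MOD N] := fun e => hkT.2.1 (by rw [← hmod]; exact e)
    have c2 : ¬ k ≡ j + 1 [MOD N] := fun e => hkT.2.2.2 (by rw [← hmod]; exact e)
    have c3 : ¬ k + 1 ≡ i + 1 [MOD N] := fun e => hkT.1 (by rw [← hmod]; exact hsucc _ _ e)
    have c4 : ¬ k + 1 ≡ j + 1 [MOD N] := fun e => hkT.2.2.1 (by rw [← hmod]; exact hsucc _ _ e)
    have p1 := key 1 (Or.inl rfl) k c1 c2
    have p2 := key (-1) (Or.inr rfl) k c1 c2
    have p3 := key 1 (Or.inl rfl) (k + 1) c3 c4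
    have p4 := key (-1) (Or.inr rfl) (k + 1) c3 c4
    have hpos : 0 < Q 1 k * Q (-1) k := by
      have e1 : Q 1 k * Q (-1) k * ((f k * f k) * (f (k + 1) * f (k + 1))) =
          (s k * s k) * (s (k + 1) * s (k + 1)) *
          (((f k + 1 * δ * g k) * f k) * ((f k + -1 * δ * g k) * f k)) *
          (((f (k + 1) + 1 * δ * g (k + 1)) * f (k + 1)) *
            ((f (k + 1) + -1 * δ * g (k + 1)) * f (k + 1))) := by
        simp only [hQ]
        ring
      have e2 : 0 < Q 1 k * Q (-1) k * ((f k * f k) * (f (k + 1) * f (k + 1))) := by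
        rw [e1, hssq, hssq]
        have := mul_pos (mul_pos p1 p2) (mul_pos p3 p4)
        linarith
      have e3 : 0 < (f k * f k) * (f (k + 1) * f (k + 1)) :=
        mul_pos (mul_self_pos.mpr (hfne k c1 c2)) (mul_self_pos.mpr (hfne (k + 1) c3 c4))
      by_contra hcon
      push Not at hcon
      have := mul_nonneg (neg_nonneg.mpr hcon) e3.le
      linarith
    constructor
    · intro hn
      by_contra hcon
      push Not at hcon
      have := mul_nonneg (neg_nonneg.mpr hn.le) hcon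
      linarith
    · intro hn
      by_contra hcon
      push Not at hcon
      have := mul_nonneg hcon (neg_nonneg.mpr hn.le)
      linarith
  -- counting
  have hc1 : (range N).filter (fun k => Q 1 k < 0) =
      (range N \ T).filter (fun k => Q 1 k < 0) := by
    ext k
    simp only [mem_filter, mem_sdiff]
    constructor
    · rintro ⟨hk, hq⟩
      refine ⟨⟨hk, fun hkT => ?_⟩, hq⟩
      have := hTQ 1 (Or.inl rfl) k hkT
      linarith
    · rintro ⟨⟨hk, _⟩, hq⟩
      exact ⟨hk, hq⟩
  have hc2 : (range N).filter (fun k => Q (-1) k < 0) =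
      (range N \ T).filter (fun k => Q 1 k < 0) ∪ T := by
    ext k
    simp only [mem_filter, mem_sdiff, mem_union]
    constructor
    · rintro ⟨hk, hq⟩
      by_cases hkT : k ∈ T
      · exact Or.inr hkT
      · exact Or.inl ⟨⟨hk, hkT⟩, (hout k hk hkT).mpr hq⟩
    · rintro (⟨⟨hk, hkT⟩, hq⟩ | hkT)
      · exact ⟨hk, (hout k hk hkT).mp hq⟩
      · refine ⟨hTN hkT, ?_⟩
        have := hTQ (-1) (Or.inr rfl) k hkT
        linarith
  have hc3 : ((range N).filter (fun k => Q (-1) k < 0)).card =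
      ((range N).filter (fun k => Q 1 k < 0)).card + 4 := by
    rw [hc2, card_union_of_disjoint, hTc, hc1]
    rw [disjoint_left]
    intro k hk
    exact (mem_sdiff.mp (mem_filter.mp hk).1).2
  -- conclusion
  have t1 := h.tv (a + 1 * δ * a') (b + 1 * δ * b') (c + 1 * δ * c') (fun k => by
    rw [hcoef]; exact hFne 1 (Or.inl rfl) k)
  have t2 := h.tv (a + -1 * δ * a') (b + -1 * δ * b') (c + -1 * δ * c') (fun k => by
    rw [hcoef]; exact hFne (-1) (Or.inr rfl) k)
  have s1 : sc N (fun k => s k * aff (a + 1 * δ * a') (b + 1 * δ * b') (c + 1 * δ * c') (w k)) =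
      ((range N).filter (fun k => Q 1 k < 0)).card := by
    unfold sc
    congr 1
    ext k
    simp only [mem_filter, hcoef, hQ]
  have s2 : sc N (fun k => s k * aff (a + -1 * δ * a') (b + -1 * δ * b') (c + -1 * δ * c') (w k)) =
      ((range N).filter (fun k => Q (-1) k < 0)).card := by
    unfold sc
    congr 1
    ext k
    simp only [mem_filter, hcoef, hQ]
  rw [s1] at t1
  rw [s2, hc3] at t2
  omega

end SB758
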