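import Pool.Agent.Helper758_SB.Defs

namespace SB758

open Finset

open Classical in
/-- indicator of being below the level -/
noncomputable def gb_aux_x (ρ : ℕ → ℝ) (t : ℝ) (k : ℕ) : ℝ := if ρ k < t then 1 else 0

open Classical in
/-- direction of the jump -/
noncomputable def gb_aux_D (ρ s : ℕ → ℝ) (k : ℕ) : ℝ :=
  if ρ k < ρ (k + 1) then s k * s (k + 1) else -(s k * s (k + 1))

open Classical in
theorem gb_aux_term (ρ s : ℕ → ℝ) (hs : ∀ i, s i = 1 ∨ s i = -1) (t : ℝ) (ht : ∀ k, ρ k ≠ t) (k : ℕ) :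
    (if (s k * (t - ρ k)) * (s (k + 1) * (t - ρ (k + 1))) < 0 then (1 : ℝ) else 0) =
      1 / 2 - s k * s (k + 1) / 2 - gb_aux_D ρ s k * (gb_aux_x ρ t (k + 1) - gb_aux_x ρ t k) := by
  have e : (s k * (t - ρ k)) * (s (k + 1) * (t - ρ (k + 1))) =
      (s k * s (k + 1)) * ((t - ρ k) * (t - ρ (k + 1))) := by ring
  have hP : s k * s (k + 1) = 1 ∨ s k * s (k + 1) = -1 := by
    rcases hs k with h1 | h1 <;> rcases hs (k + 1) with h2 | h2 <;> rw [h1, h2] <;> norm_num
  rw [e]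
  unfold gb_aux_D gb_aux_x
  rcases lt_or_gt_of_ne (ht k) with a | a <;> rcases lt_or_gt_of_ne (ht (k + 1)) with b | b
  · have h : 0 < (t - ρ k) * (t - ρ (k + 1)) := mul_pos (by linarith) (by linarith)
    rw [if_pos a, if_pos b]
    rcases hP with hP | hP
    · rw [hP, if_neg (by linarith)]; norm_num
    · rw [hP, if_pos (by linarith)]; norm_num
  · have h : 0 < (t - ρ k) * (ρ (k + 1) - t) := mul_pos (by linarith) (by linarith)
    rw [if_pos a, if_neg (not_lt.mpr (le_of_lt b)), if_pos (a.trans b)]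
    rcases hP with hP | hP
    · rw [hP, if_pos (by linarith)]; norm_num
    · rw [hP, if_neg (by linarith)]; norm_num
  · have h : 0 < (ρ k - t) * (t - ρ (k + 1)) := mul_pos (by linarith) (by linarith)
    rw [if_neg (not_lt.mpr (le_of_lt a)), if_pos b, if_neg (not_lt.mpr (le_of_lt (lt_trans b a)))]
    rcases hP with hP | hP
    · rw [hP, if_pos (by linarith)]; norm_num
    · rw [hP, if_neg (by linarith)]; norm_num
  · have h : 0 < (ρ k - t) * (ρ (k + 1) - t) := mul_pos (by linarith) (by linarith)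
    rw [if_neg (not_lt.mpr (le_of_lt a)), if_neg (not_lt.mpr (le_of_lt b))]
    rcases hP with hP | hP
    · rw [hP, if_neg (by linarith)]; norm_num
    · rw [hP, if_pos (by linarith)]; norm_num

theorem gb_aux_shift (N : ℕ) (g : ℕ → ℝ) (hg : g N = g 0) :
    ∑ k ∈ range N, g (k + 1) = ∑ k ∈ range N, g k := by
  have h1 := Finset.sum_range_succ' g N
  have h2 := Finset.sum_range_succ g N
  rw [h2, hg] at h1
  linarith

theorem gb_aux_sum (N : ℕ) (ρ s : ℕ → ℝ) (hs : ∀ i, s i = 1 ∨ s i = -1) (hρN : ∀ k, ρ (k + N) = ρ k)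
    (hsN : ∀ k, s (k + N) = s k) (t : ℝ) (ht : ∀ k, ρ k ≠ t) :
    (sc N (fun i => s i * (t - ρ i)) : ℝ) = ∑ k ∈ range N, (1 / 2 - s k * s (k + 1) / 2) +
      ∑ k ∈ range N, (gb_aux_D ρ s (k + 1) - gb_aux_D ρ s k) * gb_aux_x ρ t (k + 1) := by
  classical
  unfold sc
  rw [Finset.card_filter]
  push_cast
  rw [Finset.sum_congr rfl (fun k _ => gb_aux_term ρ s hs t ht k)]
  have hD : gb_aux_D ρ s N * gb_aux_x ρ t N = gb_aux_D ρ s 0 * gb_aux_x ρ t 0 := by
    have h1 := hρN 0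
    have h2 := hρN 1
    have h3 := hsN 0
    have h4 := hsN 1
    rw [zero_add] at h1 h3
    rw [add_comm] at h2 h4
    unfold gb_aux_D gb_aux_x
    rw [h1, h2, h3, h4]
  have h5 := gb_aux_shift N (fun k => gb_aux_D ρ s k * gb_aux_x ρ t k) hD
  have h6 : ∑ k ∈ range N, (1 / 2 - s k * s (k + 1) / 2 -
      gb_aux_D ρ s k * (gb_aux_x ρ t (k + 1) - gb_aux_x ρ t k)) =
      ∑ k ∈ range N, (1 / 2 - s k * s (k + 1) / 2) -
        ∑ k ∈ range N, gb_aux_D ρ s k * gb_aux_x ρ t (k + 1) +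
        ∑ k ∈ range N, gb_aux_D ρ s k * gb_aux_x ρ t k := by
    rw [← Finset.sum_sub_distrib, ← Finset.sum_add_distrib]
    exact Finset.sum_congr rfl (fun k _ => by ring)
  have h7 : ∑ k ∈ range N, (gb_aux_D ρ s (k + 1) - gb_aux_D ρ s k) * gb_aux_x ρ t (k + 1) =
      ∑ k ∈ range N, gb_aux_D ρ s (k + 1) * gb_aux_x ρ t (k + 1) -
        ∑ k ∈ range N, gb_aux_D ρ s k * gb_aux_x ρ t (k + 1) := by
    rw [← Finset.sum_sub_distrib]
    exact Finset.sum_congr rfl (fun k _ => by ring)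
  rw [h6, h7, ← h5]
  ring

theorem gb_aux_D_cases (ρ s : ℕ → ℝ) (hs : ∀ i, s i = 1 ∨ s i = -1) (k : ℕ) :
    gb_aux_D ρ s k = 1 ∨ gb_aux_D ρ s k = -1 := by
  unfold gb_aux_D
  rcases hs k with h1 | h1 <;> rcases hs (k + 1) with h2 | h2 <;> rw [h1, h2] <;> split_ifs <;> norm_num

theorem gb_aux_D_pos (ρ s : ℕ → ℝ) (hs : ∀ i, s i = 1 ∨ s i = -1) (k : ℕ)
    (h : 0 < s (k + 1) * s k * (ρ (k + 1) - ρ k)) : gb_aux_D ρ s k = 1 := by
  have hP : s k * s (k + 1) = 1 ∨ s k * s (k + 1) = -1 := by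
    rcases hs k with h1 | h1 <;> rcases hs (k + 1) with h2 | h2 <;> rw [h1, h2] <;> norm_num
  rw [mul_comm (s (k + 1))] at h
  unfold gb_aux_D
  split_ifs with h1
  · rcases hP with hP | hP
    · exact hP
    · rw [hP] at h; linarith
  · rcases hP with hP | hP
    · rw [hP] at h; linarith
    · rw [hP]; norm_num

theorem gb_aux_D_neg (ρ s : ℕ → ℝ) (hs : ∀ i, s i = 1 ∨ s i = -1) (k : ℕ)
    (h : s (k + 1) * s k * (ρ (k + 1) - ρ k) < 0) : gb_aux_D ρ s k = -1 := by
  have hP : s k * s (k + 1) = 1 ∨ s k * s (k + 1) = -1 := by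
    rcases hs k with h1 | h1 <;> rcases hs (k + 1) with h2 | h2 <;> rw [h1, h2] <;> norm_num
  rw [mul_comm (s (k + 1))] at h
  unfold gb_aux_D
  split_ifs with h1
  · rcases hP with hP | hP
    · rw [hP] at h; linarith
    · exact hP
  · rcases hP with hP | hP
    · rw [hP]
    · rw [hP] at h; linarith

theorem gb_aux_eps (S : Finset ℝ) (hS : ∀ x ∈ S, 0 < x) : ∃ ε : ℝ, 0 < ε ∧ ∀ x ∈ S, ε < x := by
  classical
  induction S using Finset.induction_on with
  | empty => exact ⟨1, one_pos, fun x hx => absurd hx (Finset.notMem_empty x)⟩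
  | insert a S ha ih =>
    obtain ⟨ε, hε, h1⟩ := ih (fun x hx => hS x (Finset.mem_insert_of_mem hx))
    have h2 := hS a (Finset.mem_insert_self a S)
    refine ⟨min ε (a / 2), lt_min hε (half_pos h2), ?_⟩
    intro x hx
    rcases Finset.mem_insert.mp hx with rfl | hx
    · exact (min_le_right _ _).trans_lt (half_lt_self h2)
    · exact (min_le_left _ _).trans_lt (h1 x hx)

/-- TARGET. Between two losses there is a gain. -/
theorem gb {N m : ℕ} {w : ℕ → ℝ × ℝ} {s : ℕ → ℝ} (hN : 3 ≤ N) (h : Cyc N m w s) {u : ℝ × ℝ}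
    (hu : ∀ i j, ¬ i ≡ j [MOD N] → cr (w i) u ≠ cr (w j) u) {i j : ℕ} (hi : Loss w s u i) (hj : Loss w s u j)
    (hij : cr (w (j + 1)) u < cr (w (i + 1)) u) :
    ∃ k < N, Gain w s u k ∧ cr (w (j + 1)) u < cr (w (k + 1)) u ∧ cr (w (k + 1)) u < cr (w (i + 1)) u := by
  classical
  obtain ⟨ρ, hρ⟩ : ∃ ρ : ℕ → ℝ, ρ = fun k => cr (w k) u := ⟨_, rfl⟩
  have hρe : ∀ k, cr (w k) u = ρ k := fun k => by rw [hρ]
  have hρN : ∀ k, ρ (k + N) = ρ k := fun k => by rw [← hρe, ← hρe, h.wper]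
  have hsN := h.sper
  have hs := h.sgn
  have hρm : ∀ k, ρ (k % N) = ρ k := fun k => Function.Periodic.map_mod_nat (fun k => hρN k) k
  have hsm : ∀ k, s (k % N) = s k := fun k => Function.Periodic.map_mod_nat (fun k => hsN k) k
  have hDN : Function.Periodic (gb_aux_D ρ s) N := by
    intro k
    unfold gb_aux_D
    rw [show k + N + 1 = (k + 1) + N by ring, hρN, hρN, hsN, hsN]
  have hDm : ∀ k, gb_aux_D ρ s (k % N) = gb_aux_D ρ s k := fun k => hDN.map_mod_nat k
  simp only [hρe] at hu hij ⊢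
  have hN0 : 0 < N := by omega
  have hsucc : ∀ k, ¬ k ≡ k + 1 [MOD N] := by
    intro k hk
    have h1 : N ∣ (k + 1) - k := (Nat.modEq_iff_dvd' (Nat.le_succ k)).mp hk
    have h2 : (k + 1) - k = 1 := by omega
    rw [h2] at h1
    have := Nat.le_of_dvd one_pos h1
    omega
  -- a common gap
  obtain ⟨ε, hε, hgap⟩ : ∃ ε : ℝ, 0 < ε ∧ ∀ k l, ρ k ≠ ρ l → ε < |ρ k - ρ l| := by
    obtain ⟨ε, hε, h1⟩ := gb_aux_eps
      (((range N ×ˢ range N).image (fun p => |ρ p.1 - ρ p.2|)).filter (fun x => 0 < x))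
      (fun x hx => (Finset.mem_filter.mp hx).2)
    refine ⟨ε, hε, fun k l hkl => ?_⟩
    apply h1
    refine Finset.mem_filter.mpr ⟨Finset.mem_image.mpr ⟨(k % N, l % N), ?_, ?_⟩, ?_⟩
    · exact Finset.mem_product.mpr ⟨Finset.mem_range.mpr (Nat.mod_lt _ hN0),
        Finset.mem_range.mpr (Nat.mod_lt _ hN0)⟩
    · simp only [hρm]
    · exact abs_pos.mpr (sub_ne_zero.mpr hkl)
  have hgood : ∀ k l, ρ k ≠ ρ l + ε / 2 ∧ ρ k ≠ ρ l - ε / 2 := by
    intro k l
    by_cases hkl : ρ k = ρ l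
    · constructor
      · intro h1; linarith
      · intro h1; linarith
    · have h1 := hgap k l hkl
      constructor
      · intro h2
        rw [h2, show ρ l + ε / 2 - ρ l = ε / 2 by ring, abs_of_pos (by linarith)] at h1
        linarith
      · intro h2
        rw [h2, show ρ l - ε / 2 - ρ l = -(ε / 2) by ring, abs_neg, abs_of_pos (by linarith)] at h1
        linarith
  -- the two values
  have htv : ∀ t, (∀ k, ρ k ≠ t) → (sc N (fun i => s i * (t - ρ i)) : ℝ) = m ∨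
      (sc N (fun i => s i * (t - ρ i)) : ℝ) = m + 2 := by
    intro t ht
    have e : (fun i => s i * (t - ρ i)) = fun i => s i * aff (-u.2) u.1 t (w i) := by
      funext i
      rw [← hρe]
      unfold aff cr
      ring
    have h1 := h.tv (-u.2) u.1 t (fun i h2 => ht i (by
      rw [← hρe]
      unfold aff at h2
      unfold cr
      linarith))
    rw [← e] at h1
    rcases h1 with h1 | h1
    · left; exact_mod_cast h1
    · right; exact_mod_cast h1
  have hsum := gb_aux_sum N ρ s hs hρN hsN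
  -- the jump at a loss
  have hloss : ∀ i, Loss w s u i →
      (sc N (fun l => s l * (ρ (i + 1) + ε / 2 - ρ l)) : ℝ) =
        (sc N (fun l => s l * (ρ (i + 1) - ε / 2 - ρ l)) : ℝ) - 2 := by
    intro i hi
    rw [hsum _ (fun k => (hgood k (i + 1)).1), hsum _ (fun k => (hgood k (i + 1)).2)]
    have hD1 : gb_aux_D ρ s i = 1 := gb_aux_D_pos ρ s hs i (by
      have := hi.1
      rwa [hρe, hρe] at this)
    have hD2 : gb_aux_D ρ s (i + 1) = -1 := gb_aux_D_neg ρ s hs (i + 1) (by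
      have := hi.2
      rw [hρe, hρe] at this
      have e : s (i + 1 + 1) * s (i + 1) * (ρ (i + 1 + 1) - ρ (i + 1)) =
        -(s (i + 1) * s (i + 2) * (ρ (i + 1) - ρ (i + 2))) := by ring
      rw [e]; linarith)
    have key : ∑ k ∈ range N, (gb_aux_D ρ s (k + 1) - gb_aux_D ρ s k) *
        gb_aux_x ρ (ρ (i + 1) + ε / 2) (k + 1) - ∑ k ∈ range N, (gb_aux_D ρ s (k + 1) - gb_aux_D ρ s k) *
        gb_aux_x ρ (ρ (i + 1) - ε / 2) (k + 1) = -2 := by
      rw [← Finset.sum_sub_distrib, Finset.sum_eq_single (i % N)]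
      · have e1 : gb_aux_D ρ s (i % N + 1) = gb_aux_D ρ s (i + 1) := by
          rw [← hDm (i % N + 1), Nat.mod_add_mod, hDm]
        have e2 : ρ (i % N + 1) = ρ (i + 1) := by
          rw [← hρm (i % N + 1), Nat.mod_add_mod, hρm]
        rw [e1, hDm, hD1, hD2]
        unfold gb_aux_x
        rw [e2, if_pos (by linarith), if_neg (by linarith)]
        norm_num
      · intro k hk hki
        have hne : ρ (k + 1) ≠ ρ (i + 1) := by
          apply hu
          intro h1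
          have h2 : k ≡ i [MOD N] := Nat.ModEq.add_right_cancel' 1 h1
          apply hki
          rw [← h2, Nat.mod_eq_of_lt (Finset.mem_range.mp hk)]
        have h3 := hgap _ _ hne
        have h4 : gb_aux_x ρ (ρ (i + 1) + ε / 2) (k + 1) = gb_aux_x ρ (ρ (i + 1) - ε / 2) (k + 1) := by
          unfold gb_aux_x
          rcases lt_or_gt_of_ne hne with h5 | h5
          · rw [abs_of_neg (by linarith)] at h3
            rw [if_pos (by linarith), if_pos (by linarith)]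
          · rw [abs_of_pos (by linarith)] at h3
            rw [if_neg (by linarith), if_neg (by linarith)]
        rw [h4, sub_self]
      · intro h1
        exact absurd (Finset.mem_range.mpr (Nat.mod_lt _ hN0)) h1
    linarith
  have hi2 := hloss i hi
  have hj2 := hloss j hj
  have t1 := htv _ (fun k => (hgood k (i + 1)).1)
  have t2 := htv _ (fun k => (hgood k (i + 1)).2)
  have t3 := htv _ (fun k => (hgood k (j + 1)).1)
  have t4 := htv _ (fun k => (hgood k (j + 1)).2)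
  have A : (sc N (fun l => s l * (ρ (i + 1) - ε / 2 - ρ l)) : ℝ) = m + 2 := by
    rcases t1 with t1 | t1 <;> rcases t2 with t2 | t2 <;> linarith
  have B : (sc N (fun l => s l * (ρ (j + 1) + ε / 2 - ρ l)) : ℝ) = m := by
    rcases t3 with t3 | t3 <;> rcases t4 with t4 | t4 <;> linarith
  rw [hsum _ (fun k => (hgood k (i + 1)).2)] at A
  rw [hsum _ (fun k => (hgood k (j + 1)).1)] at B
  have C : ∑ k ∈ range N, (gb_aux_D ρ s (k + 1) - gb_aux_D ρ s k) *
      (gb_aux_x ρ (ρ (i + 1) - ε / 2) (k + 1) - gb_aux_x ρ (ρ (j + 1) + ε / 2) (k + 1)) = 2 := by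
    have : ∑ k ∈ range N, (gb_aux_D ρ s (k + 1) - gb_aux_D ρ s k) *
      (gb_aux_x ρ (ρ (i + 1) - ε / 2) (k + 1) - gb_aux_x ρ (ρ (j + 1) + ε / 2) (k + 1)) =
      ∑ k ∈ range N, (gb_aux_D ρ s (k + 1) - gb_aux_D ρ s k) * gb_aux_x ρ (ρ (i + 1) - ε / 2) (k + 1) -
      ∑ k ∈ range N, (gb_aux_D ρ s (k + 1) - gb_aux_D ρ s k) * gb_aux_x ρ (ρ (j + 1) + ε / 2) (k + 1) := by
      rw [← Finset.sum_sub_distrib]
      exact Finset.sum_congr rfl (fun k _ => by ring)
    rw [this]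
    linarith
  obtain ⟨k, hk, hpos⟩ : ∃ k ∈ range N, 0 < (gb_aux_D ρ s (k + 1) - gb_aux_D ρ s k) *
      (gb_aux_x ρ (ρ (i + 1) - ε / 2) (k + 1) - gb_aux_x ρ (ρ (j + 1) + ε / 2) (k + 1)) := by
    by_contra hcon
    push Not at hcon
    have := Finset.sum_nonpos hcon
    linarith
  have hij2 : ρ (j + 1) + ε < ρ (i + 1) := by
    have h1 := hgap (i + 1) (j + 1) (ne_of_gt hij)
    rw [abs_of_pos (by linarith)] at h1
    linarith
  have hx : gb_aux_x ρ (ρ (i + 1) - ε / 2) (k + 1) - gb_aux_x ρ (ρ (j + 1) + ε / 2) (k + 1) = 1 ∧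
      ρ (j + 1) + ε / 2 ≤ ρ (k + 1) ∧ ρ (k + 1) < ρ (i + 1) - ε / 2 := by
    unfold gb_aux_x at hpos ⊢
    by_cases h1 : ρ (k + 1) < ρ (j + 1) + ε / 2
    · rw [if_pos (by linarith : ρ (k + 1) < ρ (i + 1) - ε / 2), if_pos h1] at hpos
      simp at hpos
    · by_cases h2 : ρ (k + 1) < ρ (i + 1) - ε / 2
      · rw [if_pos h2, if_neg h1]
        exact ⟨by norm_num, not_lt.mp h1, h2⟩
      · rw [if_neg h2, if_neg h1] at hpos
        simp at hpos
  rw [hx.1, mul_one] at hpos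
  have hD : gb_aux_D ρ s (k + 1) = 1 ∧ gb_aux_D ρ s k = -1 := by
    rcases gb_aux_D_cases ρ s hs k with h1 | h1 <;> rcases gb_aux_D_cases ρ s hs (k + 1) with h2 | h2
    · rw [h1, h2] at hpos; linarith
    · rw [h1, h2] at hpos; linarith
    · exact ⟨h2, h1⟩
    · rw [h1, h2] at hpos; linarith
  refine ⟨k, Finset.mem_range.mp hk, ⟨?_, ?_⟩, by linarith, by linarith⟩
  · rw [hρe, hρe]
    by_contra hcon
    push Not at hcon
    have hne : s (k + 1) * s k * (ρ (k + 1) - ρ k) ≠ 0 := by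
      have h1 : s (k + 1) ≠ 0 := by rcases hs (k + 1) with h1 | h1 <;> rw [h1] <;> norm_num
      have h2 : s k ≠ 0 := by rcases hs k with h1 | h1 <;> rw [h1] <;> norm_num
      exact mul_ne_zero (mul_ne_zero h1 h2) (sub_ne_zero.mpr (hu k (k + 1) (hsucc k)).symm)
    have := gb_aux_D_pos ρ s hs k (lt_of_le_of_ne hcon hne.symm)
    rw [hD.2] at this
    norm_num at this
  · rw [hρe, hρe]
    by_contra hcon
    push Not at hcon
    have hne : s (k + 1) * s (k + 2) * (ρ (k + 1) - ρ (k + 2)) ≠ 0 := by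
      have h1 : s (k + 1) ≠ 0 := by rcases hs (k + 1) with h1 | h1 <;> rw [h1] <;> norm_num
      have h2 : s (k + 2) ≠ 0 := by rcases hs (k + 2) with h1 | h1 <;> rw [h1] <;> norm_num
      exact mul_ne_zero (mul_ne_zero h1 h2) (sub_ne_zero.mpr (hu (k + 1) (k + 2) (hsucc (k + 1))))
    have h3 : 0 < s (k + 1) * s (k + 2) * (ρ (k + 1) - ρ (k + 2)) := lt_of_le_of_ne hcon hne.symm
    have := gb_aux_D_neg ρ s hs (k + 1) (by
      have e : s (k + 1 + 1) * s (k + 1) * (ρ (k + 1 + 1) - ρ (k + 1)) =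
        -(s (k + 1) * s (k + 2) * (ρ (k + 1) - ρ (k + 2))) := by ring
      rw [e]; linarith)
    rw [hD.1] at this
    norm_num at this

end SB758
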