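import Pool.Agent.Helper758_SB.Defs

namespace SB758

open Finset

/-- discrete intermediate value: a sign change between `a` and `b` occurs at a consecutive pair -/
theorem exists_change (g : ℕ → ℝ) (hg : ∀ i, g i ≠ 0) (a b : ℕ) (hab : a < b)
    (h : g a * g b < 0) : ∃ i, a ≤ i ∧ i < b ∧ g i * g (i + 1) < 0 := by
  by_contra hcon
  push Not at hcon
  have key : ∀ d, a + d ≤ b → 0 < g a * g (a + d) := by
    intro d
    induction d with
    | zero =>
      intro _
      rw [add_zero]
      exact mul_self_pos.2 (hg a)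
    | succ d ih =>
      intro hd
      have h1 := ih (by omega)
      have h2 := hcon (a + d) (by omega) (by omega)
      have h3 : 0 < g (a + d) * g (a + d + 1) :=
        lt_of_le_of_ne h2 (mul_ne_zero (hg _) (hg _)).symm
      have h4 : 0 < (g a * g (a + d)) * (g (a + d) * g (a + d + 1)) := mul_pos h1 h3
      have h5 : (g a * g (a + d)) * (g (a + d) * g (a + d + 1)) =
          (g (a + d) * g (a + d)) * (g a * g (a + d + 1)) := by ring
      rw [h5] at h4
      rw [← add_assoc]
      exact (mul_pos_iff_of_pos_left (mul_self_pos.2 (hg (a + d)))).1 h4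
  have := key (b - a) (by omega)
  rw [Nat.add_sub_cancel' hab.le] at this
  linarith

/-- small positive perturbations -/
theorem exists_eps (N : ℕ) (v : ℕ → ℝ) : ∃ ε : ℝ, 0 < ε ∧ ∀ i ∈ range N,
    v i + ε ≠ 0 ∧ (v i ≠ 0 → 0 < v i * (v i + ε)) := by
  have h : ∀ᶠ ε in nhdsWithin (0 : ℝ) (Set.Ioi 0), ∀ i ∈ range N,
      v i + ε ≠ 0 ∧ (v i ≠ 0 → 0 < v i * (v i + ε)) := by
    rw [Filter.eventually_all_finset]
    intro i _
    by_cases hv : v i = 0
    · filter_upwards [self_mem_nhdsWithin] with ε hε
      have hε' : 0 < ε := hε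
      rw [hv, zero_add]
      exact ⟨hε'.ne', fun h => absurd rfl h⟩
    · have h1 : Filter.Tendsto (fun ε : ℝ => v i * (v i + ε)) (nhdsWithin (0 : ℝ) (Set.Ioi 0))
          (nhds (v i * (v i + 0))) := by
        apply Filter.Tendsto.mono_left _ nhdsWithin_le_nhds
        apply Continuous.tendsto
        fun_prop
      rw [add_zero] at h1
      filter_upwards [h1.eventually (lt_mem_nhds (mul_self_pos.2 hv))] with ε hε
      refine ⟨?_, fun _ => hε⟩
      intro h0
      rw [h0, mul_zero] at hε
      exact lt_irrefl _ hε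
  obtain ⟨ε, h1, h2⟩ := (h.and self_mem_nhdsWithin).exists
  exact ⟨ε, h2, h1⟩

/-- TARGET. An affine function cannot alternate more than `m + 2` times along one period. -/
theorem alt_le {N m : ℕ} {w : ℕ → ℝ × ℝ} {s : ℕ → ℝ} (hN : 1 ≤ N) (h : Cyc N m w s) {x y z : ℝ} {K : ℕ} {t : ℕ → ℕ}
    (hb : t K < t 0 + N)
    (ha : ∀ k < K, t k < t (k + 1) ∧
      (s (t k) * aff x y z (w (t k))) * (s (t (k + 1)) * aff x y z (w (t (k + 1)))) < 0) : K ≤ m + 2 := by
  obtain ⟨ε, hε, hε2⟩ := exists_eps N (fun i => aff x y z (w i))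
  have hwp : Function.Periodic w N := h.wper
  have hsp : Function.Periodic s N := h.sper
  have hmod : ∀ i, i % N ∈ range N := fun i => mem_range.2 (Nat.mod_lt _ (by omega))
  have haff : ∀ v, aff x y (z + ε) v = aff x y z v + ε := by
    intro v; unfold aff; ring
  have hall : ∀ i, aff x y z (w i) + ε ≠ 0 ∧
      (aff x y z (w i) ≠ 0 → 0 < aff x y z (w i) * (aff x y z (w i) + ε)) := by
    intro i
    have := hε2 (i % N) (hmod i)
    simp only [hwp.map_mod_nat] at this
    exact this
  set g : ℕ → ℝ := fun i => s i * aff x y (z + ε) (w i) with hg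
  have hs0 : ∀ i, s i ≠ 0 := by
    intro i
    rcases h.sgn i with h1 | h1 <;> rw [h1] <;> norm_num
  have hg0 : ∀ i, g i ≠ 0 := by
    intro i
    simp only [hg, haff]
    exact mul_ne_zero (hs0 i) (hall i).1
  have hgp : Function.Periodic g N := by
    intro i
    simp only [hg, h.wper, h.sper]
  have hneg : ∀ k < K, g (t k) * g (t (k + 1)) < 0 := by
    intro k hk
    have h1 := (ha k hk).2
    have n1 : aff x y z (w (t k)) ≠ 0 := by
      intro h0; rw [h0] at h1; simp at h1
    have n2 : aff x y z (w (t (k + 1))) ≠ 0 := by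
      intro h0; rw [h0] at h1; simp at h1
    have p1 := (hall (t k)).2 n1
    have p2 := (hall (t (k + 1))).2 n2
    simp only [hg, haff]
    by_contra hcon
    push Not at hcon
    have h2 : 0 < (aff x y z (w (t k)) * (aff x y z (w (t k)) + ε)) *
      (aff x y z (w (t (k + 1))) * (aff x y z (w (t (k + 1))) + ε)) := mul_pos p1 p2
    have sq1 : 0 < s (t k) * s (t k) := mul_self_pos.2 (hs0 _)
    have sq2 : 0 < s (t (k + 1)) * s (t (k + 1)) := mul_self_pos.2 (hs0 _)
    have h3 : 0 < (s (t k) * s (t k)) * (s (t (k + 1)) * s (t (k + 1))) *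
      ((aff x y z (w (t k)) * (aff x y z (w (t k)) + ε)) *
      (aff x y z (w (t (k + 1))) * (aff x y z (w (t (k + 1))) + ε))) :=
      mul_pos (mul_pos sq1 sq2) h2
    have h4 : (s (t k) * s (t k)) * (s (t (k + 1)) * s (t (k + 1))) *
      ((aff x y z (w (t k)) * (aff x y z (w (t k)) + ε)) *
      (aff x y z (w (t (k + 1))) * (aff x y z (w (t (k + 1))) + ε))) =
      (s (t k) * aff x y z (w (t k)) * (s (t (k + 1)) * aff x y z (w (t (k + 1))))) *
      (s (t k) * (aff x y z (w (t k)) + ε) * (s (t (k + 1)) * (aff x y z (w (t (k + 1))) + ε))) := by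
      ring
    rw [h4] at h3
    have h5 := mul_nonpos_of_nonpos_of_nonneg h1.le hcon
    linarith
  -- consecutive sign changes
  have hex : ∀ k, ∃ i, k < K → t k ≤ i ∧ i < t (k + 1) ∧ g i * g (i + 1) < 0 := by
    intro k
    by_cases hk : k < K
    · obtain ⟨i, hi⟩ := exists_change g hg0 (t k) (t (k + 1)) (ha k hk).1 (hneg k hk)
      exact ⟨i, fun _ => hi⟩
    · exact ⟨0, fun h => absurd h hk⟩
  choose I hI using hex
  have tmono : ∀ a b, a ≤ b → b ≤ K → t a ≤ t b := by
    intro a b hab
    induction b, hab using Nat.le_induction with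
    | base => intro _; exact le_rfl
    | succ b _ ih =>
      intro hb
      exact (ih (by omega)).trans (ha b (by omega)).1.le
  have hle : K ≤ sc N g := by
    unfold sc
    rw [← card_range K]
    apply card_le_card_of_injOn (fun k => I k % N)
    · intro k hk
      have hk' := mem_range.1 (mem_coe.1 hk)
      obtain ⟨_, _, h3⟩ := hI k hk'
      rw [mem_coe, mem_filter]
      refine ⟨hmod _, ?_⟩
      have e1 : g (I k % N) = g (I k) := hgp.map_mod_nat _
      have e2 : g (I k % N + 1) = g (I k + 1) := by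
        rw [← hgp.map_mod_nat (I k % N + 1), ← hgp.map_mod_nat (I k + 1)]
        congr 1
        rw [Nat.mod_add_mod]
      show g (I k % N) * g (I k % N + 1) < 0
      rw [e1, e2]
      exact h3
    · have hlt : ∀ a b, a < b → b < K → I a % N ≠ I b % N := by
        intro a b hab hbK heq
        obtain ⟨a1, a2, _⟩ := hI a (by omega)
        obtain ⟨b1, b2, _⟩ := hI b hbK
        have m1 := tmono (a + 1) b (by omega) (by omega)
        have m2 := tmono 0 a (by omega) (by omega)
        have m3 := tmono (b + 1) K (by omega) le_rfl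
        have h4 : I a ≡ I b [MOD N] := heq
        have h5 : N ∣ I b - I a := (Nat.modEq_iff_dvd' (by omega)).1 h4
        have h6 := Nat.le_of_dvd (by omega) h5
        omega
      intro a haK b hbK hab
      have haK' := mem_range.1 (mem_coe.1 haK)
      have hbK' := mem_range.1 (mem_coe.1 hbK)
      rcases lt_trichotomy a b with h1 | h1 | h1
      · exact absurd hab (hlt a b h1 hbK')
      · exact h1
      · exact absurd hab.symm (hlt b a h1 haK')
  have htv := h.tv x y (z + ε) (by
    intro i
    rw [haff]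
    exact (hall i).1)
  rcases htv with h1 | h1
  · have : sc N g = m := h1
    omega
  · have : sc N g = m + 2 := h1
    omega

end SB758
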