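import Pool.Agent.Helper758_SB.Defs

namespace SB758

open Finset

theorem ang_of_path_polar (v : ℝ × ℝ) (φ₀ : ℝ) : ∃ φ, φ₀ - Real.pi < φ ∧ φ ≤ φ₀ + Real.pi ∧
    v = (Real.sqrt (v.1 ^ 2 + v.2 ^ 2) * Real.cos φ, Real.sqrt (v.1 ^ 2 + v.2 ^ 2) * Real.sin φ) := by
  set z : ℂ := ⟨v.1, v.2⟩ with hz
  have hn : ‖z‖ = Real.sqrt (v.1 ^ 2 + v.2 ^ 2) := by
    rw [Complex.norm_eq_sqrt_sq_add_sq]
  have h1 : ‖z‖ * Real.cos z.arg = v.1 := Complex.norm_mul_cos_arg z
  have h2 : ‖z‖ * Real.sin z.arg = v.2 := Complex.norm_mul_sin_arg z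
  set φ := toIocMod Real.two_pi_pos (φ₀ - Real.pi) z.arg with hφ
  have hmem := toIocMod_mem_Ioc Real.two_pi_pos (φ₀ - Real.pi) z.arg
  have hsub : φ = z.arg - (toIocDiv Real.two_pi_pos (φ₀ - Real.pi) z.arg : ℤ) * (2 * Real.pi) := by
    rw [hφ, toIocMod, zsmul_eq_mul]
  refine ⟨φ, hmem.1, ?_, ?_⟩
  · have := hmem.2
    linarith
  · rw [← hn, hsub, Real.cos_sub_int_mul_two_pi, Real.sin_sub_int_mul_two_pi, h1, h2]

noncomputable def ang_of_path_pick (v : ℝ × ℝ) (φ₀ : ℝ) : ℝ := (ang_of_path_polar v φ₀).choose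

theorem ang_of_path_pick_spec (v : ℝ × ℝ) (φ₀ : ℝ) :
    φ₀ - Real.pi < ang_of_path_pick v φ₀ ∧ ang_of_path_pick v φ₀ ≤ φ₀ + Real.pi ∧
    v = (Real.sqrt (v.1 ^ 2 + v.2 ^ 2) * Real.cos (ang_of_path_pick v φ₀),
      Real.sqrt (v.1 ^ 2 + v.2 ^ 2) * Real.sin (ang_of_path_pick v φ₀)) :=
  (ang_of_path_polar v φ₀).choose_spec

noncomputable def ang_of_path_th (w : ℕ → ℝ × ℝ) : ℕ → ℝ
  | 0 => ang_of_path_pick (w 1 - w 0) 0
  | (i + 1) => ang_of_path_pick (w (i + 2) - w (i + 1)) (ang_of_path_th w i)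

noncomputable def ang_of_path_r (w : ℕ → ℝ × ℝ) (i : ℕ) : ℝ :=
  Real.sqrt ((w (i + 1) - w i).1 ^ 2 + (w (i + 1) - w i).2 ^ 2)

theorem ang_of_path_step (w : ℕ → ℝ × ℝ) (i : ℕ) :
    w (i + 1) - w i = (ang_of_path_r w i * Real.cos (ang_of_path_th w i),
      ang_of_path_r w i * Real.sin (ang_of_path_th w i)) := by
  cases i with
  | zero => exact (ang_of_path_pick_spec (w 1 - w 0) 0).2.2
  | succ i => exact (ang_of_path_pick_spec (w (i + 2) - w (i + 1)) (ang_of_path_th w i)).2.2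

theorem ang_of_path_near (w : ℕ → ℝ × ℝ) (i : ℕ) :
    ang_of_path_th w i - Real.pi < ang_of_path_th w (i + 1) ∧
      ang_of_path_th w (i + 1) ≤ ang_of_path_th w i + Real.pi :=
  ⟨(ang_of_path_pick_spec (w (i + 2) - w (i + 1)) (ang_of_path_th w i)).1,
    (ang_of_path_pick_spec (w (i + 2) - w (i + 1)) (ang_of_path_th w i)).2.1⟩

theorem ang_of_path_prod {a b ψ : ℝ} (hab : |b - a| < Real.pi) (h : ψ ∈ Set.uIcc a b)
    (ha : ψ ≠ a) (hb : ψ ≠ b) : 0 < Real.sin (ψ - a) * Real.sin (b - ψ) := by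
  rw [abs_lt] at hab
  rcases Set.mem_uIcc.1 h with ⟨h1, h2⟩ | ⟨h1, h2⟩
  · have h1' : a < ψ := lt_of_le_of_ne h1 (Ne.symm ha)
    have h2' : ψ < b := lt_of_le_of_ne h2 hb
    exact mul_pos (Real.sin_pos_of_pos_of_lt_pi (by linarith) (by linarith))
      (Real.sin_pos_of_pos_of_lt_pi (by linarith) (by linarith))
  · have h1' : b < ψ := lt_of_le_of_ne h1 (Ne.symm hb)
    have h2' : ψ < a := lt_of_le_of_ne h2 ha
    exact mul_pos_of_neg_of_neg (Real.sin_neg_of_neg_of_neg_pi_lt (by linarith) (by linarith))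
      (Real.sin_neg_of_neg_of_neg_pi_lt (by linarith) (by linarith))

theorem ang_of_path_col {x y z : ℝ} (hxy : x ^ 2 + y ^ 2 = 1) {a b c : ℝ × ℝ}
    (ha : aff x y z a = 0) (hb : aff x y z b = 0) (hc : aff x y z c = 0) : ori a b c = 0 := by
  simp only [aff, ori, cr, Prod.fst_sub, Prod.snd_sub] at *
  have h1 : x * (b.1 - a.1) + y * (b.2 - a.2) = 0 := by linarith
  have h2 : x * (c.1 - a.1) + y * (c.2 - a.2) = 0 := by linarith
  have h3 : x * ((b.1 - a.1) * (c.2 - a.2) - (b.2 - a.2) * (c.1 - a.1)) = 0 := by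
    linear_combination (c.2 - a.2) * h1 - (b.2 - a.2) * h2
  have h4 : y * ((b.1 - a.1) * (c.2 - a.2) - (b.2 - a.2) * (c.1 - a.1)) = 0 := by
    linear_combination (b.1 - a.1) * h2 - (c.1 - a.1) * h1
  linear_combination x * h3 + y * h4 - ((b.1 - a.1) * (c.2 - a.2) - (b.2 - a.2) * (c.1 - a.1)) * hxy

/-- TARGET. Angles for a path.
PROOF. Let `u i = w (i+1) - w i`, `i < B`. `u i ≠ 0` (as `ori (w i) (w (i+1)) (w (i+2)) ≠ 0` or `ori (w (i-1)) (w i) (w (i+1)) ≠ 0`, `B ≥ 2`). Put `r i = |u i|` (euclidean) and choose angles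
recursively: `θ 0` an argument of `u 0`, `θ (i+1)` the argument of `u (i+1)` in `(θ i - π, θ i + π]`. It is not `θ i` or `θ i + π` because
`cr (u i) (u (i+1)) = ori (w i) (w (i+1)) (w (i+2)) ≠ 0` and `cr (u i) (u (i+1)) = r i * r (i+1) * sin (θ (i+1) - θ i)`.
`nba`: suppose equality, let `F w = -(w.1 - (w (i+1)).1) sin ψ + (w.2 - (w (i+1)).2) cos ψ` (an affine function vanishing at `w (i+1)` and `w (j+1)`).
`F (w (i+2)) = r (i+1) sin (θ (i+1) - ψ)` and `F (w i) = r i sin (ψ - θ i)`. If `ψ` is strictly between `θ i` and `θ (i+1)` both have the same strict sign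
(the difference of the angles is less than `π`), product positive; if `ψ = θ i` then `F (w i) = 0` and the three points `w i, w (i+1), w (j+1)` are on a line,
contradiction to `gp`; if `ψ = θ (i+1)` then `F (w (i+2)) = 0`, three points `w (i+1), w (i+2), w (j+1)` (distinct indices as `i + 2 ≤ j`). The same at `j`
with `ψ + n π` (`sin, cos` change by the common factor `(-1)^n`; the three points there are `w (i+1), w j, w (j+1)` with `i + 1 < j`, or `w (i+1), w (j+1), w (j+2)`). Then `nb` gives the contradiction.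
`alt`: the function `w ↦ hgt - H` is the affine function with coefficients `(-sin ψ, cos ψ, -H)`. -/
theorem ang_of_path {m B : ℕ} {w : ℕ → ℝ × ℝ} (hB : 2 ≤ B) (h : PathOK m B w) : ∃ θ r : ℕ → ℝ, Ang m B w θ r := by
  have hstep := ang_of_path_step w
  have hu : ∀ i < B, w (i + 1) - w i ≠ 0 := by
    intro i hi h0
    have h0' : w (i + 1) = w i := sub_eq_zero.1 h0
    by_cases hiB : i + 2 ≤ B
    · apply h.gp i (i + 1) (i + 2) (by omega) (by omega) hiB
      simp [ori, cr, h0']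
    · have hi1 : 1 ≤ i := by omega
      obtain ⟨j, rfl⟩ : ∃ j, i = j + 1 := ⟨i - 1, by omega⟩
      apply h.gp j (j + 1) (j + 1 + 1) (by omega) (by omega) (by omega)
      simp only [ori, cr, h0']
      ring
  have hr : ∀ i < B, 0 < ang_of_path_r w i := by
    intro i hi
    rcases (Real.sqrt_nonneg ((w (i + 1) - w i).1 ^ 2 + (w (i + 1) - w i).2 ^ 2)).lt_or_eq with h1 | h1
    · exact h1
    · exfalso
      apply hu i hi
      rw [hstep i]
      have : ang_of_path_r w i = 0 := h1.symm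
      rw [this]; simp
  have hsin : ∀ i, i + 2 ≤ B → Real.sin (ang_of_path_th w (i + 1) - ang_of_path_th w i) ≠ 0 := by
    intro i hi h0
    apply h.gp i (i + 1) (i + 2) (by omega) (by omega) hi
    have e1 := hstep i
    have e2 := hstep (i + 1)
    have e3 : ori (w i) (w (i + 1)) (w (i + 2)) = cr (w (i + 1) - w i) (w (i + 1 + 1) - w (i + 1)) := by
      simp only [ori, cr, Prod.fst_sub, Prod.snd_sub]; ring
    rw [e3, e1, e2]
    simp only [cr]
    rw [Real.sin_sub] at h0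
    linear_combination (ang_of_path_r w i * ang_of_path_r w (i + 1)) * h0
  have hstep1 : ∀ i, w (i + 1) = w i + (ang_of_path_r w i * Real.cos (ang_of_path_th w i),
      ang_of_path_r w i * Real.sin (ang_of_path_th w i)) := by
    intro i
    rw [← hstep i]; abel
  have hne : ∀ i, i + 2 ≤ B → ang_of_path_th w (i + 1) ≠ ang_of_path_th w i := by
    intro i hi h0
    apply hsin i hi
    rw [h0, sub_self, Real.sin_zero]
  have hturn : ∀ i, i + 2 ≤ B → |ang_of_path_th w (i + 1) - ang_of_path_th w i| < Real.pi := by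
    intro i hi
    have h1 := ang_of_path_near w i
    rw [abs_lt]
    refine ⟨by linarith, lt_of_le_of_ne (by linarith) ?_⟩
    intro h0
    apply hsin i hi
    rw [h0, Real.sin_pi]
  refine ⟨ang_of_path_th w, ang_of_path_r w, hr, fun i _ => hstep1 i, hturn, hne, ?_, ?_⟩
  · intro i j hij hjB ψ n hψ hψ' heq
    set θ := ang_of_path_th w with hθ
    set r := ang_of_path_r w with hrr
    set z : ℝ := -(hgt w ψ (i + 1)) with hz
    have hxy : (-Real.sin ψ) ^ 2 + (Real.cos ψ) ^ 2 = 1 := by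
      rw [neg_sq]; exact Real.sin_sq_add_cos_sq ψ
    have haff : ∀ k, aff (-Real.sin ψ) (Real.cos ψ) z (w k) = hgt w ψ k - hgt w ψ (i + 1) := by
      intro k
      simp only [aff, hgt, hz]; ring
    have hz1 : aff (-Real.sin ψ) (Real.cos ψ) z (w (i + 1)) = 0 := by rw [haff, sub_self]
    have hz2 : aff (-Real.sin ψ) (Real.cos ψ) z (w (j + 1)) = 0 := by rw [haff, heq, sub_self]
    have hfwd : ∀ k, aff (-Real.sin ψ) (Real.cos ψ) z (w (k + 1)) =
        aff (-Real.sin ψ) (Real.cos ψ) z (w k) + r k * Real.sin (θ k - ψ) := by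
      intro k
      rw [hstep1 k, Real.sin_sub]
      simp only [aff, Prod.fst_add, Prod.snd_add]
      ring
    have hbwd : ∀ k, aff (-Real.sin ψ) (Real.cos ψ) z (w (k + 1)) = 0 →
        aff (-Real.sin ψ) (Real.cos ψ) z (w k) = r k * Real.sin (ψ - θ k) := by
      intro k hk
      have h1 := hfwd k
      rw [hk, ← neg_sub ψ (θ k), Real.sin_neg] at h1
      linarith
    have hi0 := hbwd i hz1
    have hi2 := hfwd (i + 1)
    rw [hz1, zero_add] at hi2
    have hj0 := hbwd j hz2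
    have hj2 := hfwd (j + 1)
    rw [hz2, zero_add] at hj2
    -- equality cases
    have hc1 : ψ ≠ θ i := by
      intro hc
      apply h.gp i (i + 1) (j + 1) (by omega) (by omega) (by omega)
      refine ang_of_path_col hxy ?_ hz1 hz2
      rw [hi0, hc, sub_self, Real.sin_zero, mul_zero]
    have hc2 : ψ ≠ θ (i + 1) := by
      intro hc
      apply h.gp (i + 1) (i + 2) (j + 1) (by omega) (by omega) (by omega)
      refine ang_of_path_col hxy hz1 ?_ hz2
      rw [hi2, hc, sub_self, Real.sin_zero, mul_zero]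
    have hs1 : Real.sin (ψ - θ j) = (-1) ^ n * Real.sin (ψ + n * Real.pi - θ j) := by
      rw [← Real.sin_sub_int_mul_pi]
      congr 1; ring
    have hs2 : Real.sin (θ (j + 1) - ψ) = (-1) ^ n * Real.sin (θ (j + 1) - (ψ + n * Real.pi)) := by
      rw [← Real.sin_add_int_mul_pi]
      congr 1; ring
    have hc3 : ψ + n * Real.pi ≠ θ j := by
      intro hc
      apply h.gp (i + 1) j (j + 1) (by omega) (by omega) (by omega)
      refine ang_of_path_col hxy hz1 ?_ hz2
      rw [hj0, hs1, hc, sub_self, Real.sin_zero, mul_zero, mul_zero]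
    have hc4 : ψ + n * Real.pi ≠ θ (j + 1) := by
      intro hc
      apply h.gp (i + 1) (j + 1) (j + 2) (by omega) (by omega) (by omega)
      refine ang_of_path_col hxy hz1 hz2 ?_
      rw [hj2, hs2, hc, sub_self, Real.sin_zero, mul_zero, mul_zero]
    have p1 := ang_of_path_prod (hturn i (by omega)) hψ hc1 hc2
    have p2 := ang_of_path_prod (hturn j (by omega)) hψ' hc3 hc4
    apply h.nb i j hij hjB _ _ _ hz1 hz2
    constructor
    · rw [hi0]
      have : aff (-Real.sin ψ) (Real.cos ψ) z (w (i + 2)) = r (i + 1) * Real.sin (θ (i + 1) - ψ) := hi2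
      rw [this]
      have e : r i * Real.sin (ψ - θ i) * (r (i + 1) * Real.sin (θ (i + 1) - ψ))
        = (r i * r (i + 1)) * (Real.sin (ψ - θ i) * Real.sin (θ (i + 1) - ψ)) := by ring
      rw [e]
      exact mul_pos (mul_pos (hr i (by omega)) (hr (i + 1) (by omega))) p1
    · rw [hj0]
      have : aff (-Real.sin ψ) (Real.cos ψ) z (w (j + 2)) = r (j + 1) * Real.sin (θ (j + 1) - ψ) := hj2
      rw [this, hs1, hs2]
      have hpm : ((-1 : ℝ) ^ n) * ((-1 : ℝ) ^ n) = 1 := by
        rw [← mul_zpow]; norm_num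
      have e : r j * ((-1) ^ n * Real.sin (ψ + n * Real.pi - θ j)) *
          (r (j + 1) * ((-1) ^ n * Real.sin (θ (j + 1) - (ψ + n * Real.pi))))
        = (r j * r (j + 1)) * (Real.sin (ψ + n * Real.pi - θ j) * Real.sin (θ (j + 1) - (ψ + n * Real.pi))) := by
        linear_combination (r j * r (j + 1)) * (Real.sin (ψ + n * Real.pi - θ j) *
          Real.sin (θ (j + 1) - (ψ + n * Real.pi))) * hpm
      rw [e]
      exact mul_pos (mul_pos (hr j (by omega)) (hr (j + 1) (by omega))) p2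
  · intro ψ H K t ht hk
    apply h.alt (-Real.sin ψ) (Real.cos ψ) (-H) K t ht
    intro k hkK
    refine ⟨(hk k hkK).1, ?_⟩
    have e : ∀ i, aff (-Real.sin ψ) (Real.cos ψ) (-H) (w i) = hgt w ψ i - H := by
      intro i; simp only [aff, hgt]; ring
    rw [e, e]
    exact (hk k hkK).2

end SB758
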