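import Pool.Agent.Helper758_SB.Defs

namespace SB758

open Finset

theorem hgt_step {m B : ℕ} {w : ℕ → ℝ × ℝ} {θ r : ℕ → ℝ} (h : Ang m B w θ r) (ψ : ℝ) {i : ℕ} (hi : i < B) :
    hgt w ψ (i + 1) = hgt w ψ i + r i * Real.sin (θ i - ψ) := by
  unfold hgt
  rw [h.step i hi, Real.sin_sub]
  simp only [Prod.fst_add, Prod.snd_add]
  ring

/-- the continuous height function of an increasing run -/
theorem run_inc {m B : ℕ} {w : ℕ → ℝ × ℝ} {θ r : ℕ → ℝ} (h : Ang m B w θ r) {p q : ℕ} (hpq : p ≤ q)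
    (hB : q ≤ B) (m1 : ∀ i j, p ≤ i → i < j → j ≤ q → θ i < θ j) :
    ∃ f : ℝ → ℝ, Continuous f ∧ ∀ (ψ : ℝ) (i : ℕ), p ≤ i → i < q → θ i ≤ ψ → ψ ≤ θ (i + 1) →
      f ψ = hgt w ψ (i + 1) := by
  refine ⟨fun ψ => hgt w ψ p + ∑ k ∈ Finset.Ico p q, r k * Real.sin (min (θ k - ψ) 0), ?_, ?_⟩
  · unfold hgt
    fun_prop
  · intro ψ i hpi hiq h1 h2
    have key : ∀ n, p + n ≤ i + 1 →
        hgt w ψ (p + n) = hgt w ψ p + ∑ k ∈ Finset.Ico p (p + n), r k * Real.sin (min (θ k - ψ) 0) := by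
      intro n
      induction n with
      | zero => intro _; simp
      | succ n ih =>
        intro hn
        rw [← add_assoc, hgt_step h ψ (by omega), ih (by omega), Finset.sum_Ico_succ_top (by omega)]
        have h3 : θ (p + n) ≤ ψ := by
          rcases Nat.lt_or_ge (p + n) i with h4 | h4
          · exact (m1 (p + n) i (by omega) h4 (by omega)).le.trans h1
          · have : p + n = i := by omega
            rw [this]; exact h1
        rw [min_eq_left (by linarith)]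
        ring
    have h5 := key (i + 1 - p) (by omega)
    have e : p + (i + 1 - p) = i + 1 := by omega
    rw [e] at h5
    rw [h5]
    have h6 : ∑ k ∈ Finset.Ico p q, r k * Real.sin (min (θ k - ψ) 0) =
        ∑ k ∈ Finset.Ico p (i + 1), r k * Real.sin (min (θ k - ψ) 0) +
        ∑ k ∈ Finset.Ico (i + 1) q, r k * Real.sin (min (θ k - ψ) 0) :=
      (Finset.sum_Ico_consecutive _ (by omega) (by omega)).symm
    have h7 : ∑ k ∈ Finset.Ico (i + 1) q, r k * Real.sin (min (θ k - ψ) 0) = 0 := by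
      apply Finset.sum_eq_zero
      intro k hk
      rw [Finset.mem_Ico] at hk
      have h8 : ψ ≤ θ k := by
        rcases Nat.lt_or_ge (i + 1) k with h9 | h9
        · exact h2.trans (m1 (i + 1) k (by omega) h9 (by omega)).le
        · have : k = i + 1 := by omega
          rw [this]; exact h2
      rw [min_eq_right (by linarith)]
      simp
    simp only
    rw [h6, h7, add_zero]

/-- the reflected path -/
theorem Ang.refl {m B : ℕ} {w : ℕ → ℝ × ℝ} {θ r : ℕ → ℝ} (h : Ang m B w θ r) :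
    Ang m B (fun i => ((w i).1, -(w i).2)) (fun i => -θ i) r := by
  have e : ∀ ψ i, hgt (fun i => ((w i).1, -(w i).2)) ψ i = - hgt w (-ψ) i := by
    intro ψ i
    unfold hgt
    rw [Real.sin_neg, Real.cos_neg]
    ring
  have hm : ∀ (ψ : ℝ) i, ψ ∈ Set.uIcc (-θ i) (-θ (i + 1)) → -ψ ∈ Set.uIcc (θ i) (θ (i + 1)) := by
    intro ψ i hi
    rw [Set.mem_uIcc] at hi ⊢
    rcases hi with ⟨h1, h2⟩ | ⟨h1, h2⟩
    · right; constructor <;> linarith
    · left; constructor <;> linarith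
  refine ⟨h.r_pos, ?_, ?_, ?_, ?_, ?_⟩
  · intro i hi
    have h1 := h.step i hi
    rw [h1, Real.sin_neg, Real.cos_neg]
    simp only [Prod.fst_add, Prod.snd_add, Prod.mk_add_mk]
    rw [Prod.mk.injEq]
    exact ⟨rfl, by ring⟩
  · intro i hi
    have := h.turn i hi
    have e1 : -θ (i + 1) - -θ i = -(θ (i + 1) - θ i) := by ring
    rw [e1, abs_neg]
    exact this
  · intro i hi h1
    exact h.ne i hi (neg_injective h1)
  · intro i j hij hj ψ n h1 h2 h3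
    rw [e, e] at h3
    refine h.nba i j hij hj (-ψ) (-n) (hm _ _ h1) ?_ (neg_injective h3)
    have h4 := hm _ _ h2
    have e2 : -(ψ + n * Real.pi) = -ψ + ((-n : ℤ) : ℝ) * Real.pi := by
      push_cast
      ring
    rw [e2] at h4
    exact h4
  · intro ψ H K t hK hk
    refine h.alt (-ψ) (-H) K t hK ?_
    intro k hkK
    have h1 := hk k hkK
    rw [e, e] at h1
    refine ⟨h1.1, ?_⟩
    have h2 := h1.2
    have e3 : (hgt w (-ψ) (t k) - -H) * (hgt w (-ψ) (t (k + 1)) - -H) =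
      (-hgt w (-ψ) (t k) - H) * (-hgt w (-ψ) (t (k + 1)) - H) := by ring
    rw [e3]
    exact h2

theorem hgt_refl (w : ℕ → ℝ × ℝ) (ψ : ℝ) (i : ℕ) :
    hgt (fun i => ((w i).1, -(w i).2)) ψ i = - hgt w (-ψ) i := by
  unfold hgt
  rw [Real.sin_neg, Real.cos_neg]
  ring

/-- the continuous height function of a decreasing run -/
theorem run_dec {m B : ℕ} {w : ℕ → ℝ × ℝ} {θ r : ℕ → ℝ} (h : Ang m B w θ r) {p q : ℕ} (hpq : p ≤ q)
    (hB : q ≤ B) (m1 : ∀ i j, p ≤ i → i < j → j ≤ q → θ j < θ i) :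
    ∃ f : ℝ → ℝ, Continuous f ∧ ∀ (ψ : ℝ) (i : ℕ), p ≤ i → i < q → θ (i + 1) ≤ ψ → ψ ≤ θ i →
      f ψ = hgt w ψ (i + 1) := by
  obtain ⟨f, hf, hf'⟩ := run_inc h.refl hpq hB (fun i j h1 h2 h3 => neg_lt_neg (m1 i j h1 h2 h3))
  refine ⟨fun ψ => - f (-ψ), by fun_prop, ?_⟩
  intro ψ i h1 h2 h3 h4
  have h5 := hf' (-ψ) i h1 h2 (neg_le_neg h4) (neg_le_neg h3)
  rw [hgt_refl, neg_neg] at h5
  simp only
  rw [h5, neg_neg]

/-- discrete intermediate value theorem -/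
theorem cover_inc (θ : ℕ → ℝ) {p q : ℕ} (hpq : p < q) (ψ : ℝ) (h1 : θ p ≤ ψ) (h2 : ψ ≤ θ q) :
    ∃ i, p ≤ i ∧ i < q ∧ θ i ≤ ψ ∧ ψ ≤ θ (i + 1) := by
  by_contra hc
  push Not at hc
  have : ∀ n, p + n < q → θ (p + n) ≤ ψ := by
    intro n
    induction n with
    | zero => intro _; exact h1
    | succ n ih =>
      intro hn
      exact (hc (p + n) (by omega) (by omega) (ih (by omega))).le
  have h3 := this (q - 1 - p) (by omega)
  have e : p + (q - 1 - p) = q - 1 := by omega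
  rw [e] at h3
  have h4 := hc (q - 1) (by omega) (by omega) h3
  have e2 : q - 1 + 1 = q := by omega
  rw [e2] at h4
  linarith

theorem cover_dec (θ : ℕ → ℝ) {p q : ℕ} (hpq : p < q) (ψ : ℝ) (h1 : θ q ≤ ψ) (h2 : ψ ≤ θ p) :
    ∃ i, p ≤ i ∧ i < q ∧ θ (i + 1) ≤ ψ ∧ ψ ≤ θ i := by
  obtain ⟨i, h3, h4, h5, h6⟩ := cover_inc (fun i => -θ i) hpq (-ψ) (neg_le_neg h2) (neg_le_neg h1)
  exact ⟨i, h3, h4, neg_le_neg_iff.1 h6, neg_le_neg_iff.1 h5⟩

/-- TARGET 1. An increasing run (edge indices `c0..c1`) followed by a decreasing run (`c1..c2`): on common angles the later run is higher. -/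
theorem adj_run {m B : ℕ} {w : ℕ → ℝ × ℝ} {θ r : ℕ → ℝ} (h : Ang m B w θ r) {c0 c1 c2 : ℕ} (h01 : c0 < c1) (h12 : c1 < c2)
    (hB : c2 < B) (m1 : ∀ i j, c0 ≤ i → i < j → j ≤ c1 → θ i < θ j) (m2 : ∀ i j, c1 ≤ i → i < j → j ≤ c2 → θ j < θ i) :
    ∀ (ψ : ℝ) (i j : ℕ), c0 ≤ i → i < c1 → c1 ≤ j → j < c2 → θ i ≤ ψ → ψ ≤ θ (i + 1) → θ (j + 1) ≤ ψ → ψ ≤ θ j → ψ < θ c1 →
      hgt w ψ (i + 1) < hgt w ψ (j + 1) := by
  intro ψ i j hi1 hi2 hj1 hj2 h1 h2 h3 h4 h5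
  obtain ⟨f1, cf1, hf1⟩ := run_inc h h01.le (by omega) m1
  obtain ⟨f2, cf2, hf2⟩ := run_dec h h12.le (by omega) m2
  rw [← hf1 ψ i hi1 hi2 h1 h2, ← hf2 ψ j hj1 hj2 h3 h4]
  by_contra hcon
  rw [not_lt] at hcon
  have ec : c1 - 1 + 1 = c1 := by omega
  -- value near the top
  have top : ∀ φ, θ (c1 - 1) ≤ φ → φ < θ c1 → θ (c1 + 1) ≤ φ → f1 φ < f2 φ := by
    intro φ g1 g2 g3
    rw [hf1 φ (c1 - 1) (by omega) (by omega) g1 (by rw [ec]; exact g2.le),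
      hf2 φ c1 le_rfl h12 g3 g2.le, ec, hgt_step h φ (by omega)]
    have g4 := h.turn (c1 - 1) (by omega)
    rw [ec, abs_lt] at g4
    have g5 : 0 < Real.sin (θ c1 - φ) := Real.sin_pos_of_pos_of_lt_pi (by linarith) (by linarith [g4.2])
    have g6 := mul_pos (h.r_pos c1 (by omega)) g5
    linarith
  -- the point near the top
  have hψ1 : ∃ ψ1, ψ ≤ ψ1 ∧ ψ1 < θ c1 ∧ θ (c1 - 1) ≤ ψ1 ∧ θ (c1 + 1) ≤ ψ1 := by
    refine ⟨max ψ (max (θ (c1 - 1)) (θ (c1 + 1))), le_max_left _ _, ?_, ?_, ?_⟩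
    · refine max_lt h5 (max_lt ?_ ?_)
      · exact m1 (c1 - 1) c1 (by omega) (by omega) le_rfl
      · exact m2 c1 (c1 + 1) le_rfl (by omega) (by omega)
    · exact (le_max_left _ _).trans (le_max_right _ _)
    · exact (le_max_right _ _).trans (le_max_right _ _)
  obtain ⟨ψ1, a1, a2, a3, a4⟩ := hψ1
  have b1 := top ψ1 a3 a2 a4
  have hD : ContinuousOn (fun φ => f2 φ - f1 φ) (Set.Icc ψ ψ1) := (cf2.sub cf1).continuousOn
  have hz : (0 : ℝ) ∈ Set.Icc (f2 ψ - f1 ψ) (f2 ψ1 - f1 ψ1) := ⟨by linarith, by linarith⟩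
  obtain ⟨φ, ⟨hφ1, hφ2⟩, hφ3⟩ := intermediate_value_Icc a1 hD hz
  simp only at hφ3
  have hc0 : θ c0 ≤ ψ := by
    rcases Nat.lt_or_ge c0 i with h9 | h9
    · exact (m1 c0 i le_rfl h9 (by omega)).le.trans h1
    · have : c0 = i := by omega
      rw [this]; exact h1
  have hc2 : θ c2 ≤ ψ := by
    rcases Nat.lt_or_ge (j + 1) c2 with h9 | h9
    · exact (m2 (j + 1) c2 (by omega) h9 le_rfl).le.trans h3
    · have : c2 = j + 1 := by omega
      rw [this]; exact h3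
  obtain ⟨i', e1, e2, e3, e4⟩ := cover_inc θ h01 φ (by linarith) (by linarith)
  obtain ⟨j', e5, e6, e7, e8⟩ := cover_dec θ h12 φ (by linarith) (by linarith)
  by_cases hij : i' + 2 ≤ j'
  · have := h.nba i' j' hij (by omega) φ 0 (by rw [Set.mem_uIcc]; exact Or.inl ⟨e3, e4⟩)
      (by rw [Set.mem_uIcc]; right; constructor <;> simpa)
    apply this
    rw [← hf1 φ i' e1 e2 e3 e4, ← hf2 φ j' e5 e6 e7 e8]
    linarith
  · have q1 : i' = c1 - 1 := by omega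
    have q2 : j' = c1 := by omega
    rw [q1] at e3
    rw [q2] at e7
    have := top φ e3 (by linarith) e7
    linarith

/-- mirror image of `adj_run` -/
theorem adj_run' {m B : ℕ} {w : ℕ → ℝ × ℝ} {θ r : ℕ → ℝ} (h : Ang m B w θ r) {c0 c1 c2 : ℕ} (h01 : c0 < c1) (h12 : c1 < c2)
    (hB : c2 < B) (m1 : ∀ i j, c0 ≤ i → i < j → j ≤ c1 → θ j < θ i) (m2 : ∀ i j, c1 ≤ i → i < j → j ≤ c2 → θ i < θ j) :
    ∀ (ψ : ℝ) (i j : ℕ), c0 ≤ i → i < c1 → c1 ≤ j → j < c2 → θ (i + 1) ≤ ψ → ψ ≤ θ i → θ j ≤ ψ → ψ ≤ θ (j + 1) → θ c1 < ψ →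
      hgt w ψ (j + 1) < hgt w ψ (i + 1) := by
  intro ψ i j hi1 hi2 hj1 hj2 h1 h2 h3 h4 h5
  have := adj_run h.refl h01 h12 hB (fun i j g1 g2 g3 => neg_lt_neg (m1 i j g1 g2 g3))
    (fun i j g1 g2 g3 => neg_lt_neg (m2 i j g1 g2 g3)) (-ψ) i j hi1 hi2 hj1 hj2 (neg_le_neg h2) (neg_le_neg h1)
    (neg_le_neg h4) (neg_le_neg h3) (neg_lt_neg h5)
  rw [hgt_refl, hgt_refl, neg_neg] at this
  linarith

/-- TARGET 2. Three consecutive runs: increasing `c0..c1`, decreasing `c1..c2`, increasing `c2..c3`, with `θ c0 ≤ θ c2`. Then `θ c3 < θ c1` and on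
common angles the third run is higher than the first. -/
theorem zig {m B : ℕ} {w : ℕ → ℝ × ℝ} {θ r : ℕ → ℝ} (h : Ang m B w θ r) {c0 c1 c2 c3 : ℕ} (h01 : c0 < c1) (h12 : c1 < c2)
    (h23 : c2 < c3) (hB : c3 < B) (m1 : ∀ i j, c0 ≤ i → i < j → j ≤ c1 → θ i < θ j)
    (m2 : ∀ i j, c1 ≤ i → i < j → j ≤ c2 → θ j < θ i) (m3 : ∀ i j, c2 ≤ i → i < j → j ≤ c3 → θ i < θ j) (hs : θ c0 ≤ θ c2) :
    θ c3 < θ c1 ∧ ∀ (ψ : ℝ) (i j : ℕ), c0 ≤ i → i < c1 → c2 ≤ j → j < c3 → θ i ≤ ψ → ψ ≤ θ (i + 1) → θ j ≤ ψ →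
      ψ ≤ θ (j + 1) → hgt w ψ (i + 1) < hgt w ψ (j + 1) := by
  obtain ⟨f1, cf1, hf1⟩ := run_inc h h01.le (by omega) m1
  obtain ⟨f3, cf3, hf3⟩ := run_inc h h23.le (by omega) m3
  have h21 : θ c2 < θ c1 := m2 c1 c2 le_rfl h12 le_rfl
  have ec1 : c1 - 1 + 1 = c1 := by omega
  have ec2 : c2 - 1 + 1 = c2 := by omega
  -- start
  have start : f1 (θ c2) < f3 (θ c2) := by
    obtain ⟨i, e1, e2, e3, e4⟩ := cover_inc θ h01 (θ c2) hs h21.le
    have g1 := adj_run h h01 h12 (by omega) m1 m2 (θ c2) i (c2 - 1) e1 e2 (by omega) (by omega) e3 e4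
      (by rw [ec2]) (m2 (c2 - 1) c2 (by omega) (by omega) le_rfl).le h21
    rw [hf1 (θ c2) i e1 e2 e3 e4, hf3 (θ c2) c2 le_rfl h23 le_rfl (m3 c2 (c2 + 1) le_rfl (by omega) (by omega)).le,
      hgt_step h (θ c2) (i := c2) (by omega), sub_self, Real.sin_zero, mul_zero, add_zero]
    rw [ec2] at g1
    exact g1
  have key : ∀ ψ, θ c2 ≤ ψ → ψ ≤ θ c1 → ψ ≤ θ c3 → f1 ψ < f3 ψ := by
    intro ψ g1 g2 g3
    by_contra hcon
    rw [not_lt] at hcon
    have hD : ContinuousOn (fun φ => f3 φ - f1 φ) (Set.Icc (θ c2) ψ) := (cf3.sub cf1).continuousOn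
    have hz : (0 : ℝ) ∈ Set.Icc (f3 ψ - f1 ψ) (f3 (θ c2) - f1 (θ c2)) := ⟨by linarith, by linarith⟩
    obtain ⟨φ, ⟨hφ1, hφ2⟩, hφ3⟩ := intermediate_value_Icc' g1 hD hz
    simp only at hφ3
    obtain ⟨i', e1, e2, e3, e4⟩ := cover_inc θ h01 φ (by linarith) (by linarith)
    obtain ⟨j', e5, e6, e7, e8⟩ := cover_inc θ h23 φ (by linarith) (by linarith)
    have := h.nba i' j' (by omega) (by omega) φ 0 (by rw [Set.mem_uIcc]; exact Or.inl ⟨e3, e4⟩)
      (by rw [Set.mem_uIcc]; left; constructor <;> simpa)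
    apply this
    rw [← hf1 φ i' e1 e2 e3 e4, ← hf3 φ j' e5 e6 e7 e8]
    linarith
  constructor
  · by_contra hcon
    rw [not_lt] at hcon
    have g1 := key (θ c1) h21.le le_rfl hcon
    obtain ⟨j, e1, e2, e3, e4⟩ := cover_inc θ h23 (θ c1) h21.le hcon
    have g2 := adj_run' h h12 h23 hB m2 m3 (θ c1) c1 j le_rfl h12 e1 e2 (m2 c1 (c1 + 1) le_rfl (by omega) (by omega)).le
      le_rfl e3 e4 h21
    rw [hf1 (θ c1) (c1 - 1) (by omega) (by omega) (m1 (c1 - 1) c1 (by omega) (by omega) le_rfl).le (by rw [ec1]),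
      hf3 (θ c1) j e1 e2 e3 e4, ec1] at g1
    rw [hgt_step h (θ c1) (i := c1) (by omega), sub_self, Real.sin_zero, mul_zero, add_zero] at g2
    linarith
  · intro ψ i j hi1 hi2 hj1 hj2 a1 a2 a3 a4
    rw [← hf1 ψ i hi1 hi2 a1 a2, ← hf3 ψ j hj1 hj2 a3 a4]
    apply key
    · rcases Nat.lt_or_ge c2 j with h9 | h9
      · exact (m3 c2 j le_rfl h9 (by omega)).le.trans a3
      · have : c2 = j := by omega
        rw [this]; exact a3
    · rcases Nat.lt_or_ge (i + 1) c1 with h9 | h9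
      · exact a2.trans (m1 (i + 1) c1 (by omega) h9 le_rfl).le
      · have : c1 = i + 1 := by omega
        rw [this]; exact a2
    · rcases Nat.lt_or_ge (j + 1) c3 with h9 | h9
      · exact a4.trans (m3 (j + 1) c3 (by omega) h9 le_rfl).le
      · have : c3 = j + 1 := by omega
        rw [this]; exact a4

end SB758
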