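import Pool.Agent.Helper758_SB.Defs

namespace SB758

open Finset

theorem mem_uIcc_neg' {a b x : ℝ} (h : x ∈ Set.uIcc (-a) (-b)) : -x ∈ Set.uIcc a b := by
  rw [Set.mem_uIcc] at h ⊢
  rcases h with ⟨h1, h2⟩ | ⟨h1, h2⟩
  · right; constructor <;> linarith
  · left; constructor <;> linarith

theorem mem_uIcc_addpi {a b x c : ℝ} (h : x ∈ Set.uIcc (a + c) (b + c)) : x - c ∈ Set.uIcc b a := by
  rw [Set.mem_uIcc] at h ⊢
  rcases h with ⟨h1, h2⟩ | ⟨h1, h2⟩
  · right; constructor <;> linarith
  · left; constructor <;> linarith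

/-- TARGET 1. Reflection in the first coordinate axis. (`hgt w' ψ i = - hgt w (-ψ) i`.) -/
theorem ang_reflect {m B : ℕ} {w : ℕ → ℝ × ℝ} {θ r : ℕ → ℝ} (h : Ang m B w θ r) :
    Ang m B (fun i => ((w i).1, -(w i).2)) (fun i => - θ i) r := by
  have hh : ∀ (ψ : ℝ) (i : ℕ), hgt (fun i => ((w i).1, -(w i).2)) ψ i = - hgt w (-ψ) i := by
    intro ψ i
    simp only [hgt, Real.sin_neg, Real.cos_neg]
    ring
  refine ⟨h.r_pos, ?_, ?_, ?_, ?_, ?_⟩
  · intro i hi
    have := h.step i hi
    simp only [this, Prod.fst_add, Prod.snd_add, Real.cos_neg, Real.sin_neg, Prod.mk_add_mk, Prod.mk.injEq]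
    constructor
    · trivial
    · ring
  · intro i hi
    have := h.turn i hi
    have e : -θ (i + 1) - -θ i = -(θ (i + 1) - θ i) := by ring
    show |-θ (i + 1) - -θ i| < Real.pi
    rw [e, abs_neg]; exact this
  · intro i hi
    have := h.ne i hi
    show -θ (i + 1) ≠ - θ i
    intro h'
    exact this (neg_injective h')
  · intro i j hij hj ψ n h1 h2
    rw [hh, hh]
    have h1' := mem_uIcc_neg' h1
    have h2' := mem_uIcc_neg' h2
    have e : -(ψ + n * Real.pi) = -ψ + ((-n : ℤ) : ℝ) * Real.pi := by push_cast; ring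
    rw [e] at h2'
    have := h.nba i j hij hj (-ψ) (-n) h1' h2'
    intro h'
    exact this (neg_injective h')
  · intro ψ H K t hK hk
    refine h.alt (-ψ) (-H) K t hK ?_
    intro k hkK
    obtain ⟨h1, h2⟩ := hk k hkK
    refine ⟨h1, ?_⟩
    rw [hh, hh] at h2
    nlinarith [h2]

theorem hgt_add_int_mul_pi (w : ℕ → ℝ × ℝ) (ψ : ℝ) (n : ℤ) (i : ℕ) :
    hgt w (ψ + n * Real.pi) i = (-1) ^ n * hgt w ψ i := by
  simp only [hgt]
  rw [Real.sin_add_int_mul_pi, Real.cos_add_int_mul_pi]
  ring

/-- TARGET 2. Reversal of the path. (The edge `i` of the new path is the edge `B - 1 - i` of the old one, traversed backwards. Natural number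
subtraction is harmless because only indices `i ≤ B` resp. `i < B` matter.) -/
theorem ang_reverse {m B : ℕ} {w : ℕ → ℝ × ℝ} {θ r : ℕ → ℝ} (h : Ang m B w θ r) :
    Ang m B (fun i => w (B - i)) (fun i => θ (B - 1 - i) + Real.pi) (fun i => r (B - 1 - i)) := by
  have hh : ∀ (ψ : ℝ) (i : ℕ), hgt (fun i => w (B - i)) ψ i = hgt w ψ (B - i) := by
    intro ψ i
    simp only [hgt]
  refine ⟨?_, ?_, ?_, ?_, ?_, ?_⟩
  · intro i hi
    exact h.r_pos (B - 1 - i) (by omega)
  · intro i hi
    obtain ⟨k, hk⟩ : ∃ k, B = i + 1 + k := ⟨B - (i + 1), by omega⟩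
    have e1 : B - (i + 1) = k := by omega
    have e2 : B - i = k + 1 := by omega
    have e3 : B - 1 - i = k := by omega
    simp only [e1, e2, e3]
    rw [h.step k (by omega), Real.cos_add_pi, Real.sin_add_pi]
    ext
    · simp
    · simp
  · intro i hi
    obtain ⟨k, hk⟩ : ∃ k, B = i + 2 + k := ⟨B - (i + 2), by omega⟩
    have e1 : B - 1 - (i + 1) = k := by omega
    have e2 : B - 1 - i = k + 1 := by omega
    simp only [e1, e2]
    have := h.turn k (by omega)
    have e : θ k + Real.pi - (θ (k + 1) + Real.pi) = -(θ (k + 1) - θ k) := by ring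
    rw [e, abs_neg]; exact this
  · intro i hi
    obtain ⟨k, hk⟩ : ∃ k, B = i + 2 + k := ⟨B - (i + 2), by omega⟩
    have e1 : B - 1 - (i + 1) = k := by omega
    have e2 : B - 1 - i = k + 1 := by omega
    simp only [e1, e2]
    have := h.ne k (by omega)
    intro h'
    exact this (add_right_cancel h').symm
  · intro i j hij hj ψ n h1 h2
    rw [hh, hh]
    obtain ⟨I, hI⟩ : ∃ k, B = j + 2 + k := ⟨B - (j + 2), by omega⟩
    obtain ⟨J, hJ⟩ : ∃ k, B = i + 2 + k := ⟨B - (i + 2), by omega⟩
    have e1 : B - 1 - (i + 1) = J := by omega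
    have e2 : B - 1 - i = J + 1 := by omega
    have e3 : B - 1 - (j + 1) = I := by omega
    have e4 : B - 1 - j = I + 1 := by omega
    have e5 : B - (i + 1) = J + 1 := by omega
    have e6 : B - (j + 1) = I + 1 := by omega
    simp only [e1, e2, e3, e4] at h1 h2
    rw [e5, e6]
    have h1' := mem_uIcc_addpi h1
    have h2' := mem_uIcc_addpi h2
    have q1 : ψ + n * Real.pi - Real.pi = ψ + ((n - 1 : ℤ) : ℝ) * Real.pi := by push_cast; ring
    rw [q1] at h2'
    have q2 : ψ - Real.pi = (ψ + ((n - 1 : ℤ) : ℝ) * Real.pi) + ((-n : ℤ) : ℝ) * Real.pi := by push_cast; ring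
    rw [q2] at h1'
    have := h.nba I J (by omega) (by omega) _ (-n) h2' h1'
    rw [hgt_add_int_mul_pi, hgt_add_int_mul_pi] at this
    intro h'
    exact this (by rw [h'])
  · intro ψ H K t hK hk
    have mono : ∀ d k, k + d = K → t k ≤ t K := by
      intro d
      induction d with
      | zero => intro k hk'; simp at hk'; rw [hk']
      | succ d ih =>
        intro k hk'
        have := (hk k (by omega)).1
        have := ih (k + 1) (by omega)
        omega
    refine h.alt ψ H K (fun k => B - t (K - k)) (by simp) ?_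
    intro k hkK
    obtain ⟨l, hl⟩ : ∃ l, K = k + 1 + l := ⟨K - (k + 1), by omega⟩
    have e1 : K - k = l + 1 := by omega
    have e2 : K - (k + 1) = l := by omega
    simp only [e1, e2]
    obtain ⟨h1, h2⟩ := hk l (by omega)
    have h3 := mono (K - (l + 1)) (l + 1) (by omega)
    refine ⟨by omega, ?_⟩
    rw [hh, hh] at h2
    rw [mul_comm]
    exact h2

end SB758
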