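import Pool.Agent.Helper758_SB.Defs
import Pool.Agent.Helper758_SB.J05_run
import Pool.Agent.Helper758_SB.J06_reflect

namespace SB758

open Finset

/-- discrete intermediate value -/
theorem disc_ivt (g : ℕ → ℝ) {a b : ℕ} (hab : a < b) (ha : 0 ≤ g a) (hb : g b ≤ 0) :
    ∃ i, a ≤ i ∧ i < b ∧ 0 ≤ g i ∧ g (i + 1) ≤ 0 := by
  by_contra hcon
  push Not at hcon
  have key : ∀ d, a + d + 1 ≤ b → 0 < g (a + d + 1) := by
    intro d
    induction d with
    | zero =>
      intro h
      exact hcon a le_rfl (by omega) ha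
    | succ d ih =>
      intro h
      have h1 := ih (by omega)
      exact hcon (a + d + 1) (by omega) (by omega) h1.le
  have h2 := key (b - a - 1) (by omega)
  have h3 : a + (b - a - 1) + 1 = b := by omega
  rw [h3] at h2
  linarith

theorem hgt_reflect (w : ℕ → ℝ × ℝ) (ψ : ℝ) (i : ℕ) :
    hgt (fun i => ((w i).1, -(w i).2)) (-ψ) i = - hgt w ψ i := by
  simp only [hgt, Real.sin_neg, Real.cos_neg]
  ring

theorem zigs {m B : ℕ} {w : ℕ → ℝ × ℝ} {θ r : ℕ → ℝ} (h : Ang m B w θ r) {σ : ℝ} (hσ : σ = 1 ∨ σ = -1)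
    {c0 c1 c2 c3 : ℕ} (h01 : c0 < c1) (h12 : c1 < c2)
    (h23 : c2 < c3) (hB : c3 < B) (m1 : ∀ i j, c0 ≤ i → i < j → j ≤ c1 → 0 < σ * (θ j - θ i))
    (m2 : ∀ i j, c1 ≤ i → i < j → j ≤ c2 → 0 < -σ * (θ j - θ i))
    (m3 : ∀ i j, c2 ≤ i → i < j → j ≤ c3 → 0 < σ * (θ j - θ i)) (hs : 0 ≤ σ * (θ c2 - θ c0)) :
    0 < σ * (θ c1 - θ c3) ∧ ∀ (ψ : ℝ) (i j : ℕ), c0 ≤ i → i < c1 → c2 ≤ j → j < c3 → 0 ≤ σ * (ψ - θ i) →
      0 ≤ σ * (θ (i + 1) - ψ) → 0 ≤ σ * (ψ - θ j) →
      0 ≤ σ * (θ (j + 1) - ψ) → 0 < σ * (hgt w ψ (j + 1) - hgt w ψ (i + 1)) := by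
  rcases hσ with rfl | rfl
  · obtain ⟨z1, z2⟩ := zig h h01 h12 h23 hB (fun i j a b c => by have := m1 i j a b c; linarith)
      (fun i j a b c => by have := m2 i j a b c; linarith)
      (fun i j a b c => by have := m3 i j a b c; linarith) (by linarith)
    refine ⟨by linarith, ?_⟩
    intro ψ i j hi hi' hj hj' q1 q2 q3 q4
    have := z2 ψ i j hi hi' hj hj' (by linarith) (by linarith) (by linarith) (by linarith)
    linarith
  · obtain ⟨z1, z2⟩ := zig (ang_reflect h) h01 h12 h23 hB
      (fun i j a b c => by have := m1 i j a b c; show -θ i < -θ j; linarith)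
      (fun i j a b c => by have := m2 i j a b c; show -θ j < -θ i; linarith)
      (fun i j a b c => by have := m3 i j a b c; show -θ i < -θ j; linarith)
      (by show -θ c0 ≤ -θ c2; linarith)
    refine ⟨by linarith, ?_⟩
    intro ψ i j hi hi' hj hj' q1 q2 q3 q4
    have := z2 (-ψ) i j hi hi' hj hj' (by show -θ i ≤ -ψ; linarith) (by show -ψ ≤ -θ (i + 1); linarith)
      (by show -θ j ≤ -ψ; linarith) (by show -ψ ≤ -θ (j + 1); linarith)
    rw [hgt_reflect, hgt_reflect] at this
    linarith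

theorem adjs {m B : ℕ} {w : ℕ → ℝ × ℝ} {θ r : ℕ → ℝ} (h : Ang m B w θ r) {σ : ℝ} (hσ : σ = 1 ∨ σ = -1)
    {c0 c1 c2 : ℕ} (h01 : c0 < c1) (h12 : c1 < c2)
    (hB : c2 < B) (m1 : ∀ i j, c0 ≤ i → i < j → j ≤ c1 → 0 < σ * (θ j - θ i))
    (m2 : ∀ i j, c1 ≤ i → i < j → j ≤ c2 → 0 < -σ * (θ j - θ i)) :
    ∀ (ψ : ℝ) (i j : ℕ), c0 ≤ i → i < c1 → c1 ≤ j → j < c2 → 0 ≤ σ * (ψ - θ i) →
      0 ≤ σ * (θ (i + 1) - ψ) → 0 ≤ σ * (θ j - ψ) →
      0 ≤ σ * (ψ - θ (j + 1)) → 0 < σ * (θ c1 - ψ) → 0 < σ * (hgt w ψ (j + 1) - hgt w ψ (i + 1)) := by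
  rcases hσ with rfl | rfl
  · have z2 := adj_run h h01 h12 hB (fun i j a b c => by have := m1 i j a b c; linarith)
      (fun i j a b c => by have := m2 i j a b c; linarith)
    intro ψ i j hi hi' hj hj' q1 q2 q3 q4 q5
    have := z2 ψ i j hi hi' hj hj' (by linarith) (by linarith) (by linarith) (by linarith) (by linarith)
    linarith
  · have z2 := adj_run (ang_reflect h) h01 h12 hB
      (fun i j a b c => by have := m1 i j a b c; show -θ i < -θ j; linarith)
      (fun i j a b c => by have := m2 i j a b c; show -θ j < -θ i; linarith)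
    intro ψ i j hi hi' hj hj' q1 q2 q3 q4 q5
    have := z2 (-ψ) i j hi hi' hj hj' (by show -θ i ≤ -ψ; linarith) (by show -ψ ≤ -θ (i + 1); linarith)
      (by show -θ (j + 1) ≤ -ψ; linarith) (by show -ψ ≤ -θ j; linarith) (by show -ψ < -θ c1; linarith)
    rw [hgt_reflect, hgt_reflect] at this
    linarith

/-- TARGET. If the first two of the `R` runs shrink, then there are at most `m + 4` runs. Run `k` consists of the edge indices `c k .. c (k+1)`; it is increasing for even `k` and
decreasing for odd `k`; `hs`: the range of run 1 is contained in the range of run 0.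
PROOF. By induction with `zig` (for `k` even) and its mirror image (apply `zig` to the reflected path `ang_reflect`, for `k` odd): for all `k` with `k + 1 < R`,
`θ (c k) ≤ θ (c (k+2)) < θ (c (k+1))` for `k` even and the reverse for `k` odd. (`zig` for runs `k, k+1, k+2` gives `θ (c (k+3)) < θ (c (k+1))`, which is the hypothesis for the next step.)
Let `ψ` be strictly between `θ (c (R-1))` and `θ (c R)`, different from all `θ i` (or just any interior point). Then ψ is in the range of every run `k < R`; let `t k ∈ (c k, c (k+1)]` be the tangent vertex of run `k` at `ψ`,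
i.e. `t k = i + 1` with `c k ≤ i < c (k+1)` and `ψ` between `θ i` and `θ (i+1)`. Put `H k = hgt w ψ (t k)`. Then for `k` even: `H k < H (k+1)` (`adj_run`; note `ψ < θ (c (k+1))`) and `H k < H (k+2)` (`zig`);
for `k` odd: `H k > H (k+1)` and `H k > H (k+2)` (mirror images). Hence every even `H` is smaller than every odd `H` (compare with the last two), and a real number `M` strictly between `H (R-2)` and `H (R-1)` satisfies
`H k < M` for even `k`, `H k > M` for odd `k`. So `(H k - M) * (H (k+1) - M) < 0` and `t k < t (k+1)` for `k < R - 1`, and `h.alt` gives `R - 1 ≤ m + 2`. -/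
theorem runs_shrink {m B : ℕ} {w : ℕ → ℝ × ℝ} {θ r : ℕ → ℝ} (h : Ang m B w θ r) {R : ℕ} {c : ℕ → ℕ}
    (hc : ∀ k < R, c k < c (k + 1)) (hB : c R < B)
    (hm : ∀ k < R, ∀ i j, c k ≤ i → i < j → j ≤ c (k + 1) → 0 < (-1 : ℝ) ^ k * (θ j - θ i))
    (hs : 2 ≤ R → θ (c 0) ≤ θ (c 2)) : R ≤ m + 4 := by
  by_contra hcon
  push Not at hcon
  obtain ⟨N, rfl⟩ : ∃ N, R = N + 2 := ⟨R - 2, by omega⟩
  have hcm : ∀ a b, a ≤ b → b ≤ N + 2 → c a ≤ c b := by
    intro a b hab
    induction b, hab using Nat.le_induction with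
    | base => intro _; exact le_rfl
    | succ b _ ih =>
      intro hb
      exact (ih (by omega)).trans (hc b (by omega)).le
  have hss : ∀ k : ℕ, ((-1 : ℝ) ^ k = 1 ∨ (-1 : ℝ) ^ k = -1) := fun k => neg_one_pow_eq_or ℝ k
  have hs1 : ∀ k : ℕ, (-1 : ℝ) ^ (k + 1) = -(-1 : ℝ) ^ k := by intro k; rw [pow_succ]; ring
  have hs2 : ∀ k : ℕ, (-1 : ℝ) ^ (k + 2) = (-1 : ℝ) ^ k := by intro k; rw [hs1, hs1]; ring
  -- the nesting of the ranges
  have hnest : ∀ k, k + 2 ≤ N + 2 → 0 ≤ (-1 : ℝ) ^ k * (θ (c (k + 2)) - θ (c k)) := by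
    intro k
    induction k with
    | zero =>
      intro hk
      have := hs (by omega)
      simp only [pow_zero, one_mul]
      simpa using this
    | succ k ih =>
      intro hk
      have h0 := ih (by omega)
      have hz := zigs h (hss k) (hc k (by omega)) (hc (k + 1) (by omega)) (hc (k + 2) (by omega))
        (lt_of_le_of_lt (hcm (k + 3) (N + 2) (by omega) le_rfl) hB)
        (hm k (by omega)) (fun i j a b d => by
          have := hm (k + 1) (by omega) i j a b d
          rw [hs1] at this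
          exact this)
        (fun i j a b d => by
          have := hm (k + 2) (by omega) i j a b d
          rw [hs2] at this
          exact this) h0
      have h1 := hz.1
      rw [hs1]
      have e : k + 1 + 2 = k + 2 + 1 := by ring
      rw [e]
      nlinarith [h1]
  -- the angle `ψ`
  set ψ : ℝ := (θ (c (N + 1)) + θ (c (N + 2))) / 2 with hψ
  have hin : ∀ d k, k + d = N + 1 → 0 < (-1 : ℝ) ^ k * (ψ - θ (c k)) ∧ 0 < (-1 : ℝ) ^ k * (θ (c (k + 1)) - ψ) := by
    intro d
    induction d with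
    | zero =>
      intro k hk
      obtain rfl : k = N + 1 := by omega
      have h1 := hm (N + 1) (by omega) (c (N + 1)) (c (N + 1 + 1)) le_rfl (hc (N + 1) (by omega)) le_rfl
      have e : N + 1 + 1 = N + 2 := by ring
      rw [e] at h1 ⊢
      constructor
      · rw [hψ]
        nlinarith [h1]
      · rw [hψ]
        nlinarith [h1]
    | succ d ih =>
      intro k hk
      obtain ⟨h1, h2⟩ := ih (k + 1) (by omega)
      have h3 := hnest k (by omega)
      rw [hs1] at h1 h2
      have e : k + 1 + 1 = k + 2 := by ring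
      rw [e] at h2
      constructor
      · nlinarith [h2, h3]
      · nlinarith [h1]
  have hin' : ∀ k, k < N + 2 → 0 < (-1 : ℝ) ^ k * (ψ - θ (c k)) ∧ 0 < (-1 : ℝ) ^ k * (θ (c (k + 1)) - ψ) :=
    fun k hk => hin (N + 1 - k) k (by omega)
  -- the tangent vertices
  have hex : ∀ k, ∃ i, k < N + 2 → c k ≤ i ∧ i < c (k + 1) ∧ 0 ≤ (-1 : ℝ) ^ k * (ψ - θ i) ∧
      0 ≤ (-1 : ℝ) ^ k * (θ (i + 1) - ψ) := by
    intro k
    by_cases hk : k < N + 2
    · obtain ⟨i, a1, a2, a3, a4⟩ := disc_ivt (fun i => (-1 : ℝ) ^ k * (ψ - θ i)) (hc k hk) (hin' k hk).1.le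
        (by have := (hin' k hk).2; show (-1 : ℝ) ^ k * (ψ - θ (c (k + 1))) ≤ 0; nlinarith [this])
      refine ⟨i, fun _ => ⟨a1, a2, a3, ?_⟩⟩
      nlinarith [a4]
    · exact ⟨0, fun h => absurd h hk⟩
  choose t ht using hex
  set H : ℕ → ℝ := fun k => hgt w ψ (t k + 1) with hH
  have hadj : ∀ k, k + 1 < N + 2 → 0 < (-1 : ℝ) ^ k * (H (k + 1) - H k) := by
    intro k hk
    obtain ⟨a1, a2, a3, a4⟩ := ht k (by omega)
    obtain ⟨b1, b2, b3, b4⟩ := ht (k + 1) (by omega)
    rw [hs1] at b3 b4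
    exact adjs h (hss k) (hc k (by omega)) (hc (k + 1) (by omega))
      (lt_of_le_of_lt (hcm (k + 2) (N + 2) (by omega) le_rfl) hB)
      (hm k (by omega)) (fun i j a b d => by
        have := hm (k + 1) (by omega) i j a b d
        rw [hs1] at this
        exact this) ψ (t k) (t (k + 1)) a1 a2 b1 b2 a3 a4 (by linarith) (by linarith) (hin' k (by omega)).2
  have hzig : ∀ k, k + 2 < N + 2 → 0 < (-1 : ℝ) ^ k * (H (k + 2) - H k) := by
    intro k hk
    obtain ⟨a1, a2, a3, a4⟩ := ht k (by omega)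
    obtain ⟨b1, b2, b3, b4⟩ := ht (k + 2) (by omega)
    rw [hs2] at b3 b4
    exact (zigs h (hss k) (hc k (by omega)) (hc (k + 1) (by omega)) (hc (k + 2) (by omega))
        (lt_of_le_of_lt (hcm (k + 3) (N + 2) (by omega) le_rfl) hB)
        (hm k (by omega)) (fun i j a b d => by
          have := hm (k + 1) (by omega) i j a b d
          rw [hs1] at this
          exact this)
        (fun i j a b d => by
          have := hm (k + 2) (by omega) i j a b d
          rw [hs2] at this
          exact this) (hnest k (by omega))).2 ψ (t k) (t (k + 2)) a1 a2 b1 b2 a3 a4 b3 b4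
  set M : ℝ := (H N + H (N + 1)) / 2 with hM
  have hMk : ∀ d k, k + d = N + 1 → 0 < (-1 : ℝ) ^ k * (M - H k) := by
    intro d
    induction d using Nat.strong_induction_on with
    | _ d ih =>
      intro k hk
      rcases Nat.lt_or_ge d 2 with hd | hd
      · have h1 := hadj N (by omega)
        interval_cases d
        · obtain rfl : k = N + 1 := by omega
          rw [hs1, hM]
          nlinarith [h1]
        · obtain rfl : k = N := by omega
          rw [hM]
          nlinarith [h1]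
      · have h1 := ih (d - 2) (by omega) (k + 2) (by omega)
        have h2 := hzig k (by omega)
        rw [hs2] at h1
        nlinarith [h1, h2]
  have hfin := h.alt ψ M (N + 1) (fun k => t k + 1) (by
    have := (ht (N + 1) (by omega)).2.1
    have e : c (N + 1 + 1) < B := hB
    show t (N + 1) + 1 ≤ B
    omega) (by
    intro k hk
    constructor
    · have h1 := (ht k (by omega)).2.1
      have h2 := (ht (k + 1) (by omega)).1
      show t k + 1 < t (k + 1) + 1
      omega
    · have h1 := hMk (N + 1 - k) k (by omega)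
      have h2 := hMk (N + 1 - (k + 1)) (k + 1) (by omega)
      rw [hs1] at h2
      show (H k - M) * (H (k + 1) - M) < 0
      rcases hss k with hk' | hk' <;> rw [hk'] at h1 h2
      · have h3 : 0 < M - H k := by linarith
        have h4 : 0 < H (k + 1) - M := by linarith
        nlinarith [mul_pos h3 h4]
      · have h3 : 0 < H k - M := by linarith
        have h4 : 0 < M - H (k + 1) := by linarith
        nlinarith [mul_pos h3 h4])
  omega

end SB758

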