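import Pool.Agent.Helper758_SB.Defs
import Pool.Agent.Helper758_SB.J06_reflect
import Pool.Agent.Helper758_SB.J07_nested

namespace SB758

open Finset

/-- `runs_shrink` with any first direction -/
theorem runs_le_aux {m B : ℕ} {w : ℕ → ℝ × ℝ} {θ r : ℕ → ℝ} (h : Ang m B w θ r) {R : ℕ} {c : ℕ → ℕ}
    (hc : ∀ k < R, c k < c (k + 1)) (hB : c R < B) (e : ℕ)
    (hm : ∀ k < R, ∀ i j, c k ≤ i → i < j → j ≤ c (k + 1) → 0 < (-1 : ℝ) ^ (e + k) * (θ j - θ i))
    (hs : 2 ≤ R → 0 ≤ (-1 : ℝ) ^ e * (θ (c 2) - θ (c 0))) : R ≤ m + 4 := by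
  rcases Nat.even_or_odd e with he | he
  · have h1 : (-1 : ℝ) ^ e = 1 := he.neg_one_pow
    refine runs_shrink h hc hB ?_ ?_
    · intro k hk i j h2 h3 h4
      have := hm k hk i j h2 h3 h4
      rw [pow_add, h1, one_mul] at this
      exact this
    · intro hR
      have := hs hR
      rw [h1, one_mul] at this
      linarith
  · have h1 : (-1 : ℝ) ^ e = -1 := he.neg_one_pow
    refine runs_shrink (ang_reflect h) hc hB ?_ ?_
    · intro k hk i j h2 h3 h4
      have := hm k hk i j h2 h3 h4
      rw [pow_add, h1] at this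
      have e1 : (-1 : ℝ) ^ k * (-θ j - -θ i) = -1 * (-1) ^ k * (θ j - θ i) := by ring
      rw [e1]
      exact this
    · intro hR
      have := hs hR
      rw [h1] at this
      show -θ (c 0) ≤ -θ (c 2)
      linarith

/-- TARGET. There are at most `2 m + 12` runs.
PROOF. Let `k = R / 2` (assume `R ≥ 4`, say). Compare the ranges of runs `k` and `k + 1`: they share the end value `θ (c (k+1))`. Say `k` is even (for `k` odd reflect the path with `ang_reflect` first; the
parity of the sequence `j ↦ c (k + j)` must be increasing first in order to apply `runs_shrink`). If `θ (c k) ≤ θ (c (k+2))` then `runs_shrink` applied to `j ↦ c (k + j)` (runs `k, ..., R - 1`)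
gives `R - k ≤ m + 4`. Otherwise `θ (c (k+2)) < θ (c k)`, i.e. run `k` is contained in run `k + 1`; reverse the path with `ang_reverse` (edge index `i` becomes `B - 1 - i`; a decreasing run of the
old path becomes an increasing run of the new path) and apply `runs_shrink` to the runs `k+1, k, k-1, ..., 0` in this order, i.e. to `c' j = B - 1 - c (k + 2 - j)`, `j ≤ k + 2`
(with `ang_reflect` if the parity is wrong): this gives `k + 2 ≤ m + 4`. In both cases `R ≤ 2 m + 12`. -/
theorem runs_le {m B : ℕ} {w : ℕ → ℝ × ℝ} {θ r : ℕ → ℝ} (h : Ang m B w θ r) {R : ℕ} {c : ℕ → ℕ}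
    (hc : ∀ k < R, c k < c (k + 1)) (hB : c R < B)
    (hm : ∀ k < R, ∀ i j, c k ≤ i → i < j → j ≤ c (k + 1) → 0 < (-1 : ℝ) ^ k * (θ j - θ i)) : R ≤ 2 * m + 12 := by
  by_cases hR : R < 4
  · omega
  rw [not_lt] at hR
  set k := R / 2 with hk
  have hk1 : k + 2 ≤ R := by omega
  have hmono : ∀ i j, i ≤ j → j ≤ R → c i ≤ c j := by
    intro i j hij
    induction hij with
    | refl => intro _; exact le_rfl
    | step _ ih => intro hj; exact le_trans (ih (by omega)) (hc _ (by omega)).le
  rcases le_or_gt 0 ((-1 : ℝ) ^ k * (θ (c (k + 2)) - θ (c k))) with hA | hA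
  · have h1 : R - k ≤ m + 4 := by
      refine runs_le_aux h (R := R - k) (c := fun j => c (k + j)) ?_ ?_ k ?_ ?_
      · intro j hj
        exact hc (k + j) (by omega)
      · show c (k + (R - k)) < B
        have : k + (R - k) = R := by omega
        rw [this]
        exact hB
      · intro j hj i l h2 h3 h4
        exact hm (k + j) (by omega) i l h2 h3 h4
      · intro _
        exact hA
    omega
  · have hlt : ∀ j, j ≤ R → c j < B := fun j hj => lt_of_le_of_lt (hmono j R hj le_rfl) hB
    have h1 : k + 2 ≤ m + 4 := by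
      refine runs_le_aux (ang_reverse h) (R := k + 2) (c := fun j => B - 1 - c (k + 2 - j))
        ?_ ?_ k ?_ ?_
      · intro j hj
        show B - 1 - c (k + 2 - j) < B - 1 - c (k + 2 - (j + 1))
        have e1 : k + 2 - j = (k + 2 - (j + 1)) + 1 := by omega
        have h2 := hc (k + 2 - (j + 1)) (by omega)
        have h3 := hlt (k + 2 - j) (by omega)
        rw [← e1] at h2
        omega
      · show B - 1 - c (k + 2 - (k + 2)) < B
        have := hlt 0 (by omega)
        omega
      · intro j hj i l h2 h3 h4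
        have h2' : B - 1 - c (k + 2 - j) ≤ i := h2
        have h4' : l ≤ B - 1 - c (k + 2 - (j + 1)) := h4
        have e1 : k + 2 - j = (k + 1 - j) + 1 := by omega
        have e2 : k + 2 - (j + 1) = k + 1 - j := by omega
        rw [e1] at h2'
        rw [e2] at h4'
        have b1 := hlt (k + 1 - j + 1) (by omega)
        have b2 := hlt (k + 1 - j) (by omega)
        have h5 := hm (k + 1 - j) (by omega) (B - 1 - l) (B - 1 - i) (by omega) (by omega)
          (by omega)
        have e3 : (-1 : ℝ) ^ (k + j) = -(-1 : ℝ) ^ (k + 1 - j) := by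
          rcases Nat.eq_zero_or_pos j with h0 | h0
          · subst h0
            rw [Nat.sub_zero, Nat.add_zero, pow_succ]
            ring
          · have e5 : k + j = (k + 1 - j) + (2 * (j - 1) + 1) := by omega
            rw [e5, pow_add, pow_succ (-1 : ℝ) (2 * (j - 1)), pow_mul]
            norm_num
        show 0 < (-1 : ℝ) ^ (k + j) * (θ (B - 1 - l) + Real.pi - (θ (B - 1 - i) + Real.pi))
        rw [e3]
        linarith
      · intro _
        show 0 ≤ (-1 : ℝ) ^ k * (θ (B - 1 - (B - 1 - c (k + 2 - 2))) + Real.pi -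
          (θ (B - 1 - (B - 1 - c (k + 2 - 0))) + Real.pi))
        have b1 := hlt (k + 2) (by omega)
        have b2 := hlt k (by omega)
        have e1 : B - 1 - (B - 1 - c (k + 2 - 2)) = c k := by
          rw [show k + 2 - 2 = k by omega]
          omega
        have e2 : B - 1 - (B - 1 - c (k + 2 - 0)) = c (k + 2) := by
          rw [Nat.sub_zero]
          omega
        rw [e1, e2]
        linarith
    omega

end SB758
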