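import Pool.Agent.Helper758_SB.Defs

namespace SB758

open Finset

theorem hgt_succ {m B : ℕ} {w : ℕ → ℝ × ℝ} {θ r : ℕ → ℝ} (h : Ang m B w θ r) (ψ : ℝ) {i : ℕ}
    (hi : i < B) : hgt w ψ (i + 1) = hgt w ψ i + r i * Real.sin (θ i - ψ) := by
  unfold hgt
  rw [h.step i hi, Real.sin_sub]
  simp only [Prod.fst_add, Prod.snd_add]
  ring

theorem hgt_tele {m B : ℕ} {w : ℕ → ℝ × ℝ} {θ r : ℕ → ℝ} (h : Ang m B w θ r) (ψ : ℝ) {a n : ℕ}
    (han : a ≤ n) : n ≤ B → hgt w ψ n = hgt w ψ a + ∑ j ∈ Finset.Ico a n, r j * Real.sin (θ j - ψ) := by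
  induction n, han using Nat.le_induction with
  | base => simp
  | succ n hn ih =>
    intro hB
    rw [hgt_succ h ψ (by omega), ih (by omega), Finset.sum_Ico_succ_top hn]
    ring

theorem exists_idx (θ : ℕ → ℝ) (ψ : ℝ) {p q : ℕ} (hpq : p ≤ q) :
    θ p ≤ ψ → ψ < θ q → ∃ i, p ≤ i ∧ i < q ∧ θ i ≤ ψ ∧ ψ < θ (i + 1) := by
  induction q, hpq using Nat.le_induction with
  | base =>
    intro h1 h2
    exact absurd h1 (not_le.2 h2)
  | succ n hn ih =>
    intro h1 h2
    by_cases h3 : ψ < θ n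
    · obtain ⟨i, h4, h5, h6, h7⟩ := ih h1 h3
      exact ⟨i, h4, by omega, h6, h7⟩
    · exact ⟨n, hn, by omega, not_lt.1 h3, h2⟩

/-- The continuous support function of the run. -/
noncomputable def hf (w : ℕ → ℝ × ℝ) (θ r : ℕ → ℝ) (p q : ℕ) (ψ : ℝ) : ℝ :=
  hgt w ψ p - ∑ j ∈ Finset.Ico p q, r j * Real.sin (max (ψ - θ j) 0)

theorem hf_continuous (w : ℕ → ℝ × ℝ) (θ r : ℕ → ℝ) (p q : ℕ) : Continuous (hf w θ r p q) := by
  unfold hf hgt
  fun_prop

theorem hf_eq {m B : ℕ} {w : ℕ → ℝ × ℝ} {θ r : ℕ → ℝ} (h : Ang m B w θ r) {p q : ℕ}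
    (hq : q < B) (inc : ∀ i j, p ≤ i → i < j → j ≤ q → θ i < θ j) {i : ℕ} {ψ : ℝ}
    (h1 : p ≤ i) (h2 : i < q) (h3 : θ i ≤ ψ) (h4 : ψ ≤ θ (i + 1)) :
    hf w θ r p q ψ = hgt w ψ (i + 1) := by
  have mono : ∀ a b, p ≤ a → a ≤ b → b ≤ q → θ a ≤ θ b := by
    intro a b ha hab hb
    rcases hab.eq_or_lt with rfl | hab
    · exact le_rfl
    · exact (inc a b ha hab hb).le
  unfold hf
  rw [hgt_tele h ψ (a := p) (n := i + 1) (by omega) (by omega),
    ← Finset.sum_Ico_consecutive _ (show p ≤ i + 1 by omega) (show i + 1 ≤ q by omega)]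
  have e1 : ∑ j ∈ Finset.Ico p (i + 1), r j * Real.sin (max (ψ - θ j) 0) =
      - ∑ j ∈ Finset.Ico p (i + 1), r j * Real.sin (θ j - ψ) := by
    rw [← Finset.sum_neg_distrib]
    refine Finset.sum_congr rfl fun j hj => ?_
    rw [Finset.mem_Ico] at hj
    have h5 : θ j ≤ ψ := (mono j i hj.1 (by omega) h2.le).trans h3
    rw [max_eq_left (by linarith), ← neg_sub (θ j) ψ, Real.sin_neg]
    ring
  have e2 : ∑ j ∈ Finset.Ico (i + 1) q, r j * Real.sin (max (ψ - θ j) 0) = 0 := by
    refine Finset.sum_eq_zero fun j hj => ?_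
    rw [Finset.mem_Ico] at hj
    have h5 : ψ ≤ θ j := h4.trans (mono (i + 1) j (by omega) hj.1 hj.2.le)
    rw [max_eq_right (by linarith), Real.sin_zero, mul_zero]
  rw [e1, e2]
  ring

theorem hgt_add_nat (w : ℕ → ℝ × ℝ) (ψ : ℝ) (k i : ℕ) :
    hgt w (ψ + k * Real.pi) i = (-1) ^ k * hgt w ψ i := by
  unfold hgt
  rw [Real.sin_add_nat_mul_pi, Real.cos_add_nat_mul_pi]
  ring

theorem const_sign {G : ℝ → ℝ} (hG : Continuous G) {a b : ℝ}
    (h0 : ∀ x ∈ Set.Icc a b, G x ≠ 0) :
    (∀ x ∈ Set.Icc a b, 0 < G x) ∨ (∀ x ∈ Set.Icc a b, G x < 0) := by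
  by_cases hab : a ≤ b
  · rcases lt_or_gt_of_ne (h0 a ⟨le_rfl, hab⟩) with h | h
    · right
      intro x hx
      by_contra hc
      obtain ⟨y, hy, hy0⟩ := intermediate_value_Icc hx.1 hG.continuousOn
        (show (0 : ℝ) ∈ Set.Icc (G a) (G x) from ⟨h.le, not_lt.1 hc⟩)
      exact h0 y ⟨hy.1, hy.2.trans hx.2⟩ hy0
    · left
      intro x hx
      by_contra hc
      obtain ⟨y, hy, hy0⟩ := intermediate_value_Icc' hx.1 hG.continuousOn
        (show (0 : ℝ) ∈ Set.Icc (G x) (G a) from ⟨not_lt.1 hc, h.le⟩)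
      exact h0 y ⟨hy.1, hy.2.trans hx.2⟩ hy0
  · left
    intro x hx
    exact absurd (hx.1.trans hx.2) hab

/-- The combinatorial end of the argument. -/
theorem exists_sep {N : ℕ} (x : ℕ → ℝ) (hN : 1 ≤ N) (hs : ∀ k < N, x k + x (k + 1) < 0)
    (hd : (∀ k, k + 2 ≤ N → x k < x (k + 2)) ∨ (∀ k, k + 2 ≤ N → x (k + 2) < x k)) :
    ∃ M : ℝ, ∀ k ≤ N, (Even k → x k < M) ∧ (¬ Even k → x k < -M) := by
  rcases hd with hd | hd
  · have key : ∀ j k, k + 2 * j ≤ N → x k ≤ x (k + 2 * j) := by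
      intro j
      induction j with
      | zero => intro k _; simp
      | succ j ih =>
        intro k hk
        refine (ih k (by omega)).trans ?_
        have := hd (k + 2 * j) (by omega)
        have e : k + 2 * (j + 1) = k + 2 * j + 2 := by ring
        rw [e]
        exact this.le
    obtain ⟨e, o, he, ho, heN, hoN, heo⟩ : ∃ e o : ℕ, Even e ∧ ¬ Even o ∧ e ≤ N ∧ o ≤ N ∧
        (N ≤ e + 1 ∧ N ≤ o + 1 ∧ x e + x o < 0) := by
      by_cases hN2 : Even N
      · refine ⟨N, N - 1, hN2, ?_, le_rfl, by omega, by omega, by omega, ?_⟩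
        · rw [Nat.not_even_iff_odd]
          exact Nat.Even.sub_odd hN hN2 odd_one
        · have := hs (N - 1) (by omega)
          rw [Nat.sub_add_cancel hN] at this
          linarith
      · refine ⟨N - 1, N, ?_, hN2, by omega, le_rfl, by omega, by omega, ?_⟩
        · exact Nat.Odd.sub_odd (Nat.not_even_iff_odd.1 hN2) odd_one
        · have := hs (N - 1) (by omega)
          rw [Nat.sub_add_cancel hN] at this
          linarith
    refine ⟨(x e - x o) / 2, fun k hk => ⟨fun hke => ?_, fun hko => ?_⟩⟩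
    · have h1 : k ≤ e := by
        rcases Nat.lt_or_ge e k with h | h
        · have : k = e + 1 := by omega
          subst this
          exact absurd hke (by rw [Nat.even_add_one]; exact fun h => h he)
        · exact h
      obtain ⟨j, hj⟩ := (Nat.even_sub h1).2 (by simp [he, hke])
      have h2 : k + 2 * j = e := by omega
      have h3 := key j k (by omega)
      rw [h2] at h3
      linarith [heo.2.2]
    · have h1 : k ≤ o := by
        rcases Nat.lt_or_ge o k with h | h
        · have : k = o + 1 := by omega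
          subst this
          exact absurd (Nat.even_add_one.2 ho) hko
        · exact h
      obtain ⟨j, hj⟩ := (Nat.even_sub h1).2 (by simp [ho, hko])
      have h2 : k + 2 * j = o := by omega
      have h3 := key j k (by omega)
      rw [h2] at h3
      linarith [heo.2.2]
  · have key : ∀ j k, k + 2 * j ≤ N → x (k + 2 * j) ≤ x k := by
      intro j
      induction j with
      | zero => intro k _; simp
      | succ j ih =>
        intro k hk
        refine le_trans ?_ (ih k (by omega))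
        have := hd (k + 2 * j) (by omega)
        have e : k + 2 * (j + 1) = k + 2 * j + 2 := by ring
        rw [e]
        exact this.le
    have h01 := hs 0 (by omega)
    rw [zero_add] at h01
    refine ⟨(x 0 - x 1) / 2, fun k hk => ⟨fun hke => ?_, fun hko => ?_⟩⟩
    · obtain ⟨j, hj⟩ := hke
      have h2 : 0 + 2 * j = k := by omega
      have h3 := key j 0 (by omega)
      rw [h2] at h3
      linarith
    · obtain ⟨j, hj⟩ := Nat.not_even_iff_odd.1 hko
      have h2 : 1 + 2 * j = k := by omega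
      have h3 := key j 1 (by omega)
      rw [h2] at h3
      linarith

/-- TARGET. A run has total turning at most `(m + 6) π`.
PROOF. Let `h ψ = hgt w ψ p + ∑_{i ∈ [p,q]} r i * S (ψ - θ i)`, `S x = -sin x` for `x > 0`, `0` for `x ≤ 0`: continuous, and `h ψ = hgt w ψ (i+1)` if `p ≤ i < q`, `θ i ≤ ψ ≤ θ (i+1)`
(because `hgt w ψ (i+1) - hgt w ψ i = r i * sin (θ i - ψ)`). Suppose `θ q - θ p > (m+6) π`. Put `ψ k = θ p + (k + 1/2) π` for `k = 0, ..., m + 4` (all in `(θ p, θ q)`), let `t k` be the tangent vertex at `ψ k` (`t k = i + 1`, `p ≤ i < q`, `θ i ≤ ψ k ≤ θ (i+1)`),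
and `H k = hgt w (ψ 0) (t k) = (-1)^k h (ψ k)`. `t k < t (k+1)`: since consecutive angles differ by less than `π`. For `k` even `H k < H (k+1)`, for `k` odd `H k > H (k+1)`: all edges `i` with `t k ≤ i < t (k+1)` have
`ψ k ≤ θ i ≤ ψ (k+1) = ψ k + π` (not all at the end points), and `hgt w (ψ 0) (i+1) - hgt w (ψ 0) i = r i sin (θ i - ψ 0)` has the sign `(-1)^k` or is 0.
`G ψ = h (ψ + 2π) - h ψ` has no zero on `[θ p, θ q - 2π]` by `nba` (n = 2; the two tangent vertices have index difference at least 2 because each step turns by less than `π`), so `G` has constant sign. If `G > 0`: `H (k+2) > H k` for `k` even, `H (k+2) < H k` for `k` odd;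
then every even `H` is below every odd `H` and a number `M` between the last two `H`'s separates even from odd ones. If `G < 0`: a number `M` between `H 0` and `H 1` does. In both cases `(H k - M)(H (k+1) - M) < 0` for all `k < m + 4`, contradicting `h.alt` with `K = m + 4`. -/
theorem spiral {m B : ℕ} {w : ℕ → ℝ × ℝ} {θ r : ℕ → ℝ} (h : Ang m B w θ r) {p q : ℕ} (hpq : p ≤ q) (hq : q < B)
    (inc : ∀ i j, p ≤ i → i < j → j ≤ q → θ i < θ j) : θ q - θ p ≤ (m + 6) * Real.pi := by
  by_contra hcon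
  rw [not_le] at hcon
  have hpi := Real.pi_pos
  have mono : ∀ a b, p ≤ a → a ≤ b → b ≤ q → θ a ≤ θ b := by
    intro a b ha hab hb
    rcases hab.eq_or_lt with rfl | hab
    · exact le_rfl
    · exact (inc a b ha hab hb).le
  have step1 : ∀ i, p ≤ i → i < q → θ (i + 1) < θ i + Real.pi := by
    intro i _ hi
    have := (abs_lt.1 (h.turn i (by omega))).2
    linarith
  -- G has constant sign
  have hG0 : ∀ ψ ∈ Set.Icc (θ p) (θ p + (m + 2 + 1 / 2) * Real.pi),
      hf w θ r p q (ψ + 2 * Real.pi) - hf w θ r p q ψ ≠ 0 := by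
    intro ψ hψ
    have hb : ψ + 2 * Real.pi < θ q := by
      have := hψ.2
      nlinarith
    obtain ⟨i, hi1, hi2, hi3, hi4⟩ := exists_idx θ ψ hpq hψ.1 (by linarith)
    obtain ⟨j, hj1, hj2, hj3, hj4⟩ := exists_idx θ (ψ + 2 * Real.pi) hpq (by linarith [hψ.1]) hb
    have hij : i + 2 ≤ j := by
      by_contra hc
      have h1 := step1 i hi1 hi2
      rcases Nat.lt_or_ge (i + 1) q with h2 | h2
      · have h3 := step1 (i + 1) (by omega) h2
        have h4 := mono (j + 1) (i + 2) (by omega) (by omega) (by omega)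
        have h5 : i + 1 + 1 = i + 2 := rfl
        rw [h5] at h3
        linarith
      · have h4 := mono (j + 1) (i + 1) (by omega) (by omega) (by omega)
        linarith
    have hne := h.nba i j hij (by omega) ψ 2 ⟨by
        rw [inf_eq_left.2 (hi3.trans hi4.le)]; exact hi3, by
        rw [sup_eq_right.2 (hi3.trans hi4.le)]; exact hi4.le⟩ ⟨by
        rw [inf_eq_left.2 (hj3.trans hj4.le)]; push_cast; exact hj3, by
        rw [sup_eq_right.2 (hj3.trans hj4.le)]; push_cast; exact hj4.le⟩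
    rw [hf_eq h hq inc hi1 hi2 hi3 hi4.le, hf_eq h hq inc hj1 hj2 hj3 hj4.le]
    have h6 := hgt_add_nat w ψ 2 (j + 1)
    push_cast at h6
    rw [h6]
    intro h7
    apply hne
    linarith
  have hsign := const_sign (G := fun ψ => hf w θ r p q (ψ + 2 * Real.pi) - hf w θ r p q ψ)
    (((hf_continuous w θ r p q).comp (by fun_prop)).sub (hf_continuous w θ r p q)) hG0
  -- the sample angles
  set Ψ : ℕ → ℝ := fun k => θ p + 1 / 2 * Real.pi + k * Real.pi with hΨ
  have hΨ0 : ∀ k, Ψ k = Ψ 0 + k * Real.pi := by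
    intro k
    simp [hΨ]
  have hΨ1 : ∀ k, Ψ (k + 1) = Ψ k + Real.pi := by
    intro k
    simp only [hΨ]
    push_cast
    ring
  have hΨlo : ∀ k, θ p ≤ Ψ k := by
    intro k
    simp only [hΨ]
    have : (0 : ℝ) ≤ k * Real.pi := by positivity
    linarith
  have hΨhi : ∀ k ≤ m + 4, Ψ k < θ q := by
    intro k hk
    simp only [hΨ]
    have h1 : (k : ℝ) ≤ m + 4 := by exact_mod_cast hk
    nlinarith
  have hex : ∀ k, ∃ i, k ≤ m + 4 → (p ≤ i ∧ i < q ∧ θ i ≤ Ψ k ∧ Ψ k < θ (i + 1)) := by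
    intro k
    by_cases hk : k ≤ m + 4
    · obtain ⟨i, hi⟩ := exists_idx θ (Ψ k) hpq (hΨlo k) (hΨhi k hk)
      exact ⟨i, fun _ => hi⟩
    · exact ⟨0, fun h => absurd h hk⟩
  choose I hI using hex
  set x : ℕ → ℝ := fun k => hf w θ r p q (Ψ k) with hx
  have hxe : ∀ k ≤ m + 4, x k = hgt w (Ψ k) (I k + 1) := by
    intro k hk
    obtain ⟨h1, h2, h3, h4⟩ := hI k hk
    exact hf_eq h hq inc h1 h2 h3 h4.le
  have hH : ∀ k ≤ m + 4, hgt w (Ψ 0) (I k + 1) = (-1) ^ k * x k := by
    intro k hk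
    have e := hgt_add_nat w (Ψ 0) k (I k + 1)
    rw [← hΨ0 k] at e
    rw [hxe k hk, e, ← mul_assoc, ← pow_add, ← two_mul, pow_mul]
    norm_num
  have hlt : ∀ k < m + 4, I k < I (k + 1) := by
    intro k hk
    obtain ⟨h1, h2, h3, h4⟩ := hI k hk.le
    obtain ⟨g1, g2, g3, g4⟩ := hI (k + 1) hk
    by_contra hc
    have h5 := mono (I (k + 1) + 1) (I k + 1) (by omega) (by omega) (by omega)
    have h6 := step1 (I k) h1 h2
    have h7 := hΨ1 k
    linarith
  have hs : ∀ k < m + 4, x k + x (k + 1) < 0 := by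
    intro k hk
    obtain ⟨h1, h2, h3, h4⟩ := hI k hk.le
    obtain ⟨g1, g2, g3, g4⟩ := hI (k + 1) hk
    have h7 := hΨ1 k
    have h8 := hlt k hk
    have e1 := hgt_tele h (Ψ k) (a := I k + 1) (n := I (k + 1) + 1) (by omega) (by omega)
    have e2 : hgt w (Ψ k) (I (k + 1) + 1) = - x (k + 1) := by
      rw [hxe (k + 1) hk, h7]
      have := hgt_add_nat w (Ψ k) 1 (I (k + 1) + 1)
      simp only [Nat.cast_one, one_mul, pow_one] at this
      rw [this]
      ring
    have e3 : 0 < ∑ j ∈ Finset.Ico (I k + 1) (I (k + 1) + 1), r j * Real.sin (θ j - Ψ k) := by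
      refine Finset.sum_pos' (fun j hj => ?_) ⟨I k + 1, Finset.mem_Ico.2 ⟨le_rfl, by omega⟩, ?_⟩
      · rw [Finset.mem_Ico] at hj
        have a1 := mono (I k + 1) j (by omega) hj.1 (by omega)
        have a2 := mono j (I (k + 1)) (by omega) (by omega) g2.le
        exact mul_nonneg (h.r_pos j (by omega)).le
          (Real.sin_nonneg_of_nonneg_of_le_pi (by linarith) (by linarith))
      · have a1 := step1 (I k) h1 h2
        exact mul_pos (h.r_pos _ (by omega))
          (Real.sin_pos_of_pos_of_lt_pi (by linarith) (by linarith))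
    rw [e2, ← hxe k hk.le] at e1
    linarith
  have hd : (∀ k, k + 2 ≤ m + 4 → x k < x (k + 2)) ∨ (∀ k, k + 2 ≤ m + 4 → x (k + 2) < x k) := by
    have hmem : ∀ k, k + 2 ≤ m + 4 → Ψ k ∈ Set.Icc (θ p) (θ p + (m + 2 + 1 / 2) * Real.pi) := by
      intro k hk
      refine ⟨hΨlo k, ?_⟩
      simp only [hΨ]
      have h1 : (k : ℝ) + 2 ≤ m + 4 := by exact_mod_cast hk
      nlinarith
    have hk2 : ∀ k, Ψ (k + 2) = Ψ k + 2 * Real.pi := by
      intro k
      simp only [hΨ]
      push_cast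
      ring
    rcases hsign with hsg | hsg
    · left
      intro k hk
      have := hsg _ (hmem k hk)
      simp only [hx]
      rw [hk2]
      linarith
    · right
      intro k hk
      have := hsg _ (hmem k hk)
      simp only [hx]
      rw [hk2]
      linarith
  obtain ⟨M, hM⟩ := exists_sep x (N := m + 4) (by omega) hs hd
  have hfin := h.alt (Ψ 0) M (m + 4) (fun k => I k + 1) ?_ ?_
  · omega
  · have := (hI (m + 4) le_rfl).2.1
    omega
  · intro k hk
    refine ⟨by have := hlt k hk; omega, ?_⟩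
    rw [hH k hk.le, hH (k + 1) hk]
    obtain ⟨a1, a2⟩ := hM k hk.le
    obtain ⟨b1, b2⟩ := hM (k + 1) hk
    by_cases hev : Even k
    · have c1 := a1 hev
      have c2 := b2 (by rw [Nat.even_add_one]; exact fun h => h hev)
      rw [pow_succ, hev.neg_one_pow]
      nlinarith
    · have c1 := a2 hev
      have c2 := b1 (Nat.even_add_one.2 hev)
      rw [pow_succ, (Nat.not_even_iff_odd.1 hev).neg_one_pow]
      nlinarith

end SB758
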