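import Pool.Agent.Helper758_SB.Defs
import Pool.Agent.Helper758_SB.J04_ang
import Pool.Agent.Helper758_SB.J06_reflect
import Pool.Agent.Helper758_SB.J08_runs
import Pool.Agent.Helper758_SB.J09_spiral

namespace SB758

open Finset

/-- decomposition into monotone runs -/
theorem bp_runs (θ : ℕ → ℝ) (h01 : θ 0 < θ 1) (N : ℕ) (ne : ∀ i < N, θ (i + 1) ≠ θ i) :
    ∃ (R : ℕ) (c : ℕ → ℕ), c 0 = 0 ∧ c R = N ∧ (∀ k < R, c k < c (k + 1)) ∧
      ∀ k < R, ∀ i j, c k ≤ i → i < j → j ≤ c (k + 1) → 0 < (-1 : ℝ) ^ k * (θ j - θ i) := by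
  induction N with
  | zero => exact ⟨0, fun _ => 0, rfl, rfl, fun k hk => absurd hk (Nat.not_lt_zero k),
      fun k hk => absurd hk (Nat.not_lt_zero k)⟩
  | succ N ih =>
    obtain ⟨R, c, hc0, hcR, hc, hm⟩ := ih (fun i hi => ne i (Nat.lt_succ_of_lt hi))
    rcases R with _ | R₀
    · have hN : N = 0 := by rw [← hcR, hc0]
      subst hN
      refine ⟨1, fun k => k, rfl, rfl, fun k hk => Nat.lt_succ_self k, ?_⟩
      intro k hk i j hi hij hj
      have hk0 : k = 0 := by omega
      subst hk0
      have hj' : j ≤ 0 + 1 := hj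
      have hi0 : i = 0 := by omega
      have hj1 : j = 1 := by omega
      subst hi0 hj1
      simpa using h01
    · by_cases hs : 0 < (-1 : ℝ) ^ R₀ * (θ (N + 1) - θ N)
      · refine ⟨R₀ + 1, Function.update c (R₀ + 1) (N + 1), ?_, ?_, ?_, ?_⟩
        · rw [Function.update_of_ne (by omega)]; exact hc0
        · rw [Function.update_self]
        · intro k hk
          rw [Function.update_of_ne (by omega)]
          by_cases hkR : k = R₀
          · subst hkR
            rw [Function.update_self]
            have := hc k (by omega)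
            omega
          · rw [Function.update_of_ne (by omega)]
            exact hc k (by omega)
        · intro k hk i j hi hij hj
          rw [Function.update_of_ne (by omega)] at hi
          by_cases hkR : k = R₀
          · subst hkR
            rw [Function.update_self] at hj
            by_cases hjN : j = N + 1
            · subst hjN
              by_cases hiN : i = N
              · subst hiN; exact hs
              · have h1 := hm k (by omega) i N hi (by omega) (by omega)
                have e : (-1 : ℝ) ^ k * (θ (N + 1) - θ i) =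
                  (-1 : ℝ) ^ k * (θ (N + 1) - θ N) + (-1 : ℝ) ^ k * (θ N - θ i) := by ring
                rw [e]; exact add_pos hs h1
            · exact hm k (by omega) i j hi hij (by omega)
          · rw [Function.update_of_ne (by omega)] at hj
            exact hm k (by omega) i j hi hij hj
      · have hne := ne N (Nat.lt_succ_self N)
        have hs2 : 0 < (-1 : ℝ) ^ (R₀ + 1) * (θ (N + 1) - θ N) := by
          rcases lt_or_eq_of_le (not_lt.1 hs) with h | h
          · rw [pow_succ]; linarith
          · exfalso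
            have h1 : (-1 : ℝ) ^ R₀ ≠ 0 := pow_ne_zero _ (by norm_num)
            rcases mul_eq_zero.1 h with h2 | h2
            · exact h1 h2
            · exact hne (sub_eq_zero.1 h2)
        refine ⟨R₀ + 2, Function.update c (R₀ + 2) (N + 1), ?_, ?_, ?_, ?_⟩
        · rw [Function.update_of_ne (by omega)]; exact hc0
        · rw [Function.update_self]
        · intro k hk
          rw [Function.update_of_ne (by omega)]
          by_cases hkR : k = R₀ + 1
          · subst hkR
            rw [Function.update_self]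
            omega
          · rw [Function.update_of_ne (by omega)]
            exact hc k (by omega)
        · intro k hk i j hi hij hj
          rw [Function.update_of_ne (by omega)] at hi
          by_cases hkR : k = R₀ + 1
          · subst hkR
            rw [Function.update_self] at hj
            have hiN : i = N := by omega
            have hjN : j = N + 1 := by omega
            subst hiN hjN
            exact hs2
          · rw [Function.update_of_ne (by omega)] at hj
            exact hm k (by omega) i j hi hij hj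

theorem bp_spiral {m B : ℕ} {w : ℕ → ℝ × ℝ} {θ r : ℕ → ℝ} (h : Ang m B w θ r) {p q : ℕ} (hpq : p ≤ q)
    (hq : q < B) (ε : ℝ) (hε : ε = 1 ∨ ε = -1)
    (inc : ∀ i j, p ≤ i → i < j → j ≤ q → 0 < ε * (θ j - θ i)) : ε * (θ q - θ p) ≤ (m + 6) * Real.pi := by
  rcases hε with rfl | rfl
  · have := spiral h hpq hq (fun i j hi hij hj => by have := inc i j hi hij hj; linarith)
    linarith
  · have := spiral (ang_reflect h) hpq hq (fun i j hi hij hj => by
      have := inc i j hi hij hj
      show -θ i < -θ j
      linarith)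
    linarith

theorem bp_aux {m B : ℕ} {w : ℕ → ℝ × ℝ} {θ r : ℕ → ℝ} (h : Ang m B w θ r) (hB : 2 ≤ B) (h01 : θ 0 < θ 1) :
    ∃ br : Finset ℕ, br.card ≤ (2 * m + 13) + (2 * m + 12) * (m + 7) ∧ (∀ k ∈ br, k ≤ B) ∧
    ∀ i j, i + 2 ≤ j → j ≤ B → (∀ b ∈ br, ¬ (i < b ∧ b < j)) →
      ∃ ε : ℝ, (ε = 1 ∨ ε = -1) ∧ ∀ k l, i ≤ k → k < l → l < j →
        0 < ε * (θ l - θ k) ∧ ε * (θ l - θ k) < Real.pi := by
  classical
  have hπ := Real.pi_pos
  obtain ⟨R, c, hc0, hcR, hc, hm⟩ := bp_runs θ h01 (B - 1) (fun i hi => h.ne i (by omega))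
  have hR : R ≤ 2 * m + 12 := runs_le h hc (by omega) hm
  have hmono : ∀ k', k' ≤ R → ∀ k, k ≤ k' → c k ≤ c k' := by
    intro k'
    induction k' with
    | zero => intro _ k hk; have : k = 0 := by omega
              subst this; exact le_rfl
    | succ n ih =>
      intro hn k hk
      rcases Nat.lt_or_ge k (n + 1) with h1 | h1
      · exact (ih (by omega) k (by omega)).trans (hc n (by omega)).le
      · have : k = n + 1 := by omega
        subst this; exact le_rfl
  let E : ℕ → ℕ → Set ℕ := fun k s =>
    {e | c k < e ∧ e ≤ c (k + 1) ∧ (s : ℝ) * Real.pi ≤ |θ e - θ (c k)|}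
  let br : Finset ℕ := (range (R + 1)).image c ∪
    ((range R) ×ˢ (range (m + 7))).image (fun p => sInf (E p.1 p.2))
  refine ⟨br, ?_, ?_, ?_⟩
  · refine (card_union_le _ _).trans ?_
    have h1 : ((range (R + 1)).image c).card ≤ 2 * m + 13 := by
      refine card_image_le.trans ?_
      rw [card_range]; omega
    have h2 : (((range R) ×ˢ (range (m + 7))).image (fun p => sInf (E p.1 p.2))).card ≤
        (2 * m + 12) * (m + 7) := by
      refine card_image_le.trans ?_
      rw [card_product, card_range, card_range]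
      exact Nat.mul_le_mul_right _ hR
    omega
  · intro b hb
    rcases mem_union.1 hb with hb | hb
    · obtain ⟨k, hk, rfl⟩ := mem_image.1 hb
      have hk' := mem_range.1 hk
      have := hmono R le_rfl k (by omega)
      omega
    · obtain ⟨p, hp, rfl⟩ := mem_image.1 hb
      have hp1 := mem_range.1 (mem_product.1 hp).1
      rcases Set.eq_empty_or_nonempty (E p.1 p.2) with he | he
      · rw [he, Nat.sInf_empty]; omega
      · have h1 := (Nat.sInf_mem he).2.1
        have h2 := hmono R le_rfl (p.1 + 1) (by omega)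
        omega
  · intro i j hij hjB hbr
    have hiR : i < c R := by omega
    have hex : ∃ n, i < c n := ⟨R, hiR⟩
    obtain ⟨k, hkR, hki, hik⟩ : ∃ k, k < R ∧ c k ≤ i ∧ i < c (k + 1) := by
      have h1 := Nat.find_spec hex
      have h2 : Nat.find hex ≤ R := Nat.find_min' hex hiR
      rcases hn : Nat.find hex with _ | k
      · rw [hn, hc0] at h1; omega
      · refine ⟨k, by omega, ?_, by rw [hn] at h1; exact h1⟩
        have h3 := Nat.find_min hex (m := k) (by omega)
        omega
    have hj : j ≤ c (k + 1) := by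
      by_contra hcon
      push Not at hcon
      refine hbr (c (k + 1)) ?_ ⟨hik, hcon⟩
      exact mem_union_left _ (mem_image.2 ⟨k + 1, mem_range.2 (by omega), rfl⟩)
    have hck1 : c (k + 1) ≤ c R := hmono R le_rfl (k + 1) (by omega)
    set ε : ℝ := (-1 : ℝ) ^ k with hεdef
    have hε : ε = 1 ∨ ε = -1 := neg_one_pow_eq_or ℝ k
    have hmk : ∀ i j, c k ≤ i → i < j → j ≤ c (k + 1) → 0 < ε * (θ j - θ i) := hm k hkR
    have hsp := bp_spiral h (hc k hkR).le (by omega) ε hε hmk
    have habs : ∀ e, c k ≤ e → e ≤ c (k + 1) → |θ e - θ (c k)| = ε * (θ e - θ (c k)) := by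
      intro e he1 he2
      rcases Nat.eq_or_lt_of_le he1 with h1 | h1
      · rw [← h1]; simp
      · have h2 := hmk (c k) e le_rfl h1 he2
        rcases hε with h3 | h3
        · rw [h3] at h2 ⊢
          rw [one_mul] at h2 ⊢
          exact abs_of_pos h2
        · rw [h3] at h2 ⊢
          rw [abs_of_neg (by linarith)]
          ring
    have hdle : ∀ e e', c k ≤ e → e ≤ e' → e' ≤ c (k + 1) →
        ε * (θ e - θ (c k)) ≤ ε * (θ e' - θ (c k)) := by
      intro e e' he hee he'
      rcases Nat.eq_or_lt_of_le hee with h1 | h1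
      · rw [h1]
      · have h2 := hmk e e' he h1 he'
        nlinarith
    have hdi : 0 ≤ ε * (θ i - θ (c k)) := by
      have := hdle (c k) i le_rfl hki (by omega)
      simpa using this
    set s : ℕ := ⌊ε * (θ i - θ (c k)) / Real.pi⌋₊ with hs
    have hs1 : (s : ℝ) * Real.pi ≤ ε * (θ i - θ (c k)) := by
      have := Nat.floor_le (div_nonneg hdi hπ.le)
      rw [← hs] at this
      exact (le_div_iff₀ hπ).1 this
    have hs2 : ε * (θ i - θ (c k)) < ((s : ℝ) + 1) * Real.pi := by
      have := Nat.lt_floor_add_one (ε * (θ i - θ (c k)) / Real.pi)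
      rw [← hs] at this
      exact (div_lt_iff₀ hπ).1 this
    have hclaim : ε * (θ (j - 1) - θ (c k)) < ((s : ℝ) + 1) * Real.pi := by
      by_contra hge
      push Not at hge
      have h1 := hdle (j - 1) (c (k + 1)) (by omega) (by omega) le_rfl
      have h2 : ((s : ℝ) + 1) * Real.pi ≤ (m + 6) * Real.pi := hge.trans (h1.trans hsp)
      have h3 : (s : ℝ) + 1 ≤ m + 6 := le_of_mul_le_mul_right h2 hπ
      have h4 : s + 1 ≤ m + 6 := by exact_mod_cast h3
      have hne : (j - 1) ∈ E k (s + 1) := by
        refine ⟨by omega, by omega, ?_⟩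
        rw [habs (j - 1) (by omega) (by omega)]
        push_cast
        exact hge
      have hf := Nat.sInf_mem (s := E k (s + 1)) ⟨_, hne⟩
      have hf2 := Nat.sInf_le hne
      refine hbr (sInf (E k (s + 1))) ?_ ⟨?_, ?_⟩
      · refine mem_union_right _ (mem_image.2 ⟨(k, s + 1), ?_, rfl⟩)
        exact mem_product.2 ⟨mem_range.2 hkR, mem_range.2 (by show s + 1 < m + 7; omega)⟩
      · by_contra hle
        push Not at hle
        have h5 := hf.2.2
        rw [habs _ hf.1.le hf.2.1] at h5
        have h6 := hdle _ i hf.1.le hle (by omega)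
        push_cast at h5
        linarith
      · omega
    refine ⟨ε, hε, fun k' l hk' hkl hl => ⟨hmk k' l (by omega) hkl (by omega), ?_⟩⟩
    have h1 := hdle i k' hki hk' (by omega)
    have h2 := hdle l (j - 1) (by omega) (by omega) (by omega)
    nlinarith

theorem bp_cross {m B : ℕ} {w : ℕ → ℝ × ℝ} {θ r : ℕ → ℝ} (h : Ang m B w θ r) {k l : ℕ} (hk : k < B)
    (hl : l < B) : cr (w (k + 1) - w k) (w (l + 1) - w l) = r k * r l * Real.sin (θ l - θ k) := by
  rw [h.step k hk, h.step l hl, Real.sin_sub]
  simp only [add_sub_cancel_left, cr]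
  ring

theorem bp_sin (x ε : ℝ) (hε : ε = 1 ∨ ε = -1) (h1 : 0 < ε * x) (h2 : ε * x < Real.pi) :
    0 < ε * Real.sin x := by
  rcases hε with rfl | rfl
  · rw [one_mul] at *
    exact Real.sin_pos_of_pos_of_lt_pi h1 h2
  · have h3 := Real.sin_pos_of_pos_of_lt_pi (x := -x) (by linarith) (by linarith)
    rw [Real.sin_neg] at h3
    linarith

/-- TARGET. A path without bitangents is a union of boundedly many convex chains with turning less than `π`.
PROOF. `B ≤ 1`: take `br = {0}`. Let `B ≥ 2` and take angles from `ang_of_path`; by reflecting (`ang_reflect`) we may assume `θ 0 < θ 1` if `B ≥ 2` has at least two edges (the conclusion is invariant under reflection: the sign ε changes).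
Decompose the edge indices `0..B-1` into maximal runs: there are `R` and `c` with `c 0 = 0`, `c R = B - 1`, `c k < c (k+1)`, `θ` strictly increasing on `c k..c (k+1)` for `k` even and strictly decreasing for `k` odd (induction on `B`). `R ≤ 2m+12` by `runs_le`.
Every run has total turning at most `(m+6)π` by `spiral` (and its reflection). Assign to the edge index `i` with `c k < i ≤ c (k+1)` (or `i = 0`, `k = 0`) the key `(k, ⌊|θ i - θ (c k)| / π⌋)`, one of at most `(2m+12)(m+7)` keys.
Edges with the same key form an interval of indices on which `θ` is strictly monotone with total variation less than `π`; so `cr (w (k+1) - w k) (w (l+1) - w l) = r k * r l * sin (θ l - θ k)` has a constant sign for `k < l` in the interval.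
Let `br` be the set of first edge indices of the nonempty key classes (`card ≤` number of keys). If no `b ∈ br` is strictly between `i` and `j`, then the edges `i, ..., j - 1` all have the same key: the edge `k+1` with `i ≤ k`, `k + 1 < j` has the same key as the edge `k`, because
otherwise `k + 1` would be the first index of its class (the classes are intervals) and `i < k + 1 < j`. -/
theorem bp (m : ℕ) : ∃ C : ℕ, ∀ (B : ℕ) (w : ℕ → ℝ × ℝ), PathOK m B w → ∃ br : Finset ℕ, br.card ≤ C ∧ (∀ k ∈ br, k ≤ B) ∧
    ∀ i j, i + 2 ≤ j → j ≤ B → (∀ b ∈ br, ¬ (i < b ∧ b < j)) →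
      ∃ ε : ℝ, (ε = 1 ∨ ε = -1) ∧ ∀ k l, i ≤ k → k < l → l < j → 0 < ε * cr (w (k + 1) - w k) (w (l + 1) - w l) := by
  refine ⟨(2 * m + 13) + (2 * m + 12) * (m + 7), fun B w hp => ?_⟩
  by_cases hB : 2 ≤ B
  swap
  · exact ⟨∅, by simp, by simp, fun i j hij hj => by omega⟩
  obtain ⟨θ, r, h⟩ := ang_of_path hB hp
  -- the conclusion from a statement on the angles
  have key : ∀ br : Finset ℕ, (∀ i j, i + 2 ≤ j → j ≤ B → (∀ b ∈ br, ¬ (i < b ∧ b < j)) →
      ∃ ε : ℝ, (ε = 1 ∨ ε = -1) ∧ ∀ k l, i ≤ k → k < l → l < j →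
        0 < ε * (θ l - θ k) ∧ ε * (θ l - θ k) < Real.pi) →
      ∀ i j, i + 2 ≤ j → j ≤ B → (∀ b ∈ br, ¬ (i < b ∧ b < j)) →
      ∃ ε : ℝ, (ε = 1 ∨ ε = -1) ∧ ∀ k l, i ≤ k → k < l → l < j →
        0 < ε * cr (w (k + 1) - w k) (w (l + 1) - w l) := by
    intro br hbr i j hij hj hb
    obtain ⟨ε, hε, hall⟩ := hbr i j hij hj hb
    refine ⟨ε, hε, fun k l hk hkl hl => ?_⟩
    obtain ⟨h1, h2⟩ := hall k l hk hkl hl
    rw [bp_cross h (by omega) (by omega)]
    have h3 := bp_sin _ ε hε h1 h2
    have h4 := h.r_pos k (by omega)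
    have h5 := h.r_pos l (by omega)
    have h6 := mul_pos (mul_pos h4 h5) h3
    linarith [h6, show r k * r l * (ε * Real.sin (θ l - θ k)) =
      ε * (r k * r l * Real.sin (θ l - θ k)) by ring]
  rcases lt_or_gt_of_ne (h.ne 0 (by omega)) with h01 | h01
  · obtain ⟨br, hc, hle, hbr⟩ := bp_aux (ang_reflect h) hB (by simpa using h01)
    refine ⟨br, hc, hle, key br ?_⟩
    intro i j hij hj hb
    obtain ⟨ε, hε, hall⟩ := hbr i j hij hj hb
    refine ⟨-ε, ?_, fun k l hk hkl hl => ?_⟩
    · rcases hε with h1 | h1
      · right; rw [h1]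
      · left; rw [h1]; norm_num
    · obtain ⟨h1, h2⟩ := hall k l hk hkl hl
      constructor <;> linarith
  · obtain ⟨br, hc, hle, hbr⟩ := bp_aux h hB (by simpa using h01)
    exact ⟨br, hc, hle, key br hbr⟩

end SB758
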