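import Pool.Agent.Helper758_SB.Defs
import Pool.Agent.Helper758_SB.J03_alt
import Pool.Agent.Helper758_SB.J10_bp

namespace SB758

open Finset

theorem exists_breaks_modEq {N q i j : ℕ} (h1 : i < j) (h2 : j < i + N) :
    ¬ q + i ≡ q + j [MOD N] := by
  intro h
  rw [Nat.modEq_iff_dvd' (by omega)] at h
  have h3 := Nat.le_of_dvd (by omega) h
  omega

theorem exists_breaks_pm {a b : ℝ} (ha : a = 1 ∨ a = -1) (hb : b = 1 ∨ b = -1) (hab : a ≠ b) :
    a * b < 0 := by
  rcases ha with rfl | rfl <;> rcases hb with rfl | rfl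
  · exact absurd rfl hab
  · norm_num
  · norm_num
  · exact absurd rfl hab

theorem exists_breaks_D {N m : ℕ} {w : ℕ → ℝ × ℝ} {s : ℕ → ℝ} (h : Cyc N m w s) :
    ((range N).filter (fun i => s i ≠ s (i + 1))).card ≤ m + 2 := by
  classical
  have h1 := h.tv 0 0 1 (fun i => by simp [aff])
  have h2 : sc N (fun i => s i * aff 0 0 1 (w i)) ≤ m + 2 := by
    rcases h1 with h1 | h1 <;> omega
  refine le_trans (card_le_card ?_) h2
  intro i hi
  rw [mem_filter] at hi ⊢
  refine ⟨hi.1, ?_⟩
  have e : ∀ i, s i * aff 0 0 1 (w i) = s i := fun i => by simp [aff]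
  simp only [e]
  exact exists_breaks_pm (h.sgn i) (h.sgn (i + 1)) hi.2

theorem exists_breaks_path {N m : ℕ} {w : ℕ → ℝ × ℝ} {s : ℕ → ℝ} (hN : 4 ≤ N) (h : Cyc N m w s)
    (hnb : NB N w s) {q B : ℕ} (hq : 1 ≤ q) (hqB : q + B ≤ N)
    (hc : ∀ i < B, s (q + i) = s (q + (i + 1))) : PathOK m B (fun i => w (q + i)) := by
  have hs : ∀ i ≤ B, s (q + i) = s q := by
    intro i
    induction i with
    | zero => intro _; rfl
    | succ i ih =>
      intro hi
      rw [← hc i (by omega)]
      exact ih (by omega)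
  have hss : s q * s q = 1 := by
    rcases h.sgn q with h1 | h1 <;> rw [h1] <;> norm_num
  have hprod : ∀ i j, i ≤ B → j ≤ B → ∀ u v : ℝ, (s (q + i) * u) * (s (q + j) * v) = u * v := by
    intro i j hi hj u v
    rw [hs i hi, hs j hj]
    calc s q * u * (s q * v) = (s q * s q) * (u * v) := by ring
      _ = u * v := by rw [hss, one_mul]
  refine ⟨?_, ?_, ?_⟩
  · intro i j k hij hjk hk
    exact h.gp (q + i) (q + j) (q + k) (exists_breaks_modEq hij (by omega))
      (exists_breaks_modEq hjk (by omega)) (exists_breaks_modEq (by omega) (by omega))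
  · intro i j hij hj x y z h1 h2 h3
    have hn := hnb (q + i) (q + j) (exists_breaks_modEq (by omega) (by omega))
      (exists_breaks_modEq (q := q) (i := i) (j := j + 1) (by omega) (by omega))
      (exists_breaks_modEq (q := q) (i := i + 1) (j := j) (by omega) (by omega)) x y z h1 h2
    apply hn
    have e1 : q + i + 2 = q + (i + 2) := by ring
    have e2 : q + j + 2 = q + (j + 2) := by ring
    rw [e1, e2, hprod i (i + 2) (by omega) (by omega), hprod j (j + 2) (by omega) (by omega)]
    exact h3
  · intro x y z K t hK ht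
    have hmono : ∀ d k, k + d = K → t k ≤ t K := by
      intro d
      induction d with
      | zero => intro k hk; rw [← hk]; simp
      | succ d ih =>
        intro k hk
        have h1 := (ht k (by omega)).1
        have h2 := ih (k + 1) (by omega)
        omega
    refine alt_le (by omega) h (x := x) (y := y) (z := z) (K := K) (t := fun k => q + t k) ?_ ?_
    · omega
    · intro k hk
      obtain ⟨h1, h2⟩ := ht k hk
      refine ⟨by omega, ?_⟩
      rw [hprod (t k) (t (k + 1)) ((hmono (K - k) k (by omega)).trans hK)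
        ((hmono (K - (k + 1)) (k + 1) (by omega)).trans hK)]
      exact h2

/-- TARGET. Breaks for cyclic data.
PROOF. The affine function `1` (`a = b = 0, c = 1`) gives `sc N s ≤ m + 2` (as `s i * 1`), so there are at most `m + 2` indices `i < N` with `s i ≠ s (i+1)`. Let `Q ⊆ [1,N]` consist of `1`, `N` and all `k ∈ [1,N]` with `s (k-1) ≠ s k` or `s k ≠ s (k+1)`;
`card Q ≤ 2 (m+2) + 2` (use periodicity for `k = N`). For every two consecutive elements `q < q'` of `Q` (no element of `Q` strictly between) with `s` constant on `[q,q']` apply `bp m` to the path `i ↦ w (q + i)`, `B = q' - q`: `PathOK` holds: `gp` from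
`h.gp` (indices in `[1,N]` are pairwise incongruent mod `N`), `nb` from `NB` (the indices `q + i + 1` and `q + j + 1` are interior points of `[q,q'] ⊆ [1,N]`, so they are neither congruent nor adjacent mod `N`: `q + i`, `q + j` satisfy the three non-congruences since `2 ≤ j - i ≤ N - 3`), the signs are all equal and cancel in the products; `alt` from `alt_le`. Add `q + br'` to the breaks. If `s` is not constant on `[q,q']` then `q' = q + 1` and nothing is needed.
In total at most `(2m+6)(C+1)` breaks, `C` the constant of `bp m`. `sg`: `k ∉ Q`. `good`: an interval `[a,b]` without interior break has no interior element of `Q`, so it lies in some `[q,q']` with `q,q'` consecutive in `Q`; since `b ≥ a + 2` the interval `[q,q']` has an interior point and `s` is constant on it. -/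
theorem exists_breaks (m : ℕ) : ∃ C : ℕ, ∀ (N : ℕ) (w : ℕ → ℝ × ℝ) (s : ℕ → ℝ), 4 ≤ N → Cyc N m w s → NB N w s →
    ∃ br : Finset ℕ, br.card ≤ C ∧ Breaks N w s br := by
  classical
  obtain ⟨C, hC⟩ := bp m
  refine ⟨(2 * m + 6) * (C + 1), ?_⟩
  intro N w s hN h hnb
  set D : Finset ℕ := (range N).filter (fun i => s i ≠ s (i + 1)) with hD
  have hDc : D.card ≤ m + 2 := by
    refine le_trans (le_of_eq ?_) (exists_breaks_D h)
    congr 1
  set Q : Finset ℕ := (Icc 1 N).filter
    (fun k => k = 1 ∨ k = N ∨ s (k - 1) ≠ s k ∨ s k ≠ s (k + 1)) with hQ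
  have hQc : Q.card ≤ 2 * m + 6 := by
    have h1 : Q ⊆ {1, N} ∪ (D.image (fun i => i + 1) ∪ D) := by
      intro k hk
      rw [hQ, mem_filter, mem_Icc] at hk
      obtain ⟨⟨hk1, hk2⟩, hk3⟩ := hk
      rw [mem_union, mem_union, mem_insert, mem_singleton, mem_image]
      rcases hk3 with hk3 | hk3 | hk3 | hk3
      · exact Or.inl (Or.inl hk3)
      · exact Or.inl (Or.inr hk3)
      · refine Or.inr (Or.inl ⟨k - 1, ?_, by omega⟩)
        rw [hD, mem_filter, mem_range]
        refine ⟨by omega, ?_⟩
        rw [show k - 1 + 1 = k by omega]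
        exact hk3
      · by_cases hkN : k = N
        · exact Or.inl (Or.inr hkN)
        · refine Or.inr (Or.inr ?_)
          rw [hD, mem_filter, mem_range]
          exact ⟨by omega, hk3⟩
    have h2 := card_le_card h1
    have h3 := card_union_le ({1, N} : Finset ℕ) (D.image (fun i => i + 1) ∪ D)
    have h4 := card_union_le (D.image (fun i => i + 1)) D
    have h5 : (D.image (fun i => i + 1)).card ≤ D.card := card_image_le
    have h6 : ({1, N} : Finset ℕ).card ≤ 2 := card_le_two
    omega
  have hQ1 : 1 ∈ Q := by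
    rw [hQ, mem_filter, mem_Icc]
    exact ⟨⟨le_rfl, by omega⟩, Or.inl rfl⟩
  have hQN : N ∈ Q := by
    rw [hQ, mem_filter, mem_Icc]
    exact ⟨⟨by omega, le_rfl⟩, Or.inr (Or.inl rfl)⟩
  have hQr : ∀ q ∈ Q, 1 ≤ q ∧ q ≤ N := by
    intro q hq
    rw [hQ, mem_filter, mem_Icc] at hq
    exact hq.1
  have hQn : ∀ k, 1 ≤ k → k ≤ N → k ∉ Q → s (k - 1) = s k ∧ s (k + 1) = s k := by
    intro k h1 h2 h3
    rw [hQ, mem_filter, mem_Icc] at h3
    push Not at h3
    obtain ⟨_, _, h4, h5⟩ := h3 ⟨h1, h2⟩
    exact ⟨h4, h5.symm⟩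
  -- the longest interval without interior elements of `Q`
  set P : ℕ → ℕ → Prop := fun q B => q + B ≤ N ∧ ∀ k ∈ Q, ¬ (q < k ∧ k < q + B) with hP
  set Bm : ℕ → ℕ := fun q => Nat.findGreatest (P q) N with hBm
  have hPB : ∀ q, q ≤ N → P q (Bm q) := by
    intro q hq
    exact Nat.findGreatest_spec (P := P q) (m := 0) (Nat.zero_le _)
      ⟨by omega, fun k _ hk => by omega⟩
  have hmax : ∀ q B, P q B → B ≤ Bm q := by
    intro q B hB
    exact Nat.le_findGreatest (by have := hB.1; omega) hB
  have key : ∀ q, 1 ≤ q ∧ q ≤ N → ∃ br' : Finset ℕ, br'.card ≤ C ∧ (∀ k ∈ br', k ≤ Bm q) ∧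
      ∀ i j, i + 2 ≤ j → j ≤ Bm q → (∀ b ∈ br', ¬ (i < b ∧ b < j)) →
        ∃ ε : ℝ, (ε = 1 ∨ ε = -1) ∧ ∀ k l, i ≤ k → k < l → l < j →
          0 < ε * cr (w (q + (k + 1)) - w (q + k)) (w (q + (l + 1)) - w (q + l)) := by
    rintro q ⟨hq1, hq2⟩
    by_cases hB : Bm q ≤ 1
    · refine ⟨∅, by simp, by simp, fun i j h1 h2 _ => ?_⟩
      omega
    · push Not at hB
      obtain ⟨h1, h2⟩ := hPB q hq2
      have hc : ∀ i < Bm q, s (q + i) = s (q + (i + 1)) := by
        intro i hi
        by_cases hi0 : i = 0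
        · have h3 : q + 1 ∉ Q := fun h4 => h2 _ h4 ⟨by omega, by omega⟩
          have h5 := (hQn (q + 1) (by omega) (by omega) h3).1
          rw [hi0]
          simpa using h5
        · have h3 : q + i ∉ Q := fun h4 => h2 _ h4 ⟨by omega, by omega⟩
          exact (hQn (q + i) (by omega) (by omega) h3).2.symm
      exact hC (Bm q) (fun i => w (q + i)) (exists_breaks_path hN h hnb hq1 h1 hc)
  choose! br' hb1 hb2 hb3 using key
  refine ⟨Q ∪ Q.biUnion (fun q => (br' q).image (fun b => q + b)), ?_, ?_⟩
  · have h1 := card_union_le Q (Q.biUnion (fun q => (br' q).image (fun b => q + b)))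
    have h2 : (Q.biUnion (fun q => (br' q).image (fun b => q + b))).card ≤ Q.card * C := by
      refine card_biUnion_le_card_mul _ _ _ fun q hq => ?_
      exact card_image_le.trans (hb1 q (hQr q hq))
    calc (Q ∪ Q.biUnion (fun q => (br' q).image (fun b => q + b))).card ≤ Q.card + Q.card * C := by
          omega
      _ = Q.card * (C + 1) := by ring
      _ ≤ (2 * m + 6) * (C + 1) := Nat.mul_le_mul_right _ hQc
  · refine ⟨?_, mem_union_left _ hQ1, mem_union_left _ hQN, ?_, ?_⟩
    · intro k hk
      rw [mem_union, mem_biUnion] at hk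
      rcases hk with hk | ⟨q, hq, hk⟩
      · exact hQr k hk
      · rw [mem_image] at hk
        obtain ⟨b, hb, rfl⟩ := hk
        have h1 := hQr q hq
        have h2 := hb2 q h1 b hb
        have h3 := (hPB q h1.2).1
        omega
    · intro k h1 h2 h3
      exact hQn k h1 h2 (fun h4 => h3 (mem_union_left _ h4))
    · intro a b ha hab hbN hno
      -- the largest element of `Q` which is at most `a`
      have hne : (Q.filter (fun k => k ≤ a)).Nonempty := ⟨1, by
        rw [mem_filter]; exact ⟨hQ1, ha⟩⟩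
      set q := (Q.filter (fun k => k ≤ a)).max' hne with hq
      have hqm := (Q.filter (fun k => k ≤ a)).max'_mem hne
      rw [← hq, mem_filter] at hqm
      obtain ⟨hqQ, hqa⟩ := hqm
      have hqmax : ∀ k ∈ Q, k ≤ a → k ≤ q := fun k hk hka =>
        (Q.filter (fun k => k ≤ a)).le_max' k (by rw [mem_filter]; exact ⟨hk, hka⟩)
      have hPq : P q (b - q) := by
        refine ⟨by omega, fun k hk hk' => ?_⟩
        by_cases hka : k ≤ a
        · have := hqmax k hk hka
          omega
        · exact hno k (mem_union_left _ hk) ⟨by omega, by omega⟩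
      obtain ⟨ε, hε, hε'⟩ := hb3 q (hQr q hqQ) (a - q) (b - q) (by omega) (hmax q _ hPq) (by
        intro b' hb' hb''
        refine hno (q + b') (mem_union_right _ ?_) ⟨by omega, by omega⟩
        rw [mem_biUnion]
        exact ⟨q, hqQ, mem_image_of_mem _ hb'⟩)
      refine ⟨ε, hε, fun k l h1 h2 h3 => ?_⟩
      have h4 := hε' (k - q) (l - q) (by omega) (by omega) (by omega)
      rw [show q + (k - q + 1) = k + 1 by omega, show q + (k - q) = k by omega,
        show q + (l - q + 1) = l + 1 by omega, show q + (l - q) = l by omega] at h4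
      exact h4

end SB758
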