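import Pool.Agent.Helper758_SB.Defs

namespace SB758

open Finset

theorem hull_pos (z : ℕ → ℝ × ℝ) (I : Set ℕ) (f : ℝ × ℝ → ℝ)
    (hf : ∀ (p q : ℝ × ℝ) (a b : ℝ), a + b = 1 → f (a • p + b • q) = a * f p + b * f q)
    (h : ∀ t ∈ I, 0 < f (z t)) : ∀ p ∈ convexHull ℝ (z '' I), 0 < f p := by
  intro p hp
  have hconv : Convex ℝ {p | 0 < f p} := by
    intro p hp q hq a b ha hb hab
    show 0 < f (a • p + b • q)
    rw [hf _ _ _ _ hab]
    have hp' : 0 < f p := hp
    have hq' : 0 < f q := hq
    rcases eq_or_lt_of_le ha with h0 | h0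
    · have hb1 : b = 1 := by linarith
      rw [← h0, hb1]
      linarith
    · have h1 := mul_pos h0 hp'
      have h2 := mul_nonneg hb hq'.le
      linarith
  exact convexHull_min (by rintro _ ⟨t, ht, rfl⟩; exact h t ht) hconv hp

theorem hull4 (z : ℕ → ℝ × ℝ) (I1 I2 I3 I4 : Set ℕ)
    (h : ∀ a ∈ I1, ∀ b ∈ I2, ∀ c ∈ I3, ∀ d ∈ I4, 0 < cr (z b - z a) (z d - z c)) :
    ∀ A ∈ convexHull ℝ (z '' I1), ∀ B ∈ convexHull ℝ (z '' I2), ∀ C ∈ convexHull ℝ (z '' I3),
    ∀ D ∈ convexHull ℝ (z '' I4), 0 < cr (B - A) (D - C) := by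
  intro A hA B hB C hC D hD
  refine hull_pos z I1 (fun A => cr (B - A) (D - C)) ?_ ?_ A hA
  · intro p q a b hab
    have hb : b = 1 - a := by linarith
    subst hb
    simp only [cr, Prod.fst_sub, Prod.snd_sub, Prod.fst_add, Prod.snd_add, Prod.smul_fst,
      Prod.smul_snd, smul_eq_mul]
    ring
  intro a ha
  refine hull_pos z I2 (fun B => cr (B - z a) (D - C)) ?_ ?_ B hB
  · intro p q a b hab
    have hb : b = 1 - a := by linarith
    subst hb
    simp only [cr, Prod.fst_sub, Prod.snd_sub, Prod.fst_add, Prod.snd_add, Prod.smul_fst,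
      Prod.smul_snd, smul_eq_mul]
    ring
  intro b hb
  refine hull_pos z I3 (fun C => cr (z b - z a) (D - C)) ?_ ?_ C hC
  · intro p q a b hab
    have hb : b = 1 - a := by linarith
    subst hb
    simp only [cr, Prod.fst_sub, Prod.snd_sub, Prod.fst_add, Prod.snd_add, Prod.smul_fst,
      Prod.smul_snd, smul_eq_mul]
    ring
  intro c hc
  refine hull_pos z I4 (fun D => cr (z b - z a) (D - z c)) ?_ ?_ D hD
  · intro p q a b hab
    have hb : b = 1 - a := by linarith
    subst hb
    simp only [cr, Prod.fst_sub, Prod.snd_sub, Prod.fst_add, Prod.snd_add, Prod.smul_fst,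
      Prod.smul_snd, smul_eq_mul]
    ring
  intro d hd
  exact h a ha b hb c hc d hd

theorem hull3 (z : ℕ → ℝ × ℝ) (I1 I2 I3 : Set ℕ)
    (h : ∀ a ∈ I1, ∀ b ∈ I2, ∀ c ∈ I3, 0 < ori (z a) (z b) (z c)) :
    ∀ A ∈ convexHull ℝ (z '' I1), ∀ B ∈ convexHull ℝ (z '' I2), ∀ C ∈ convexHull ℝ (z '' I3),
    0 < ori A B C := by
  intro A hA B hB C hC
  refine hull_pos z I1 (fun A => ori A B C) ?_ ?_ A hA
  · intro p q a b hab
    have hb : b = 1 - a := by linarith
    subst hb
    simp only [ori, cr, Prod.fst_sub, Prod.snd_sub, Prod.fst_add, Prod.snd_add, Prod.smul_fst,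
      Prod.smul_snd, smul_eq_mul]
    ring
  intro a ha
  refine hull_pos z I2 (fun B => ori (z a) B C) ?_ ?_ B hB
  · intro p q a b hab
    have hb : b = 1 - a := by linarith
    subst hb
    simp only [ori, cr, Prod.fst_sub, Prod.snd_sub, Prod.fst_add, Prod.snd_add, Prod.smul_fst,
      Prod.smul_snd, smul_eq_mul]
    ring
  intro b hb
  refine hull_pos z I3 (fun C => ori (z a) (z b) C) ?_ ?_ C hC
  · intro p q a b hab
    have hb : b = 1 - a := by linarith
    subst hb
    simp only [ori, cr, Prod.fst_sub, Prod.snd_sub, Prod.fst_add, Prod.snd_add, Prod.smul_fst,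
      Prod.smul_snd, smul_eq_mul]
    ring
  intro c hc
  exact h a ha b hb c hc

theorem cr_add_left' (a b c : ℝ × ℝ) : cr (a + b) c = cr a c + cr b c := by
  simp only [cr, Prod.fst_add, Prod.snd_add]; ring

theorem cr_add_right' (a b c : ℝ × ℝ) : cr a (b + c) = cr a b + cr a c := by
  simp only [cr, Prod.fst_add, Prod.snd_add]; ring

theorem chain1 {L : ℕ} {z : ℕ → ℝ × ℝ} (hg : GoodChain L z) {t k : ℕ} (htk : t < k) :
    ∀ d, k + d + 1 ≤ L → 0 < cr (z (t + 1) - z t) (z (k + d + 1) - z k) := by
  intro d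
  induction d with
  | zero =>
    intro h
    exact hg t k htk (by omega)
  | succ d ih =>
    intro h
    have h1 := ih (by omega)
    have h2 := hg t (k + d + 1) (by omega) (by omega)
    have h3 : z (k + (d + 1) + 1) - z k = (z (k + d + 1) - z k) + (z (k + d + 1 + 1) - z (k + d + 1)) := by
      have : k + (d + 1) + 1 = k + d + 1 + 1 := by omega
      rw [this]; abel
    rw [h3, cr_add_right']
    linarith

theorem chain2 {L : ℕ} {z : ℕ → ℝ × ℝ} (hg : GoodChain L z) {i k l : ℕ} (hkl : k < l)
    (hl : l ≤ L) : ∀ d, i + d + 1 ≤ k → 0 < cr (z (i + d + 1) - z i) (z l - z k) := by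
  have hone : ∀ t, t < k → 0 < cr (z (t + 1) - z t) (z l - z k) := by
    intro t ht
    have := chain1 hg ht (l - k - 1) (by omega)
    have h2 : k + (l - k - 1) + 1 = l := by omega
    rwa [h2] at this
  intro d
  induction d with
  | zero =>
    intro h
    exact hone i (by omega)
  | succ d ih =>
    intro h
    have h1 := ih (by omega)
    have h2 := hone (i + d + 1) (by omega)
    have h3 : z (i + (d + 1) + 1) - z i = (z (i + d + 1) - z i) + (z (i + d + 1 + 1) - z (i + d + 1)) := by
      have : i + (d + 1) + 1 = i + d + 1 + 1 := by omega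
      rw [this]; abel
    rw [h3, cr_add_left']
    linarith

theorem chain {L : ℕ} {z : ℕ → ℝ × ℝ} (hg : GoodChain L z) {i j k l : ℕ} (hij : i < j)
    (hjk : j ≤ k) (hkl : k < l) (hl : l ≤ L) : 0 < cr (z j - z i) (z l - z k) := by
  have := chain2 hg hkl hl (i := i) (j - i - 1) (by omega)
  have h2 : i + (j - i - 1) + 1 = j := by omega
  rwa [h2] at this

theorem ori_chain {L : ℕ} {z : ℕ → ℝ × ℝ} (hg : GoodChain L z) {i j k : ℕ} (hij : i < j)
    (hjk : j < k) (hk : k ≤ L) : 0 < ori (z i) (z j) (z k) := by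
  have h := chain hg hij (le_refl j) hjk hk
  have e : ori (z i) (z j) (z k) = cr (z j - z i) (z k - z j) := by
    simp only [ori, cr, Prod.fst_sub, Prod.snd_sub]; ring
  rw [e]; exact h

theorem hi_lt_lo {L S : ℕ} {z : ℕ → ℝ × ℝ} {lo hi : ℕ → ℕ} {x : ℕ → ℝ × ℝ}
    (hb : Blocks L S z lo hi x) {i : ℕ} : ∀ d, i + d + 1 ≤ S → hi i < lo (i + d + 1) := by
  intro d
  induction d with
  | zero => intro h; exact hb.lt i (by omega)
  | succ d ih =>
    intro h
    have h1 := ih (by omega)
    have h2 := hb.le (i + d + 1) (by omega)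
    have h3 := hb.lt (i + d + 1) (by omega)
    have : i + (d + 1) + 1 = i + d + 1 + 1 := by omega
    rw [this]
    omega

theorem blk_lt {L S : ℕ} {z : ℕ → ℝ × ℝ} {lo hi : ℕ → ℕ} {x : ℕ → ℝ × ℝ}
    (hb : Blocks L S z lo hi x) {i j : ℕ} (hij : i < j) (hj : j ≤ S) : hi i < lo j := by
  have := hi_lt_lo hb (i := i) (j - i - 1) (by omega)
  have h2 : i + (j - i - 1) + 1 = j := by omega
  rwa [h2] at this

theorem hi_le {L S : ℕ} {z : ℕ → ℝ × ℝ} {lo hi : ℕ → ℕ} {x : ℕ → ℝ × ℝ}
    (hb : Blocks L S z lo hi x) {i : ℕ} (hi' : i ≤ S) : hi i ≤ L := by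
  rcases Nat.lt_or_ge i S with h | h
  · have h1 := blk_lt hb h (le_refl S)
    have h2 := hb.le S (le_refl S)
    have h3 := hb.top
    omega
  · have : i = S := by omega
    rw [this]; exact hb.top

theorem single_mem (z : ℕ → ℝ × ℝ) (t : ℕ) : z t ∈ convexHull ℝ (z '' {t}) := by
  apply subset_convexHull
  exact ⟨t, rfl, rfl⟩

theorem cr_cont_right (a : ℝ × ℝ) : Continuous fun u : ℝ × ℝ => cr a u := by
  unfold cr
  fun_prop

theorem cr_cont_left (a : ℝ × ℝ) : Continuous fun u : ℝ × ℝ => cr u a := by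
  unfold cr
  fun_prop

theorem ev_lt {f g : ℝ × ℝ → ℝ} (hf : Continuous f) (hg : Continuous g) {u0 : ℝ × ℝ}
    (h : f u0 < g u0) : ∀ᶠ u in nhds u0, f u < g u :=
  (isOpen_lt hf hg).mem_nhds h

theorem ev_all {N : ℕ} {p : ℕ → ℝ × ℝ → Prop} {u0 : ℝ × ℝ}
    (h : ∀ t ≤ N, ∀ᶠ u in nhds u0, p t u) : ∀ᶠ u in nhds u0, ∀ t ≤ N, p t u :=
  (Filter.eventually_all_finite (Set.finite_Iic N)).2 h

/-- TARGET. The direction `x (l+1) - x (l-1)` and all nearby directions satisfy `Dir`.
PROOF. `Dir` is a finite conjunction of strict inequalities that are continuous in `u` (for p1, p3: `t ≤ L`; for p3': `t < lo i ≤ L`; for p2, p2': `i, j ≤ S`), so it suffices to show them for `u0 = x (l+1) - x (l-1)`, where `lo, hi` are monotone and `≤ L`.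
Put `e i = z (i+1) - z i`, so `cr (e i) (e j) > 0` for `i < j < L`. For `i < j ≤ k < l ≤ L`: `cr (z j - z i) (z l - z k) > 0` (sums of the `e`'s), and for `i < j < k ≤ L`: `ori (z i) (z j) (z k) = cr (z j - z i) (z k - z j) > 0`.
A function affine in one point which is positive on a set is positive on its convex hull (half spaces are convex); applying this successively in each of the points, the same inequalities hold with points of the convex hulls of blocks
(blocks in the same order, for `cr (B - A) (D - C)` with blocks of `A < B < C < D`; for `ori` with three increasing blocks; single points `z t` are blocks too).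
p1, `t < lo (l-1)`: `cr (x l - z t) u0 = cr (x (l-1) - z t) u0 + cr (x l - x (l-1)) u0 = ori (z t) (x (l-1)) (x (l+1)) + ori (x (l-1)) (x l) (x (l+1)) > 0` (note `cr (x l - x (l-1)) (x (l+1) - x (l-1)) = ori (x (l-1)) (x l) (x (l+1))`, and `cr (x (l-1) - z t) (x (l+1) - x (l-1)) = ori (z t) (x (l-1)) (x (l+1))`).
p1, `hi (l+1) < t`: `cr (z t - x l) u0 = cr (z t - x (l+1)) u0 - cr (x l - x (l+1)) u0 = - ori (x (l-1)) (x (l+1)) (z t) - ori (x (l-1)) (x l) (x (l+1)) < 0`.
p2, p2', p3, p3': four resp. three blocks and a point in increasing order (for `l + 2 ≤ i` the block `i` is after the block `l + 1`). p4: `cr (e 0) u0 + cr u0 (e (L-1)) > 0`: `u0` is in the cone of the `e t`; `cr (z 1 - z 0) (z b - z a) ≥ 0` and `cr (z b - z a) (z L - z (L-1)) ≥ 0`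
for `a < b ≤ L`, and not both are zero since `L ≥ 2` (`b > 1` or `a < L - 1`). -/
theorem dir_nhds {L S : ℕ} {z : ℕ → ℝ × ℝ} {lo hi : ℕ → ℕ} {x : ℕ → ℝ × ℝ} (hg : GoodChain L z) (hb : Blocks L S z lo hi x)
    {l : ℕ} (h1 : 1 ≤ l) (h2 : l + 1 ≤ S) : ∀ᶠ u in nhds (x (l + 1) - x (l - 1)), Dir L S z lo hi x l u := by
  set u0 : ℝ × ℝ := x (l + 1) - x (l - 1) with hu0
  have hm1 := hb.mem (l - 1) (by omega)
  have hm2 := hb.mem l (by omega)
  have hm3 := hb.mem (l + 1) h2
  have hle1 := hb.le (l - 1) (by omega)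
  have hle2 := hb.le l (by omega)
  have hle3 := hb.le (l + 1) h2
  have hlt1 : hi (l - 1) < lo l := blk_lt hb (by omega) (by omega)
  have hlt2 : hi l < lo (l + 1) := blk_lt hb (by omega) h2
  have hL3 := hi_le hb h2
  have hmid : 0 < ori (x (l - 1)) (x l) (x (l + 1)) := by
    refine hull3 z _ _ _ ?_ _ hm1 _ hm2 _ hm3
    intro a ha b hb' c hc
    have ha' := ha.2
    have hb1 := hb'.1
    have hb2 := hb'.2
    have hc1 := hc.1
    have hc2 := hc.2
    exact ori_chain hg (by omega) (by omega) (by omega)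
  have q1 : ∀ᶠ u in nhds u0, ∀ t ≤ L, (t < lo (l - 1) ∨ hi (l + 1) < t) →
      cr (z t) u < cr (x l) u := by
    apply ev_all
    intro t ht
    by_cases hc : t < lo (l - 1) ∨ hi (l + 1) < t
    · have hineq : cr (z t) u0 < cr (x l) u0 := by
        rcases hc with hc | hc
        · have h3 : 0 < ori (z t) (x (l - 1)) (x (l + 1)) := by
            refine hull3 z {t} _ _ ?_ _ (single_mem z t) _ hm1 _ hm3
            intro a ha b hb' c hc'
            have ha' : a = t := ha
            have hb1 := hb'.1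
            have hb2 := hb'.2
            have hc1 := hc'.1
            have hc2 := hc'.2
            exact ori_chain hg (by omega) (by omega) (by omega)
          rw [hu0]
          simp only [ori, cr, Prod.fst_sub, Prod.snd_sub] at *
          nlinarith
        · have h3 : 0 < ori (x (l - 1)) (x (l + 1)) (z t) := by
            refine hull3 z _ _ {t} ?_ _ hm1 _ hm3 _ (single_mem z t)
            intro a ha b hb' c hc'
            have hc'' : c = t := hc'
            have ha2 := ha.2
            have hb1 := hb'.1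
            have hb2 := hb'.2
            exact ori_chain hg (by omega) (by omega) (by omega)
          rw [hu0]
          simp only [ori, cr, Prod.fst_sub, Prod.snd_sub] at *
          nlinarith
      exact (ev_lt (cr_cont_right _) (cr_cont_right _) hineq).mono fun u hu _ => hu
    · exact Filter.Eventually.of_forall fun u hc' => absurd hc' hc
  have q2 : ∀ᶠ u in nhds u0, ∀ i ≤ S, ∀ j ≤ S, l + 2 ≤ i → i < j → 0 < cr u (x j - x i) := by
    apply ev_all
    intro i hiS
    apply ev_all
    intro j hjS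
    by_cases hc : l + 2 ≤ i ∧ i < j
    · have hineq : 0 < cr u0 (x j - x i) := by
        refine hull4 z _ _ _ _ ?_ _ hm1 _ hm3 _ (hb.mem i hiS) _ (hb.mem j hjS)
        intro a ha b hb' c hc' d hd
        have e1 := blk_lt hb (i := l + 1) (j := i) (by omega) hiS
        have e2 := blk_lt hb hc.2 hjS
        have e3 := hi_le hb hjS
        have ha2 := ha.2
        have hb1 := hb'.1
        have hb2 := hb'.2
        have hc1 := hc'.1
        have hc2 := hc'.2
        have hd1 := hd.1
        have hd2 := hd.2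
        exact chain hg (by omega) (by omega) (by omega) (by omega)
      exact (ev_lt continuous_const (cr_cont_left _) hineq).mono fun u hu _ _ => hu
    · exact Filter.Eventually.of_forall fun u h1' h2' => absurd ⟨h1', h2'⟩ hc
  have q2' : ∀ᶠ u in nhds u0, ∀ i ≤ S, ∀ j ≤ S, i < j → j + 2 ≤ l → 0 < cr (x j - x i) u := by
    apply ev_all
    intro i hiS
    apply ev_all
    intro j hjS
    by_cases hc : i < j ∧ j + 2 ≤ l
    · have hineq : 0 < cr (x j - x i) u0 := by
        refine hull4 z _ _ _ _ ?_ _ (hb.mem i hiS) _ (hb.mem j hjS) _ hm1 _ hm3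
        intro a ha b hb' c hc' d hd
        have e1 := blk_lt hb (i := j) (j := l - 1) (by omega) (by omega)
        have e2 := blk_lt hb hc.1 hjS
        have ha2 := ha.2
        have hb1 := hb'.1
        have hb2 := hb'.2
        have hc1 := hc'.1
        have hc2 := hc'.2
        have hd1 := hd.1
        have hd2 := hd.2
        exact chain hg (by omega) (by omega) (by omega) (by omega)
      exact (ev_lt continuous_const (cr_cont_right _) hineq).mono fun u hu _ _ => hu
    · exact Filter.Eventually.of_forall fun u h1' h2' => absurd ⟨h1', h2'⟩ hc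
  have q3 : ∀ᶠ u in nhds u0, ∀ i ≤ S, ∀ t ≤ L, l + 2 ≤ i → hi i < t → 0 < cr u (z t - x i) := by
    apply ev_all
    intro i hiS
    apply ev_all
    intro t ht
    by_cases hc : l + 2 ≤ i ∧ hi i < t
    · have hineq : 0 < cr u0 (z t - x i) := by
        refine hull4 z _ _ _ {t} ?_ _ hm1 _ hm3 _ (hb.mem i hiS) _ (single_mem z t)
        intro a ha b hb' c hc' d hd
        have e1 := blk_lt hb (i := l + 1) (j := i) (by omega) hiS
        have hd' : d = t := hd
        have ha2 := ha.2
        have hb1 := hb'.1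
        have hb2 := hb'.2
        have hc1 := hc'.1
        have hc2 := hc'.2
        have hcc := hc.2
        exact chain hg (by omega) (by omega) (by omega) (by omega)
      exact (ev_lt continuous_const (cr_cont_left _) hineq).mono fun u hu _ _ => hu
    · exact Filter.Eventually.of_forall fun u h1' h2' => absurd ⟨h1', h2'⟩ hc
  have q3' : ∀ᶠ u in nhds u0, ∀ i ≤ S, ∀ t ≤ L, i + 2 ≤ l → t < lo i → 0 < cr (x i - z t) u := by
    apply ev_all
    intro i hiS
    apply ev_all
    intro t ht
    by_cases hc : i + 2 ≤ l ∧ t < lo i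
    · have hineq : 0 < cr (x i - z t) u0 := by
        refine hull4 z {t} _ _ _ ?_ _ (single_mem z t) _ (hb.mem i hiS) _ hm1 _ hm3
        intro a ha b hb' c hc' d hd
        have e1 := blk_lt hb (i := i) (j := l - 1) (by omega) (by omega)
        have ha' : a = t := ha
        have hb1 := hb'.1
        have hb2 := hb'.2
        have hc1 := hc'.1
        have hc2 := hc'.2
        have hd1 := hd.1
        have hd2 := hd.2
        have hcc := hc.2
        exact chain hg (by omega) (by omega) (by omega) (by omega)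
      exact (ev_lt continuous_const (cr_cont_right _) hineq).mono fun u hu _ _ => hu
    · exact Filter.Eventually.of_forall fun u h1' h2' => absurd ⟨h1', h2'⟩ hc
  have q4 : ∀ᶠ u in nhds u0, 0 < cr (z 1 - z 0) u + cr u (z L - z (L - 1)) := by
    apply ev_lt continuous_const ((cr_cont_right _).add (cr_cont_left _))
    have haff : ∀ (w1 w2 : ℝ × ℝ) (A B : ℝ × ℝ),
        cr w1 (B - A) + cr (B - A) w2 = cr w1 B - cr w1 A + (cr B w2 - cr A w2) := by
      intro w1 w2 A B
      simp only [cr, Prod.fst_sub, Prod.snd_sub]; ring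
    show 0 < cr (z 1 - z 0) (x (l + 1) - x (l - 1)) +
      cr (x (l + 1) - x (l - 1)) (z L - z (L - 1))
    refine hull_pos z _ (fun A => cr (z 1 - z 0) (x (l + 1) - A) +
      cr (x (l + 1) - A) (z L - z (L - 1))) ?_ ?_ _ hm1
    · intro p q a b hab
      have hb' : b = 1 - a := by linarith
      subst hb'
      simp only [cr, Prod.fst_sub, Prod.snd_sub, Prod.fst_add, Prod.snd_add, Prod.smul_fst,
        Prod.smul_snd, smul_eq_mul]
      ring
    intro a ha
    refine hull_pos z _ (fun B => cr (z 1 - z 0) (B - z a) +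
      cr (B - z a) (z L - z (L - 1))) ?_ ?_ _ hm3
    · intro p q a b hab
      have hb' : b = 1 - a := by linarith
      subst hb'
      simp only [cr, Prod.fst_sub, Prod.snd_sub, Prod.fst_add, Prod.snd_add, Prod.smul_fst,
        Prod.smul_snd, smul_eq_mul]
      ring
    intro b hb'
    have ha2 := ha.2
    have hb1 := hb'.1
    have hb2 := hb'.2
    have t1 : 0 < cr (z 1 - z 0) (z b - z a) := by
      rcases Nat.eq_zero_or_pos a with h0 | h0
      · subst h0
        have := chain hg (i := 0) (j := 1) (k := 1) (l := b) (by omega) (by omega) (by omega)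
          (by omega)
        simp only [cr, Prod.fst_sub, Prod.snd_sub] at *
        nlinarith
      · exact chain hg (by omega) (by omega) (by omega) (by omega)
    have t2 : 0 < cr (z b - z a) (z L - z (L - 1)) := by
      rcases Nat.lt_or_ge b L with h0 | h0
      · exact chain hg (by omega) (by omega) (by omega) (by omega)
      · have hbL : b = L := by omega
        subst hbL
        have := chain hg (i := a) (j := b - 1) (k := b - 1) (l := b) (by omega) (by omega)
          (by omega) (by omega)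
        simp only [cr, Prod.fst_sub, Prod.snd_sub] at *
        nlinarith
    show 0 < cr (z 1 - z 0) (z b - z a) + cr (z b - z a) (z L - z (L - 1))
    linarith
  filter_upwards [q1, q2, q2', q3, q3', q4] with u g1 g2 g2' g3 g3' g4
  refine ⟨g1, ?_, ?_, ?_, ?_, g4⟩
  · intro i j hi1 hij hj
    exact g2 i (by omega) j hj hi1 hij
  · intro i j hij hj
    exact g2' i (by omega) j (by omega) hij hj
  · intro i t hi1 hi2 hi3 ht
    exact g3 i hi2 t ht hi1 hi3
  · intro i t hi1 ht
    have e1 := hb.le i (by omega)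
    have e2 := hi_le hb (i := i) (by omega)
    exact g3' i (by omega) t (by omega) hi1 ht


end SB758
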