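import Pool.Agent.Helper758_SB.Defs

namespace SB758

open Finset

theorem hull_pos13 {s : Set (ℝ × ℝ)} {x : ℝ × ℝ} (hx : x ∈ convexHull ℝ s) (f : ℝ × ℝ → ℝ)
    (hf : ∃ a b c : ℝ, ∀ w, f w = a * w.1 + b * w.2 + c) (h : ∀ w ∈ s, 0 < f w) : 0 < f x := by
  obtain ⟨a, b, c, hf⟩ := hf
  have hconv : Convex ℝ {w : ℝ × ℝ | 0 < f w} := by
    intro p hp q hq s t hs ht hst
    simp only [Set.mem_setOf_eq] at hp hq ⊢
    have h1 : f (s • p + t • q) = s * f p + t * f q := by
      rw [hf, hf, hf]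
      simp only [Prod.fst_add, Prod.smul_fst, Prod.snd_add, Prod.smul_snd, smul_eq_mul]
      linear_combination (-c) * hst
    rw [h1]
    rcases hs.eq_or_lt with h0 | h0
    · have ht1 : t = 1 := by linarith
      rw [← h0, ht1]; linarith
    · have : 0 < s * f p := mul_pos h0 hp
      have : 0 ≤ t * f q := mul_nonneg ht hq.le
      linarith
  exact convexHull_min (fun w hw => h w hw) hconv hx

theorem Blocks.hilo {L S : ℕ} {z : ℕ → ℝ × ℝ} {lo hi : ℕ → ℕ} {x : ℕ → ℝ × ℝ}
    (hb : Blocks L S z lo hi x) {i j : ℕ} (hij : i < j) (hj : j ≤ S) : hi i < lo j := by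
  induction j with
  | zero => omega
  | succ j ih =>
    rcases Nat.lt_succ_iff_lt_or_eq.1 hij with h | h
    · have h1 := ih h (by omega)
      have h2 := hb.le j (by omega)
      have h3 := hb.lt j (by omega)
      omega
    · subst h
      exact hb.lt i (by omega)

theorem Blocks.hiL {L S : ℕ} {z : ℕ → ℝ × ℝ} {lo hi : ℕ → ℕ} {x : ℕ → ℝ × ℝ}
    (hb : Blocks L S z lo hi x) {i : ℕ} (hi' : i ≤ S) : hi i ≤ L := by
  rcases hi'.eq_or_lt with h | h
  · rw [h]; exact hb.top
  · have h1 := hb.hilo h le_rfl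
    have h2 := hb.le S le_rfl
    have h3 := hb.top
    omega

theorem Blocks.exists_ge {L S : ℕ} {z : ℕ → ℝ × ℝ} {lo hi : ℕ → ℕ} {x : ℕ → ℝ × ℝ}
    (hb : Blocks L S z lo hi x) {l : ℕ} (hl : l ≤ S) (v : ℝ × ℝ) :
    ∃ t', lo l ≤ t' ∧ t' ≤ hi l ∧ cr (x l) v ≤ cr (z t') v := by
  by_contra hcon
  push Not at hcon
  have h := hull_pos13 (hb.mem l hl) (fun w => cr (x l) v - cr w v)
    ⟨-v.2, v.1, cr (x l) v, fun w => by simp only [cr]; ring⟩ (by
      rintro w ⟨t, ht, rfl⟩
      have := hcon t ht.1 ht.2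
      linarith)
  simp at h

/-- differences -/
theorem cr_diff_pos {L : ℕ} {z : ℕ → ℝ × ℝ} (hg : GoodChain L z) {a b i : ℕ} (hia : i < a) (hab : a < b)
    (hb : b ≤ L) : 0 < cr (z (i + 1) - z i) (z b - z a) := by
  induction b with
  | zero => omega
  | succ b ih =>
    have h1 := hg i b (by omega) (by omega)
    have hsplit : cr (z (i + 1) - z i) (z (b + 1) - z a)
        = cr (z (i + 1) - z i) (z (b + 1) - z b) + cr (z (i + 1) - z i) (z b - z a) := by
      simp only [cr, Prod.fst_sub, Prod.snd_sub]; ring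
    rw [hsplit]
    rcases Nat.lt_succ_iff_lt_or_eq.1 hab with h | h
    · have h2 := ih h (by omega)
      linarith
    · subst h
      have h2 : cr (z (i + 1) - z i) (z a - z a) = 0 := by
        simp only [cr, Prod.fst_sub, Prod.snd_sub]; ring
      rw [h2]; linarith

theorem cr_diff_diff {L : ℕ} {z : ℕ → ℝ × ℝ} (hg : GoodChain L z) {t a b c : ℕ} (hta : t < a) (hac : a ≤ c)
    (hcb : c < b) (hb : b ≤ L) : 0 < cr (z a - z t) (z b - z c) := by
  induction a with
  | zero => omega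
  | succ a ih =>
    have h1 := cr_diff_pos hg (i := a) (a := c) (b := b) (by omega) hcb hb
    have hsplit : cr (z (a + 1) - z t) (z b - z c)
        = cr (z (a + 1) - z a) (z b - z c) + cr (z a - z t) (z b - z c) := by
      simp only [cr, Prod.fst_sub, Prod.snd_sub]; ring
    rw [hsplit]
    rcases Nat.lt_succ_iff_lt_or_eq.1 hta with h | h
    · have h2 := ih h (by omega)
      linarith
    · subst h
      have h2 : cr (z t - z t) (z b - z c) = 0 := by
        simp only [cr, Prod.fst_sub, Prod.snd_sub]; ring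
      rw [h2]; linarith

/-- `cr (z b - z a) (z L - z (L-1)) ≥ 0` -/
theorem cr_last_nonneg {L : ℕ} {z : ℕ → ℝ × ℝ} (hg : GoodChain L z) {a b : ℕ} (hab : a < b) (hb : b ≤ L) :
    0 ≤ cr (z b - z a) (z L - z (L - 1)) := by
  have hL : L - 1 + 1 = L := by omega
  rcases hb.eq_or_lt with h | h
  · -- b = L
    subst h
    rcases Nat.lt_or_ge a (b - 1) with h1 | h1
    · have h2 := cr_diff_diff hg (t := a) (a := b - 1) (c := b - 1) (b := b) h1 le_rfl (by omega) le_rfl
      have h3 : cr (z b - z a) (z b - z (b - 1)) = cr (z (b - 1) - z a) (z b - z (b - 1)) := by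
        simp only [cr, Prod.fst_sub, Prod.snd_sub]; ring
      rw [h3]; exact h2.le
    · have h2 : a = b - 1 := by omega
      subst h2
      have h3 : cr (z b - z (b - 1)) (z b - z (b - 1)) = 0 := by
        simp only [cr, Prod.fst_sub, Prod.snd_sub]; ring
      rw [h3]
  · exact (cr_diff_diff hg (t := a) (a := b) (c := L - 1) (b := L) hab (by omega) (by omega) le_rfl).le

/-- TARGET 1 (4a of the paper proof).
PROOF. Put `g = x (l+4) - x (l+2)`, `A = cr u g > 0` (p2 for `l`), `B = cr g u' > 0` (p2' for `l'`, as `l + 4 + 2 ≤ l'`), `τ = A / (A + B)`, `v = (1-τ) u + τ u'`: `cr g v = 0`. So `v = κ g`; `κ > 0`: with `lam y = cr (z 1 - z 0) y + cr y (z L - z (L-1))`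
we have `lam v > 0` by p4 (both) and `lam g > 0` (as in p4 for `u0`: `g` is in the convex hull of the differences `z b - z a`, `a ∈ [lo (l+2), hi (l+2)]`, `b ∈ [lo (l+4), hi (l+4)]`, `a < b`, `lam (z b - z a) > 0`).
For `t < lo (l+2)`: `cr (x (l+2) - z t) g = ori (z t) (x (l+2)) (x (l+4)) > 0`; for `t > hi (l+4)`: `cr (x (l+4) - z t) g > 0` as `ori (x (l+2)) (x (l+4)) (z t) > 0`; so for `t ∉ [lo (l+2), hi (l+4)]`: `cr (z t) v < cr (x (l+2)) v = cr (x (l+4)) v`, and
`cr (x (l+2)) v ≤ cr (z t') v` for some `t' ∈ [lo (l+2), hi (l+2)]`. For `t ∈ [lo (l+2), hi (l+4)]`: `cr (z t) v = (1-τ) cr (z t) u + τ cr (z t) u' < (1-τ) cr (x l) u + τ cr (x l') u'` by p1 for `l` (`hi (l+1) < lo (l+2) ≤ t`) and for `l'` (`t ≤ hi (l+4) < lo (l'-1)`). -/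
theorem two_a {L S : ℕ} {z : ℕ → ℝ × ℝ} {lo hi : ℕ → ℕ} {x : ℕ → ℝ × ℝ} (hg : GoodChain L z) (hb : Blocks L S z lo hi x)
    {l l' : ℕ} {u u' : ℝ × ℝ} (h1 : 1 ≤ l) (h2 : l + 6 ≤ l') (h3 : l' + 1 ≤ S) (hu : Dir L S z lo hi x l u)
    (hu' : Dir L S z lo hi x l' u') :
    ∃ τ : ℝ, 0 < τ ∧ τ < 1 ∧ ∀ t ≤ L, cr (z t) ((1 - τ) • u + τ • u') < (1 - τ) * cr (x l) u + τ * cr (x l') u' := by
  have hl2 : l + 2 ≤ S := by omega
  have hl4 : l + 4 ≤ S := by omega
  set g := x (l + 4) - x (l + 2) with hgdef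
  have hA : 0 < cr u g := hu.p2 (l + 2) (l + 4) le_rfl (by omega) hl4
  have hB : 0 < cr g u' := hu'.p2' (l + 2) (l + 4) (by omega) (by omega)
  set A := cr u g with hAdef
  set B := cr g u' with hBdef
  have hAB : 0 < A + B := by linarith
  refine ⟨A / (A + B), div_pos hA hAB, (div_lt_one hAB).2 (by linarith), ?_⟩
  set τ := A / (A + B) with hτ
  have hτ0 : 0 < τ := div_pos hA hAB
  have hτ1 : τ < 1 := (div_lt_one hAB).2 (by linarith)
  set v := (1 - τ) • u + τ • u' with hv
  have hlin : ∀ w : ℝ × ℝ, cr w v = (1 - τ) * cr w u + τ * cr w u' := by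
    intro w
    simp only [hv, cr, Prod.fst_add, Prod.snd_add, Prod.smul_fst, Prod.smul_snd, smul_eq_mul]; ring
  have hgv : cr g v = 0 := by
    rw [hlin]
    have h3 : cr g u = -A := by simp only [hAdef, cr]; ring
    rw [h3, ← hBdef, hτ]
    field_simp
    ring
  -- v = κ g
  have hg0 : g.1 ^ 2 + g.2 ^ 2 ≠ 0 := by
    intro h
    have h3 : g.1 = 0 := by nlinarith [sq_nonneg g.1, sq_nonneg g.2]
    have h4 : g.2 = 0 := by nlinarith [sq_nonneg g.1, sq_nonneg g.2]
    have : A = 0 := by rw [hAdef]; unfold cr; rw [h3, h4]; ring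
    linarith
  obtain ⟨κ, hκ1, hκ2⟩ : ∃ κ : ℝ, v.1 = κ * g.1 ∧ v.2 = κ * g.2 := by
    refine ⟨(v.1 * g.1 + v.2 * g.2) / (g.1 ^ 2 + g.2 ^ 2), ?_, ?_⟩
    · rw [div_mul_eq_mul_div, eq_div_iff hg0]
      unfold cr at hgv
      linear_combination (-g.2) * hgv
    · rw [div_mul_eq_mul_div, eq_div_iff hg0]
      unfold cr at hgv
      linear_combination (g.1) * hgv
  have hcrg : ∀ w : ℝ × ℝ, cr w v = κ * cr w g := by
    intro w
    unfold cr
    rw [hκ1, hκ2]; ring
  have hlo : 1 ≤ lo (l + 2) := by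
    have := hb.hilo (i := l + 1) (j := l + 2) (by omega) hl2
    omega
  -- lam g > 0
  have hlamz : ∀ a b, lo (l + 2) ≤ a → a ≤ hi (l + 2) → lo (l + 4) ≤ b → b ≤ hi (l + 4) →
      0 < cr (z 1 - z 0) (z b - z a) + cr (z b - z a) (z L - z (L - 1)) := by
    intro a b ha1 ha2 hb1 hb2
    have hab : a < b := by
      have := hb.hilo (i := l + 2) (j := l + 4) (by omega) hl4
      omega
    have hbL : b ≤ L := hb2.trans (hb.hiL hl4)
    have h3 := cr_diff_pos hg (i := 0) (a := a) (b := b) (by omega) hab hbL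
    have h4 := cr_last_nonneg hg hab hbL
    linarith
  have hlam1 : ∀ a, lo (l + 2) ≤ a → a ≤ hi (l + 2) →
      0 < cr (z 1 - z 0) (x (l + 4) - z a) + cr (x (l + 4) - z a) (z L - z (L - 1)) := by
    intro a ha1 ha2
    refine hull_pos13 (hb.mem (l + 4) hl4)
      (fun w => cr (z 1 - z 0) (w - z a) + cr (w - z a) (z L - z (L - 1))) ?_ ?_
    · refine ⟨-(z 1 - z 0).2 + (z L - z (L - 1)).2, (z 1 - z 0).1 - (z L - z (L - 1)).1,
        (z 1 - z 0).2 * (z a).1 - (z 1 - z 0).1 * (z a).2 - (z a).1 * (z L - z (L - 1)).2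
          + (z a).2 * (z L - z (L - 1)).1, fun w => ?_⟩
      simp only [cr, Prod.fst_sub, Prod.snd_sub]; ring
    · rintro w ⟨b, hb', rfl⟩
      exact hlamz a b ha1 ha2 hb'.1 hb'.2
  have hlamg : 0 < cr (z 1 - z 0) g + cr g (z L - z (L - 1)) := by
    refine hull_pos13 (hb.mem (l + 2) hl2)
      (fun w => cr (z 1 - z 0) (x (l + 4) - w) + cr (x (l + 4) - w) (z L - z (L - 1))) ?_ ?_
    · refine ⟨(z 1 - z 0).2 - (z L - z (L - 1)).2, -(z 1 - z 0).1 + (z L - z (L - 1)).1,
        -(z 1 - z 0).2 * (x (l + 4)).1 + (z 1 - z 0).1 * (x (l + 4)).2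
          + (x (l + 4)).1 * (z L - z (L - 1)).2
          - (x (l + 4)).2 * (z L - z (L - 1)).1, fun w => ?_⟩
      simp only [cr, Prod.fst_sub, Prod.snd_sub]; ring
    · rintro w ⟨a, ha, rfl⟩
      exact hlam1 a ha.1 ha.2
  have hlamv : 0 < cr (z 1 - z 0) v + cr v (z L - z (L - 1)) := by
    have h3 : cr v (z L - z (L - 1)) = (1 - τ) * cr u (z L - z (L - 1)) + τ * cr u' (z L - z (L - 1)) := by
      simp only [hv, cr, Prod.fst_add, Prod.snd_add, Prod.smul_fst, Prod.smul_snd, smul_eq_mul]; ring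
    rw [hlin, h3]
    have h4 := mul_pos (sub_pos.2 hτ1) hu.p4
    have h5 := mul_pos hτ0 hu'.p4
    linarith
  have hκ : 0 < κ := by
    have h3 : cr (z 1 - z 0) v + cr v (z L - z (L - 1))
        = κ * (cr (z 1 - z 0) g + cr g (z L - z (L - 1))) := by
      rw [hcrg]
      unfold cr
      rw [hκ1, hκ2]; ring
    rw [h3] at hlamv
    exact (pos_iff_pos_of_mul_pos hlamv).2 hlamg
  -- outside
  have hout : ∀ t ≤ L, (t < lo (l + 2) ∨ hi (l + 4) < t) → cr (z t) g < cr (x (l + 2)) g := by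
    intro t htL ht
    rcases ht with ht | ht
    · -- before
      have h3 : ∀ b, lo (l + 4) ≤ b → b ≤ hi (l + 4) → 0 < cr (x (l + 2) - z t) (z b - z t) := by
        intro b hb1 hb2
        refine hull_pos13 (hb.mem (l + 2) hl2) (fun w => cr (w - z t) (z b - z t)) ?_ ?_
        · exact ⟨(z b - z t).2, -(z b - z t).1, -(z t).1 * (z b - z t).2 + (z t).2 * (z b - z t).1,
            fun w => by simp only [cr, Prod.fst_sub, Prod.snd_sub]; ring⟩
        · rintro w ⟨a, ha, rfl⟩
          have hab : a < b := by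
            have := hb.hilo (i := l + 2) (j := l + 4) (by omega) hl4
            have := ha.2
            omega
          have h4 := cr_diff_diff hg (t := t) (a := a) (c := a) (b := b) (by have := ha.1; omega) le_rfl hab
            (hb2.trans (hb.hiL hl4))
          have h5 : cr (z a - z t) (z b - z t) = cr (z a - z t) (z b - z a) := by
            simp only [cr, Prod.fst_sub, Prod.snd_sub]; ring
          rw [h5]; exact h4
      have h4 : 0 < cr (x (l + 2) - z t) (x (l + 4) - z t) := by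
        refine hull_pos13 (hb.mem (l + 4) hl4) (fun w => cr (x (l + 2) - z t) (w - z t)) ?_ ?_
        · exact ⟨-(x (l + 2) - z t).2, (x (l + 2) - z t).1, -(x (l + 2) - z t).1 * (z t).2
            + (x (l + 2) - z t).2 * (z t).1,
            fun w => by simp only [cr, Prod.fst_sub, Prod.snd_sub]; ring⟩
        · rintro w ⟨b, hb', rfl⟩
          exact h3 b hb'.1 hb'.2
      have h5 : cr (x (l + 2)) g - cr (z t) g = cr (x (l + 2) - z t) (x (l + 4) - z t) := by
        simp only [hgdef, cr, Prod.fst_sub, Prod.snd_sub]; ring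
      linarith
    · -- after
      have h3 : ∀ b, lo (l + 4) ≤ b → b ≤ hi (l + 4) → 0 < cr (z b - x (l + 2)) (z t - x (l + 2)) := by
        intro b hb1 hb2
        refine hull_pos13 (hb.mem (l + 2) hl2) (fun w => cr (z b - w) (z t - w)) ?_ ?_
        · exact ⟨-(z t).2 + (z b).2, (z t).1 - (z b).1, (z b).1 * (z t).2 - (z b).2 * (z t).1,
            fun w => by simp only [cr, Prod.fst_sub, Prod.snd_sub]; ring⟩
        · rintro w ⟨a, ha, rfl⟩
          have hab : a < b := by
            have := hb.hilo (i := l + 2) (j := l + 4) (by omega) hl4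
            have := ha.2
            omega
          have h4 := cr_diff_diff hg (t := a) (a := b) (c := b) (b := t) hab le_rfl (by omega) htL
          have h5 : cr (z b - z a) (z t - z a) = cr (z b - z a) (z t - z b) := by
            simp only [cr, Prod.fst_sub, Prod.snd_sub]; ring
          rw [h5]; exact h4
      have h4 : 0 < cr (x (l + 4) - x (l + 2)) (z t - x (l + 2)) := by
        refine hull_pos13 (hb.mem (l + 4) hl4) (fun w => cr (w - x (l + 2)) (z t - x (l + 2))) ?_ ?_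
        · exact ⟨(z t - x (l + 2)).2, -(z t - x (l + 2)).1, -(x (l + 2)).1 * (z t - x (l + 2)).2
            + (x (l + 2)).2 * (z t - x (l + 2)).1,
            fun w => by simp only [cr, Prod.fst_sub, Prod.snd_sub]; ring⟩
        · rintro w ⟨b, hb', rfl⟩
          exact h3 b hb'.1 hb'.2
      have h5 : cr (x (l + 2)) g - cr (z t) g = cr (x (l + 4) - x (l + 2)) (z t - x (l + 2)) := by
        simp only [hgdef, cr, Prod.fst_sub, Prod.snd_sub]; ring
      linarith
  have hin : ∀ t ≤ L, lo (l + 2) ≤ t → t ≤ hi (l + 4) →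
      cr (z t) v < (1 - τ) * cr (x l) u + τ * cr (x l') u' := by
    intro t htL ht1 ht2
    have h3 := hu.p1 t htL (Or.inr (by
      have := hb.hilo (i := l + 1) (j := l + 2) (by omega) hl2
      omega))
    have h4 := hu'.p1 t htL (Or.inl (by
      have := hb.hilo (i := l + 4) (j := l' - 1) (by omega) (by omega)
      omega))
    rw [hlin]
    have h5 := mul_lt_mul_of_pos_left h3 (sub_pos.2 hτ1)
    have h6 := mul_lt_mul_of_pos_left h4 hτ0
    linarith
  intro t htL
  by_cases ht : t < lo (l + 2) ∨ hi (l + 4) < t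
  · have h3 := hout t htL ht
    have h4 : cr (z t) v < cr (x (l + 2)) v := by
      rw [hcrg, hcrg]
      exact mul_lt_mul_of_pos_left h3 hκ
    obtain ⟨t', ht1, ht2, ht3⟩ := hb.exists_ge hl2 v
    have h5 := hin t' (ht2.trans (hb.hiL hl2)) ht1 (by
      have h6 := hb.hilo (i := l + 2) (j := l + 4) (by omega) hl4
      have h7 := hb.le (l + 4) hl4
      omega)
    linarith
  · push Not at ht
    exact hin t htL ht.1 ht.2

/-- TARGET 2 (4b of the paper proof).
PROOF. For `t < lo (l-1)`: `cr (z t) u < cr (x l) u` by p1 and `cr (z t) u' < cr (x l) u'` by p3' for `l'` (`i = l`, `l + 2 ≤ l'`, `t < lo (l-1) ≤ lo l`), so `cr (z t) v < cr (x l) v ≤ cr (z t') v` for some `t' ∈ [lo l, hi l]` (a linear function on a convex hull is at most its maximum over the points).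
For `t > hi (l'+1)`: `cr (z t) u' < cr (x l') u'` by p1 for `l'`, and `cr (z t) u < cr (x l') u` by p3 for `l` (`i = l'`). -/
theorem two_b {L S : ℕ} {z : ℕ → ℝ × ℝ} {lo hi : ℕ → ℕ} {x : ℕ → ℝ × ℝ} (hg : GoodChain L z) (hb : Blocks L S z lo hi x)
    {l l' : ℕ} {u u' : ℝ × ℝ} (h1 : 1 ≤ l) (h2 : l + 6 ≤ l') (h3 : l' + 1 ≤ S) (hu : Dir L S z lo hi x l u)
    (hu' : Dir L S z lo hi x l' u') {τ : ℝ} (h0 : 0 ≤ τ) (h1' : τ ≤ 1) {t : ℕ} (ht : t ≤ L) (hout : t < lo (l - 1) ∨ hi (l' + 1) < t) :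
    ∃ t', lo (l - 1) ≤ t' ∧ t' ≤ hi (l' + 1) ∧ cr (z t) ((1 - τ) • u + τ • u') < cr (z t') ((1 - τ) • u + τ • u') := by
  have hlin : ∀ w : ℝ × ℝ, cr w ((1 - τ) • u + τ • u') = (1 - τ) * cr w u + τ * cr w u' := by
    intro w
    simp only [cr, Prod.fst_add, Prod.snd_add, Prod.smul_fst, Prod.smul_snd, smul_eq_mul]; ring
  have hcomb : ∀ p q p' q' : ℝ, p < q → p' < q' → (1 - τ) * p + τ * p' < (1 - τ) * q + τ * q' := by
    intro p q p' q' h3 h4
    rcases h0.eq_or_lt with h5 | h5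
    · rw [← h5]; linarith
    · have h6 := mul_lt_mul_of_pos_left h4 h5
      have h7 := mul_le_mul_of_nonneg_left h3.le (sub_nonneg.2 h1')
      linarith
  rcases hout with h | h
  · have h3a : lo (l - 1) ≤ lo l := by
      have := hb.hilo (i := l - 1) (j := l) (by omega) (by omega)
      have := hb.le (l - 1) (by omega)
      omega
    have h4 := hu.p1 t ht (Or.inl h)
    have h5 := hu'.p3' l t (by omega) (by omega)
    have h6 : cr (z t) u' < cr (x l) u' := by
      have : cr (x l - z t) u' = cr (x l) u' - cr (z t) u' := by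
        simp only [cr, Prod.fst_sub, Prod.snd_sub]; ring
      linarith
    obtain ⟨t', ht1, ht2, ht3⟩ := hb.exists_ge (l := l) (by omega) ((1 - τ) • u + τ • u')
    refine ⟨t', by omega, ?_, ?_⟩
    · have := hb.hilo (i := l) (j := l' + 1) (by omega) h3
      have := hb.le (l' + 1) h3
      omega
    · refine lt_of_lt_of_le ?_ ht3
      rw [hlin, hlin]
      exact hcomb _ _ _ _ h4 h6
  · have h8 := hb.hilo (i := l') (j := l' + 1) (by omega) h3
    have h9 := hb.le (l' + 1) h3
    have h4 := hu'.p1 t ht (Or.inr h)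
    have h5 := hu.p3 l' t (by omega) (by omega) (by omega) ht
    have h6 : cr (z t) u < cr (x l') u := by
      have : cr u (z t - x l') = cr (x l') u - cr (z t) u := by
        simp only [cr, Prod.fst_sub, Prod.snd_sub]; ring
      linarith
    obtain ⟨t', ht1, ht2, ht3⟩ := hb.exists_ge (l := l') (by omega) ((1 - τ) • u + τ • u')
    refine ⟨t', ?_, by omega, ?_⟩
    · have h10 := hb.hilo (i := l - 1) (j := l') (by omega) (by omega)
      have h11 := hb.le (l - 1) (by omega)
      omega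
    · refine lt_of_lt_of_le ?_ ht3
      rw [hlin, hlin]
      exact hcomb _ _ _ _ h6 h4

end SB758
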