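import Pool.Agent.Helper758_SB.Defs
import Pool.Agent.Helper758_SB.J13_two

namespace SB758

open Finset

theorem core_lin (y u u' : ℝ × ℝ) (τ : ℝ) :
    cr y ((1 - τ) • u + τ • u') = (1 - τ) * cr y u + τ * cr y u' := by
  unfold cr
  simp only [Prod.fst_add, Prod.snd_add, Prod.smul_fst, Prod.smul_snd, smul_eq_mul]
  ring

theorem core_lin' (y u u' : ℝ × ℝ) (τ : ℝ) :
    cr ((1 - τ) • u + τ • u') y = (1 - τ) * cr u y + τ * cr u' y := by
  unfold cr
  simp only [Prod.fst_add, Prod.snd_add, Prod.smul_fst, Prod.smul_snd, smul_eq_mul]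
  ring

theorem core_aff (v y : ℝ × ℝ) (c : ℝ) : aff (-v.2) v.1 c y = c - cr y v := by
  unfold aff cr; ring

theorem core_col {v a b e : ℝ × ℝ} {c : ℝ} (hv : v ≠ 0) (h1 : cr a v = c) (h2 : cr b v = c)
    (h3 : cr e v = c) : ori a b e = 0 := by
  unfold ori
  unfold cr at *
  simp only [Prod.fst_sub, Prod.snd_sub]
  have e1 : (b.1 - a.1) * v.2 = (b.2 - a.2) * v.1 := by linarith
  have e2 : (e.1 - a.1) * v.2 = (e.2 - a.2) * v.1 := by linarith
  by_cases h0 : v.1 = 0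
  · have h5 : v.2 ≠ 0 := by
      intro h
      exact hv (Prod.ext h0 h)
    rw [h0, mul_zero] at e1 e2
    have e3 : b.1 - a.1 = 0 := by
      rcases mul_eq_zero.1 e1 with h | h
      · exact h
      · exact absurd h h5
    have e4 : e.1 - a.1 = 0 := by
      rcases mul_eq_zero.1 e2 with h | h
      · exact h
      · exact absurd h h5
    rw [e3, e4]; ring
  · have : v.1 * ((b.1 - a.1) * (e.2 - a.2) - (b.2 - a.2) * (e.1 - a.1)) = 0 := by
      linear_combination (-(b.1 - a.1)) * e2 + (e.1 - a.1) * e1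
    rcases mul_eq_zero.1 this with h | h
    · exact absurd h h0
    · exact h

theorem core_lo {L S : ℕ} {z : ℕ → ℝ × ℝ} {lo hi : ℕ → ℕ} {x : ℕ → ℝ × ℝ}
    (hb : Blocks L S z lo hi x) (i : ℕ) (hi' : i ≤ S) : i ≤ lo i := by
  induction i with
  | zero => exact Nat.zero_le _
  | succ i ih =>
    have h1 := ih (by omega)
    have h2 := hb.le i (by omega)
    have h3 := hb.lt i (by omega)
    omega

theorem core_hi {L S : ℕ} {z : ℕ → ℝ × ℝ} {lo hi : ℕ → ℕ} {x : ℕ → ℝ × ℝ}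
    (hb : Blocks L S z lo hi x) (i n : ℕ) (hn : i + n ≤ S) : hi i + n ≤ hi (i + n) := by
  induction n with
  | zero => exact le_refl _
  | succ n ih =>
    have h1 := ih (by omega)
    have h2 := hb.lt (i + n) (by omega)
    have h3 := hb.le (i + n + 1) (by omega)
    have e : i + (n + 1) = i + n + 1 := by omega
    rw [e]
    omega

/-- TARGET (Step 5 of the paper proof). `z t = w (κ t)`, `t ≤ L`, is a left turning good chain made of consecutive points `w q, ..., w (q+L)` of the cyclic sequence, traversed forwards or backwards, with constant sign `s`.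
PROOF. For `τ ∈ [0,1]` put `v τ = (1-τ) • u + τ • u'`, `Φ τ = min_{k ∈ Z} cr (w k) (v τ) - max_{t ≤ L} cr (w (κ t)) (v τ)`; continuous (finite inf and sup of continuous functions). `Φ 0 < 0` by `hm`, (`v 0 = u`). By `two_a` there is `τ₁ ∈ (0,1)` with
`cr (w (κ t)) (v τ₁) < (1-τ₁) cr (x l) u + τ₁ cr (x l') u'` for all `t ≤ L`, while for `k ∈ Z`: `cr (w k) (v τ₁) = (1-τ₁) cr (w k) u + τ₁ cr (w k) u' > (1-τ₁) cr (x l) u + τ₁ cr (x l') u'` by `ha, ha'`; so `Φ τ₁ > 0`. Hence `Φ τ = 0` for some `τ ∈ (0,τ₁)`.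
(`hm'` is then not even needed.) Let `k ∈ Z` be a minimiser and `t ≤ L` a maximiser for this `τ`: `cr (w k) (v τ) = cr (w (κ t)) (v τ)`. By `two_b` a maximiser satisfies `lo (l-1) ≤ t ≤ hi (l'+1)`, and since the blocks are disjoint and increasing, `lo (l-1) ≥ l - 1 ≥ 2` and `hi (l'+1) ≤ L - 2`
(`l' + 3 ≤ S`). So `κ (t-1), κ t, κ (t+1)` are consecutive integers (in this or the opposite order), `t-1, t, t+1 ∈ [1, L-1]`, and `k` is not congruent to any of them by `hZc`. Let `F y = cr (w (κ t)) (v τ) - cr y (v τ)`, an affine function of `y` (`aff a b c` with `a = -(v τ).2, b = (v τ).1, c = cr (w (κ t)) (v τ)`), vanishing at `w (κ t)` and `w k`.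
`F (w (κ (t±1))) ≥ 0` by maximality and `≠ 0`: `v τ ≠ 0` because ... (if `v τ = 0` then all `cr` are 0, contradicting `ha`/`two_a`-type strict inequalities; more simply: if `F (w (κ (t+1))) = 0` then three points with pairwise incongruent indices `k, κ t, κ (t+1)` satisfy the linear equation `cr · (v τ) = const` with `v τ ≠ 0`, so `ori = 0`, contradicting `gp`.
`v τ ≠ 0`: by p4 for `u` and `u'`, `cr (z 1 - z 0) (v τ) + cr (v τ) (z L - z (L-1)) > 0`). Hence `F > 0` at both neighbours of `κ t`, whose signs `s` are equal, so the product for `κ t` is positive. At `k`: `htan` gives `s k * s (k±1) * F (w (k±1)) ≤ 0` (as `F (w (k±1)) = cr (w k) (v τ) - cr (w (k±1)) (v τ)`) and `F (w (k±1)) ≠ 0` by `gp`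
(the indices `k`, `k±1`, `κ t` are pairwise incongruent: `k` is not adjacent to `κ t`), so both are negative and the product `(s (k-1) F (w (k-1))) (s (k+1) F (w (k+1)))` is positive. This contradicts `hnb` for the two nonadjacent indices `κ t` and `k` (apply with `i + 1 = κ t`, `j + 1 = k`; both are `≥ 1`). -/
theorem core {N m : ℕ} {w : ℕ → ℝ × ℝ} {s : ℕ → ℝ} (hN : 4 ≤ N) (h : Cyc N m w s) (hnb : NB N w s)
    {L S : ℕ} {κ : ℕ → ℕ} {q : ℕ} (hq : 1 ≤ q) (hκ : (∀ t, t ≤ L → κ t = q + t) ∨ (∀ t, t ≤ L → κ t = q + (L - t)))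
    (hqN : q + L ≤ N) (hs : ∀ t, t ≤ L → s (κ t) = s (κ 0))
    {lo hi : ℕ → ℕ} {x : ℕ → ℝ × ℝ} (hg : GoodChain L (fun t => w (κ t))) (hb : Blocks L S (fun t => w (κ t)) lo hi x)
    {l l' : ℕ} {u u' : ℝ × ℝ} (h1 : 3 ≤ l) (h2 : l + 6 ≤ l') (h3 : l' + 3 ≤ S)
    (hu : Dir L S (fun t => w (κ t)) lo hi x l u) (hu' : Dir L S (fun t => w (κ t)) lo hi x l' u')
    (Z : Finset ℕ) (hZ : Z.Nonempty) (hZ1 : ∀ k ∈ Z, 1 ≤ k) (hZc : ∀ k ∈ Z, ∀ t, 1 ≤ t → t < L → ¬ k ≡ κ t [MOD N])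
    (htan : ∀ τ : ℝ, 0 ≤ τ → τ ≤ 1 → ∀ k ∈ Z,
      (∀ k' ∈ Z, cr (w k) ((1 - τ) • u + τ • u') ≤ cr (w k') ((1 - τ) • u + τ • u')) →
      s k * s (k + 1) * (cr (w k) ((1 - τ) • u + τ • u') - cr (w (k + 1)) ((1 - τ) • u + τ • u')) ≤ 0 ∧
      s k * s (k - 1) * (cr (w k) ((1 - τ) • u + τ • u') - cr (w (k - 1)) ((1 - τ) • u + τ • u')) ≤ 0)
    (ha : ∀ k ∈ Z, cr (x l) u < cr (w k) u) (ha' : ∀ k ∈ Z, cr (x l') u' < cr (w k) u')
    (hm : ∃ k ∈ Z, ∃ t ≤ L, cr (w k) u < cr (w (κ t)) u) (hm' : ∃ k ∈ Z, ∃ t ≤ L, cr (w k) u' < cr (w (κ t)) u') : False := by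
  classical
  set V : ℝ → ℝ × ℝ := fun τ => (1 - τ) • u + τ • u' with hV
  have hVc : Continuous V := by
    rw [hV]
    fun_prop
  have hcrc : ∀ y : ℝ × ℝ, Continuous fun τ => cr y (V τ) := by
    intro y
    have : (fun τ => cr y (V τ)) = fun τ => (1 - τ) * cr y u + τ * cr y u' := by
      funext τ; exact core_lin y u u' τ
    rw [this]
    fun_prop
  have hR : (Finset.range (L + 1)).Nonempty := ⟨0, by simp⟩
  set Φ : ℝ → ℝ := fun τ => Z.inf' hZ (fun k => cr (w k) (V τ)) -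
    (Finset.range (L + 1)).sup' hR (fun t => cr (w (κ t)) (V τ)) with hΦ
  have hΦc : Continuous Φ := by
    rw [hΦ]
    apply Continuous.sub
    · exact Continuous.finset_inf'_apply hZ (fun k _ => hcrc (w k))
    · exact Continuous.finset_sup'_apply hR (fun t _ => hcrc (w (κ t)))
  have hV0 : V 0 = u := by rw [hV]; simp
  have hΦ0 : Φ 0 ≤ 0 := by
    obtain ⟨k, hk, t, ht, hkt⟩ := hm
    have e1 : Z.inf' hZ (fun k => cr (w k) (V 0)) ≤ cr (w k) (V 0) := Finset.inf'_le _ hk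
    have e2 : cr (w (κ t)) (V 0) ≤ (Finset.range (L + 1)).sup' hR (fun t => cr (w (κ t)) (V 0)) :=
      Finset.le_sup' (fun t => cr (w (κ t)) (V 0)) (Finset.mem_range.2 (by omega))
    rw [hΦ]
    simp only
    rw [hV0] at *
    linarith
  obtain ⟨τ₁, ht0, ht1, htall⟩ := two_a hg hb (by omega) h2 (by omega) hu hu'
  have hΦ1 : 0 ≤ Φ τ₁ := by
    rw [hΦ]
    simp only
    rw [sub_nonneg]
    obtain ⟨k, hk, e1⟩ := Finset.exists_mem_eq_inf' hZ (fun k => cr (w k) (V τ₁))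
    obtain ⟨t, ht, e2⟩ := Finset.exists_mem_eq_sup' hR (fun t => cr (w (κ t)) (V τ₁))
    rw [e1, e2]
    have h5 := htall t (by rw [Finset.mem_range] at ht; omega)
    have h6 : cr (w k) (V τ₁) = (1 - τ₁) * cr (w k) u + τ₁ * cr (w k) u' := core_lin _ _ _ _
    have h7 := ha k hk
    have h8 := ha' k hk
    have h9 : (1 - τ₁) * cr (x l) u ≤ (1 - τ₁) * cr (w k) u :=
      mul_le_mul_of_nonneg_left h7.le (by linarith)
    have h10 : τ₁ * cr (x l') u' ≤ τ₁ * cr (w k) u' := mul_le_mul_of_nonneg_left h8.le ht0.le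
    have h11 : cr (w (κ t)) (V τ₁) < (1 - τ₁) * cr (x l) u + τ₁ * cr (x l') u' := h5
    linarith
  obtain ⟨τ, ⟨hτ0, hτ1⟩, hτΦ⟩ := intermediate_value_Icc ht0.le hΦc.continuousOn ⟨hΦ0, hΦ1⟩
  have hτ1' : τ ≤ 1 := by linarith
  obtain ⟨k, hk, e1⟩ := Finset.exists_mem_eq_inf' hZ (fun k => cr (w k) (V τ))
  obtain ⟨t, ht, e2⟩ := Finset.exists_mem_eq_sup' hR (fun t => cr (w (κ t)) (V τ))
  have hkmin : ∀ k' ∈ Z, cr (w k) (V τ) ≤ cr (w k') (V τ) := by
    intro k' hk'
    rw [← e1]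
    exact Finset.inf'_le _ hk'
  have htmax : ∀ t', t' ≤ L → cr (w (κ t')) (V τ) ≤ cr (w (κ t)) (V τ) := by
    intro t' ht'
    rw [← e2]
    exact Finset.le_sup' (fun t => cr (w (κ t)) (V τ)) (Finset.mem_range.2 (by omega))
  have heq : cr (w k) (V τ) = cr (w (κ t)) (V τ) := by
    rw [hΦ] at hτΦ
    simp only at hτΦ
    rw [e1, e2] at hτΦ
    linarith
  have htL : t ≤ L := by rw [Finset.mem_range] at ht; omega
  have hhi : hi (l' + 1) + 2 ≤ L := by
    have a1 := core_hi hb (l' + 1) (S - (l' + 1)) (by omega)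
    have a2 := hb.top
    have a3 : l' + 1 + (S - (l' + 1)) = S := by omega
    rw [a3] at a1
    omega
  have hlo : 2 ≤ lo (l - 1) := by
    have a1 := core_lo hb (l - 1) (by omega)
    omega
  have htr : lo (l - 1) ≤ t ∧ t ≤ hi (l' + 1) := by
    by_contra hcon
    have hout : t < lo (l - 1) ∨ hi (l' + 1) < t := by omega
    obtain ⟨t', b1, b2, b3⟩ := two_b hg hb (by omega) h2 (by omega) hu hu' hτ0 hτ1' htL hout
    exact absurd (htmax t' (by omega)) (not_le.2 b3)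
  have hv : V τ ≠ 0 := by
    intro h0
    have a1 : 0 < cr (w (κ 1) - w (κ 0)) u + cr u (w (κ L) - w (κ (L - 1))) := hu.p4
    have a2 : 0 < cr (w (κ 1) - w (κ 0)) u' + cr u' (w (κ L) - w (κ (L - 1))) := hu'.p4
    have a3 : cr (w (κ 1) - w (κ 0)) (V τ) + cr (V τ) (w (κ L) - w (κ (L - 1))) = 0 := by
      rw [h0]; unfold cr; simp
    have a4 : cr (w (κ 1) - w (κ 0)) (V τ) + cr (V τ) (w (κ L) - w (κ (L - 1))) =
        (1 - τ) * (cr (w (κ 1) - w (κ 0)) u + cr u (w (κ L) - w (κ (L - 1)))) +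
        τ * (cr (w (κ 1) - w (κ 0)) u' + cr u' (w (κ L) - w (κ (L - 1)))) := by
      rw [hV]
      simp only
      rw [core_lin, core_lin']
      ring
    rw [a3] at a4
    have a5 : 0 ≤ (1 - τ) * (cr (w (κ 1) - w (κ 0)) u + cr u (w (κ L) - w (κ (L - 1)))) :=
      mul_nonneg (by linarith) a1.le
    rcases eq_or_lt_of_le hτ0 with a6 | a6
    · rw [← a6] at a4
      linarith
    · have a7 := mul_pos a6 a2
      linarith
  -- indices
  have hκn : (κ t - 1 = κ (t - 1) ∧ κ t + 1 = κ (t + 1)) ∨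
      (κ t - 1 = κ (t + 1) ∧ κ t + 1 = κ (t - 1)) := by
    rcases hκ with hκ | hκ
    · left
      rw [hκ t htL, hκ (t - 1) (by omega), hκ (t + 1) (by omega)]
      omega
    · right
      rw [hκ t htL, hκ (t - 1) (by omega), hκ (t + 1) (by omega)]
      omega
  have hκt : 1 ≤ κ t := by
    rcases hκ with hκ | hκ
    · rw [hκ t htL]; omega
    · rw [hκ t htL]; omega
  have hk1 : 1 ≤ k := hZ1 k hk
  have c0 : ¬ k ≡ κ t [MOD N] := hZc k hk t (by omega) (by omega)
  have c1 : ¬ k ≡ κ t - 1 [MOD N] := by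
    rcases hκn with ⟨a, _⟩ | ⟨a, _⟩
    · rw [a]; exact hZc k hk (t - 1) (by omega) (by omega)
    · rw [a]; exact hZc k hk (t + 1) (by omega) (by omega)
  have c2 : ¬ k ≡ κ t + 1 [MOD N] := by
    rcases hκn with ⟨_, a⟩ | ⟨_, a⟩
    · rw [a]; exact hZc k hk (t + 1) (by omega) (by omega)
    · rw [a]; exact hZc k hk (t - 1) (by omega) (by omega)
  obtain ⟨i, hi'⟩ : ∃ i, κ t = i + 1 := ⟨κ t - 1, by omega⟩
  obtain ⟨j, hj⟩ : ∃ j, k = j + 1 := ⟨k - 1, by omega⟩
  set c : ℝ := cr (w (κ t)) (V τ) with hc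
  set F : ℝ × ℝ → ℝ := fun y => c - cr y (V τ) with hF
  have hFaff : ∀ y, aff (-(V τ).2) (V τ).1 c y = F y := fun y => core_aff _ _ _
  have nmod : ∀ a : ℕ, ¬ a ≡ a + 1 [MOD N] := by
    intro a ha
    have : N ∣ 1 := by
      have := (Nat.modEq_iff_dvd' (by omega)).1 ha
      simpa using this
    have := Nat.le_of_dvd one_pos this
    omega
  have nmod2 : ∀ a : ℕ, ¬ a ≡ a + 2 [MOD N] := by
    intro a ha
    have : N ∣ 2 := by
      have := (Nat.modEq_iff_dvd' (by omega)).1 ha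
      simpa using this
    have := Nat.le_of_dvd two_pos this
    omega
  have hne : ∀ p : ℕ, ¬ p ≡ k [MOD N] → ¬ p ≡ κ t [MOD N] → F (w p) ≠ 0 := by
    intro p hp1 hp2 h0
    have h3 : cr (w p) (V τ) = c := by
      have : c - cr (w p) (V τ) = 0 := h0
      linarith
    exact h.gp p k (κ t) hp1 c0 hp2 (core_col hv h3 heq rfl)
  have hFi : 0 < F (w i) := by
    have a1 : 0 ≤ F (w i) := by
      have : i = κ t - 1 := by omega
      rw [this]
      rcases hκn with ⟨a, _⟩ | ⟨a, _⟩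
      · rw [a]; have := htmax (t - 1) (by omega); show 0 ≤ c - _; linarith
      · rw [a]; have := htmax (t + 1) (by omega); show 0 ≤ c - _; linarith
    refine lt_of_le_of_ne a1 (Ne.symm (hne i ?_ ?_))
    · intro h5
      apply c1
      rw [hi']
      exact h5.symm
    · rw [hi']; exact nmod i
  have hFi2 : 0 < F (w (i + 2)) := by
    have a1 : 0 ≤ F (w (i + 2)) := by
      have : i + 2 = κ t + 1 := by omega
      rw [this]
      rcases hκn with ⟨_, a⟩ | ⟨_, a⟩
      · rw [a]; have := htmax (t + 1) (by omega); show 0 ≤ c - _; linarith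
      · rw [a]; have := htmax (t - 1) (by omega); show 0 ≤ c - _; linarith
    refine lt_of_le_of_ne a1 (Ne.symm (hne (i + 2) ?_ ?_))
    · intro h5
      apply c2
      rw [hi']
      exact h5.symm
    · rw [hi']; intro h5; exact nmod (i + 1) h5.symm
  have hFj : F (w j) ≠ 0 := by
    apply hne
    · rw [hj]; exact nmod j
    · intro h5
      apply c2
      rw [hj]
      exact Nat.ModEq.add_right 1 h5
  have hFj2 : F (w (j + 2)) ≠ 0 := by
    apply hne
    · rw [hj]; intro h5; exact nmod (j + 1) h5.symm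
    · intro h5
      apply c1
      rw [hj, hi'] at *
      exact Nat.ModEq.add_right_cancel' 1 h5
  obtain ⟨q1, q2⟩ := htan τ hτ0 hτ1' k hk hkmin
  have hVτ : (1 - τ) • u + τ • u' = V τ := rfl
  rw [hVτ, heq] at q1 q2
  have q1' : s k * s (k + 1) * F (w (k + 1)) ≤ 0 := q1
  have q2' : s k * s (k - 1) * F (w (k - 1)) ≤ 0 := q2
  rw [hj] at q1' q2'
  have ej : j + 1 - 1 = j := by omega
  rw [ej] at q2'
  have hsq : ∀ a, s a * s a = 1 := by
    intro a
    rcases h.sgn a with h5 | h5 <;> rw [h5] <;> norm_num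
  have hsne : ∀ a, s a ≠ 0 := by
    intro a h5
    have := hsq a
    rw [h5] at this
    norm_num at this
  have q1s : s (j + 1) * s (j + 2) * F (w (j + 2)) < 0 := by
    refine lt_of_le_of_ne q1' ?_
    exact mul_ne_zero (mul_ne_zero (hsne _) (hsne _)) hFj2
  have q2s : s (j + 1) * s j * F (w j) < 0 := by
    refine lt_of_le_of_ne q2' ?_
    exact mul_ne_zero (mul_ne_zero (hsne _) (hsne _)) hFj
  have hcong : ∀ a b : ℕ, a + 1 ≡ b + 1 [MOD N] → a ≡ b [MOD N] := fun a b h5 =>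
    Nat.ModEq.add_right_cancel' 1 h5
  refine hnb i j ?_ ?_ ?_ (-(V τ).2) (V τ).1 c ?_ ?_ ⟨?_, ?_⟩
  · intro h5
    apply c0
    rw [hj, hi']
    exact (Nat.ModEq.add_right 1 h5).symm
  · intro h5
    apply c1
    rw [hj, hi']
    exact h5.symm
  · intro h5
    apply c2
    rw [hj, hi']
    exact (Nat.ModEq.add_right 1 h5).symm
  · rw [hFaff, ← hi']
    show c - cr (w (κ t)) (V τ) = 0
    rw [hc]; ring
  · rw [hFaff, ← hj]
    show c - cr (w k) (V τ) = 0
    rw [heq]; ring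
  · rw [hFaff, hFaff]
    have e3 : s i = s (κ 0) := by
      have : i = κ t - 1 := by omega
      rw [this]
      rcases hκn with ⟨a, _⟩ | ⟨a, _⟩
      · rw [a]; exact hs _ (by omega)
      · rw [a]; exact hs _ (by omega)
    have e4 : s (i + 2) = s (κ 0) := by
      have : i + 2 = κ t + 1 := by omega
      rw [this]
      rcases hκn with ⟨_, a⟩ | ⟨_, a⟩
      · rw [a]; exact hs _ (by omega)
      · rw [a]; exact hs _ (by omega)
    rw [e3, e4]
    have : s (κ 0) * F (w i) * (s (κ 0) * F (w (i + 2))) =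
        (s (κ 0) * s (κ 0)) * (F (w i) * F (w (i + 2))) := by ring
    rw [this, hsq, one_mul]
    exact mul_pos hFi hFi2
  · rw [hFaff, hFaff]
    have e5 := mul_pos_of_neg_of_neg q2s q1s
    have : s (j + 1) * s j * F (w j) * (s (j + 1) * s (j + 2) * F (w (j + 2))) =
        (s (j + 1) * s (j + 1)) * (s j * F (w j) * (s (j + 2) * F (w (j + 2)))) := by ring
    rw [this, hsq, one_mul] at e5
    exact e5

end SB758
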