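import Pool.Agent.Helper758_SB.Defs

namespace SB758

open Finset

theorem localmin_pl (p q r v : ℝ × ℝ) :
    cr p q * cr r v = -cr q r * cr p v + cr p r * cr q v := by
  simp only [cr]; ring

theorem localmin_step (w : ℕ → ℝ × ℝ) (v : ℝ × ℝ) (i : ℕ) :
    cr (w (i + 1)) v = cr (w i) v + cr (w (i + 1) - w i) v := by
  simp only [cr, Prod.fst_sub, Prod.snd_sub]; ring

/-- In a convex chain with turning less than `π`, a linear function with a local minimum at an interior point is strictly decreasing before
and strictly increasing after it. -/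
theorem localmin {w : ℕ → ℝ × ℝ} {a b k : ℕ} {ε : ℝ} {v : ℝ × ℝ} (hε : ε = 1 ∨ ε = -1)
    (hgood : ∀ i j, a ≤ i → i < j → j < b → 0 < ε * cr (w (i + 1) - w i) (w (j + 1) - w j)) (hak : a < k) (hkb : k < b)
    (h1 : cr (w k) v < cr (w (k - 1)) v) (h2 : cr (w k) v < cr (w (k + 1)) v) :
    (∀ i j, a ≤ i → i < j → j ≤ k → cr (w j) v < cr (w i) v) ∧ (∀ i j, k ≤ i → i < j → j ≤ b → cr (w i) v < cr (w j) v) := by
  obtain ⟨m, rfl⟩ : ∃ m, k = m + 1 := ⟨k - 1, by omega⟩
  rw [Nat.add_sub_cancel] at h1
  have e1 : cr (w (m + 1) - w m) v < 0 := by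
    have := localmin_step w v m
    linarith
  have e2 : 0 < cr (w (m + 1 + 1) - w (m + 1)) v := by
    have := localmin_step w v (m + 1)
    linarith
  have hpq := hgood m (m + 1) (by omega) (by omega) hkb
  have hup : ∀ i, m + 1 ≤ i → i < b → 0 < cr (w (i + 1) - w i) v := by
    intro i hi hib
    rcases hi.eq_or_lt with h | h
    · rw [← h]; exact e2
    · have ha := hgood m i (by omega) (by omega) hib
      have hb := hgood (m + 1) i (by omega) h hib
      have hid := localmin_pl (w (m + 1) - w m) (w (m + 1 + 1) - w (m + 1)) (w (i + 1) - w i) v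
      by_contra hc
      push Not at hc
      have t1 : ε * cr (w (m + 1) - w m) (w (m + 1 + 1) - w (m + 1)) *
          cr (w (i + 1) - w i) v ≤ 0 := mul_nonpos_of_nonneg_of_nonpos hpq.le hc
      have t2 := mul_neg_of_pos_of_neg hb e1
      have t3 := mul_pos ha e2
      have t4 := congrArg (fun z => ε * z) hid
      ring_nf at t1 t2 t3 t4
      linarith
  have hdn : ∀ i, a ≤ i → i ≤ m → cr (w (i + 1) - w i) v < 0 := by
    intro i hi him
    rcases him.eq_or_lt with h | h
    · rw [h]; exact e1
    · have ha := hgood i m hi h (by omega)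
      have hb := hgood i (m + 1) hi (by omega) hkb
      have hid := localmin_pl (w (m + 1) - w m) (w (m + 1 + 1) - w (m + 1)) (w (i + 1) - w i) v
      have s1 : cr (w (m + 1) - w m) (w (i + 1) - w i) =
          -cr (w (i + 1) - w i) (w (m + 1) - w m) := by simp only [cr]; ring
      have s2 : cr (w (m + 1 + 1) - w (m + 1)) (w (i + 1) - w i) =
          -cr (w (i + 1) - w i) (w (m + 1 + 1) - w (m + 1)) := by simp only [cr]; ring
      rw [s1, s2] at hid
      by_contra hc
      push Not at hc
      have t1 : 0 ≤ ε * cr (w (m + 1) - w m) (w (m + 1 + 1) - w (m + 1)) *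
          cr (w (i + 1) - w i) v := mul_nonneg hpq.le hc
      have t2 := mul_neg_of_pos_of_neg hb e1
      have t3 := mul_pos ha e2
      have t4 := congrArg (fun z => ε * z) hid
      ring_nf at t1 t2 t3 t4
      linarith
  constructor
  · intro i j hi hij hj
    induction j, hij using Nat.le_induction with
    | base =>
      have := hdn i hi (by omega)
      have h3 := localmin_step w v i
      linarith
    | succ n hn ih =>
      have := hdn n (by omega) (by omega)
      have h3 := localmin_step w v n
      have h4 := ih (by omega)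
      linarith
  · intro i j hi hij hj
    induction j, hij using Nat.le_induction with
    | base =>
      have := hup i hi (by omega)
      have h3 := localmin_step w v i
      linarith
    | succ n hn ih =>
      have := hup n (by omega) (by omega)
      have h3 := localmin_step w v n
      have h4 := ih (by omega)
      linarith

end SB758
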