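import Pool.Agent.Helper758_SB.Defs
import Pool.Agent.Helper758_SB.J02_gb
import Pool.Agent.Helper758_SB.J12_dir
import Pool.Agent.Helper758_SB.J14_core
import Pool.Agent.Helper758_SB.J15_gainmin

namespace SB758

open Finset

theorem few_cr_add (p u v : ℝ × ℝ) : cr p (u + v) = cr p u + cr p v := by
  simp only [cr, Prod.fst_add, Prod.snd_add]
  ring

theorem few_cr_smul (p u : ℝ × ℝ) (c : ℝ) : cr p (c • u) = c * cr p u := by
  simp only [cr, Prod.smul_fst, Prod.smul_snd, smul_eq_mul]
  ring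

theorem few_cr_sub (p q u : ℝ × ℝ) : cr (p - q) u = cr p u - cr q u := by
  simp only [cr, Prod.fst_sub, Prod.snd_sub]
  ring

theorem few_cr_lin (u : ℝ × ℝ) : IsLinearMap ℝ (fun p => cr p u) := by
  constructor
  · intro p q
    simp only [cr, Prod.fst_add, Prod.snd_add]
    ring
  · intro c p
    simp only [cr, Prod.smul_fst, Prod.smul_snd, smul_eq_mul]
    ring

theorem few_modeq {N i j : ℕ} (hi1 : 1 ≤ i) (hi : i ≤ N) (hj1 : 1 ≤ j) (hj : j ≤ N)
    (h : i ≡ j [MOD N]) : i = j := by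
  obtain ⟨a, rfl⟩ : ∃ a, i = a + 1 := ⟨i - 1, by omega⟩
  obtain ⟨b, rfl⟩ : ∃ b, j = b + 1 := ⟨j - 1, by omega⟩
  have h2 : a ≡ b [MOD N] := Nat.ModEq.add_right_cancel' 1 h
  have := Nat.ModEq.eq_of_lt_of_lt h2 (by omega) (by omega)
  omega

theorem few_ne {N m : ℕ} {w : ℕ → ℝ × ℝ} {s : ℕ → ℝ} (hN : 4 ≤ N) (h : Cyc N m w s) {i j : ℕ}
    (hij : ¬ i ≡ j [MOD N]) : w i ≠ w j := by
  intro e
  obtain ⟨k, hk1, hk2⟩ : ∃ k, ¬ j ≡ k [MOD N] ∧ ¬ i ≡ k [MOD N] := by
    by_contra hc
    have h0 : ¬ (¬ j ≡ 0 [MOD N] ∧ ¬ i ≡ 0 [MOD N]) := fun hh => hc ⟨0, hh⟩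
    have h1 : ¬ (¬ j ≡ 1 [MOD N] ∧ ¬ i ≡ 1 [MOD N]) := fun hh => hc ⟨1, hh⟩
    have h2 : ¬ (¬ j ≡ 2 [MOD N] ∧ ¬ i ≡ 2 [MOD N]) := fun hh => hc ⟨2, hh⟩
    unfold Nat.ModEq at h0 h1 h2
    rw [Nat.mod_eq_of_lt (show 0 < N by omega)] at h0
    rw [Nat.mod_eq_of_lt (show 1 < N by omega)] at h1
    rw [Nat.mod_eq_of_lt (show 2 < N by omega)] at h2
    omega
  apply h.gp i j k hij hk1 hk2
  unfold ori
  rw [e]
  simp [cr]

theorem few_dense {d : ℝ × ℝ} (hd : d ≠ 0) : Dense {u : ℝ × ℝ | cr d u ≠ 0} := by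
  intro u
  by_cases hu : cr d u ≠ 0
  · exact subset_closure hu
  · push Not at hu
    have hv : cr d (-d.2, d.1) ≠ 0 := by
      intro h0
      apply hd
      simp only [cr] at h0
      have h1 : d.1 * d.1 + d.2 * d.2 = 0 := by linarith
      have h2 : d.1 = 0 := by nlinarith [mul_self_nonneg d.1, mul_self_nonneg d.2]
      have h3 : d.2 = 0 := by nlinarith [mul_self_nonneg d.1, mul_self_nonneg d.2]
      exact Prod.ext h2 h3
    have hc : Continuous (fun t : ℝ => u + t • ((-d.2, d.1) : ℝ × ℝ)) := by fun_prop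
    have ht : Filter.Tendsto (fun t : ℝ => u + t • ((-d.2, d.1) : ℝ × ℝ)) (nhdsWithin 0 {0}ᶜ)
        (nhds u) := by
      have h2 := hc.tendsto 0
      simp only [zero_smul, add_zero] at h2
      exact h2.mono_left nhdsWithin_le_nhds
    refine mem_closure_of_tendsto ht ?_
    filter_upwards [self_mem_nhdsWithin] with t ht
    simp only [few_cr_add, few_cr_smul, hu, zero_add]
    exact mul_ne_zero ht hv

theorem few_gen {N m : ℕ} {w : ℕ → ℝ × ℝ} {s : ℕ → ℝ} (hN : 4 ≤ N) (h : Cyc N m w s)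
    {V : Set (ℝ × ℝ)} {u0 : ℝ × ℝ} (hV : V ∈ nhds u0) :
    ∃ u ∈ V, ∀ i j, ¬ i ≡ j [MOD N] → cr (w i) u ≠ cr (w j) u := by
  have hd : Dense (⋂ p : {p : ℕ × ℕ // ¬ p.1 ≡ p.2 [MOD N]},
      {u : ℝ × ℝ | cr (w p.1.1 - w p.1.2) u ≠ 0}) := by
    apply dense_iInter_of_isOpen
    · intro p
      have hc : Continuous (fun u : ℝ × ℝ => cr (w p.1.1 - w p.1.2) u) := by
        unfold cr
        fun_prop
      exact isOpen_ne_fun hc continuous_const
    · intro p
      exact few_dense (sub_ne_zero.2 (few_ne hN h p.2))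
  obtain ⟨u, hu1, hu2⟩ := hd.inter_nhds_nonempty hV
  refine ⟨u, hu2, ?_⟩
  intro i j hij
  rw [Set.mem_iInter] at hu1
  have := hu1 ⟨(i, j), hij⟩
  simp only [Set.mem_ofPred_eq, few_cr_sub] at this
  exact fun he => this (sub_eq_zero.2 he)

theorem few_hi_mono {L S : ℕ} {z : ℕ → ℝ × ℝ} {lo hi : ℕ → ℕ} {x : ℕ → ℝ × ℝ}
    (hb : Blocks L S z lo hi x) {a b : ℕ} (hab : a ≤ b) (hbS : b ≤ S) : hi a ≤ hi b := by
  induction b, hab using Nat.le_induction with
  | base => exact le_refl _
  | succ b hab ih =>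
    have h1 := ih (by omega)
    have h2 := hb.lt b (by omega)
    have h3 := hb.le (b + 1) hbS
    omega

theorem few_hi_ge {L S : ℕ} {z : ℕ → ℝ × ℝ} {lo hi : ℕ → ℕ} {x : ℕ → ℝ × ℝ}
    (hb : Blocks L S z lo hi x) {a : ℕ} (haS : a ≤ S) : a ≤ hi a := by
  induction a with
  | zero => omega
  | succ b ih =>
    have h1 := ih (by omega)
    have h2 := hb.lt b (by omega)
    have h3 := hb.le (b + 1) haS
    omega

theorem few_chain {N m : ℕ} {w : ℕ → ℝ × ℝ} {s : ℕ → ℝ} (h : Cyc N m w s)
    {br : Finset ℕ} (hbr : Breaks N w s br) {S : ℕ} {x : ℕ → ℝ × ℝ}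
    {L q : ℕ} {κ : ℕ → ℕ} (hq : 1 ≤ q)
    (hκ : (∀ t, t ≤ L → κ t = q + t) ∨ (∀ t, t ≤ L → κ t = q + (L - t)))
    (hqN : q + L ≤ N) (hno : ∀ k ∈ br, ¬ (q < k ∧ k < q + L))
    {lo hi : ℕ → ℕ} (hb : Blocks L S (fun t => w (κ t)) lo hi x)
    {l : ℕ} (h1 : 3 ≤ l) (h2 : l + 3 ≤ S) {u : ℝ × ℝ}
    (hu : Dir L S (fun t => w (κ t)) lo hi x l u)
    (hgen : ∀ i j, ¬ i ≡ j [MOD N] → cr (w i) u ≠ cr (w j) u) :
    ∃ i, q ≤ i ∧ i + 1 < q + L ∧ (∃ t ≤ L, i + 1 = κ t) ∧ cr (x l) u ≤ cr (w (i + 1)) u ∧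
      cr (w i) u < cr (w (i + 1)) u ∧ cr (w (i + 2)) u < cr (w (i + 1)) u ∧ Loss w s u i := by
  obtain ⟨t, htm, ht⟩ := Finset.exists_max_image (range (L + 1)) (fun t => cr (w (κ t)) u)
    ⟨0, by simp⟩
  rw [mem_range] at htm
  have htL : t ≤ L := by omega
  have hmax : ∀ t' ≤ L, cr (w (κ t')) u ≤ cr (w (κ t)) u := by
    intro t' ht'
    exact ht t' (by rw [mem_range]; omega)
  have hx : cr (x l) u ≤ cr (w (κ t)) u := by
    have hmem := hb.mem l (by omega)
    have hsub : convexHull ℝ ((fun t => w (κ t)) '' Set.Icc (lo l) (hi l)) ⊆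
        {p | cr p u ≤ cr (w (κ t)) u} := by
      apply convexHull_min
      · rintro p ⟨t', ht', rfl⟩
        have h3 := few_hi_mono hb (show l ≤ S by omega) (le_refl S)
        have h4 := hb.top
        exact hmax t' (le_trans ht'.2 (le_trans h3 h4))
      · exact convex_halfSpace_le (few_cr_lin u) _
    exact hsub hmem
  have hlo : lo (l - 1) ≤ t := by
    by_contra hc
    have := hu.p1 t htL (Or.inl (by omega))
    exact absurd this (not_lt.2 hx)
  have hhi : t ≤ hi (l + 1) := by
    by_contra hc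
    have := hu.p1 t htL (Or.inr (by omega))
    exact absurd this (not_lt.2 hx)
  have ht1 : 1 ≤ t := by
    have h3 := hb.lt (l - 2) (by omega)
    have e : l - 2 + 1 = l - 1 := by omega
    rw [e] at h3
    omega
  have ht2 : t < L := by
    have h3 := hb.lt (l + 1) (by omega)
    have h4 := hb.le (l + 1 + 1) (by omega)
    have h5 := few_hi_mono hb (show l + 1 + 1 ≤ S by omega) (le_refl S)
    have h6 := hb.top
    omega
  have key : ∃ i, q ≤ i ∧ i + 1 < q + L ∧ i + 1 = κ t ∧
      cr (w i) u < cr (w (i + 1)) u ∧ cr (w (i + 2)) u < cr (w (i + 1)) u := by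
    rcases hκ with hk | hk
    · refine ⟨q + t - 1, by omega, by omega, ?_, ?_, ?_⟩
      · rw [hk t htL]
        omega
      · have e1 : q + t - 1 + 1 = κ t := by
          rw [hk t htL]
          omega
        have e2 : q + t - 1 = κ (t - 1) := by
          rw [hk (t - 1) (by omega)]
          omega
        rw [e1, e2]
        refine lt_of_le_of_ne (hmax (t - 1) (by omega)) (hgen _ _ ?_)
        intro hmod
        rw [hk (t - 1) (by omega), hk t htL] at hmod
        have := few_modeq (by omega) (by omega) (by omega) (by omega) hmod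
        omega
      · have e1 : q + t - 1 + 1 = κ t := by
          rw [hk t htL]
          omega
        have e2 : q + t - 1 + 2 = κ (t + 1) := by
          rw [hk (t + 1) (by omega)]
          omega
        rw [e1, e2]
        refine lt_of_le_of_ne (hmax (t + 1) (by omega)) (hgen _ _ ?_)
        intro hmod
        rw [hk (t + 1) (by omega), hk t htL] at hmod
        have := few_modeq (by omega) (by omega) (by omega) (by omega) hmod
        omega
    · refine ⟨q + (L - t) - 1, by omega, by omega, ?_, ?_, ?_⟩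
      · rw [hk t htL]
        omega
      · have e1 : q + (L - t) - 1 + 1 = κ t := by
          rw [hk t htL]
          omega
        have e2 : q + (L - t) - 1 = κ (t + 1) := by
          rw [hk (t + 1) (by omega)]
          omega
        rw [e1, e2]
        refine lt_of_le_of_ne (hmax (t + 1) (by omega)) (hgen _ _ ?_)
        intro hmod
        rw [hk (t + 1) (by omega), hk t htL] at hmod
        have := few_modeq (by omega) (by omega) (by omega) (by omega) hmod
        omega
      · have e1 : q + (L - t) - 1 + 1 = κ t := by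
          rw [hk t htL]
          omega
        have e2 : q + (L - t) - 1 + 2 = κ (t - 1) := by
          rw [hk (t - 1) (by omega)]
          omega
        rw [e1, e2]
        refine lt_of_le_of_ne (hmax (t - 1) (by omega)) (hgen _ _ ?_)
        intro hmod
        rw [hk (t - 1) (by omega), hk t htL] at hmod
        have := few_modeq (by omega) (by omega) (by omega) (by omega) hmod
        omega
  obtain ⟨i, hi1, hi2, hi3, hi4, hi5⟩ := key
  have hnb : i + 1 ∉ br := fun hmem => hno _ hmem ⟨by omega, hi2⟩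
  have hsg := hbr.sg (i + 1) (by omega) (by omega) hnb
  have e0 : i + 1 - 1 = i := by omega
  have e1 : i + 1 + 1 = i + 2 := by omega
  rw [e0, e1] at hsg
  have hss : s (i + 1) * s (i + 1) = 1 := by
    rcases h.sgn (i + 1) with h | h <;> rw [h] <;> norm_num
  refine ⟨i, hi1, hi2, ⟨t, htL, hi3⟩, ?_, hi4, hi5, ?_, ?_⟩
  · rw [hi3]
    exact hx
  · rw [hsg.1, hss]
    linarith
  · rw [hsg.2, hss]
    linarith

theorem few_sgn {N m : ℕ} {w : ℕ → ℝ × ℝ} {s : ℕ → ℝ} (_h : Cyc N m w s)
    {br : Finset ℕ} (hbr : Breaks N w s br) {L q : ℕ} (hq : 1 ≤ q) (hqN : q + L ≤ N)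
    (hno : ∀ k ∈ br, ¬ (q < k ∧ k < q + L)) (hL : 2 ≤ L) : ∀ t ≤ L, s (q + t) = s q := by
  intro t ht
  induction t with
  | zero => rfl
  | succ t ih =>
    have ih' := ih (by omega)
    by_cases h0 : t = 0
    · subst h0
      have h1 := (hbr.sg (q + 1) (by omega) (by omega)
        (fun hm => hno _ hm ⟨by omega, by omega⟩)).1
      have e : q + 1 - 1 = q := by omega
      rw [e] at h1
      exact h1.symm
    · have h1 := (hbr.sg (q + t) (by omega) (by omega)
        (fun hm => hno _ hm ⟨by omega, by omega⟩)).2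
      rw [← ih', ← h1]
      rfl

theorem few_pair {N m : ℕ} {w : ℕ → ℝ × ℝ} {s : ℕ → ℝ} (hN : 4 ≤ N) (h : Cyc N m w s)
    (hnb : NB N w s) {br : Finset ℕ}
    (hbr : Breaks N w s br) {S : ℕ} {x : ℕ → ℝ × ℝ}
    {L q : ℕ} {κ : ℕ → ℕ} (hq : 1 ≤ q)
    (hκ : (∀ t, t ≤ L → κ t = q + t) ∨ (∀ t, t ≤ L → κ t = q + (L - t)))
    (hqN : q + L ≤ N) (hno : ∀ k ∈ br, ¬ (q < k ∧ k < q + L))
    {lo hi : ℕ → ℕ} (hg : GoodChain L (fun t => w (κ t)))
    (hb : Blocks L S (fun t => w (κ t)) lo hi x)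
    {l l' : ℕ} (h1 : 3 ≤ l) (h2 : l + 6 ≤ l') (h3 : l' + 3 ≤ S) {u u' : ℝ × ℝ}
    (hu : Dir L S (fun t => w (κ t)) lo hi x l u) (hu' : Dir L S (fun t => w (κ t)) lo hi x l' u')
    {g g' i : ℕ} (hi1 : q ≤ i) (hi2 : i + 1 < q + L) (hi3 : cr (w i) u < cr (w (i + 1)) u)
    (hi4 : cr (w (i + 2)) u < cr (w (i + 1)) u)
    (hgN : g < N) (hgN' : g' < N) (hG : Gain w s u g) (hG' : Gain w s u' g')
    (ha : cr (x l) u < cr (w (g + 1)) u) (ha' : cr (x l') u' < cr (w (g' + 1)) u')
    (hm : ∃ t ≤ L, cr (w (g + 1)) u < cr (w (κ t)) u)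
    (hm' : ∃ t ≤ L, cr (w (g' + 1)) u' < cr (w (κ t)) u')
    (hcl : g + 1 ∈ br ↔ g' + 1 ∈ br)
    (hA : Nat.findGreatest (fun a => a ∈ br) (g + 1) =
      Nat.findGreatest (fun a => a ∈ br) (g' + 1)) : False := by
  have hLS : S ≤ L := le_trans (few_hi_ge hb (le_refl S)) hb.top
  have hκr : ∀ t, t ≤ L → q ≤ κ t ∧ κ t ≤ q + L := by
    intro t ht
    rcases hκ with hk | hk <;> rw [hk t ht] <;> omega
  have hκi : ∀ t, 1 ≤ t → t < L → q < κ t ∧ κ t < q + L := by
    intro t ht1 ht2
    rcases hκ with hk | hk <;> rw [hk t (by omega)] <;> omega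
  have hsq := few_sgn h hbr hq hqN hno (by omega)
  have hs : ∀ t, t ≤ L → s (κ t) = s (κ 0) := by
    intro t ht
    obtain ⟨a1, a2⟩ := hκr t ht
    obtain ⟨b1, b2⟩ := hκr 0 (by omega)
    have e1 := hsq (κ t - q) (by omega)
    have e2 := hsq (κ 0 - q) (by omega)
    have e3 : q + (κ t - q) = κ t := by omega
    have e4 : q + (κ 0 - q) = κ 0 := by omega
    rw [e3] at e1
    rw [e4] at e2
    rw [e1, e2]
  by_cases hgb : g + 1 ∈ br
  · -- the gain is a break
    have hgb' := hcl.1 hgb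
    have e1 : Nat.findGreatest (fun a => a ∈ br) (g + 1) = g + 1 :=
      le_antisymm (Nat.findGreatest_le _) (Nat.le_findGreatest (le_refl _) hgb)
    have e2 : Nat.findGreatest (fun a => a ∈ br) (g' + 1) = g' + 1 :=
      le_antisymm (Nat.findGreatest_le _) (Nat.le_findGreatest (le_refl _) hgb')
    have hgg : g = g' := by omega
    subst hgg
    refine core hN h hnb hq hκ hqN hs hg hb h1 h2 h3 hu hu' {g + 1} ⟨g + 1, by simp⟩ ?_ ?_ ?_ ?_ ?_
      ?_ ?_
    · intro k hk
      rw [mem_singleton] at hk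
      omega
    · intro k hk t ht1 ht2 hmod
      rw [mem_singleton] at hk
      subst hk
      obtain ⟨a1, a2⟩ := hκi t ht1 ht2
      have := few_modeq (by omega) (by omega) (by omega) (by omega) hmod
      rw [this] at hgb
      exact hno _ hgb ⟨a1, a2⟩
    · intro τ ht0 ht1 k hk _
      rw [mem_singleton] at hk
      subst hk
      have e3 : g + 1 - 1 = g := by omega
      have e4 : g + 1 + 1 = g + 2 := by omega
      rw [e3, e4]
      simp only [few_cr_add, few_cr_smul]
      have g1 := hG.1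
      have g2 := hG.2
      have g3 := hG'.1
      have g4 := hG'.2
      have t1 : 0 ≤ 1 - τ := by linarith
      constructor
      · have f1 := mul_nonneg t1 (neg_nonneg.2 g2.le)
        have f2 := mul_nonneg ht0 (neg_nonneg.2 g4.le)
        nlinarith [f1, f2]
      · have f1 := mul_nonneg t1 (neg_nonneg.2 g1.le)
        have f2 := mul_nonneg ht0 (neg_nonneg.2 g3.le)
        nlinarith [f1, f2]
    · intro k hk
      rw [mem_singleton] at hk
      subst hk
      exact ha
    · intro k hk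
      rw [mem_singleton] at hk
      subst hk
      exact ha'
    · exact ⟨g + 1, by simp, hm⟩
    · exact ⟨g + 1, by simp, hm'⟩
  · -- the gain is inside a piece
    have hgb' : g' + 1 ∉ br := fun hh => hgb (hcl.2 hh)
    set a := Nat.findGreatest (fun a => a ∈ br) (g + 1) with hadef
    have ha_mem : a ∈ br := Nat.findGreatest_spec (P := fun a => a ∈ br) (show 1 ≤ g + 1 by omega)
      hbr.one
    have ha_le : a ≤ g + 1 := Nat.findGreatest_le _
    have ha_le' : a ≤ g' + 1 := by
      rw [hA]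
      exact Nat.findGreatest_le _
    have ha_ge : ∀ k ∈ br, k ≤ g + 1 → k ≤ a := fun k hk hkg => Nat.le_findGreatest hkg hk
    have ha_ge' : ∀ k ∈ br, k ≤ g' + 1 → k ≤ a := by
      intro k hk hkg
      rw [hA]
      exact Nat.le_findGreatest hkg hk
    have ha1 : 1 ≤ a := (hbr.rng a ha_mem).1
    have halt : a < g + 1 := lt_of_le_of_ne ha_le (fun e => hgb (e ▸ ha_mem))
    have halt' : a < g' + 1 := lt_of_le_of_ne ha_le' (fun e => hgb' (e ▸ ha_mem))
    have hgN1 : g + 1 < N := lt_of_le_of_ne (by omega) (fun e => hgb (e ▸ hbr.top))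
    obtain ⟨b, hb_mem, hb_min⟩ := Finset.exists_min_image (br.filter fun k => g + 1 < k)
      (fun k => k) ⟨N, by rw [mem_filter]; exact ⟨hbr.top, hgN1⟩⟩
    rw [mem_filter] at hb_mem
    obtain ⟨hb_mem, hgb1⟩ := hb_mem
    have hbN : b ≤ N := (hbr.rng b hb_mem).2
    have hnone : ∀ k ∈ br, ¬ (a < k ∧ k < b) := by
      intro k hk hkk
      by_cases hkg : k ≤ g + 1
      · have := ha_ge k hk hkg
        omega
      · have := hb_min k (by rw [mem_filter]; exact ⟨hk, by omega⟩)
        omega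
    have hgb2 : g' + 1 < b := by
      by_contra hc
      have := ha_ge' b hb_mem (by omega)
      omega
    obtain ⟨ε, hε, hgood⟩ := hbr.good a b ha1 (by omega) hbN hnone
    have hsab : ∀ k, a < k → k < b → s (k - 1) = s k ∧ s (k + 1) = s k := by
      intro k hk1 hk2
      exact hbr.sg k (by omega) (by omega) (fun hm => hnone k hm ⟨hk1, hk2⟩)
    have hss : ∀ k, s k * s k = 1 := by
      intro k
      rcases h.sgn k with h | h <;> rw [h] <;> norm_num
    have hloc : (∀ i j, a ≤ i → i < j → j ≤ g + 1 → cr (w j) u < cr (w i) u) ∧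
        (∀ i j, g + 1 ≤ i → i < j → j ≤ b → cr (w i) u < cr (w j) u) := by
      refine localmin hε hgood halt hgb1 ?_ ?_
      · have e := hG.1
        obtain ⟨e1, e2⟩ := hsab (g + 1) halt hgb1
        have e3 : g + 1 - 1 = g := by omega
        rw [e3] at e1 ⊢
        rw [e1, hss] at e
        linarith
      · have e := hG.2
        obtain ⟨e1, e2⟩ := hsab (g + 1) halt hgb1
        have e3 : g + 1 + 1 = g + 2 := by omega
        rw [e3] at e2 ⊢
        rw [e2, hss] at e
        linarith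
    have hloc' : (∀ i j, a ≤ i → i < j → j ≤ g' + 1 → cr (w j) u' < cr (w i) u') ∧
        (∀ i j, g' + 1 ≤ i → i < j → j ≤ b → cr (w i) u' < cr (w j) u') := by
      refine localmin hε hgood halt' hgb2 ?_ ?_
      · have e := hG'.1
        obtain ⟨e1, e2⟩ := hsab (g' + 1) halt' hgb2
        have e3 : g' + 1 - 1 = g' := by omega
        rw [e3] at e1 ⊢
        rw [e1, hss] at e
        linarith
      · have e := hG'.2
        obtain ⟨e1, e2⟩ := hsab (g' + 1) halt' hgb2
        have e3 : g' + 1 + 1 = g' + 2 := by omega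
        rw [e3] at e2 ⊢
        rw [e2, hss] at e
        linarith
    have hmin : ∀ k, a ≤ k → k ≤ b → cr (w (g + 1)) u ≤ cr (w k) u := by
      intro k hk1 hk2
      rcases lt_trichotomy k (g + 1) with hk | hk | hk
      · exact (hloc.1 k (g + 1) hk1 hk (le_refl _)).le
      · rw [hk]
      · exact (hloc.2 (g + 1) k (le_refl _) hk hk2).le
    have hmin' : ∀ k, a ≤ k → k ≤ b → cr (w (g' + 1)) u' ≤ cr (w k) u' := by
      intro k hk1 hk2
      rcases lt_trichotomy k (g' + 1) with hk | hk | hk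
      · exact (hloc'.1 k (g' + 1) hk1 hk (le_refl _)).le
      · rw [hk]
      · exact (hloc'.2 (g' + 1) k (le_refl _) hk hk2).le
    have hZr : ∀ k ∈ Finset.Icc (min (g + 1) (g' + 1)) (max (g + 1) (g' + 1)), a < k ∧ k < b := by
      intro k hk
      rw [Finset.mem_Icc] at hk
      omega
    refine core hN h hnb hq hκ hqN hs hg hb h1 h2 h3 hu hu'
      (Finset.Icc (min (g + 1) (g' + 1)) (max (g + 1) (g' + 1)))
      ⟨g + 1, by rw [Finset.mem_Icc]; omega⟩ ?_ ?_ ?_ ?_ ?_ ?_ ?_
    · intro k hk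
      have := hZr k hk
      omega
    · intro k hk t ht1 ht2 hmod
      obtain ⟨k1, k2⟩ := hZr k hk
      obtain ⟨a1, a2⟩ := hκi t ht1 ht2
      have e := few_modeq (by omega) (by omega) (by omega) (by omega) hmod
      rw [← e] at a1 a2
      have haq : a ≤ q := by
        by_contra hc
        exact hno a ha_mem ⟨by omega, by omega⟩
      have hbq : q + L ≤ b := by
        by_contra hc
        exact hno b hb_mem ⟨by omega, by omega⟩
      by_cases hig : i + 1 ≤ g + 1
      · have := hloc.1 i (i + 1) (by omega) (by omega) hig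
        linarith
      · have := hloc.2 (i + 1) (i + 2) (by omega) (by omega) (by omega)
        linarith
    · intro τ ht0 ht1 k hk hkmin
      obtain ⟨k1, k2⟩ := hZr k hk
      obtain ⟨e1, e2⟩ := hsab k k1 k2
      rw [e1, e2, hss]
      have t1 : 0 ≤ 1 - τ := by linarith
      constructor
      · by_cases hk1 : k + 1 ∈ Finset.Icc (min (g + 1) (g' + 1)) (max (g + 1) (g' + 1))
        · have := hkmin (k + 1) hk1
          linarith
        · have hkg : g + 1 ≤ k ∧ g' + 1 ≤ k := by
            rw [Finset.mem_Icc] at hk1 hk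
            omega
          have f1 := hloc.2 k (k + 1) hkg.1 (by omega) (by omega)
          have f2 := hloc'.2 k (k + 1) hkg.2 (by omega) (by omega)
          simp only [few_cr_add, few_cr_smul]
          nlinarith [mul_le_mul_of_nonneg_left f1.le t1, mul_le_mul_of_nonneg_left f2.le ht0]
      · by_cases hk1 : k - 1 ∈ Finset.Icc (min (g + 1) (g' + 1)) (max (g + 1) (g' + 1))
        · have := hkmin (k - 1) hk1
          linarith
        · have hkg : k ≤ g + 1 ∧ k ≤ g' + 1 := by
            rw [Finset.mem_Icc] at hk1 hk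
            omega
          have f1 := hloc.1 (k - 1) k (by omega) (by omega) hkg.1
          have f2 := hloc'.1 (k - 1) k (by omega) (by omega) hkg.2
          simp only [few_cr_add, few_cr_smul]
          nlinarith [mul_le_mul_of_nonneg_left f1.le t1, mul_le_mul_of_nonneg_left f2.le ht0]
    · intro k hk
      obtain ⟨k1, k2⟩ := hZr k hk
      exact lt_of_lt_of_le ha (hmin k (by omega) (by omega))
    · intro k hk
      obtain ⟨k1, k2⟩ := hZr k hk
      exact lt_of_lt_of_le ha' (hmin' k (by omega) (by omega))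
    · exact ⟨g + 1, by rw [Finset.mem_Icc]; omega, hm⟩
    · exact ⟨g' + 1, by rw [Finset.mem_Icc]; omega, hm'⟩

/-- TARGET (Step 6 of the paper proof). Two chains in different pieces have few common points `x l`.
PROOF. Suppose `S > 24 card br + 40`. Both chains have `L, L' ≥ S ≥ 2` (disjoint nonempty blocks), the signs `s` are constant on `[q, q+L]` and on `[q', q'+L']` (`hbr.sg` at the interior indices, which are not in `br`).
(1) Let `l = 6 a + 3`, `3 ≤ l ≤ S - 3`. By `dir_nhds` for both chains every `u` near `x (l+1) - x (l-1)` satisfies `Dir` for both. Choose such a `u` with `cr (w i) u ≠ cr (w j) u` for all incongruent `i, j`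
(finitely many nonzero vectors `w i - w j`, `i, j < N` (`w i ≠ w j` by `h.gp`): there is `v` with `cr (w i - w j) v ≠ 0` for all of them; take `u = u0 + δ v` with small `δ > 0` outside a finite set).
(2) Let `t` maximise `cr (w (κ t)) u` over `t ≤ L`. By p1, `lo (l-1) ≤ t ≤ hi (l+1)` (otherwise it would be `< cr (x l) u ≤ max`, as `x l` is in the convex hull of chain points), so `1 ≤ t ≤ L - 1`, `i := κ t` is an interior index of `[q,q+L]`, its neighbours are `κ (t±1)`, with
equal signs and strictly smaller values: `Loss w s u (i - 1)`. Similarly for the second chain: maximiser `j`. `i ≠ j` by `hdis` (both are interior), so the values are different. Apply `gb` to the two losses: there is an index `g = k + 1 ∈ [1,N]` that is a gain (`Gain w s u (g-1)`) with value strictly between the two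
maxima. Colour: which of the two maxima is larger. The value at `g` is larger than the smaller maximum, hence `> cr (x l) u`, and smaller than the larger maximum.
(3) Class of `g`: if `g ∈ br`: `g` itself. If `g ∉ br`: the largest `a ∈ br` with `a < g` (exists, `1 ∈ br`); the piece is `[a,b]`, `b` the smallest element of `br` larger than `g`; `g` is interior to the piece, which has no interior break, so it is good (`hbr.good`), `s` is constant on it, and
`Gain` means that `g` is a local minimum of `cr · u`; by `localmin` the values strictly decrease before `g` and strictly increase after `g` on `[a,b]`.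
(4) There are at most `2 card br` classes and 2 colours, and more than `4 card br` values of `l`; so two values `l < l'` (`l' ≥ l + 6`) have the same class and colour; by symmetry let the first chain have the larger maximum in both. Let `u, u'`, `g, g'` be the data. Apply `core` to the first chain with
 (a) class in `br`: `g = g'`, `Z = {g}`. `g ∈ br` is not an interior index of the chain. `htan`: the two Gain inequalities for `u` and for `u'`, combined with weights `1-τ, τ`.
 (b) class a piece `[a,b]`: `Z = [min g g', max g g']`. If `(a,b)` met `(q,q+L)` then `a ≤ q` and `q + L ≤ b` (no breaks inside), and the interior local maximum `i` of `cr · u` would contradict the monotonicity in (3); so no element of `Z` (all are strictly between `a` and `b`) is an interior index of the chain (for indices in `[1,N]` congruent mod `N` means equal).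
 `htan`: a minimiser `k ∈ Z` has `cr (w k) v ≤ cr (w k') v` for neighbours `k' ∈ Z`; for a neighbour outside `Z`, e.g. `k = min g g'`, `k' = k - 1`, the values for `u` and for `u'` at `k'` are both larger than at `k` by (3) (`k ≤ g` and `k ≤ g'`). Signs on `[a,b]` are constant. `ha, ha'`: `g` is the minimum of `cr · u` on `[a,b]`. `hm, hm'`: `g, g' ∈ Z`. -/
theorem few {N m : ℕ} {w : ℕ → ℝ × ℝ} {s : ℕ → ℝ} (hN : 4 ≤ N) (h : Cyc N m w s) (hnb : NB N w s) {br : Finset ℕ}
    (hbr : Breaks N w s br) {S : ℕ} {x : ℕ → ℝ × ℝ}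
    {L q : ℕ} {κ : ℕ → ℕ} (hq : 1 ≤ q) (hκ : (∀ t, t ≤ L → κ t = q + t) ∨ (∀ t, t ≤ L → κ t = q + (L - t)))
    (hqN : q + L ≤ N) (hno : ∀ k ∈ br, ¬ (q < k ∧ k < q + L))
    {lo hi : ℕ → ℕ} (hg : GoodChain L (fun t => w (κ t))) (hb : Blocks L S (fun t => w (κ t)) lo hi x)
    {L' q' : ℕ} {κ' : ℕ → ℕ} (hq' : 1 ≤ q') (hκ' : (∀ t, t ≤ L' → κ' t = q' + t) ∨ (∀ t, t ≤ L' → κ' t = q' + (L' - t)))
    (hqN' : q' + L' ≤ N) (hno' : ∀ k ∈ br, ¬ (q' < k ∧ k < q' + L'))
    {lo' hi' : ℕ → ℕ} (hg' : GoodChain L' (fun t => w (κ' t))) (hb' : Blocks L' S (fun t => w (κ' t)) lo' hi' x)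
    (hdis : q + L ≤ q' ∨ q' + L' ≤ q) : S ≤ 24 * br.card + 40 := by
  classical
  by_contra hS
  have hS' : 24 * br.card + 40 < S := by omega
  have data : ∀ l, 3 ≤ l → l + 3 ≤ S → ∃ (col : Bool) (u : ℝ × ℝ) (g : ℕ),
      Dir L S (fun t => w (κ t)) lo hi x l u ∧ Dir L' S (fun t => w (κ' t)) lo' hi' x l u ∧
      g < N ∧ Gain w s u g ∧ cr (x l) u < cr (w (g + 1)) u ∧
      (col = true → (∃ t ≤ L, cr (w (g + 1)) u < cr (w (κ t)) u) ∧
        ∃ i, q ≤ i ∧ i + 1 < q + L ∧ cr (w i) u < cr (w (i + 1)) u ∧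
          cr (w (i + 2)) u < cr (w (i + 1)) u) ∧
      (col = false → (∃ t ≤ L', cr (w (g + 1)) u < cr (w (κ' t)) u) ∧
        ∃ i, q' ≤ i ∧ i + 1 < q' + L' ∧ cr (w i) u < cr (w (i + 1)) u ∧
          cr (w (i + 2)) u < cr (w (i + 1)) u) := by
    intro l hl1 hl2
    have d1 := dir_nhds hg hb (l := l) (by omega) (by omega)
    have d2 := dir_nhds hg' hb' (l := l) (by omega) (by omega)
    obtain ⟨u, ⟨hu1, hu2⟩, hgen⟩ := few_gen hN h (d1.and d2)
    obtain ⟨i, i1, i2, ⟨ti, hti, hti2⟩, i4, i5, i6, i7⟩ :=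
      few_chain h hbr hq hκ hqN hno hb hl1 hl2 hu1 hgen
    obtain ⟨j, j1, j2, ⟨tj, htj, htj2⟩, j4, j5, j6, j7⟩ :=
      few_chain h hbr hq' hκ' hqN' hno' hb' hl1 hl2 hu2 hgen
    have hne : cr (w (i + 1)) u ≠ cr (w (j + 1)) u := by
      apply hgen
      intro hmod
      have := few_modeq (by omega) (by omega) (by omega) (by omega) hmod
      omega
    rcases lt_or_gt_of_ne hne with hlt | hlt
    · obtain ⟨g, hg1, hg2, hg3, hg4⟩ := gb (by omega) h hgen j7 i7 hlt
      refine ⟨false, u, g, hu1, hu2, hg1, hg2, lt_of_le_of_lt i4 hg3, by simp, fun _ => ?_⟩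
      exact ⟨⟨tj, htj, by rw [← htj2]; exact hg4⟩, j, j1, j2, j5, j6⟩
    · obtain ⟨g, hg1, hg2, hg3, hg4⟩ := gb (by omega) h hgen i7 j7 hlt
      refine ⟨true, u, g, hu1, hu2, hg1, hg2, lt_of_le_of_lt j4 hg3, fun _ => ?_, by simp⟩
      exact ⟨⟨ti, hti, by rw [← hti2]; exact hg4⟩, i, i1, i2, i5, i6⟩
  choose! col u g hQ using data
  have hpig : ∃ a ∈ range (4 * br.card + 1), ∃ a' ∈ range (4 * br.card + 1), a ≠ a' ∧
      (fun a : ℕ => ((Nat.findGreatest (fun a => a ∈ br) (g (6 * a + 3) + 1),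
        decide (g (6 * a + 3) + 1 ∈ br), col (6 * a + 3)) : ℕ × Bool × Bool)) a =
      (fun a : ℕ => ((Nat.findGreatest (fun a => a ∈ br) (g (6 * a + 3) + 1),
        decide (g (6 * a + 3) + 1 ∈ br), col (6 * a + 3)) : ℕ × Bool × Bool)) a' := by
    apply Finset.exists_ne_map_eq_of_card_lt_of_maps_to
      (t := br ×ˢ ((Finset.univ : Finset Bool) ×ˢ (Finset.univ : Finset Bool)))
    · rw [card_product, card_product, card_range]
      simp only [card_univ, Fintype.card_bool]
      omega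
    · intro a _
      simp only [coe_product, coe_univ, Set.mem_prod, Set.mem_univ, and_true]
      exact Nat.findGreatest_spec (P := fun a => a ∈ br) (show 1 ≤ g (6 * a + 3) + 1 by omega)
        hbr.one
  have hlt : ∃ a a', a < a' ∧ a' < 4 * br.card + 1 ∧
      Nat.findGreatest (fun a => a ∈ br) (g (6 * a + 3) + 1) =
        Nat.findGreatest (fun a => a ∈ br) (g (6 * a' + 3) + 1) ∧
      (g (6 * a + 3) + 1 ∈ br ↔ g (6 * a' + 3) + 1 ∈ br) ∧
      col (6 * a + 3) = col (6 * a' + 3) := by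
    obtain ⟨a, ha, a', ha', hne, heq⟩ := hpig
    simp only [Prod.mk.injEq, decide_eq_decide] at heq
    rw [mem_range] at ha ha'
    rcases lt_or_gt_of_ne hne with hh | hh
    · exact ⟨a, a', hh, ha', heq.1, heq.2.1, heq.2.2⟩
    · exact ⟨a', a, hh, ha, heq.1.symm, heq.2.1.symm, heq.2.2.symm⟩
  obtain ⟨a, a', haa, ha', hA, hcl, hcol⟩ := hlt
  obtain ⟨p1, p2, p3, p4, p5, p6, p7⟩ := hQ (6 * a + 3) (by omega) (by omega)
  obtain ⟨r1, r2, r3, r4, r5, r6, r7⟩ := hQ (6 * a' + 3) (by omega) (by omega)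
  cases hc : col (6 * a + 3) with
  | true =>
    have hc' : col (6 * a' + 3) = true := by rw [← hcol, hc]
    obtain ⟨m1, i, i1, i2, i3, i4⟩ := p6 hc
    obtain ⟨m2, _⟩ := r6 hc'
    exact few_pair hN h hnb hbr hq hκ hqN hno hg hb (by omega) (by omega) (by omega) p1 r1
      i1 i2 i3 i4 p3 r3 p4 r4 p5 r5 m1 m2 hcl hA
  | false =>
    have hc' : col (6 * a' + 3) = false := by rw [← hcol, hc]
    obtain ⟨m1, i, i1, i2, i3, i4⟩ := p7 hc
    obtain ⟨m2, _⟩ := r7 hc'
    exact few_pair hN h hnb hbr hq' hκ' hqN' hno' hg' hb' (by omega) (by omega) (by omega) p2 r2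
      i1 i2 i3 i4 p3 r3 p4 r4 p5 r5 m1 m2 hcl hA

end SB758
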