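import Pool.Agent.Helper758_SB.Defs
import Pool.Agent.Helper758_SB.J16_few

namespace SB758

open Finset

theorem ori_rot (u v w : ℝ × ℝ) : ori u v w = ori v w u := by
  simp only [ori, cr, Prod.fst_sub, Prod.snd_sub]; ring

theorem ori_comb (p q v w : ℝ × ℝ) (s t : ℝ) (h : s + t = 1) :
    ori (s • p + t • q) v w = s * ori p v w + t * ori q v w := by
  have hs : s = 1 - t := by linarith
  subst hs
  simp only [ori, cr, Prod.fst_sub, Prod.snd_sub, Prod.fst_add, Prod.snd_add, Prod.smul_fst, Prod.smul_snd,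
    smul_eq_mul]
  ring

theorem conv_ori (ε : ℝ) (v w : ℝ × ℝ) : Convex ℝ {u : ℝ × ℝ | 0 < ε * ori u v w} := by
  intro p hp q hq s t hs ht hst
  change 0 < ε * ori p v w at hp
  change 0 < ε * ori q v w at hq
  change 0 < ε * ori (s • p + t • q) v w
  rw [ori_comb p q v w s t hst]
  have : ε * (s * ori p v w + t * ori q v w) = s * (ε * ori p v w) + t * (ε * ori q v w) := by ring
  rw [this]
  rcases hs.eq_or_lt with h0 | h0
  · have : t = 1 := by linarith
    subst this; subst h0; simpa using hq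
  · have h1 := mul_pos h0 hp
    have h2 := mul_nonneg ht hq.le
    linarith

/-- chain with sign -/
theorem chain_ori {L : ℕ} {z : ℕ → ℝ × ℝ} {ε : ℝ}
    (hc : ∀ i j, i < j → j < L → 0 < ε * cr (z (i + 1) - z i) (z (j + 1) - z j)) :
    ∀ i j k, i < j → j < k → k ≤ L → 0 < ε * ori (z i) (z j) (z k) := by
  have h1 : ∀ p j k, p < j → j < k → k ≤ L → 0 < ε * cr (z (p + 1) - z p) (z k - z j) := by
    intro p j k hpj hjk
    induction k, hjk using Nat.le_induction with
    | base => intro hk; exact hc p j hpj (by omega)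
    | succ k hk ih =>
      intro hkL
      have a1 := ih (by omega)
      have a2 := hc p k (by omega) (by omega)
      have : ε * cr (z (p + 1) - z p) (z (k + 1) - z j) =
        ε * cr (z (p + 1) - z p) (z k - z j) + ε * cr (z (p + 1) - z p) (z (k + 1) - z k) := by
        simp only [cr, Prod.fst_sub, Prod.snd_sub]; ring
      rw [this]; exact add_pos a1 a2
  have h2 : ∀ i j, i < j → ∀ j' k, j ≤ j' → j' < k → k ≤ L → 0 < ε * cr (z j - z i) (z k - z j') := by
    intro i j hij
    induction j, hij using Nat.le_induction with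
    | base => intro j' k hj hjk hk; exact h1 i j' k (by omega) hjk hk
    | succ j hj ih =>
      intro j' k hj' hjk hk
      have a1 := ih j' k (by omega) hjk hk
      have a2 := h1 j j' k (by omega) hjk hk
      have : ε * cr (z (j + 1) - z i) (z k - z j') =
        ε * cr (z j - z i) (z k - z j') + ε * cr (z (j + 1) - z j) (z k - z j') := by
        simp only [cr, Prod.fst_sub, Prod.snd_sub]; ring
      rw [this]; exact add_pos a1 a2
  intro i j k hij hjk hk
  have := h2 i j hij j k le_rfl hjk hk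
  have e : ori (z i) (z j) (z k) = cr (z j - z i) (z k - z j) := by
    simp only [ori, cr, Prod.fst_sub, Prod.snd_sub]; ring
  rw [e]; exact this

theorem blocks_ori {L S : ℕ} {z : ℕ → ℝ × ℝ} {lo hi : ℕ → ℕ} {x : ℕ → ℝ × ℝ} {ε : ℝ} (hS : 2 ≤ S)
    (hc : ∀ i j, i < j → j < L → 0 < ε * cr (z (i + 1) - z i) (z (j + 1) - z j))
    (hb : Blocks L S z lo hi x) : 0 < ε * ori (x 0) (x 1) (x 2) := by
  have hch := chain_ori hc
  have l01 := hb.lt 0 (by omega)
  have l12 := hb.lt 1 (by omega)
  simp only [zero_add] at l01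
  simp only [Nat.reduceAdd] at l12
  have hmono : ∀ l, l ≤ S → hi l ≤ hi S := by
    intro l hl
    obtain ⟨d, rfl⟩ := Nat.exists_eq_add_of_le hl
    clear hl hS
    have key : ∀ d', l + d' ≤ l + d → hi l ≤ hi (l + d') := by
      intro d'
      induction d' with
      | zero => intro _; exact le_rfl
      | succ n ih =>
        intro hn
        have a1 := ih (by omega)
        have a2 := hb.lt (l + n) (by omega)
        have a3 := hb.le (l + n + 1) (by omega)
        have : l + (n + 1) = l + n + 1 := by ring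
        rw [this]; omega
    exact key d le_rfl
  have t2 : hi 2 ≤ L := (hmono 2 hS).trans hb.top
  have m0 := hb.mem 0 (by omega)
  have m1 := hb.mem 1 (by omega)
  have m2 := hb.mem 2 hS
  -- vertices
  have key0 : ∀ i j k, i ∈ Set.Icc (lo 0) (hi 0) → j ∈ Set.Icc (lo 1) (hi 1) → k ∈ Set.Icc (lo 2) (hi 2) →
      0 < ε * ori (z i) (z j) (z k) := by
    intro i j k hi' hj hk
    have := hi'.2; have := hj.1; have := hj.2; have := hk.1; have := hk.2
    exact hch i j k (by omega) (by omega) (by omega)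
  have key1 : ∀ j k, j ∈ Set.Icc (lo 1) (hi 1) → k ∈ Set.Icc (lo 2) (hi 2) →
      0 < ε * ori (x 0) (z j) (z k) := by
    intro j k hj hk
    have := convexHull_min (s := z '' Set.Icc (lo 0) (hi 0)) (t := {u : ℝ × ℝ | 0 < ε * ori u (z j) (z k)})
      (by rintro _ ⟨i, hi', rfl⟩; exact key0 i j k hi' hj hk) (conv_ori ε (z j) (z k)) m0
    exact this
  have key2 : ∀ k, k ∈ Set.Icc (lo 2) (hi 2) → 0 < ε * ori (x 0) (x 1) (z k) := by
    intro k hk
    have := convexHull_min (s := z '' Set.Icc (lo 1) (hi 1)) (t := {u : ℝ × ℝ | 0 < ε * ori u (z k) (x 0)})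
      (by rintro _ ⟨j, hj, rfl⟩
          have := key1 j k hj hk
          rw [ori_rot] at this; exact this) (conv_ori ε (z k) (x 0)) m1
    rw [ori_rot]; exact this
  have := convexHull_min (s := z '' Set.Icc (lo 2) (hi 2)) (t := {u : ℝ × ℝ | 0 < ε * ori u (x 0) (x 1)})
      (by rintro _ ⟨k, hk, rfl⟩
          have := key2 k hk
          rw [ori_rot, ori_rot] at this; exact this) (conv_ori ε (x 0) (x 1)) m2
  rw [ori_rot, ori_rot]; exact this

theorem mk_inc {w : ℕ → ℝ × ℝ} {S : ℕ} {x : ℕ → ℝ × ℝ} {a b : ℕ} {ε : ℝ}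
    (hg : ∀ k l, a ≤ k → k < l → l < b → 0 < ε * cr (w (k + 1) - w k) (w (l + 1) - w l)) {lo hi : ℕ → ℕ}
    (h1 : ∀ l ≤ S, a ≤ lo l ∧ lo l ≤ hi l ∧ hi l ≤ b)
    (h2 : ∀ l < S, hi l < lo (l + 1))
    (hx : ∀ l ≤ S, x l ∈ convexHull ℝ (w '' Set.Icc (lo l) (hi l))) :
    (∀ i j, i < j → j < b - a → 0 < ε * cr (w (a + (i + 1)) - w (a + i)) (w (a + (j + 1)) - w (a + j))) ∧
      Blocks (b - a) S (fun t => w (a + t)) (fun l => lo l - a) (fun l => hi l - a) x := by
  refine ⟨?_, ?_⟩
  · intro i j hij hj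
    have := hg (a + i) (a + j) (by omega) (by omega) (by omega)
    simpa only [add_assoc] using this
  · refine ⟨fun l hl => ?_, fun l hl => ?_, ?_, fun l hl => ?_⟩
    · have := h1 l hl
      show lo l - a ≤ hi l - a
      omega
    · have := h2 l hl
      have p := h1 l (by omega)
      show hi l - a < lo (l + 1) - a
      omega
    · have := h1 S le_rfl
      show hi S - a ≤ b - a
      omega
    · have p := h1 l hl
      have e : (fun t => w (a + t)) '' Set.Icc (lo l - a) (hi l - a) = w '' Set.Icc (lo l) (hi l) := by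
        ext v; constructor
        · rintro ⟨t, ht, rfl⟩
          exact ⟨a + t, ⟨by have := ht.1; omega, by have := ht.2; omega⟩, rfl⟩
        · rintro ⟨t, ht, rfl⟩
          have h3 := ht.1
          have h4 := ht.2
          refine ⟨t - a, ⟨by omega, by omega⟩, ?_⟩
          have : a + (t - a) = t := by omega
          simp only [this]
      show x l ∈ convexHull ℝ ((fun t => w (a + t)) '' Set.Icc (lo l - a) (hi l - a))
      rw [e]; exact hx l hl

theorem mk_dec {w : ℕ → ℝ × ℝ} {S : ℕ} {x : ℕ → ℝ × ℝ} {a b : ℕ} {ε : ℝ}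
    (hg : ∀ k l, a ≤ k → k < l → l < b → 0 < ε * cr (w (k + 1) - w k) (w (l + 1) - w l)) {lo hi : ℕ → ℕ}
    (h1 : ∀ l ≤ S, a ≤ lo l ∧ lo l ≤ hi l ∧ hi l ≤ b)
    (h2 : ∀ l < S, hi (l + 1) < lo l)
    (hx : ∀ l ≤ S, x l ∈ convexHull ℝ (w '' Set.Icc (lo l) (hi l))) :
    (∀ i j, i < j → j < b - a → 0 < (-ε) * cr (w (a + (b - a - (i + 1))) - w (a + (b - a - i)))
        (w (a + (b - a - (j + 1))) - w (a + (b - a - j)))) ∧
      Blocks (b - a) S (fun t => w (a + (b - a - t))) (fun l => b - hi l) (fun l => b - lo l) x := by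
  refine ⟨?_, ?_⟩
  · intro i j hij hj
    have := hg (a + (b - a - (j + 1))) (a + (b - a - (i + 1))) (by omega) (by omega) (by omega)
    have e1 : a + (b - a - (j + 1)) + 1 = a + (b - a - j) := by omega
    have e2 : a + (b - a - (i + 1)) + 1 = a + (b - a - i) := by omega
    rw [e1, e2] at this
    have e3 : -ε * cr (w (a + (b - a - (i + 1))) - w (a + (b - a - i))) (w (a + (b - a - (j + 1))) - w (a + (b - a - j)))
      = ε * cr (w (a + (b - a - j)) - w (a + (b - a - (j + 1)))) (w (a + (b - a - i)) - w (a + (b - a - (i + 1)))) := by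
      simp only [cr, Prod.fst_sub, Prod.snd_sub]; ring
    rw [e3]; exact this
  · refine ⟨fun l hl => ?_, fun l hl => ?_, ?_, fun l hl => ?_⟩
    · have := h1 l hl
      show b - hi l ≤ b - lo l
      omega
    · have := h2 l hl
      have p := h1 l (by omega)
      have p' := h1 (l + 1) (by omega)
      show b - lo l < b - hi (l + 1)
      omega
    · have := h1 S le_rfl
      show b - lo S ≤ b - a
      omega
    · have p := h1 l hl
      have e : (fun t => w (a + (b - a - t))) '' Set.Icc (b - hi l) (b - lo l) = w '' Set.Icc (lo l) (hi l) := by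
        ext v; constructor
        · rintro ⟨t, ht, rfl⟩
          have h3 := ht.1
          have h4 := ht.2
          exact ⟨a + (b - a - t), ⟨by omega, by omega⟩, rfl⟩
        · rintro ⟨t, ht, rfl⟩
          have h3 := ht.1
          have h4 := ht.2
          refine ⟨b - t, ⟨by omega, by omega⟩, ?_⟩
          have : a + (b - a - (b - t)) = t := by omega
          simp only [this]
      show x l ∈ convexHull ℝ ((fun t => w (a + (b - a - t))) '' Set.Icc (b - hi l) (b - lo l))
      rw [e]; exact hx l hl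

/-- a family of blocks, increasing or decreasing, gives a chain with a sign, traversed so that the blocks increase -/
theorem mk_chain {N : ℕ} {w : ℕ → ℝ × ℝ} {s : ℕ → ℝ} {br : Finset ℕ}
    (hbr : Breaks N w s br) {S : ℕ} (hS : 2 ≤ S) {x : ℕ → ℝ × ℝ} {a b : ℕ} (ha : 1 ≤ a) (hb : b ≤ N)
    (hno : ∀ k ∈ br, ¬ (a < k ∧ k < b)) {lo hi : ℕ → ℕ}
    (h1 : ∀ l ≤ S, a ≤ lo l ∧ lo l ≤ hi l ∧ hi l ≤ b)
    (h2 : (∀ l < S, hi l < lo (l + 1)) ∨ (∀ l < S, hi (l + 1) < lo l))
    (hx : ∀ l ≤ S, x l ∈ convexHull ℝ (w '' Set.Icc (lo l) (hi l))) :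
    ∃ (κ lo1 hi1 : ℕ → ℕ) (ε : ℝ), (ε = 1 ∨ ε = -1) ∧
      ((∀ t, t ≤ b - a → κ t = a + t) ∨ (∀ t, t ≤ b - a → κ t = a + (b - a - t))) ∧
      (∀ i j, i < j → j < b - a → 0 < ε * cr (w (κ (i + 1)) - w (κ i)) (w (κ (j + 1)) - w (κ j))) ∧
      Blocks (b - a) S (fun t => w (κ t)) lo1 hi1 x := by
  have hab : a + 2 ≤ b := by
    have p0 := h1 0 (by omega)
    have p1 := h1 1 (by omega)
    have p2 := h1 2 (by omega)
    rcases h2 with h2 | h2
    · have q0 := h2 0 (by omega)
      have q1 := h2 1 (by omega)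
      simp only [zero_add, Nat.reduceAdd] at q0 q1
      omega
    · have q0 := h2 0 (by omega)
      have q1 := h2 1 (by omega)
      simp only [zero_add, Nat.reduceAdd] at q0 q1
      omega
  obtain ⟨ε, hε, hg⟩ := hbr.good a b ha hab hb hno
  rcases h2 with h2 | h2
  · obtain ⟨c1, c2⟩ := mk_inc hg h1 h2 hx
    exact ⟨fun t => a + t, fun l => lo l - a, fun l => hi l - a, ε, hε, Or.inl (fun _ _ => rfl), c1, c2⟩
  · obtain ⟨c1, c2⟩ := mk_dec hg h1 h2 hx
    refine ⟨fun t => a + (b - a - t), fun l => b - hi l, fun l => b - lo l, -ε, ?_, Or.inr (fun _ _ => rfl), c1, c2⟩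
    rcases hε with h | h
    · right; rw [h]
    · left; rw [h]; norm_num

/-- TARGET. The same with blocks given by absolute indices, in arbitrary orientations.
PROOF. Let `S ≥ 2`. Then `b ≥ a + 2`, `b' ≥ a' + 2`, so by `hbr.good` there are signs `ε, ε'` for `[a,b]` and `[a',b']`. Put `L = b - a`, `q = a`. If `ε = 1` let `κ t = a + t`, with the blocks `lo l - a, hi l - a`; this is a `GoodChain`. If `ε = -1` let
`κ t = a + (L - t)` (backwards) and replace `x l` by `x (S - l)`, blocks `l ↦ [b - hi (S-l), b - lo (S-l)]`: also a `GoodChain` (for `i < j` the edges are `-(e p)`, `-(e r)` with `p > r`, and `cr (e p) (e r) = - cr (e r) (e p) > 0`), the blocks are increasing, and replace the second family of blocks by `l ↦ S - l` too (its order is reversed).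
Now the second family of blocks is either increasing or decreasing in `l`; traverse `[a',b']` forwards or backwards (`κ' t = a' + t` or `a' + (L' - t)`) so that the blocks increase. The chain `w ∘ κ'` is then left turning (all `cr > 0`) or right turning (all `cr < 0`). But `ori (x 0) (x 1) (x 2) > 0`, since the three points are in the convex hulls
of three increasing blocks of the left turning chain `w ∘ κ` (`ori (z i) (z j) (z k) = cr (z j - z i) (z k - z j) > 0` for `i < j < k`, and half spaces are convex), while it would be `< 0` if `w ∘ κ'` were right turning. So it is a `GoodChain`. Apply `few`. -/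
theorem few_raw {N m : ℕ} {w : ℕ → ℝ × ℝ} {s : ℕ → ℝ} (hN : 4 ≤ N) (h : Cyc N m w s) (hnb : NB N w s) {br : Finset ℕ}
    (hbr : Breaks N w s br) {S : ℕ} {x : ℕ → ℝ × ℝ} {a b a' b' : ℕ} (ha : 1 ≤ a) (hb : b ≤ N)
    (hno : ∀ k ∈ br, ¬ (a < k ∧ k < b)) (ha' : 1 ≤ a') (hb' : b' ≤ N) (hno' : ∀ k ∈ br, ¬ (a' < k ∧ k < b'))
    (hdis : b ≤ a' ∨ b' ≤ a) {lo hi lo' hi' : ℕ → ℕ}
    (h1 : ∀ l ≤ S, a ≤ lo l ∧ lo l ≤ hi l ∧ hi l ≤ b) (h2 : ∀ l < S, hi l < lo (l + 1))
    (h1' : ∀ l ≤ S, a' ≤ lo' l ∧ lo' l ≤ hi' l ∧ hi' l ≤ b')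
    (h2' : (∀ l < S, hi' l < lo' (l + 1)) ∨ (∀ l < S, hi' (l + 1) < lo' l))
    (hx : ∀ l ≤ S, x l ∈ convexHull ℝ (w '' Set.Icc (lo l) (hi l)))
    (hx' : ∀ l ≤ S, x l ∈ convexHull ℝ (w '' Set.Icc (lo' l) (hi' l))) : S ≤ 24 * br.card + 40 := by
  
  by_contra hcon
  have hS : 2 ≤ S := by omega
  -- the common final step
  have fin : ∀ (y : ℕ → ℝ × ℝ) (lo0' hi0' : ℕ → ℕ) (κ lo1 hi1 : ℕ → ℕ),
      ((∀ t, t ≤ b - a → κ t = a + t) ∨ (∀ t, t ≤ b - a → κ t = a + (b - a - t))) →
      (∀ i j, i < j → j < b - a → 0 < (1 : ℝ) * cr (w (κ (i + 1)) - w (κ i)) (w (κ (j + 1)) - w (κ j))) →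
      Blocks (b - a) S (fun t => w (κ t)) lo1 hi1 y →
      (∀ l ≤ S, a' ≤ lo0' l ∧ lo0' l ≤ hi0' l ∧ hi0' l ≤ b') →
      ((∀ l < S, hi0' l < lo0' (l + 1)) ∨ (∀ l < S, hi0' (l + 1) < lo0' l)) →
      (∀ l ≤ S, y l ∈ convexHull ℝ (w '' Set.Icc (lo0' l) (hi0' l))) → False := by
    intro y lo0' hi0' κ lo1 hi1 hκ hc hbl g1 g2 gx
    have ho := blocks_ori (ε := 1) (z := fun t => w (κ t)) hS hc hbl
    obtain ⟨κ', lo1', hi1', ε', hε', hκ', hc', hbl'⟩ := mk_chain hbr hS ha' hb' hno' g1 g2 gx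
    have ho' := blocks_ori (ε := ε') (z := fun t => w (κ' t)) hS hc' hbl'
    have he' : ε' = 1 := by
      rcases hε' with h | h
      · exact h
      · rw [h] at ho'; linarith
    rw [he'] at hc'
    have hab : a ≤ b := by
      have p := h1 0 (by omega); omega
    have hab' : a' ≤ b' := by
      have p := h1' 0 (by omega); omega
    refine hcon (few hN h hnb hbr (S := S) (x := y) (L := b - a) (q := a) (κ := κ) ha hκ (by omega) ?_
      (lo := lo1) (hi := hi1) ?_ hbl (L' := b' - a') (q' := a') (κ' := κ') ha' hκ' (by omega) ?_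
      (lo' := lo1') (hi' := hi1') ?_ hbl' (by omega))
    · intro k hk hkk; exact hno k hk ⟨hkk.1, by omega⟩
    · intro i j hij hj
      have := hc i j hij hj
      rw [one_mul] at this; exact this
    · intro k hk hkk; exact hno' k hk ⟨hkk.1, by omega⟩
    · intro i j hij hj
      have := hc' i j hij hj
      rw [one_mul] at this; exact this
  have hab : a + 2 ≤ b := by
    have p0 := h1 0 (by omega)
    have p1 := h1 1 (by omega)
    have p2 := h1 2 (by omega)
    have q0 := h2 0 (by omega)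
    have q1 := h2 1 (by omega)
    simp only [zero_add, Nat.reduceAdd] at q0 q1
    omega
  obtain ⟨ε, hε, hg⟩ := hbr.good a b ha hab hb hno
  rcases hε with hε | hε
  · rw [hε] at hg
    obtain ⟨c1, c2⟩ := mk_inc hg h1 h2 hx
    exact fin x lo' hi' (fun t => a + t) _ _ (Or.inl (fun _ _ => rfl)) c1 c2 h1' h2' hx'
  · -- reverse
    have g1 : ∀ l ≤ S, a ≤ lo (S - l) ∧ lo (S - l) ≤ hi (S - l) ∧ hi (S - l) ≤ b := fun l hl => h1 _ (by omega)
    have g2 : ∀ l < S, hi (S - (l + 1)) < lo (S - l) := by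
      intro l hl
      have := h2 (S - (l + 1)) (by omega)
      have e : S - (l + 1) + 1 = S - l := by omega
      rw [e] at this; exact this
    have gx : ∀ l ≤ S, x (S - l) ∈ convexHull ℝ (w '' Set.Icc (lo (S - l)) (hi (S - l))) := fun l hl => hx _ (by omega)
    have g1' : ∀ l ≤ S, a' ≤ lo' (S - l) ∧ lo' (S - l) ≤ hi' (S - l) ∧ hi' (S - l) ≤ b' := fun l hl => h1' _ (by omega)
    have g2' : (∀ l < S, hi' (S - l) < lo' (S - (l + 1))) ∨ (∀ l < S, hi' (S - (l + 1)) < lo' (S - l)) := by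
      rcases h2' with h2' | h2'
      · right; intro l hl
        have := h2' (S - (l + 1)) (by omega)
        have e : S - (l + 1) + 1 = S - l := by omega
        rw [e] at this; exact this
      · left; intro l hl
        have := h2' (S - (l + 1)) (by omega)
        have e : S - (l + 1) + 1 = S - l := by omega
        rw [e] at this; exact this
    have gx' : ∀ l ≤ S, x (S - l) ∈ convexHull ℝ (w '' Set.Icc (lo' (S - l)) (hi' (S - l))) := fun l hl => hx' _ (by omega)
    rw [hε] at hg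
    obtain ⟨c1, c2⟩ := mk_dec (x := fun l => x (S - l)) (lo := fun l => lo (S - l)) (hi := fun l => hi (S - l))
      hg g1 g2 gx
    rw [neg_neg] at c1
    exact fin (fun l => x (S - l)) (fun l => lo' (S - l)) (fun l => hi' (S - l)) (fun t => a + (b - a - t)) _ _
      (Or.inr (fun _ _ => rfl)) c1 c2 g1' g2' gx'

end SB758
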