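import Pool.Agent.Helper758_SB.Defs
import Pool.Agent.Helper758_SB.J17_raw

namespace SB758

open Finset

/-- edge vectors -/
def ed (p : ℕ → (ℝ × ℝ) × ℝ) (k : ℕ) : (ℝ × ℝ) × ℝ := p (k + 1) - p k

/-- nonnegative combinations of the edge vectors with indices in `[A, B]` -/
def Cn (p : ℕ → (ℝ × ℝ) × ℝ) (A B : ℕ) (q : (ℝ × ℝ) × ℝ) : Prop :=
  ∃ c : ℕ → ℝ, (∀ k, 0 ≤ c k) ∧ q = ∑ k ∈ Icc A B, c k • ed p k

lemma Cn.add {p : ℕ → (ℝ × ℝ) × ℝ} {A B : ℕ} {q r : (ℝ × ℝ) × ℝ} (h : Cn p A B q) (h' : Cn p A B r) :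
    Cn p A B (q + r) := by
  obtain ⟨c, hc, rfl⟩ := h
  obtain ⟨c', hc', rfl⟩ := h'
  refine ⟨fun k => c k + c' k, fun k => add_nonneg (hc k) (hc' k), ?_⟩
  rw [← Finset.sum_add_distrib]
  exact Finset.sum_congr rfl fun k _ => (add_smul _ _ _).symm

lemma Cn.zero {p : ℕ → (ℝ × ℝ) × ℝ} {A B : ℕ} : Cn p A B 0 :=
  ⟨fun _ => 0, fun _ => le_rfl, by simp⟩

lemma Cn.single {p : ℕ → (ℝ × ℝ) × ℝ} {A B k : ℕ} (hk : A ≤ k) (hk' : k ≤ B) {t : ℝ} (ht : 0 ≤ t) :
    Cn p A B (t • ed p k) := by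
  refine ⟨fun l => if l = k then t else 0, fun l => by dsimp only; split_ifs <;> simp [ht], ?_⟩
  simp only [ite_smul, zero_smul]
  rw [Finset.sum_ite_eq', if_pos (Finset.mem_Icc.2 ⟨hk, hk'⟩)]

lemma Cn.mono {p : ℕ → (ℝ × ℝ) × ℝ} {A B A' B' : ℕ} {q : (ℝ × ℝ) × ℝ} (h : Cn p A B q)
    (hA : A' ≤ A) (hB : B ≤ B') : Cn p A' B' q := by
  obtain ⟨c, hc, rfl⟩ := h
  refine ⟨fun l => if l ∈ Icc A B then c l else 0, fun l => by dsimp only; split_ifs <;> simp [hc l], ?_⟩
  simp only [ite_smul, zero_smul]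
  rw [← Finset.sum_filter]
  refine Finset.sum_congr ?_ fun _ _ => rfl
  ext l
  simp only [Finset.mem_filter, Finset.mem_Icc]
  omega

lemma Cn.tele {p : ℕ → (ℝ × ℝ) × ℝ} {A B m n : ℕ} (hA : A ≤ m) (hmn : m ≤ n) (hB : n ≤ B + 1) :
    Cn p A B (p n - p m) := by
  induction n, hmn using Nat.le_induction with
  | base => simpa using Cn.zero
  | succ n hmn ih =>
    have h1 := ih (by omega)
    have h2 : Cn p A B ((1 : ℝ) • ed p n) := Cn.single (by omega) (by omega) zero_le_one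
    have h3 := h1.add h2
    have h4 : p n - p m + (1 : ℝ) • ed p n = p (n + 1) - p m := by
      rw [one_smul, ed]; abel
    rwa [h4] at h3

lemma Cn.sign {p : ℕ → (ℝ × ℝ) × ℝ} {A B : ℕ} {q : (ℝ × ℝ) × ℝ} (h : Cn p A B q) {σ : ℝ}
    (hσ : ∀ k, A ≤ k → k ≤ B → 0 < σ * (ed p k).2) : 0 ≤ σ * q.2 := by
  obtain ⟨c, hc, rfl⟩ := h
  rw [Prod.snd_sum, Finset.mul_sum]
  refine Finset.sum_nonneg fun k hk => ?_
  rw [Finset.mem_Icc] at hk
  have := hσ k hk.1 hk.2
  have h2 : σ * (c k • ed p k).2 = c k * (σ * (ed p k).2) := by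
    rw [Prod.smul_snd, smul_eq_mul]; ring
  rw [h2]
  exact mul_nonneg (hc k) this.le

lemma ed_fst {p : ℕ → (ℝ × ℝ) × ℝ} (hz : ∀ i, (p (i + 1)).2 ≠ (p i).2) (k : ℕ) :
    (ed p k).1 = (ed p k).2 • pt p k := by
  have h : (ed p k).2 ≠ 0 := by
    rw [ed, Prod.snd_sub]; exact sub_ne_zero.2 (hz k)
  have h2 : pt p k = ((ed p k).2)⁻¹ • (ed p k).1 := rfl
  rw [h2, smul_smul, mul_inv_cancel₀ h, one_smul]

lemma Cn.hull {p : ℕ → (ℝ × ℝ) × ℝ} (hz : ∀ i, (p (i + 1)).2 ≠ (p i).2) {A B : ℕ}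
    {q : (ℝ × ℝ) × ℝ} (h : Cn p A B q) {σ : ℝ}
    (hσ : ∀ k, A ≤ k → k ≤ B → 0 < σ * (ed p k).2) (hq : q.2 ≠ 0) :
    q.2⁻¹ • q.1 ∈ convexHull ℝ (pt p '' Set.Icc A B) := by
  have hs := h.sign hσ
  obtain ⟨c, hc, hqc⟩ := h
  have hσ0 : σ ≠ 0 := by
    rintro rfl
    have hq2 : q.2 = ∑ k ∈ Icc A B, (c k • ed p k).2 := by rw [hqc, Prod.snd_sum]
    rcases (Icc A B).eq_empty_or_nonempty with he | ⟨k, hk⟩
    · rw [he, Finset.sum_empty] at hq2
      exact hq hq2
    · rw [Finset.mem_Icc] at hk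
      have := hσ k hk.1 hk.2
      simp at this
  have hs' : 0 < σ * q.2 := lt_of_le_of_ne hs (Ne.symm (mul_ne_zero hσ0 hq))
  have h1 : q.2⁻¹ • q.1 = ∑ k ∈ Icc A B, (q.2⁻¹ * (c k * (ed p k).2)) • pt p k := by
    conv_lhs => rw [show q.1 = ∑ k ∈ Icc A B, (c k • ed p k).1 by rw [hqc, Prod.fst_sum]]
    rw [Finset.smul_sum]
    refine Finset.sum_congr rfl fun k _ => ?_
    rw [Prod.smul_fst, ed_fst hz, smul_smul, smul_smul]
    congr 1
    ring
  rw [h1]
  refine (convex_convexHull ℝ _).sum_mem ?_ ?_ ?_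
  · intro k hk
    rw [Finset.mem_Icc] at hk
    have h2 := hσ k hk.1 hk.2
    have h3 : q.2⁻¹ * (c k * (ed p k).2) = (σ * q.2)⁻¹ * (c k * (σ * (ed p k).2)) := by
      field_simp
    rw [h3]
    exact mul_nonneg (inv_nonneg.2 hs'.le) (mul_nonneg (hc k) h2.le)
  · rw [← Finset.mul_sum]
    have h2 : ∑ k ∈ Icc A B, c k * (ed p k).2 = q.2 := by
      conv_rhs => rw [hqc, Prod.snd_sum]
      exact Finset.sum_congr rfl fun k _ => by rw [Prod.smul_snd, smul_eq_mul]
    rw [h2, inv_mul_cancel₀ hq]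
  · intro k hk
    rw [Finset.mem_Icc] at hk
    exact subset_convexHull ℝ _ ⟨k, hk, rfl⟩

/-- on a piece of length at least two the sign is constant -/
lemma sg_const {N : ℕ} {p : ℕ → (ℝ × ℝ) × ℝ} {br : Finset ℕ}
    (hbr : Breaks N (pt p) (sg p) br) {a b : ℕ} (ha : 1 ≤ a) (hb : b ≤ N)
    (hno : ∀ k ∈ br, ¬ (a < k ∧ k < b)) (hab : a + 2 ≤ b) :
    ∀ k, a ≤ k → k ≤ b → sg p k = sg p a := by
  intro k hk
  induction k, hk using Nat.le_induction with
  | base => intro _; rfl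
  | succ k hk ih =>
    intro hkb
    have ih' := ih (by omega)
    rcases Nat.lt_or_ge a k with h | h
    · have h1 := hbr.sg k (by omega) (by omega) (fun hc => hno k hc ⟨h, by omega⟩)
      rw [h1.2, ih']
    · have hka : k = a := by omega
      subst hka
      have h1 := hbr.sg (k + 1) (by omega) (by omega) (fun hc => hno (k + 1) hc ⟨by omega, by omega⟩)
      rw [← h1.1, Nat.add_sub_cancel]

lemma sg_mul_pos {p : ℕ → (ℝ × ℝ) × ℝ} (hz : ∀ i, (p (i + 1)).2 ≠ (p i).2) (k : ℕ) :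
    0 < sg p k * (ed p k).2 := by
  have h : (ed p k).2 = (p (k + 1)).2 - (p k).2 := by rw [ed, Prod.snd_sub]
  rw [sg, h]
  split_ifs with h1
  · linarith
  · have h2 : (p (k + 1)).2 - (p k).2 ≠ 0 := sub_ne_zero.2 (hz k)
    push Not at h1
    have := lt_of_le_of_ne h1 h2
    linarith

lemma sg_sq (p : ℕ → (ℝ × ℝ) × ℝ) (k : ℕ) : sg p k = 1 ∨ sg p k = -1 := by
  unfold sg; split_ifs <;> simp

lemma piece_pos {N : ℕ} {p : ℕ → (ℝ × ℝ) × ℝ} {br : Finset ℕ}
    (hbr : Breaks N (pt p) (sg p) br) (hz : ∀ i, (p (i + 1)).2 ≠ (p i).2)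
    {a b : ℕ} (ha : 1 ≤ a) (hb : b ≤ N)
    (hno : ∀ k ∈ br, ¬ (a < k ∧ k < b)) (hab : a + 2 ≤ b) :
    ∀ k, a ≤ k → k ≤ b → 0 < sg p a * (ed p k).2 := by
  intro k hk hk'
  rw [← sg_const hbr ha hb hno hab k hk hk']
  exact sg_mul_pos hz k

/-- the two parts of a pierced triangle -/
lemma tri {p : ℕ → (ℝ × ℝ) × ℝ} {i j : ℕ} {y : (ℝ × ℝ) × ℝ} (h : Pierced p i j y) {σ : ℝ}
    (h0 : 0 < σ * (ed p i).2) (h1 : 0 < σ * (ed p (i + 1)).2) :
    Cn p i (i + 1) (y - p i) ∧ 0 < σ * (y - p i).2 ∧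
    Cn p i (i + 1) (p (i + 2) - y) ∧ 0 < σ * (p (i + 2) - y).2 := by
  obtain ⟨_, hy, hne, hne'⟩ := h
  rw [convexHull_insert ⟨p (i + 1), by simp⟩, convexHull_pair] at hy
  simp only [convexJoin, Set.mem_iUnion, Set.mem_singleton_iff, exists_prop] at hy
  obtain ⟨x, rfl, z, hz, hyz⟩ := hy
  obtain ⟨u, v, hu, hv, huv, rfl⟩ := hz
  obtain ⟨s, t, hs, ht, hst, rfl⟩ := hyz
  -- y = s p i + t (u p (i+1) + v p (i+2)) = p i + t e_i + t v e_{i+1}
  have e1 : s • p i + t • (u • p (i + 1) + v • p (i + 2)) - p i =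
      t • ed p i + (t * v) • ed p (i + 1) := by
    have hs' : s = 1 - t := by linarith
    have hu' : u = 1 - v := by linarith
    rw [hs', hu', ed, ed]
    module
  have e2 : p (i + 2) - (s • p i + t • (u • p (i + 1) + v • p (i + 2))) =
      s • ed p i + (1 - t * v) • ed p (i + 1) := by
    have hs' : s = 1 - t := by linarith
    have hu' : u = 1 - v := by linarith
    rw [hs', hu', ed, ed]
    module
  have ht0 : 0 < t := by
    rcases ht.eq_or_lt with h | h
    · exfalso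
      apply hne
      rw [← sub_eq_zero, e1, ← h]
      simp
    · exact h
  have htv : t * v < 1 := by
    have htv1 : t * v ≤ 1 := by nlinarith
    rcases htv1.lt_or_eq with h | h
    · exact h
    · exfalso
      apply hne'
      have hs0 : s = 0 := by nlinarith
      rw [← sub_eq_zero, ← neg_sub, e2, h, hs0]
      simp
  have htv0 : 0 ≤ t * v := mul_nonneg ht hv
  refine ⟨?_, ?_, ?_, ?_⟩
  · rw [e1]
    exact (Cn.single le_rfl (by omega) ht).add (Cn.single (by omega) le_rfl htv0)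
  · rw [e1, Prod.snd_add, Prod.smul_snd, Prod.smul_snd, smul_eq_mul, smul_eq_mul]
    have := mul_pos ht0 h0
    have := mul_nonneg htv0 h1.le
    nlinarith
  · rw [e2]
    exact (Cn.single le_rfl (by omega) hs).add (Cn.single (by omega) le_rfl (by linarith))
  · rw [e2, Prod.snd_add, Prod.smul_snd, Prod.smul_snd, smul_eq_mul, smul_eq_mul]
    have := mul_nonneg hs h0.le
    have := mul_pos (sub_pos.2 htv) h1
    nlinarith

/-- the two parts of an edge -/
lemma edg {p : ℕ → (ℝ × ℝ) × ℝ} {j : ℕ} {y : (ℝ × ℝ) × ℝ} (h : y ∈ segment ℝ (p j) (p (j + 1))) :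
    Cn p j j (y - p j) ∧ Cn p j j (p (j + 1) - y) := by
  obtain ⟨s, t, hs, ht, hst, rfl⟩ := h
  have hs' : s = 1 - t := by linarith
  constructor
  · have : s • p j + t • p (j + 1) - p j = t • ed p j := by rw [hs', ed]; module
    rw [this]
    exact Cn.single le_rfl le_rfl ht
  · have : p (j + 1) - (s • p j + t • p (j + 1)) = s • ed p j := by
      rw [show s • ed p j = (1 - t) • ed p j by rw [hs'], ed, hs']; module
    rw [this]
    exact Cn.single le_rfl le_rfl hs

/-- TARGET 1. No edge of a piece pierces a triangle of the same piece.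
PROOF. If `b ≤ a + 1` then `i = a`, `j ∈ {a, a+1}`, excluded. Otherwise `sg p` is constant on `[a,b]` (`hbr.sg` at interior indices), so the heights `(p k).2` are strictly monotone for `k ∈ [a, b+1]`, say increasing. `y = p i + α (p (i+1) - p i) + β (p (i+2) - p (i+1))` with `0 ≤ β ≤ α ≤ 1` (barycentric coordinates), `α > 0` as `y ≠ p i`,
`β < 1` as `y ≠ p (i+2)`; so `(p i).2 < y.2 < (p (i+2)).2`. The edge `j` has heights in `[(p j).2, (p (j+1)).2]`; if `j ≥ i + 2` these are `≥ (p (i+2)).2`, if `j + 1 ≤ i` they are `≤ (p i).2`: contradiction. -/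
theorem no_self {N m : ℕ} {p : ℕ → (ℝ × ℝ) × ℝ} (h : Cyc N m (pt p) (sg p)) {br : Finset ℕ}
    (hbr : Breaks N (pt p) (sg p) br) (hz : ∀ i, (p (i + 1)).2 ≠ (p i).2)
    {a b : ℕ} (ha : 1 ≤ a) (hb : b ≤ N) (hno : ∀ k ∈ br, ¬ (a < k ∧ k < b)) {i j : ℕ} {y : (ℝ × ℝ) × ℝ}
    (hi : a ≤ i) (hi' : i + 1 ≤ b) (hj : a ≤ j) (hj' : j ≤ b) (hne : j ≠ i) (hne' : j ≠ i + 1) : ¬ Pierced p i j y := by
  intro hP
  rcases Nat.lt_or_ge b (a + 2) with hab | hab
  · omega
  have hpos := piece_pos hbr hz ha hb hno hab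
  obtain ⟨-, h1, -, h2⟩ := tri hP (hpos i hi (by omega)) (hpos (i + 1) (by omega) hi')
  obtain ⟨h3, h4⟩ := edg hP.1
  have h3' := h3.sign (σ := sg p a) (fun k hk hk' => hpos k (by omega) (by omega))
  have h4' := h4.sign (σ := sg p a) (fun k hk hk' => hpos k (by omega) (by omega))
  rcases Nat.lt_or_ge i j with hij | hij
  · -- j ≥ i + 2
    have h5 : Cn p a b (p j - p (i + 2)) := Cn.tele (by omega) (by omega) (by omega)
    have h5' := h5.sign (σ := sg p a) (fun k hk hk' => hpos k hk hk')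
    rw [Prod.snd_sub] at h2 h3' h5'
    nlinarith
  · have h5 : Cn p a b (p i - p (j + 1)) := Cn.tele (by omega) (by omega) (by omega)
    have h5' := h5.sign (σ := sg p a) (fun k hk hk' => hpos k hk hk')
    rw [Prod.snd_sub] at h1 h4' h5'
    nlinarith


/-- hulls of disjoint index ranges of a good chain are disjoint -/
lemma hull_disj {w : ℕ → ℝ × ℝ} {a b : ℕ} (hab : a + 2 ≤ b) {ε : ℝ}
    (hg : ∀ k l, a ≤ k → k < l → l < b → 0 < ε * cr (w (k + 1) - w k) (w (l + 1) - w l))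
    {A B A' B' : ℕ} (hA : a ≤ A) (hBA : B < A') (hB : B' ≤ b)
    {x : ℝ × ℝ} (h : x ∈ convexHull ℝ (w '' Set.Icc A B))
    (h' : x ∈ convexHull ℝ (w '' Set.Icc A' B')) : False := by
  set f : ℝ × ℝ → ℝ := fun y => ε * (cr (w (a + 1) - w a) y + cr y (w b - w (b - 1))) with hf
  have hlin : IsLinearMap ℝ f := by
    constructor
    · intro x y; simp only [hf, cr, Prod.fst_add, Prod.snd_add]; ring
    · intro c x; simp only [hf, cr, Prod.smul_fst, Prod.smul_snd, smul_eq_mul]; ring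
  have hb1 : b - 1 + 1 = b := by omega
  have hstep : ∀ k, a ≤ k → k < b → f (w k) < f (w (k + 1)) := by
    intro k hk hkb
    have h0 : f (w (k + 1)) - f (w k) = ε * cr (w (a + 1) - w a) (w (k + 1) - w k) +
        ε * cr (w (k + 1) - w k) (w b - w (b - 1)) := by
      simp only [hf, cr, Prod.fst_sub, Prod.snd_sub]; ring
    have hcr : ∀ z : ℝ × ℝ, cr z z = 0 := fun z => by simp only [cr]; ring
    rcases hk.eq_or_lt with hka | hka
    · subst hka
      have h2 := hg a (b - 1) le_rfl (by omega) (by omega)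
      rw [hb1] at h2
      rw [hcr] at h0
      linarith
    · have h1 := hg a k le_rfl hka hkb
      rcases Nat.lt_or_ge k (b - 1) with hk2 | hk2
      · have h2 := hg k (b - 1) hk hk2 (by omega)
        rw [hb1] at h2
        linarith
      · have hk3 : k = b - 1 := by omega
        have h3 : w (k + 1) - w k = w b - w (b - 1) := by rw [hk3, hb1]
        rw [← h3, hcr] at h0
        linarith
  have hmono : ∀ k l, a ≤ k → k ≤ l → l ≤ b → f (w k) ≤ f (w l) := by
    intro k l hk hkl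
    induction l, hkl using Nat.le_induction with
    | base => intro _; exact le_rfl
    | succ l hkl ih => intro hlb; exact (ih (by omega)).trans (hstep l (by omega) (by omega)).le
  have hne : (Set.Icc A B).Nonempty := by
    by_contra hc
    rw [Set.not_nonempty_iff_eq_empty] at hc
    rw [hc] at h
    simp at h
  have hne' : (Set.Icc A' B').Nonempty := by
    by_contra hc
    rw [Set.not_nonempty_iff_eq_empty] at hc
    rw [hc] at h'
    simp at h'
  rw [Set.nonempty_Icc] at hne hne'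
  have h1 : f x ≤ f (w B) := by
    refine (convexHull_min ?_ (convex_halfSpace_le hlin (f (w B)))) h
    rintro _ ⟨k, hk, rfl⟩
    exact hmono k B (hA.trans hk.1) hk.2 (by omega)
  have h2 : f (w A') ≤ f x := by
    refine (convexHull_min ?_ (convex_halfSpace_ge hlin (f (w A')))) h'
    rintro _ ⟨k, hk, rfl⟩
    exact hmono A' k (by omega) hk.1 (hk.2.trans hB)
  have h3 : f (w B) < f (w (B + 1)) := hstep B (by omega) (by omega)
  have h4 : f (w (B + 1)) ≤ f (w A') := hmono _ _ (by omega) (by omega) (by omega)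
  linarith

lemma same_edge {p : ℕ → (ℝ × ℝ) × ℝ} {c : ℕ} {y z : (ℝ × ℝ) × ℝ}
    (hy : y ∈ segment ℝ (p c) (p (c + 1))) (hz : z ∈ segment ℝ (p c) (p (c + 1)))
    (hne : (z - y).2 ≠ 0) : (z - y).2⁻¹ • (z - y).1 = pt p c := by
  obtain ⟨s, t, -, -, hst, rfl⟩ := hy
  obtain ⟨s', t', -, -, hst', rfl⟩ := hz
  have h1 : (s' • p c + t' • p (c + 1)) - (s • p c + t • p (c + 1)) = (t' - t) • ed p c := by
    rw [show s' = 1 - t' by linarith, show s = 1 - t by linarith, ed]; module
  rw [h1] at hne ⊢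
  rw [Prod.smul_snd, smul_eq_mul] at hne
  have h2 := left_ne_zero_of_mul hne
  have h3 : pt p c = ((ed p c).2)⁻¹ • (ed p c).1 := rfl
  rw [Prod.smul_snd, Prod.smul_fst, smul_eq_mul, smul_smul, h3, mul_inv]
  congr 1
  field_simp

/-- TARGET 2 (Step 7 of the paper proof). Few triangles of one piece are pierced by edges of another piece.
PROOF. If `b ≤ a + 1` then `card I ≤ 1`. Let `b ≥ a + 2`; `sg p` is constant on `[a,b]`, the chain `[a,b]` is good with a sign ε (`hbr.good`). Write `e k = p (k+1) - p k = (e k).2 • (pt p k, 1)`.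
(1) As above `y i = p i + α e i + β e (i+1)`, `0 ≤ β ≤ α ≤ 1`, `α > 0`, `β < 1`. For `i, i' ∈ I` with `i + 2 ≤ i'`: `y i' - y i = (1-α) e i + (1-β) e (i+1) + e (i+2) + ... + e (i'-1) + α' e i' + β' e (i'+1)`, all coefficients `≥ 0` and `1 - β > 0`, so its height `H` has the sign of the piece, is nonzero, and its planar point
`X = H⁻¹ • (y i' - y i).1` is in `convexHull (pt p '' Icc i (i'+1))`.
(2) `y i = p (j i) + γ e (j i)`, `0 ≤ γ ≤ 1`. If `j i = j i' = c` then `X = pt p c`. If `j i < j i'`: `y i' - y i = (1-γ) e (j i) + ... + γ' e (j i')`, if `j i > j i'` it is minus such a combination. If `b' ≥ a' + 2`, `sg p` is constant on `[a',b']`; so in both cases `X ∈ convexHull (pt p '' Icc (min (j i) (j i')) (max ..))`, and `j` is monotone: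
if the constant signs on `[a,b]` and `[a',b']` agree then `j i ≤ j i'` for all `i + 2 ≤ i'` in `I`, otherwise `j i ≥ j i'`.
(3) There are no four elements `i1 < i2 < i3 < i4` of `I` with gaps `≥ 2` and the same `j = c`: `pt p c` would be in `convexHull (pt p '' Icc i1 (i2+1))` and in `convexHull (pt p '' Icc i3 (i4+1))`, which are disjoint: the linear function `lam y = cr (e₁) y + cr y (e₂)`, `e₁, e₂` the first and last edge vectors `pt p (a+1) - pt p a`, `pt p b - pt p (b-1)` of the chain, times ε, is strictly increasing along the chain.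
So any 8 consecutive elements of `I` contain two elements with gap and different `j` values; more precisely list `I` increasingly as `i_0 < i_1 < ...` and put `i'_n = i_{8n}`: then `j (i'_n) ≠ j (i'_{n+1})` (otherwise by monotonicity `j` takes the same value at `i_{8n}, i_{8n+2}, i_{8n+4}, i_{8n+6}`).
If `b' ≤ a' + 1` then `j` takes at most two values and `card I ≤ 16` by (3) (pigeonhole, no monotonicity needed: among 15 or more elements with the same `j` take every second; total `card I ≤ 16`; or simply use the crude bound). Otherwise `j (i'_n)` is strictly monotone in `n`.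
(4) Let `S + 1 = ⌊(number of i'_n) / 2⌋` and `x l = ` the planar point `X` of `y (i'_{2l+1}) - y (i'_{2l})`, `lo l = i'_{2l}`, `hi l = i'_{2l+1} + 1`, `lo' l, hi' l` the smaller and the larger of `j (i'_{2l}), j (i'_{2l+1})`. Then `few_raw` gives `S ≤ 24 card br + 40`, and `card I ≤ 8 * (2 S + 4)`. -/
theorem pierce_pair {N m : ℕ} {p : ℕ → (ℝ × ℝ) × ℝ} (hN : 4 ≤ N) (h : Cyc N m (pt p) (sg p)) (hnb : NB N (pt p) (sg p))
    {br : Finset ℕ} (hbr : Breaks N (pt p) (sg p) br) (hz : ∀ i, (p (i + 1)).2 ≠ (p i).2)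
    {a b a' b' : ℕ} (ha : 1 ≤ a) (hb : b ≤ N) (hno : ∀ k ∈ br, ¬ (a < k ∧ k < b))
    (ha' : 1 ≤ a') (hb' : b' ≤ N) (hno' : ∀ k ∈ br, ¬ (a' < k ∧ k < b')) (hdis : b ≤ a' ∨ b' ≤ a)
    (I : Finset ℕ) (j : ℕ → ℕ) (y : ℕ → (ℝ × ℝ) × ℝ)
    (hI : ∀ i ∈ I, a ≤ i ∧ i + 1 ≤ b ∧ a' ≤ j i ∧ j i ≤ b' ∧ Pierced p i (j i) (y i)) :
    I.card ≤ 16 * (24 * br.card + 45) := by
  classical
  by_contra hcon
  push Not at hcon
  rcases Nat.lt_or_ge b (a + 2) with hab | hab
  · have h1 : I ⊆ {a} := by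
      intro i hi
      obtain ⟨h1, h2, -⟩ := hI i hi
      rw [Finset.mem_singleton]
      omega
    have h2 := Finset.card_le_card h1
    rw [Finset.card_singleton] at h2
    omega
  obtain ⟨ε, -, hg⟩ := hbr.good a b ha hab hb hno
  have hpos := piece_pos hbr hz ha hb hno hab
  have hσ := sg_sq p a
  set σ := sg p a with hσdef
  -- differences along the piece
  have hd : ∀ i ∈ I, ∀ i' ∈ I, i + 2 ≤ i' →
      Cn p i (i' + 1) (y i' - y i) ∧ 0 < σ * (y i' - y i).2 := by
    intro i hi i' hi' hii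
    obtain ⟨h1, h2, -, -, hP⟩ := hI i hi
    obtain ⟨h1', h2', -, -, hP'⟩ := hI i' hi'
    obtain ⟨-, -, t3, t4⟩ := tri hP (hpos i h1 (by omega)) (hpos (i + 1) (by omega) h2)
    obtain ⟨t1, t2, -, -⟩ := tri hP' (hpos i' h1' (by omega)) (hpos (i' + 1) (by omega) h2')
    have t5 : Cn p i (i' + 1) (p i' - p (i + 2)) := Cn.tele (by omega) hii (by omega)
    have t5' := t5.sign (σ := σ) (fun k hk hk' => hpos k (by omega) (by omega))
    have e : y i' - y i = (p (i + 2) - y i) + (p i' - p (i + 2)) + (y i' - p i') := by abel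
    refine ⟨?_, ?_⟩
    · rw [e]
      exact ((t3.mono le_rfl (by omega)).add t5).add (t1.mono (by omega) le_rfl)
    · rw [e, Prod.snd_add, Prod.snd_add, mul_add, mul_add]
      linarith
  set X : ℕ → ℕ → ℝ × ℝ := fun i i' => (y i' - y i).2⁻¹ • (y i' - y i).1 with hX
  have hne : ∀ i ∈ I, ∀ i' ∈ I, i + 2 ≤ i' → (y i' - y i).2 ≠ 0 := by
    intro i hi i' hi' hii h0
    have := (hd i hi i' hi' hii).2
    rw [h0, mul_zero] at this
    exact lt_irrefl _ this
  have hXhull : ∀ i ∈ I, ∀ i' ∈ I, i + 2 ≤ i' →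
      X i i' ∈ convexHull ℝ (pt p '' Set.Icc i (i' + 1)) := by
    intro i hi i' hi' hii
    obtain ⟨h1, h2, -⟩ := hI i hi
    obtain ⟨h1', h2', -⟩ := hI i' hi'
    exact (hd i hi i' hi' hii).1.hull hz (σ := σ)
      (fun k hk hk' => hpos k (by omega) (by omega)) (hne i hi i' hi' hii)
  have hXsame : ∀ i ∈ I, ∀ i' ∈ I, i + 2 ≤ i' → j i = j i' → X i i' = pt p (j i) := by
    intro i hi i' hi' hii hj
    have h1 := (hI i hi).2.2.2.2.1
    have h2 := (hI i' hi').2.2.2.2.1
    rw [← hj] at h2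
    exact same_edge h1 h2 (hne i hi i' hi' hii)
  -- no four triangles on the same edge
  have hfour : ∀ i1 ∈ I, ∀ i2 ∈ I, ∀ i3 ∈ I, ∀ i4 ∈ I, i1 + 2 ≤ i2 → i2 + 2 ≤ i3 → i3 + 2 ≤ i4 →
      j i1 = j i2 → j i2 = j i3 → j i3 = j i4 → False := by
    intro i1 h1 i2 h2 i3 h3 i4 h4 h12 h23 h34 e12 e23 e34
    have a1 := hXhull i1 h1 i2 h2 h12
    have a2 := hXhull i3 h3 i4 h4 h34
    rw [hXsame i1 h1 i2 h2 h12 e12] at a1
    rw [hXsame i3 h3 i4 h4 h34 e34, ← e23, ← e12] at a2
    exact hull_disj hab hg (hI i1 h1).1 (by omega) (hI i4 h4).2.1 a1 a2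
  rcases Nat.lt_or_ge b' (a' + 2) with hab' | hab'
  · -- at most two edges
    have h7 : ∀ c, (I.filter (fun i => j i = c)).card ≤ 7 := by
      intro c
      by_contra hc
      push Not at hc
      set f := (I.filter (fun i => j i = c)).orderEmbOfFin rfl with hf
      have hfm : ∀ n, f n ∈ I ∧ j (f n) = c := by
        intro n
        have := Finset.orderEmbOfFin_mem (I.filter (fun i => j i = c)) rfl n
        exact Finset.mem_filter.1 this
      have hlt : ∀ m n : Fin _, m < n → f m < f n := fun m n hmn => f.strictMono hmn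
      have s01 := hlt ⟨0, by omega⟩ ⟨1, by omega⟩ (by simp [Fin.lt_def])
      have s12 := hlt ⟨1, by omega⟩ ⟨2, by omega⟩ (by simp [Fin.lt_def])
      have s23 := hlt ⟨2, by omega⟩ ⟨3, by omega⟩ (by simp [Fin.lt_def])
      have s34 := hlt ⟨3, by omega⟩ ⟨4, by omega⟩ (by simp [Fin.lt_def])
      have s45 := hlt ⟨4, by omega⟩ ⟨5, by omega⟩ (by simp [Fin.lt_def])
      have s56 := hlt ⟨5, by omega⟩ ⟨6, by omega⟩ (by simp [Fin.lt_def])
      exact hfour _ (hfm ⟨0, by omega⟩).1 _ (hfm ⟨2, by omega⟩).1 _ (hfm ⟨4, by omega⟩).1 _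
        (hfm ⟨6, by omega⟩).1 (by omega) (by omega) (by omega)
        ((hfm _).2.trans (hfm _).2.symm) ((hfm _).2.trans (hfm _).2.symm)
        ((hfm _).2.trans (hfm _).2.symm)
    have hsub : I ⊆ I.filter (fun i => j i = a') ∪ I.filter (fun i => j i = a' + 1) := by
      intro i hi
      obtain ⟨-, -, h1, h2, -⟩ := hI i hi
      rw [Finset.mem_union, Finset.mem_filter, Finset.mem_filter]
      have : j i = a' ∨ j i = a' + 1 := by omega
      rcases this with h | h
      · exact Or.inl ⟨hi, h⟩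
      · exact Or.inr ⟨hi, h⟩
    have h1 := Finset.card_le_card hsub
    have h2 := Finset.card_union_le (I.filter (fun i => j i = a')) (I.filter (fun i => j i = a' + 1))
    have h3 := h7 a'
    have h4 := h7 (a' + 1)
    omega
  -- the second piece is long
  have hpos' := piece_pos hbr hz ha' hb' hno' hab'
  have hσ' := sg_sq p a'
  set σ' := sg p a' with hσ'def
  have hlt : ∀ i ∈ I, ∀ i' ∈ I, j i < j i' → Cn p (j i) (j i') (y i' - y i) := by
    intro i hi i' hi' hj
    have h1 := edg (hI i hi).2.2.2.2.1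
    have h2 := edg (hI i' hi').2.2.2.2.1
    have e : y i' - y i = (p (j i + 1) - y i) + (p (j i') - p (j i + 1)) + (y i' - p (j i')) := by
      abel
    rw [e]
    refine ((h1.2.mono le_rfl hj.le).add ?_).add (h2.1.mono hj.le le_rfl)
    exact Cn.tele (by omega) hj (by omega)
  have hlts : ∀ i ∈ I, ∀ i' ∈ I, j i < j i' → 0 ≤ σ' * (y i' - y i).2 := by
    intro i hi i' hi' hj
    obtain ⟨-, -, h1, h2, -⟩ := hI i hi
    obtain ⟨-, -, h1', h2', -⟩ := hI i' hi'
    exact (hlt i hi i' hi' hj).sign (fun k hk hk' => hpos' k (by omega) (by omega))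
  have hXlt : ∀ i ∈ I, ∀ i' ∈ I, i + 2 ≤ i' → j i < j i' →
      X i i' ∈ convexHull ℝ (pt p '' Set.Icc (j i) (j i')) := by
    intro i hi i' hi' hii hj
    obtain ⟨-, -, h1, h2, -⟩ := hI i hi
    obtain ⟨-, -, h1', h2', -⟩ := hI i' hi'
    exact (hlt i hi i' hi' hj).hull hz (σ := σ')
      (fun k hk hk' => hpos' k (by omega) (by omega)) (hne i hi i' hi' hii)
  have hXgt : ∀ i ∈ I, ∀ i' ∈ I, i + 2 ≤ i' → j i' < j i →
      X i i' ∈ convexHull ℝ (pt p '' Set.Icc (j i') (j i)) := by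
    intro i hi i' hi' hii hj
    obtain ⟨-, -, h1, h2, -⟩ := hI i hi
    obtain ⟨-, -, h1', h2', -⟩ := hI i' hi'
    have e : X i i' = (y i - y i').2⁻¹ • (y i - y i').1 := by
      simp only [hX]
      rw [← neg_sub (y i) (y i'), Prod.snd_neg, Prod.fst_neg, inv_neg, neg_smul_neg]
    have hn : (y i - y i').2 ≠ 0 := by
      rw [← neg_sub, Prod.snd_neg]
      exact neg_ne_zero.2 (hne i hi i' hi' hii)
    rw [e]
    exact (hlt i' hi' i hi hj).hull hz (σ := σ')
      (fun k hk hk' => hpos' k (by omega) (by omega)) hn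
  -- enumeration with gaps
  set f := I.orderEmbOfFin rfl with hf
  set g : ℕ → ℕ := fun n => if h : 2 * n < I.card then f ⟨2 * n, h⟩ else 0 with hgdef
  have hgI : ∀ n, 2 * n < I.card → g n ∈ I := by
    intro n hn
    simp only [hgdef, dif_pos hn]
    exact Finset.orderEmbOfFin_mem I rfl _
  have hgm : ∀ m n, m < n → 2 * n < I.card → g m + 2 ≤ g n := by
    intro m n hmn hn
    have hm : 2 * m < I.card := by omega
    have hm1 : 2 * m + 1 < I.card := by omega
    simp only [hgdef, dif_pos hn, dif_pos hm]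
    have h1 : f ⟨2 * m, hm⟩ < f ⟨2 * m + 1, hm1⟩ := f.strictMono (by simp [Fin.lt_def])
    have h2 : f ⟨2 * m + 1, hm1⟩ < f ⟨2 * n, hn⟩ := f.strictMono (by simp only [Fin.lt_def]; omega)
    omega
  set S : ℕ := 24 * br.card + 41 with hS
  have hrange : ∀ n, n ≤ 2 * S + 1 → 2 * (3 * n) < I.card := by
    intro n hn
    omega
  have hkI : ∀ n, n ≤ 2 * S + 1 → g (3 * n) ∈ I := fun n hn => hgI _ (hrange n hn)
  have hkm : ∀ m n, m < n → n ≤ 2 * S + 1 → g (3 * m) + 2 ≤ g (3 * n) := fun m n hmn hn =>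
    hgm _ _ (by omega) (hrange n hn)
  have hnofour : ∀ n, n + 1 ≤ 2 * S + 1 → j (g (3 * n)) = j (g (3 * n + 1)) →
      j (g (3 * n + 1)) = j (g (3 * n + 2)) → j (g (3 * n + 2)) = j (g (3 * n + 3)) → False := by
    intro n hn e1 e2 e3
    have hr := hrange (n + 1) hn
    exact hfour _ (hgI (3 * n) (by omega)) _ (hgI (3 * n + 1) (by omega)) _
      (hgI (3 * n + 2) (by omega)) _ (hgI (3 * n + 3) (by omega))
      (hgm _ _ (by omega) (by omega)) (hgm _ _ (by omega) (by omega))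
      (hgm _ _ (by omega) (by omega)) e1 e2 e3
  have hmem2 : ∀ l, l ≤ S → g (3 * (2 * l)) ∈ I ∧ g (3 * (2 * l + 1)) ∈ I ∧
      g (3 * (2 * l)) + 2 ≤ g (3 * (2 * l + 1)) := by
    intro l hl
    exact ⟨hkI _ (by omega), hkI _ (by omega), hkm _ _ (by omega) (by omega)⟩
  by_cases hss : σ = σ'
  · -- increasing case
    have hmono : ∀ i ∈ I, ∀ i' ∈ I, i + 2 ≤ i' → j i ≤ j i' := by
      intro i hi i' hi' hii
      by_contra hc
      push Not at hc
      have h1 := hlts i' hi' i hi hc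
      have h2 := (hd i hi i' hi' hii).2
      rw [← hss, ← neg_sub, Prod.snd_neg, mul_neg] at h1
      linarith
    have hstrict : ∀ n, n + 1 ≤ 2 * S + 1 → j (g (3 * n)) < j (g (3 * (n + 1))) := by
      intro n hn
      have hr := hrange (n + 1) hn
      have m1 := hmono _ (hgI (3 * n) (by omega)) _ (hgI (3 * n + 1) (by omega))
        (hgm _ _ (by omega) (by omega))
      have m2 := hmono _ (hgI (3 * n + 1) (by omega)) _ (hgI (3 * n + 2) (by omega))
        (hgm _ _ (by omega) (by omega))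
      have m3 := hmono _ (hgI (3 * n + 2) (by omega)) _ (hgI (3 * n + 3) (by omega))
        (hgm _ _ (by omega) (by omega))
      have hn3 : 3 * (n + 1) = 3 * n + 3 := by ring
      rw [hn3]
      by_contra hc
      push Not at hc
      exact hnofour n hn (by omega) (by omega) (by omega)
    have hfin := few_raw hN h hnb hbr (S := S)
      (x := fun l => X (g (3 * (2 * l))) (g (3 * (2 * l + 1)))) ha hb hno ha' hb' hno' hdis
      (lo := fun l => g (3 * (2 * l))) (hi := fun l => g (3 * (2 * l + 1)) + 1)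
      (lo' := fun l => j (g (3 * (2 * l)))) (hi' := fun l => j (g (3 * (2 * l + 1))))
      (by
        intro l hl
        obtain ⟨q1, q2, q3⟩ := hmem2 l hl
        exact ⟨(hI _ q1).1, by omega, (hI _ q2).2.1⟩)
      (by
        intro l hl
        have := hkm (2 * l + 1) (2 * (l + 1)) (by omega) (by omega)
        omega)
      (by
        intro l hl
        obtain ⟨q1, q2, q3⟩ := hmem2 l hl
        exact ⟨(hI _ q1).2.2.1, (hstrict (2 * l) (by omega)).le, (hI _ q2).2.2.2.1⟩)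
      (Or.inl (by
        intro l hl
        have := hstrict (2 * l + 1) (by omega)
        have e : 2 * l + 1 + 1 = 2 * (l + 1) := by ring
        rw [e] at this
        exact this))
      (by
        intro l hl
        obtain ⟨q1, q2, q3⟩ := hmem2 l hl
        exact hXhull _ q1 _ q2 q3)
      (by
        intro l hl
        obtain ⟨q1, q2, q3⟩ := hmem2 l hl
        exact hXlt _ q1 _ q2 q3 (hstrict (2 * l) (by omega)))
    omega
  · -- decreasing case
    have hss' : σ' = -σ := by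
      rcases hσ with h1 | h1 <;> rcases hσ' with h2 | h2
      · exact absurd (h1.trans h2.symm) hss
      · rw [h1, h2]
      · rw [h1, h2, neg_neg]
      · exact absurd (h1.trans h2.symm) hss
    have hmono : ∀ i ∈ I, ∀ i' ∈ I, i + 2 ≤ i' → j i' ≤ j i := by
      intro i hi i' hi' hii
      by_contra hc
      push Not at hc
      have h1 := hlts i hi i' hi' hc
      have h2 := (hd i hi i' hi' hii).2
      rw [hss', neg_mul] at h1
      linarith
    have hstrict : ∀ n, n + 1 ≤ 2 * S + 1 → j (g (3 * (n + 1))) < j (g (3 * n)) := by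
      intro n hn
      have hr := hrange (n + 1) hn
      have m1 := hmono _ (hgI (3 * n) (by omega)) _ (hgI (3 * n + 1) (by omega))
        (hgm _ _ (by omega) (by omega))
      have m2 := hmono _ (hgI (3 * n + 1) (by omega)) _ (hgI (3 * n + 2) (by omega))
        (hgm _ _ (by omega) (by omega))
      have m3 := hmono _ (hgI (3 * n + 2) (by omega)) _ (hgI (3 * n + 3) (by omega))
        (hgm _ _ (by omega) (by omega))
      have hn3 : 3 * (n + 1) = 3 * n + 3 := by ring
      rw [hn3]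
      by_contra hc
      push Not at hc
      exact hnofour n hn (by omega) (by omega) (by omega)
    have hfin := few_raw hN h hnb hbr (S := S)
      (x := fun l => X (g (3 * (2 * l))) (g (3 * (2 * l + 1)))) ha hb hno ha' hb' hno' hdis
      (lo := fun l => g (3 * (2 * l))) (hi := fun l => g (3 * (2 * l + 1)) + 1)
      (lo' := fun l => j (g (3 * (2 * l + 1)))) (hi' := fun l => j (g (3 * (2 * l))))
      (by
        intro l hl
        obtain ⟨q1, q2, q3⟩ := hmem2 l hl
        exact ⟨(hI _ q1).1, by omega, (hI _ q2).2.1⟩)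
      (by
        intro l hl
        have := hkm (2 * l + 1) (2 * (l + 1)) (by omega) (by omega)
        omega)
      (by
        intro l hl
        obtain ⟨q1, q2, q3⟩ := hmem2 l hl
        exact ⟨(hI _ q2).2.2.1, (hstrict (2 * l) (by omega)).le, (hI _ q1).2.2.2.1⟩)
      (Or.inr (by
        intro l hl
        have := hstrict (2 * l + 1) (by omega)
        have e : 2 * l + 1 + 1 = 2 * (l + 1) := by ring
        rw [e] at this
        exact this))
      (by
        intro l hl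
        obtain ⟨q1, q2, q3⟩ := hmem2 l hl
        exact hXhull _ q1 _ q2 q3)
      (by
        intro l hl
        obtain ⟨q1, q2, q3⟩ := hmem2 l hl
        exact hXgt _ q1 _ q2 q3 (hstrict (2 * l) (by omega)))
    omega

end SB758
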