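import Pool.Agent.Helper758_SB.Defs
import Pool.Agent.Helper758_SB.J01_nb
import Pool.Agent.Helper758_SB.J11_breaks
import Pool.Agent.Helper758_SB.J18_pierce

namespace SB758

open Finset

/-- TARGET. If `N` is large, some triangle is not pierced.
PROOF. Let `C` be the constant of `exists_breaks m` and `N₀ = 5 + C + C^2 * (16 * (24 * C + 45))`. Suppose every `i ∈ [1, N-1]` is pierced: `j i ∈ [1,N]`, `j i ≠ i, i+1`, `y i`. For `i ∈ [1,N-1]` let `A i` be the largest element of `br` that is `≤ i` and `B i` the smallest element of `br` that is `> i`, so `A i ≤ i < i + 1 ≤ B i` and there is no break strictly between.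
For `j ∈ [1,N]` let `A' j` be the largest element of `br` that is `≤ j` and `B' j` the smallest element of `br` that is `> j` if `j < N`, and `B' N = N` (`A' N = N`); again no break strictly between. By pigeonhole on the pair `(A i, A' (j i)) ∈ br × br` one fibre `I` has more than `16 (24 card br + 45)` elements (there are `N - 1 ≥ ...` indices). On the fibre `B i` and `B' (j i)` are constant too.
If `A i = A' (j i)` then `j i ∈ [A i, B i]` and `no_self` gives a contradiction. Otherwise the intervals `[A i, B i]`, `[A' (j i), B' (j i)]` satisfy `hdis` (intervals between consecutive breaks), and `pierce_pair` gives a contradiction. -/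
theorem ct (m : ℕ) : ∃ N₀ : ℕ, ∀ (N : ℕ) (p : ℕ → (ℝ × ℝ) × ℝ), N₀ ≤ N → Cyc N m (pt p) (sg p) →
    (∀ i, (p (i + 1)).2 ≠ (p i).2) →
    ∃ i, 1 ≤ i ∧ i < N ∧ ∀ (j : ℕ) (y : (ℝ × ℝ) × ℝ), 1 ≤ j → j ≤ N → j ≠ i → j ≠ i + 1 → ¬ Pierced p i j y := by
  obtain ⟨C, hC⟩ := exists_breaks m
  refine ⟨5 + C + C^2 * (16 * (24 * C + 45)), ?_⟩
  intro N p hN hcyc hz
  by_contra hcon
  push Not at hcon
  have hN4 : 4 ≤ N := by
    have : 0 ≤ C^2 * (16 * (24 * C + 45)) := Nat.zero_le _
    omega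
  have hnb : NB N (pt p) (sg p) := nb_of_tv hN4 hcyc
  obtain ⟨br, hcard, hbr⟩ := hC N (pt p) (sg p) hN4 hcyc hnb
  -- choose j, y
  have hch : ∀ i : ℕ, ∃ (j : ℕ) (y : (ℝ × ℝ) × ℝ), 1 ≤ i → i < N →
      (1 ≤ j ∧ j ≤ N ∧ j ≠ i ∧ j ≠ i + 1 ∧ Pierced p i j y) := by
    intro i
    by_cases h1 : 1 ≤ i ∧ i < N
    · obtain ⟨j, y, a1, a2, a3, a4, a5⟩ := hcon i h1.1 h1.2
      exact ⟨j, y, fun _ _ => ⟨a1, a2, a3, a4, a5⟩⟩
    · exact ⟨0, 0, fun h h' => absurd ⟨h, h'⟩ h1⟩
  choose j y hjy using hch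
  -- next break
  obtain ⟨nxt, hnxt1, hnxt2, hnxt3, hnxt4⟩ : ∃ nxt : ℕ → ℕ, (∀ a, nxt a ≤ N) ∧
      (∀ a c, a < c → c ∈ br → nxt a ≤ c) ∧ (∀ a, a < N → a < nxt a ∧ nxt a ∈ br) ∧
      (∀ a, N ≤ a → nxt a = N) := by
    classical
    refine ⟨fun a => if h : (br.filter (fun c => a < c)).Nonempty then (br.filter (fun c => a < c)).min' h else N,
      ?_, ?_, ?_, ?_⟩
    · intro a
      dsimp only
      split_ifs with h
      · have := Finset.min'_mem _ h
        rw [Finset.mem_filter] at this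
        exact (hbr.rng _ this.1).2
      · exact le_refl _
    · intro a c hac hc
      have hm : c ∈ br.filter (fun c => a < c) := Finset.mem_filter.2 ⟨hc, hac⟩
      have h : (br.filter (fun c => a < c)).Nonempty := ⟨c, hm⟩
      dsimp only
      rw [dif_pos h]
      exact Finset.min'_le _ _ hm
    · intro a ha
      have hm : N ∈ br.filter (fun c => a < c) := Finset.mem_filter.2 ⟨hbr.top, ha⟩
      have h : (br.filter (fun c => a < c)).Nonempty := ⟨N, hm⟩
      dsimp only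
      rw [dif_pos h]
      have := Finset.min'_mem _ h
      rw [Finset.mem_filter] at this
      exact ⟨this.2, this.1⟩
    · intro a ha
      have h : ¬ (br.filter (fun c => a < c)).Nonempty := by
        rintro ⟨c, hc⟩
        rw [Finset.mem_filter] at hc
        have := (hbr.rng _ hc.1).2
        omega
      dsimp only
      rw [dif_neg h]
  -- last break
  obtain ⟨A, hA1, hA2⟩ : ∃ A : ℕ → ℕ, (∀ i, 1 ≤ i → A i ∈ br ∧ A i ≤ i) ∧
      (∀ i c, c ≤ i → c ∈ br → c ≤ A i) := by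
    classical
    refine ⟨fun i => if h : (br.filter (fun c => c ≤ i)).Nonempty then (br.filter (fun c => c ≤ i)).max' h else 0,
      ?_, ?_⟩
    · intro i hi
      have hm : 1 ∈ br.filter (fun c => c ≤ i) := Finset.mem_filter.2 ⟨hbr.one, hi⟩
      have h : (br.filter (fun c => c ≤ i)).Nonempty := ⟨1, hm⟩
      dsimp only
      rw [dif_pos h]
      have := Finset.max'_mem _ h
      rw [Finset.mem_filter] at this
      exact this
    · intro i c hci hc
      have hm : c ∈ br.filter (fun c => c ≤ i) := Finset.mem_filter.2 ⟨hc, hci⟩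
      have h : (br.filter (fun c => c ≤ i)).Nonempty := ⟨c, hm⟩
      dsimp only
      rw [dif_pos h]
      exact Finset.le_max' _ _ hm
  have hAB : ∀ i, 1 ≤ i → i ≤ N → i ≤ nxt (A i) := by
    intro i hi hiN
    by_contra hlt
    push Not at hlt
    have h1 := hA1 i hi
    rcases lt_or_ge (A i) N with h2 | h2
    · have h3 := hnxt3 (A i) h2
      have h4 := hA2 i (nxt (A i)) hlt.le h3.2
      omega
    · have h3 := hnxt4 (A i) h2
      omega
  have hAB' : ∀ i, 1 ≤ i → i < N → i + 1 ≤ nxt (A i) := by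
    intro i hi hiN
    by_contra hlt
    push Not at hlt
    have h1 := hA1 i hi
    have h3 := hnxt3 (A i) (lt_of_le_of_lt h1.2 hiN)
    have h4 := hA2 i (nxt (A i)) (by omega) h3.2
    omega
  classical
  have hmaps : ∀ i ∈ Finset.Ico 1 N, (A i, A (j i)) ∈ br ×ˢ br := by
    intro i hi
    rw [Finset.mem_Ico] at hi
    have hj := hjy i hi.1 hi.2
    exact Finset.mem_product.2 ⟨(hA1 i hi.1).1, (hA1 (j i) hj.1).1⟩
  have hbig : (br ×ˢ br).card * (16 * (24 * br.card + 45)) < (Finset.Ico 1 N).card := by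
    rw [Finset.card_product, Nat.card_Ico]
    have e1 : br.card * br.card ≤ C^2 := by rw [sq]; exact Nat.mul_le_mul hcard hcard
    have e2 : 16 * (24 * br.card + 45) ≤ 16 * (24 * C + 45) := by omega
    have e3 := Nat.mul_le_mul e1 e2
    omega
  obtain ⟨⟨a, a'⟩, hmem, hcardI⟩ := Finset.exists_lt_card_fiber_of_mul_lt_card_of_maps_to hmaps hbig
  rw [Finset.mem_product] at hmem
  obtain ⟨hma, hma'⟩ := hmem
  set I := (Finset.Ico 1 N).filter (fun i => (A i, A (j i)) = (a, a')) with hI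
  have hIp : ∀ i ∈ I, a ≤ i ∧ i + 1 ≤ nxt a ∧ a' ≤ j i ∧ j i ≤ nxt a' ∧ Pierced p i (j i) (y i) ∧
      j i ≠ i ∧ j i ≠ i + 1 := by
    intro i hi
    rw [hI, Finset.mem_filter, Finset.mem_Ico, Prod.mk.injEq] at hi
    obtain ⟨⟨h1, h2⟩, h3, h4⟩ := hi
    obtain ⟨g1, g2, g3, g4, g5⟩ := hjy i h1 h2
    refine ⟨?_, ?_, ?_, ?_, g5, g3, g4⟩
    · rw [← h3]; exact (hA1 i h1).2
    · rw [← h3]; exact hAB' i h1 h2
    · rw [← h4]; exact (hA1 _ g1).2
    · rw [← h4]; exact hAB _ g1 g2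
  have hno : ∀ a, ∀ k ∈ br, ¬ (a < k ∧ k < nxt a) := by
    rintro a k hk ⟨h1, h2⟩
    have := hnxt2 a k h1 hk
    omega
  by_cases haa : a = a'
  · have hne : I.Nonempty := by
      rw [← Finset.card_pos]; exact lt_of_le_of_lt (Nat.zero_le _) hcardI
    obtain ⟨i, hi⟩ := hne
    obtain ⟨g1, g2, g3, g4, g5, g6, g7⟩ := hIp i hi
    subst haa
    exact no_self hcyc hbr hz (hbr.rng a hma).1 (hnxt1 a) (hno a) g1 g2 g3 g4 g6 g7 g5
  · have hdis : nxt a ≤ a' ∨ nxt a' ≤ a := by
      rcases lt_or_gt_of_ne haa with h | h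
      · exact Or.inl (hnxt2 a a' h hma')
      · exact Or.inr (hnxt2 a' a h hma)
    have := pierce_pair hN4 hcyc hnb hbr hz (hbr.rng a hma).1 (hnxt1 a) (hno a) (hbr.rng a' hma').1 (hnxt1 a')
      (hno a') hdis I j y (fun i hi => by
        obtain ⟨g1, g2, g3, g4, g5, g6, g7⟩ := hIp i hi
        exact ⟨g1, g2, g3, g4, g5⟩)
    omega

end SB758
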