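import Pool.Agent.Helper548.KnotD.D5

namespace SB758

open Knot548

open Set

/-- The closed polygon with vertex list `L`, as a subset of space. -/
def polygon (L : List (Fin 3 → ℝ)) : Set (Fin 3 → ℝ) := {q | ∃ e ∈ cedges L, q ∈ segment ℝ e.1 e.2}

/-- the number of local maxima of the height function `⟨v, ·⟩` on the polygon -/
noncomputable def maxima (L : List (Fin 3 → ℝ)) (v : Fin 3 → ℝ) : ℕ :=
  {x | x ∈ polygon L ∧ IsLocalMaxOn (fun y => v ⬝ᵥ y) (polygon L) x}.ncard


theorem P_mod {E : Type*} {m : ℕ} {P : ℕ → E} (hper : ∀ i, P (i + (m + 1)) = P i) (n : ℕ) :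
    P (n % (m + 1)) = P n := by
  have h : ∀ k r : ℕ, P (r + k * (m + 1)) = P r := by
    intro k
    induction k with
    | zero => intro r; simp
    | succ k ih => intro r; rw [show r + (k + 1) * (m + 1) = (r + k * (m + 1)) + (m + 1) by ring, hper, ih]
  conv_rhs => rw [← Nat.mod_add_div' n (m + 1)]
  rw [h]

theorem P_fin {E : Type*} {m : ℕ} {P : ℕ → E} (hper : ∀ i, P (i + (m + 1)) = P i) (k : Fin (m + 1)) :
    P ((k + 1 : Fin (m + 1)) : ℕ) = P (k + 1) := by
  have h : ((k + 1 : Fin (m + 1)) : ℕ) = ((k : ℕ) + 1) % (m + 1) := by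
    rw [Fin.val_add, Fin.val_one']
    simp
  rw [h, P_mod hper]

theorem left_mem {E : Type*} [AddCommGroup E] [Module ℝ E] (a b : E) : a ∈ hseg a b :=
  ⟨0, le_refl _, one_pos, by simp⟩

theorem seg_cases {E : Type*} [AddCommGroup E] [Module ℝ E] {a b x : E} (h : x ∈ segment ℝ a b) :
    x ∈ hseg a b ∨ x = b := by
  obtain ⟨u, w, hu, hw, huw, rfl⟩ := h
  rcases eq_or_lt_of_le (show w ≤ 1 by linarith) with h | h
  · right
    subst h
    have : u = 0 := by linarith
    simp [this]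
  · left
    exact ⟨w, hw, h, by rw [show 1 - w = u by linarith]⟩

theorem hseg_sub {E : Type*} [AddCommGroup E] [Module ℝ E] {a b x : E} (h : x ∈ hseg a b) :
    x ∈ segment ℝ a b := by
  obtain ⟨s, hs0, hs1, rfl⟩ := h
  exact ⟨1 - s, s, by linarith, hs0, by ring, rfl⟩

/-- a local maximum is at least as high as every point of a segment from it -/
theorem locmax_le (v x z : Fin 3 → ℝ) (S : Set (Fin 3 → ℝ)) (hS : segment ℝ x z ⊆ S)
    (h : IsLocalMaxOn (fun y => v ⬝ᵥ y) S x) : v ⬝ᵥ z ≤ v ⬝ᵥ x := by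
  have hg : Filter.Tendsto (fun t : ℝ => (1 - t) • x + t • z) (nhdsWithin 0 (Set.Ioo 0 1))
      (nhdsWithin x S) := by
    apply tendsto_nhdsWithin_iff.2
    refine ⟨?_, ?_⟩
    · have hc : Continuous (fun t : ℝ => (1 - t) • x + t • z) := by fun_prop
      have := hc.tendsto 0
      simp only [sub_zero, one_smul, zero_smul, add_zero] at this
      exact this.mono_left nhdsWithin_le_nhds
    · filter_upwards [self_mem_nhdsWithin] with t ht
      exact hS ⟨1 - t, t, by linarith [ht.2], ht.1.le, by ring, rfl⟩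
  have h1 := hg.eventually h
  have hne : (nhdsWithin (0 : ℝ) (Set.Ioo 0 1)).NeBot := by
    rw [nhdsWithin_Ioo_eq_nhdsGT one_pos]
    infer_instance
  obtain ⟨t, ht, ht'⟩ := (h1.and self_mem_nhdsWithin).exists
  simp only [dotProduct_add, dotProduct_smul, smul_eq_mul] at ht
  have h3 : t * (v ⬝ᵥ z) ≤ t * (v ⬝ᵥ x) := by linarith
  exact le_of_mul_le_mul_left h3 ht'.1

theorem seg_le (v a b x : Fin 3 → ℝ) (c : ℝ) (ha : v ⬝ᵥ a ≤ c) (hb : v ⬝ᵥ b ≤ c)
    (h : x ∈ segment ℝ a b) : v ⬝ᵥ x ≤ c := by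
  obtain ⟨u, w, hu, hw, huw, rfl⟩ := h
  simp only [dotProduct_add, dotProduct_smul, smul_eq_mul]
  calc u * (v ⬝ᵥ a) + w * (v ⬝ᵥ b) ≤ u * c + w * c := by gcongr
    _ = c := by rw [← add_mul, huw, one_mul]

theorem poly_eq {m : ℕ} {P : ℕ → Fin 3 → ℝ} (hper : ∀ i, P (i + (m + 1)) = P i) :
    polygon (List.ofFn (fun k : Fin (m + 1) => P k)) =
      {q | ∃ i : ℕ, q ∈ segment ℝ (P i) (P (i + 1))} := by
  ext q
  simp only [polygon, ofFn_cedges, Set.mem_setOf_eq]
  constructor
  · rintro ⟨e, he, hq⟩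
    rw [List.mem_ofFn] at he
    obtain ⟨k, rfl⟩ := he
    refine ⟨k, ?_⟩
    simpa only [P_fin hper k] using hq
  · rintro ⟨i, hi⟩
    refine ⟨(P (i % (m + 1)), P (i % (m + 1) + 1)), ?_, ?_⟩
    · rw [List.mem_ofFn]
      refine ⟨⟨i % (m + 1), Nat.mod_lt _ (Nat.succ_pos _)⟩, ?_⟩
      simp only [P_fin hper]
    · simp only
      rw [P_mod hper i]
      have : P (i % (m + 1) + 1) = P (i + 1) := by
        rw [← P_mod hper (i % (m + 1) + 1), Nat.mod_add_mod, P_mod hper]
      rw [this]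
      exact hi

theorem disj {m : ℕ} {P : ℕ → Fin 3 → ℝ} (hper : ∀ i, P (i + (m + 1)) = P i)
    (hs : Simple (List.ofFn (fun k : Fin (m + 1) => P k))) (i j : ℕ)
    (hij : i % (m + 1) ≠ j % (m + 1)) :
    Disjoint (hseg (P i) (P (i + 1))) (hseg (P j) (P (j + 1))) := by
  rw [simple_ofFn] at hs
  have h := hs.2 ⟨i % (m + 1), Nat.mod_lt _ (Nat.succ_pos _)⟩ ⟨j % (m + 1), Nat.mod_lt _ (Nat.succ_pos _)⟩
    (by simpa [Fin.ext_iff] using hij)
  simp only [P_fin hper] at h
  have e : ∀ n : ℕ, P (n % (m + 1) + 1) = P (n + 1) := by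
    intro n
    rw [← P_mod hper (n % (m + 1) + 1), Nat.mod_add_mod, P_mod hper]
  rw [P_mod hper i, P_mod hper j, e i, e j] at h
  exact h

theorem inj {m : ℕ} {P : ℕ → Fin 3 → ℝ} (hper : ∀ i, P (i + (m + 1)) = P i)
    (hs : Simple (List.ofFn (fun k : Fin (m + 1) => P k))) (i j : ℕ)
    (h : P i = P j) : i % (m + 1) = j % (m + 1) := by
  by_contra hij
  exact Set.disjoint_left.1 (disj hper hs i j hij) (left_mem _ _) (h ▸ left_mem _ _)

theorem locmax_iff {m : ℕ} {P : ℕ → Fin 3 → ℝ} (hper : ∀ i, P (i + (m + 1)) = P i)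
    (hs : Simple (List.ofFn (fun k : Fin (m + 1) => P k))) {v : Fin 3 → ℝ}
    (hv : ∀ i, v ⬝ᵥ P (i + 1) ≠ v ⬝ᵥ P i) (x : Fin 3 → ℝ) :
    (x ∈ polygon (List.ofFn (fun k : Fin (m + 1) => P k)) ∧
      IsLocalMaxOn (fun y => v ⬝ᵥ y) (polygon (List.ofFn (fun k : Fin (m + 1) => P k))) x) ↔
    ∃ i : ℕ, (v ⬝ᵥ P i < v ⬝ᵥ P (i + 1) ∧ v ⬝ᵥ P (i + 2) < v ⬝ᵥ P (i + 1)) ∧ P (i + 1) = x := by
  rw [poly_eq hper]
  constructor
  · rintro ⟨⟨i, hi⟩, hmax⟩
    obtain ⟨j, hj⟩ : ∃ j : ℕ, x ∈ hseg (P j) (P (j + 1)) := by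
      rcases seg_cases hi with h | h
      · exact ⟨i, h⟩
      · exact ⟨i + 1, h ▸ left_mem _ _⟩
    obtain ⟨s, hs0, hs1, hx⟩ := hj
    have hsub : ∀ z, z ∈ segment ℝ (P j) (P (j + 1)) → segment ℝ x z ⊆
        {q | ∃ i : ℕ, q ∈ segment ℝ (P i) (P (i + 1))} := by
      intro z hz q hq
      refine ⟨j, (convex_segment _ _).segment_subset ?_ hz hq⟩
      exact ⟨1 - s, s, by linarith, hs0, by ring, hx.symm⟩
    have h1 := locmax_le v x (P j) _ (hsub _ (left_mem_segment ℝ _ _)) hmax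
    have h2 := locmax_le v x (P (j + 1)) _ (hsub _ (right_mem_segment ℝ _ _)) hmax
    have hfx : v ⬝ᵥ x = (1 - s) * (v ⬝ᵥ P j) + s * (v ⬝ᵥ P (j + 1)) := by
      rw [hx]
      simp only [dotProduct_add, dotProduct_smul, smul_eq_mul]
    have hs' : s = 0 := by
      by_contra hne
      have hspos : 0 < s := lt_of_le_of_ne hs0 (Ne.symm hne)
      apply hv j
      have h3 : s * (v ⬝ᵥ P j) ≤ s * (v ⬝ᵥ P (j + 1)) := by linarith
      have h4 : (1 - s) * (v ⬝ᵥ P (j + 1)) ≤ (1 - s) * (v ⬝ᵥ P j) := by linarith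
      have h5 := le_of_mul_le_mul_left h3 hspos
      have h6 := le_of_mul_le_mul_left h4 (by linarith)
      linarith
    subst hs'
    have hx' : x = P j := by rw [hx]; simp
    subst hx'
    refine ⟨j + m, ⟨?_, ?_⟩, ?_⟩
    · rw [show j + m + 1 = j + (m + 1) by ring, hper]
      have h7 : segment ℝ (P j) (P (j + m)) ⊆ {q | ∃ i : ℕ, q ∈ segment ℝ (P i) (P (i + 1))} := by
        intro q hq
        refine ⟨j + m, ?_⟩
        rw [show j + m + 1 = j + (m + 1) by ring, hper, segment_symm]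
        exact hq
      have h8 := locmax_le v (P j) (P (j + m)) _ h7 hmax
      have h9 := hv (j + m)
      rw [show j + m + 1 = j + (m + 1) by ring, hper] at h9
      exact lt_of_le_of_ne h8 (Ne.symm h9)
    · rw [show j + m + 2 = (j + 1) + (m + 1) by ring, show j + m + 1 = j + (m + 1) by ring, hper, hper]
      exact lt_of_le_of_ne h2 (hv j)
    · rw [show j + m + 1 = j + (m + 1) by ring, hper]
  · rintro ⟨i, ⟨h1, h2⟩, rfl⟩
    refine ⟨⟨i, right_mem_segment ℝ _ _⟩, ?_⟩
    set K : Set (Fin 3 → ℝ) := ⋃ l ∈ {l : ℕ | l < m + 1 ∧ l ≠ i % (m + 1) ∧ l ≠ (i + 1) % (m + 1)},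
      segment ℝ (P l) (P (l + 1)) with hK
    have hfin : ({l : ℕ | l < m + 1 ∧ l ≠ i % (m + 1) ∧ l ≠ (i + 1) % (m + 1)} : Set ℕ).Finite :=
      (Set.finite_lt_nat (m + 1)).subset fun l hl => hl.1
    have hcl : IsClosed K := by
      refine hfin.isClosed_biUnion fun l _ => ?_
      rw [← convexHull_pair]
      exact ((Set.toFinite {P l, P (l + 1)}).isCompact_convexHull (𝕜 := ℝ)).isClosed
    have hnot : P (i + 1) ∉ K := by
      rw [hK]
      simp only [Set.mem_iUnion, not_exists]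
      intro l hl hmem
      rcases seg_cases hmem with h | h
      · have : l % (m + 1) = (i + 1) % (m + 1) := by
          by_contra hne
          exact Set.disjoint_left.1 (disj hper hs l (i + 1) hne) h (left_mem _ _)
        rw [Nat.mod_eq_of_lt hl.1] at this
        exact hl.2.2 this
      · have h5 := inj hper hs _ _ h
        have h6 : i % (m + 1) = l % (m + 1) := Nat.ModEq.add_right_cancel' 1 h5
        rw [Nat.mod_eq_of_lt hl.1] at h6
        exact hl.2.1 h6.symm
    have hev : ∀ᶠ y in nhdsWithin (P (i + 1)) {q | ∃ i : ℕ, q ∈ segment ℝ (P i) (P (i + 1))},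
        y ∉ K := nhdsWithin_le_nhds (hcl.isOpen_compl.mem_nhds hnot)
    have e : ∀ n : ℕ, P (n % (m + 1) + 1) = P (n + 1) := by
      intro n
      rw [← P_mod hper (n % (m + 1) + 1), Nat.mod_add_mod, P_mod hper]
    filter_upwards [hev, self_mem_nhdsWithin] with y hy hy2
    obtain ⟨l, hl⟩ := hy2
    by_cases c1 : l % (m + 1) = i % (m + 1)
    · have e1 : P l = P i := by rw [← P_mod hper l, c1, P_mod hper]
      have e2 : P (l + 1) = P (i + 1) := by rw [← e l, c1, e]
      rw [e1, e2] at hl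
      exact seg_le v _ _ _ _ h1.le le_rfl hl
    · by_cases c2 : l % (m + 1) = (i + 1) % (m + 1)
      · have e1 : P l = P (i + 1) := by rw [← P_mod hper l, c2, P_mod hper]
        have e2 : P (l + 1) = P (i + 1 + 1) := by rw [← e l, c2, e]
        rw [e1, e2] at hl
        exact seg_le v _ _ _ _ le_rfl h2.le hl
      · exfalso
        apply hy
        rw [hK]
        simp only [Set.mem_iUnion]
        refine ⟨l % (m + 1), ⟨Nat.mod_lt _ (Nat.succ_pos _), c1, c2⟩, ?_⟩
        rw [P_mod hper, e]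
        exact hl

open Classical in
/-- TARGET. For a direction that is not perpendicular to an edge, the local maxima of the height function on a simple closed polygon are the vertices that are
higher than both neighbours.
PROOF. Let `N = m + 1 ≥ 3` and `f y = v ⬝ᵥ y`. The set of local maxima is the image of the finite set of `k ∈ {1, ..., N}` (or `Fin N`, use periodicity) with `f (P (k-1)) < f (P k)` and `f (P (k+1)) < f (P k)` under the injective map `k ↦ P k` (the vertices are different since the half-open edges are disjoint).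
(a) A local maximum `x` lies on an edge: `x = (1-s) P k + s P (k+1)`, `0 ≤ s < 1`. If `0 < s < 1` then points of the same edge arbitrarily close to `x` have larger height (`f (P k) ≠ f (P (k+1))`). So `x = P k`; the points `(1-t) P k + t P (k+1)`, `t → 0+`, show `f (P (k+1)) < f (P k)`, similarly for the edge `P (k-1) P k`.
(b) Conversely let `x = P k` be higher than both neighbours. The union of all closed edges other than the two edges at `x` is compact and does not contain `x`: if `x` is on the closed edge from `P l` to `P (l+1)` then it is in `hseg (P l) (P (l+1))` (so `l = k`) or `x = P (l+1)`, which is in `hseg (P (l+1)) (P (l+2))`, so `l + 1 = k` mod `N`.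
So in a neighbourhood of `x` the polygon consists of the two edges at `x`, on which `f ≤ f x`. -/
theorem maxima_eq {m : ℕ} (hm : 2 ≤ m) {P : ℕ → Fin 3 → ℝ} (hper : ∀ i, P (i + (m + 1)) = P i)
    (hs : Simple (List.ofFn (fun k : Fin (m + 1) => P k))) {v : Fin 3 → ℝ} (hv : ∀ i, v ⬝ᵥ P (i + 1) ≠ v ⬝ᵥ P i) :
    maxima (List.ofFn (fun k : Fin (m + 1) => P k)) v =
      ((Finset.range (m + 1)).filter (fun i => v ⬝ᵥ P i < v ⬝ᵥ P (i + 1) ∧ v ⬝ᵥ P (i + 2) < v ⬝ᵥ P (i + 1))).card := by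
  unfold maxima
  rw [← Set.ncard_coe_finset, ]
  have hset : {x | x ∈ polygon (List.ofFn (fun k : Fin (m + 1) => P k)) ∧
      IsLocalMaxOn (fun y => v ⬝ᵥ y) (polygon (List.ofFn (fun k : Fin (m + 1) => P k))) x} =
      (fun i => P (i + 1)) '' (((Finset.range (m + 1)).filter
        (fun i => v ⬝ᵥ P i < v ⬝ᵥ P (i + 1) ∧ v ⬝ᵥ P (i + 2) < v ⬝ᵥ P (i + 1)) : Finset ℕ) : Set ℕ) := by
    ext x
    rw [Set.mem_setOf_eq, locmax_iff hper hs hv]
    simp only [Set.mem_image, Finset.mem_coe, Finset.mem_filter, Finset.mem_range]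
    have e : ∀ n : ℕ, P (n % (m + 1) + 1) = P (n + 1) := by
      intro n
      rw [← P_mod hper (n % (m + 1) + 1), Nat.mod_add_mod, P_mod hper]
    have e' : ∀ n : ℕ, P (n % (m + 1) + 2) = P (n + 2) := by
      intro n
      rw [← P_mod hper (n % (m + 1) + 2), Nat.mod_add_mod, P_mod hper]
    constructor
    · rintro ⟨i, h, hx⟩
      refine ⟨i % (m + 1), ⟨Nat.mod_lt _ (Nat.succ_pos _), ?_⟩, ?_⟩
      · rw [e, e', P_mod hper]
        exact h
      · rw [e]
        exact hx
    · rintro ⟨i, ⟨_, h⟩, hx⟩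
      exact ⟨i, h, hx⟩
  rw [hset]
  refine Set.InjOn.ncard_image ?_
  intro a ha b hb hab
  simp only [Finset.mem_coe, Finset.mem_filter, Finset.mem_range] at ha hb
  have h5 := inj hper hs _ _ hab
  have h6 : a % (m + 1) = b % (m + 1) := Nat.ModEq.add_right_cancel' 1 h5
  rwa [Nat.mod_eq_of_lt ha.1, Nat.mod_eq_of_lt hb.1] at h6

end SB758
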