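import Pool.Agent.Helper758_SB.Defs2

namespace SB758

open Finset

/-- TARGET. A planar polygon can be perturbed so that it has one maximum in the normal direction. -/
theorem planar_one_max {N : ℕ} (hN : 3 ≤ N) {P : ℕ → Fin 3 → ℝ} (hper : ∀ i, P (i + N) = P i) {n : Fin 3 → ℝ} (hn : n ≠ 0)
    (hpl : ∀ i, dot n (P (i + 1) - P i) = 0) {δ : ℝ} (hδ : 0 < δ) :
    ∃ P' : ℕ → Fin 3 → ℝ, (∀ i, P' (i + N) = P' i) ∧ (∀ i, ‖P' i - P i‖ < δ) ∧ (∀ i, dot n (P' (i + 1)) ≠ dot n (P' i)) ∧
      mx N (fun i => dot n (P' i)) = 1 := by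
  have hNpos : (0 : ℝ) < N := by exact_mod_cast (by omega : 0 < N)
  have hnn : 0 < ‖n‖ := norm_pos_iff.mpr hn
  set t : ℝ := δ / (N * ‖n‖) with ht
  have htpos : 0 < t := by positivity
  have hdn : 0 < dot n n := by
    have h1 : 0 ≤ dot n n := by
      unfold dot
      nlinarith [mul_self_nonneg (n 0), mul_self_nonneg (n 1), mul_self_nonneg (n 2)]
    rcases lt_or_eq_of_le h1 with h | h
    · exact h
    · exfalso
      apply hn
      unfold dot at h
      have h0 : n 0 = 0 := by
        have : n 0 * n 0 = 0 := by nlinarith [mul_self_nonneg (n 0), mul_self_nonneg (n 1), mul_self_nonneg (n 2)]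
        exact mul_self_eq_zero.mp this
      have h1 : n 1 = 0 := by
        have : n 1 * n 1 = 0 := by nlinarith [mul_self_nonneg (n 0), mul_self_nonneg (n 1), mul_self_nonneg (n 2)]
        exact mul_self_eq_zero.mp this
      have h2 : n 2 = 0 := by
        have : n 2 * n 2 = 0 := by nlinarith [mul_self_nonneg (n 0), mul_self_nonneg (n 1), mul_self_nonneg (n 2)]
        exact mul_self_eq_zero.mp this
      funext j
      fin_cases j
      · exact h0
      · exact h1
      · exact h2
  have hc : ∀ i, dot n (P i) = dot n (P 0) := by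
    intro i
    induction i with
    | zero => rfl
    | succ i ih =>
      have := hpl i
      unfold dot at this ih ⊢
      simp only [Pi.sub_apply] at this
      linarith
  have hh : ∀ i, dot n (P i + t • ((i % N : ℕ) : ℝ) • n) = dot n (P 0) + t * ((i % N : ℕ) : ℝ) * dot n n := by
    intro i
    rw [← hc i]
    unfold dot
    simp only [Pi.add_apply, Pi.smul_apply, smul_eq_mul]
    ring
  have hlt : ∀ a b : ℕ, (dot n (P 0) + t * (a : ℝ) * dot n n < dot n (P 0) + t * (b : ℝ) * dot n n) ↔ a < b := by
    intro a b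
    constructor
    · intro h
      by_contra hab
      push Not at hab
      have hab' : (b : ℝ) ≤ a := by exact_mod_cast hab
      have : t * (b : ℝ) * dot n n ≤ t * (a : ℝ) * dot n n := by
        apply mul_le_mul_of_nonneg_right _ hdn.le
        exact mul_le_mul_of_nonneg_left hab' htpos.le
      linarith
    · intro h
      have hab' : (a : ℝ) < b := by exact_mod_cast h
      have : t * (a : ℝ) * dot n n < t * (b : ℝ) * dot n n := by
        apply mul_lt_mul_of_pos_right _ hdn
        exact mul_lt_mul_of_pos_left hab' htpos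
      linarith
  refine ⟨fun i => P i + t • ((i % N : ℕ) : ℝ) • n, ?_, ?_, ?_, ?_⟩
  · intro i
    simp only [hper i, Nat.add_mod_right]
  · intro i
    have h1 : P i + t • ((i % N : ℕ) : ℝ) • n - P i = t • ((i % N : ℕ) : ℝ) • n := by abel
    simp only [h1]
    rw [norm_smul, norm_smul, Real.norm_of_nonneg htpos.le, Real.norm_of_nonneg (Nat.cast_nonneg _)]
    have h2 : ((i % N : ℕ) : ℝ) < N := by
      exact_mod_cast Nat.mod_lt i (by omega)
    have h3 : t * (((i % N : ℕ) : ℝ) * ‖n‖) < t * (N * ‖n‖) :=
      mul_lt_mul_of_pos_left (mul_lt_mul_of_pos_right h2 hnn) htpos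
    have h4 : t * (N * ‖n‖) = δ := by
      rw [ht]
      field_simp
    linarith
  · intro i
    simp only [hh]
    intro h
    have h1 : ¬ ((i + 1) % N < i % N) := by
      intro h'
      exact absurd ((hlt _ _).mpr h') (by linarith)
    have h2 : ¬ (i % N < (i + 1) % N) := by
      intro h'
      exact absurd ((hlt _ _).mpr h') (by linarith)
    have h3 : (i + 1) % N = i % N := by omega
    have h4 : i % N < N := Nat.mod_lt i (by omega)
    rw [Nat.add_mod] at h3
    have h5 : 1 % N = 1 := Nat.mod_eq_of_lt (by omega)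
    rw [h5] at h3
    by_cases h6 : i % N + 1 < N
    · rw [Nat.mod_eq_of_lt h6] at h3
      omega
    · have h7 : i % N + 1 = N := by omega
      rw [h7, Nat.mod_self] at h3
      omega
  · classical
    unfold mx
    simp only [hh, hlt]
    rw [Finset.card_eq_one]
    refine ⟨N - 2, ?_⟩
    ext i
    simp only [mem_filter, mem_range, mem_singleton]
    constructor
    · rintro ⟨hi, h1, h2⟩
      rw [Nat.mod_eq_of_lt hi] at h1
      by_cases h3 : i + 1 < N
      · rw [Nat.mod_eq_of_lt h3] at h1 h2
        by_cases h4 : i + 2 < N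
        · rw [Nat.mod_eq_of_lt h4] at h2
          omega
        · omega
      · have h4 : i + 1 = N := by omega
        rw [h4, Nat.mod_self] at h1
        omega
    · intro hi
      subst hi
      have h0 : N - 2 + 1 = N - 1 := by omega
      have h0' : N - 2 + 2 = N := by omega
      rw [h0, h0', Nat.mod_self, Nat.mod_eq_of_lt (by omega : N - 2 < N), Nat.mod_eq_of_lt (by omega : N - 1 < N)]
      omega

end SB758
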