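import Pool.Agent.Helper758_SB.Geo
import Pool.Agent.Helper758_SB.J24_maxima
import Pool.Agent.Helper758_SB.J25_planar

/-! Two-valued polygons with many vertices can be shortened. -/

namespace SB758

open Knot548

theorem dot_sub' (v a b : R3) : dot v (a - b) = dot v a - dot v b := slide_sc_dot_sub v a b

/-- bound on the number of maxima in all generic directions -/
def Bd (N c : ℕ) (P : ℕ → R3) : Prop :=
  ∀ v : R3, (∀ i, dot v (P (i + 1)) ≠ dot v (P i)) → mx N (fun i => dot v (P i)) ≤ c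

/-- the periodic sequence `P` of period `m + 1` is a simple polygon ambient isotopic to `K` -/
structure Conf (K : Set R3) (m : ℕ) (P : ℕ → R3) : Prop where
  per : ∀ i, P (i + (m + 1)) = P i
  simple : Simple (lst m P)
  iso : AmbIso K (polySet (lst m P))

theorem sc_mx {N : ℕ} {P : ℕ → R3} (hper : ∀ i, P (i + N) = P i) {v : R3}
    (hv : ∀ i, dot v (P (i + 1)) ≠ dot v (P i)) :
    sc N (fun i => dot v (P (i + 1) - P i)) = 2 * mx N (fun i => dot v (P i)) := by
  rw [← sc_eq_two_mx (N := N) (h := fun i => dot v (P i)) (fun i => by simp only [hper]) hv]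
  simp only [dot_sub']

theorem gen_iff {P : ℕ → R3} {v : R3} :
    (∀ i, dot v (P (i + 1)) ≠ dot v (P i)) ↔ ∀ i, dot v (P (i + 1) - P i) ≠ 0 := by
  simp only [dot_sub', sub_ne_zero]

theorem lst_ne {m : ℕ} {P : ℕ → R3} (hper : ∀ i, P (i + (m + 1)) = P i) (hs : Simple (lst m P)) (i : ℕ) :
    P (i + 1) ≠ P i := by
  have hp : Function.Periodic P (m + 1) := hper
  have h1 := ((simple_ofFn (fun k : Fin (m + 1) => P k)).1 hs).1
    ⟨i % (m + 1), Nat.mod_lt _ (Nat.succ_pos _)⟩
  intro h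
  apply h1
  simp only [Fin.val_add, hp.map_mod_nat]
  rw [← h]
  rcases Nat.eq_zero_or_pos m with hm | hm
  · subst hm
    have := hp.map_mod_nat (i + 1)
    simp at this
    rw [← this]
    simp
  · rw [Fin.val_one', Nat.mod_eq_of_lt (show 1 < m + 1 by omega)]
    rw [← hp.map_mod_nat (i % (m + 1) + 1), Nat.mod_add_mod, hp.map_mod_nat]

theorem Conf.open {K : Set R3} {m : ℕ} {P : ℕ → R3} (h : Conf K m P) :
    ∃ ε : ℝ, 0 < ε ∧ ∀ Q : ℕ → R3, (∀ i, Q (i + (m + 1)) = Q i) → (∀ i, ‖Q i - P i‖ < ε) → Conf K m Q := by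
  obtain ⟨ε, hε, h1⟩ := lst_open h.simple
  exact ⟨ε, hε, fun Q hQ hQ' => ⟨hQ, (h1 Q hQ').1, h.iso.trans (h1 Q hQ').2⟩⟩

theorem Conf.rot {K : Set R3} {m : ℕ} {P : ℕ → R3} (h : Conf K m P) (k : ℕ) :
    Conf K m (fun i => P (i + k)) := by
  refine ⟨fun i => ?_, ?_, ?_⟩
  · show P (i + (m + 1) + k) = P (i + k)
    rw [show i + (m + 1) + k = (i + k) + (m + 1) by ring]
    exact h.per _
  · rw [lst_rotate h.per]
    exact (simple_rotate _ _).2 h.simple
  · rw [polySet_lst_rotate h.per]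
    exact h.iso

theorem bd_iff {N c : ℕ} {P : ℕ → R3} (hper : ∀ i, P (i + N) = P i) :
    Bd N c P ↔ ∀ v : R3, (∀ i, dot v (P (i + 1) - P i) ≠ 0) →
      sc N (fun i => dot v (P (i + 1) - P i)) ≤ 2 * c := by
  constructor
  · intro h v hv
    have hv' := gen_iff.2 hv
    rw [sc_mx hper hv']
    have := h v hv'
    omega
  · intro h v hv
    have h1 := h v (gen_iff.1 hv)
    rw [sc_mx hper hv] at h1
    omega

theorem step (b : ℕ) (hb : 2 ≤ b) : ∃ N₀ : ℕ, ∀ (K : Set R3),
    (∀ m P, 2 ≤ m → Conf K m P → ∀ v : R3, (∀ i, dot v (P (i + 1)) ≠ dot v (P i)) →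
      b ≤ mx (m + 1) (fun i => dot v (P i))) →
    ∀ n P, N₀ ≤ n → Conf K (n + 2) P → Bd (n + 3) (b + 1) P →
      ∃ Q, Conf K (n + 1) Q ∧ Bd (n + 2) (b + 1) Q := by
  obtain ⟨N1, hN1⟩ := ct (2 * b)
  refine ⟨N1 + 5, fun K hK n P hn hP hbd => ?_⟩
  have hN : 4 ≤ n + 3 := by omega
  have hne := lst_ne hP.per hP.simple
  -- the edges span space
  have hsp : ∃ i j k, det3 (P (i + 1) - P i) (P (j + 1) - P j) (P (k + 1) - P k) ≠ 0 := by
    by_contra hcon
    push Not at hcon
    obtain ⟨ν, hν, hpl⟩ := planar (e := fun i => P (i + 1) - P i) hcon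
    obtain ⟨ε, hε, hop⟩ := hP.open
    obtain ⟨P', h1, h2, h3, h4⟩ := planar_one_max (N := n + 3) (by omega) hP.per hν hpl hε
    have := hK (n + 2) P' (by omega) (hop P' h1 h2) ν h3
    rw [show n + 2 + 1 = n + 3 by ring, h4] at this
    omega
  -- regularisation
  obtain ⟨ε, hε, hop⟩ := hP.open
  obtain ⟨P1, hper1, hd1, hgp1, hM1⟩ := regularize (N := n + 3) hN hP.per hne hsp
    ((bd_iff (N := n + 3) hP.per).1 hbd) (half_pos hε)
  obtain ⟨P2, hper2, hd2, hz2, hgp2, hM2⟩ := shear (N := n + 3) (by omega) hper1 hgp1 hM1 (half_pos hε)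
  have hP2 : Conf K (n + 2) P2 := by
    apply hop P2 hper2
    intro i
    calc ‖P2 i - P i‖ = ‖(P2 i - P1 i) + (P1 i - P i)‖ := by rw [sub_add_sub_cancel]
      _ ≤ ‖P2 i - P1 i‖ + ‖P1 i - P i‖ := norm_add_le _ _
      _ < ε / 2 + ε / 2 := add_lt_add (hd2 i) (hd1 i)
      _ = ε := by ring
  have htv : ∀ v : Fin 3 → ℝ, (∀ i, dot v (P2 (i + 1) - P2 i) ≠ 0) →
      sc (n + 3) (fun i => dot v (P2 (i + 1) - P2 i)) = 2 * b ∨
      sc (n + 3) (fun i => dot v (P2 (i + 1) - P2 i)) = 2 * b + 2 := by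
    intro v hv
    have h1 := hM2 v hv
    have h2 := hK (n + 2) P2 (by omega) hP2 v (gen_iff.2 hv)
    rw [sc_mx hper2 (gen_iff.2 hv)] at h1 ⊢
    rw [show n + 2 + 1 = n + 3 by ring] at h2
    omega
  have hcyc := transfer hper2 hz2 hgp2 htv
  obtain ⟨i, hi1, hi2, hun⟩ := hN1 (n + 3) (fun i => cv (P2 i)) (by omega) hcyc (fun i => hz2 i)
  -- shift
  let P3 : ℕ → R3 := fun k => P2 (k + i)
  have hP3 : Conf K (n + 2) P3 := hP2.rot i
  have hper3 : ∀ k, P3 (k + (n + 3)) = P3 k := hP3.per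
  have hai : AffineIndependent ℝ ![P3 0, P3 1, P3 2] := by
    apply affineIndependent_of_det (d := P2 (i + 2 + 1) - P2 (i + 2))
    show det3 (P2 (1 + i) - P2 (0 + i)) (P2 (2 + i) - P2 (1 + i)) _ ≠ 0
    rw [show 1 + i = i + 1 by ring, show 0 + i = i by ring, show 2 + i = (i + 1) + 1 by ring]
    apply hgp2
    · intro h
      have := (Nat.modEq_iff_dvd' (by omega)).1 h
      have := Nat.le_of_dvd (by omega) this
      omega
    · intro h
      have := (Nat.modEq_iff_dvd' (by omega)).1 h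
      have := Nat.le_of_dvd (by omega) this
      omega
    · intro h
      have := (Nat.modEq_iff_dvd' (by omega)).1 h
      have := Nat.le_of_dvd (by omega) this
      omega
  have hT : ∀ j, 2 ≤ j → j ≤ n + 2 → ∀ x ∈ segment ℝ (P3 j) (P3 (j + 1)),
      x ∈ convexHull ℝ {P3 0, P3 1, P3 2} → x = P3 0 ∨ x = P3 2 := by
    intro j hj1 hj2 x hx hx'
    by_contra hcon
    push Not at hcon
    have hx2 : cv x ∈ convexHull ℝ {cv (P2 i), cv (P2 (i + 1)), cv (P2 (i + 2))} := by
      have := cv_hull hx'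
      simp only [P3] at this
      rwa [show 0 + i = i by ring, show 1 + i = i + 1 by ring, show 2 + i = i + 2 by ring] at this
    have hx0 : cv x ≠ cv (P2 i) := fun h => hcon.1 (by
      have := cv_inj h
      simp only [P3, zero_add]
      exact this)
    have hx3 : cv x ≠ cv (P2 (i + 2)) := fun h => hcon.2 (by
      have := cv_inj h
      simp only [P3]
      rw [show 2 + i = i + 2 by ring]
      exact this)
    have hx1 : cv x ∈ segment ℝ (cv (P3 j)) (cv (P3 (j + 1))) := cv_segment hx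
    rcases le_or_gt (j + i) (n + 3) with hle | hgt
    · refine hun (j + i) (cv x) (by omega) hle (by omega) (by omega) ⟨?_, hx2, hx0, hx3⟩
      simp only [P3] at hx1
      rwa [show j + 1 + i = j + i + 1 by ring] at hx1
    · obtain ⟨l, hl⟩ := Nat.exists_eq_add_of_le hgt.le
      refine hun l (cv x) (by omega) (by omega) (by omega) (by omega) ⟨?_, hx2, hx0, hx3⟩
      simp only [P3] at hx1
      have e1 : P2 (j + i) = P2 l := by
        rw [hl, add_comm, hper2]
      have e2 : P2 (j + 1 + i) = P2 (l + 1) := by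
        rw [show j + 1 + i = (l + 1) + (n + 3) by omega, hper2]
      rw [e1, e2] at hx1
      exact hx1
  obtain ⟨Q, hperQ, hQ0, hQk, hsQ, hisoQ⟩ := remove hper3 hP3.simple hai hT
  refine ⟨Q, ⟨hperQ, hsQ, hP3.iso.trans hisoQ⟩, ?_⟩
  have hbd3 : Bd (n + 3) (b + 1) P3 := by
    rw [bd_iff hper3]
    intro v hv
    have hv2 : ∀ k, dot v (P2 (k + 1) - P2 k) ≠ 0 := by
      intro k
      have h5 : ∃ t, t + i = k + (n + 3) := ⟨k + (n + 3) - i, by omega⟩
      obtain ⟨t, ht⟩ := h5
      have h6 := hv t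
      simp only [P3] at h6
      rw [show t + 1 + i = (k + 1) + (n + 3) by omega, ht, hper2, hper2] at h6
      exact h6
    have hv2' := gen_iff.2 hv2
    have h7 := hM2 v hv2
    rw [sc_mx hper2 hv2'] at h7
    rw [sc_mx hper3 (gen_iff.2 hv)]
    have h8 : mx (n + 3) (fun k => dot v (P3 k)) ≤ mx (n + 3) (fun k => dot v (P2 k)) := by
      unfold mx
      apply Finset.card_le_card_of_injOn (fun k => (k + i) % (n + 3))
      · intro k hk
        simp only [Finset.coe_filter, Finset.mem_range, Set.mem_ofPred_eq] at hk ⊢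
        have hp : Function.Periodic P2 (n + 3) := hper2
        have e : ∀ j k : ℕ, P2 (k % (n + 3) + j) = P2 (k + j) := by
          intro j k
          rw [← hp.map_mod_nat (k % (n + 3) + j), Nat.mod_add_mod, hp.map_mod_nat]
        refine ⟨Nat.mod_lt _ (by omega), ?_⟩
        rw [e, e, hp.map_mod_nat]
        simp only [P3] at hk
        rw [show k + 1 + i = k + i + 1 by ring, show k + 2 + i = k + i + 2 by ring] at hk
        exact hk.2
      · intro k hk l hl hkl
        simp only [Finset.coe_filter, Finset.mem_range, Set.mem_ofPred_eq] at hk hl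
        have : k % (n + 3) = l % (n + 3) := Nat.ModEq.add_right_cancel' i hkl
        rwa [Nat.mod_eq_of_lt hk.1, Nat.mod_eq_of_lt hl.1] at this
    omega
  rw [bd_iff hperQ]
  intro v hv
  have hsc3 := (bd_iff hper3).1 hbd3
  obtain ⟨δ, hδ, hnear⟩ := sc_near (N := n + 2) (by omega) (e := fun i => Q (i + 1) - Q i)
    (fun i => by
      show Q (i + (n + 2) + 1) - Q (i + (n + 2)) = Q (i + 1) - Q i
      rw [show i + (n + 2) + 1 = (i + 1) + (n + 2) by ring, hperQ, hperQ]) v hv
  obtain ⟨v', hv', hgen⟩ := generic_near (N := n + 3) (by omega) (e := fun i => P3 (i + 1) - P3 i)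
    (fun i => by
      show P3 (i + (n + 3) + 1) - P3 (i + (n + 3)) = P3 (i + 1) - P3 i
      rw [show i + (n + 3) + 1 = (i + 1) + (n + 3) by ring, hper3, hper3])
    (fun i => sub_ne_zero.2 (lst_ne hP3.per hP3.simple i)) v hδ
  obtain ⟨hg1, hg2⟩ := hnear v' hv'
  rw [← hg2]
  refine le_trans ?_ (hsc3 v' hgen)
  refine sc_merge (N := n + 3) (by omega) (f := fun i => dot v' (P3 (i + 1) - P3 i))
    (g := fun i => dot v' (Q (i + 1) - Q i)) ?_ ?_ hgen hg1 ?_ ?_
  · intro i
    show dot v' (P3 (i + (n + 3) + 1) - P3 (i + (n + 3))) = _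
    rw [show i + (n + 3) + 1 = (i + 1) + (n + 3) by ring, hper3, hper3]
  · intro i
    show dot v' (Q (i + (n + 3 - 1) + 1) - Q (i + (n + 3 - 1))) = _
    rw [show i + (n + 3 - 1) + 1 = (i + 1) + (n + 2) by omega, show i + (n + 3 - 1) = i + (n + 2) by omega,
      hperQ, hperQ]
  · show dot v' (Q (0 + 1) - Q 0) = dot v' (P3 (0 + 1) - P3 0) + dot v' (P3 (1 + 1) - P3 1)
    rw [hQ0, hQk (0 + 1) (by omega) (by omega)]
    simp only [dot_sub']
    ring
  · intro k hk1 hk2
    show dot v' (Q (k + 1) - Q k) = dot v' (P3 (k + 1 + 1) - P3 (k + 1))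
    rw [hQk k hk1 (by omega)]
    rcases Nat.lt_or_ge k (n + 1) with h | h
    · rw [hQk (k + 1) (by omega) (by omega)]
    · have hk : k = n + 1 := by omega
      subst hk
      have e1 : Q (n + 1 + 1) = P3 0 := by
        have := hperQ 0
        rw [zero_add] at this
        rw [this, hQ0]
      have e2 : P3 (n + 1 + 1 + 1) = P3 0 := by
        have := hper3 0
        rw [zero_add] at this
        exact this
      rw [e1, e2]

end SB758
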